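import Pool.Agent.Lib.H59T.UV
import Pool.Agent.Lib.H59P.C3
import Pool.Agent.Lib.H9S.O3

/-!
# Project H9U: power saving for the `U³` norm of the primes, and linear families of half dimension (definitions)

`φ_i(n, t) = a_i n + ∑_j c_ij t_j + b_i`. See `PROOF.md`.
-/

open Finset

namespace Pool.Agent.H9U

open Pool.Agent.H44W (ee)
open Pool.Agent.H9S (Bd lc Lc BF Sx Sy)
open Pool.Agent.Lib.H68T (lp Lk PC p0 tent dQ)
open Pool.Agent.Lib.H18Q (gk KS Bc RegP)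
open Pool.Agent.Lib.H59P (Ch cj uu gl pr SF MX bx TS Rp)
open Pool.Agent.Lib.H59T (UU Rm Pm Kp dof tau)

noncomputable section

/-! ## Systems of forms -/

/-- A system of `k` integral linear forms in `n` and `t_1, …, t_d`. -/
structure Sys (k d : ℕ) where
  a : Fin k → ℤ
  c : Fin k → Fin d → ℤ

/-- The `i`-th linear form at `(s, u)`. -/
def Sys.lin {k d : ℕ} (S : Sys k d) (i : Fin k) (s : ℤ) (u : Fin d → ℤ) : ℤ :=
  S.a i * s + ∑ j, S.c i j * u j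

/-- The `i`-th affine form at `(n, t)`. -/
def Sys.val {k d : ℕ} (S : Sys k d) (b : Fin k → ℤ) (n : ℤ) (t : Fin d → ℤ) (i : Fin k) : ℤ :=
  S.lin i n t + b i

/-- Every form depends on `n`, and for each form `i` there are two vectors `(s, u)`, `(s', u')` on which it does not
vanish, while every other form vanishes on one of them (Cauchy-Schwarz complexity two, with arbitrary weights in `t`). -/
def Sys.Half {k d : ℕ} (S : Sys k d) : Prop :=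
  (∀ i, S.a i ≠ 0) ∧ ∀ i, ∃ (s s' : ℤ) (u u' : Fin d → ℤ), S.lin i s u ≠ 0 ∧ S.lin i s' u' ≠ 0 ∧
    ∀ j, j ≠ i → S.lin j s u = 0 ∨ S.lin j s' u' = 0

/-- A vector of natural numbers as a vector of integers. -/
def iv {d : ℕ} (t : Fin d → ℕ) : Fin d → ℤ := fun j => (t j : ℤ)

/-- `t` is admissible: for every prime `l` some `n` makes all values prime to `l`. -/
def Sys.Adm {k d : ℕ} (S : Sys k d) (b : Fin k → ℤ) (t : Fin d → ℤ) : Prop :=
  ∀ l : ℕ, l.Prime → ∃ n : ℤ, ∀ i, ¬ (l : ℤ) ∣ S.val b n t i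

/-! ## Module U: functions with small `U³` norm at scale `X` -/

/-- The interval `[2X, 9X/4)`. -/
def JJ (X : ℕ) : Finset ℤ := Ico (2 * (X : ℤ)) (2 * X + X / 4)

/-- The function cut off to the interval `JJ X`. -/
def cutJ (X : ℕ) (F : ℤ → ℂ) (m : ℤ) : ℂ := if m ∈ JJ X then F m else 0

/-- `F` is uniform at scale `X` with exponent `κ`: the bilinear forms are at most `X^(2-κ)`, and the values on
`[X, 4X]` at most `X^(κ/100)`. -/
structure Unif (X : ℕ) (κ : ℝ) (F : ℤ → ℂ) : Prop where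
  bf : ∀ W f g : ℤ → ℂ, Bd W → Bd f → Bd g → ‖BF (Sx X) (Sy X) F W f g‖ ≤ (X : ℝ) ^ (2 - κ)
  bd : ∀ m : ℤ, (X : ℤ) ≤ m → m ≤ 4 * X → ‖F m‖ ≤ (X : ℝ) ^ (κ / 100)

/-- The regime: level `Q = X^(1/Cr)` or larger, small level `Q'` between `X^θ` and `Q`. -/
structure Rgm (K Cr θ : ℝ) (Q Q' X : ℕ) : Prop where
  reg : RegP K Q X
  log : Real.log X ≤ Cr * Real.log Q
  low : (X : ℝ) ^ θ ≤ Q'
  le : Q' ≤ Q

/-- The error of the projection of small level `Q'` (with the window of the level `Q`). -/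
def Er (Q Q' X : ℕ) (m : ℤ) : ℂ := lc m - Lc Q' (X / Q ^ 2) m

/-! ## Main terms -/

/-- The periodic function: `∏_i conj χ_i(m_i) ∏_{l ∈ P} (1 + gl l (m_i))`. -/
def PhV {k : ℕ} (p : Fin k → Ch) (P : Finset ℕ) (m : Fin k → ℤ) : ℂ :=
  ∏ i, (cj (p i) (m i) * ((uu P (m i) : ℝ) : ℂ))

/-- `∏_i (1 + gl l (m_i)) - 1` -/
def WlV {k : ℕ} (l : ℕ) (m : Fin k → ℤ) : ℝ := ∏ i, (1 + gl l (m i)) - 1

/-- `∏_{l ∣ d} WlV l m` -/
def WdV {k : ℕ} (d : ℕ) (m : Fin k → ℤ) : ℝ := ∏ l ∈ d.primeFactors, WlV l m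

/-- The mean of a function of the values over `n < N`. -/
def mn {k d : ℕ} (S : Sys k d) (b : Fin k → ℤ) (t : Fin d → ℤ) (N : ℕ) (G : (Fin k → ℤ) → ℂ) : ℂ :=
  (∑ n ∈ range N, G (fun i => S.val b n t i)) / N

/-- The local factor of the singular series at `l`, minus `1`. -/
def tpS {k d : ℕ} (S : Sys k d) (b : Fin k → ℤ) (t : Fin d → ℤ) (l : ℕ) : ℝ :=
  (∑ n ∈ range l, ∏ i, (1 + gl l (S.val b n t i))) / l - 1

/-- `∏_{l ∣ d} tpS l` -/
def tdS {k d : ℕ} (S : Sys k d) (b : Fin k → ℤ) (t : Fin d → ℤ) (q : ℕ) : ℝ := ∏ l ∈ q.primeFactors, tpS S b t l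

/-- The product of the local factors over the primes in `P`. -/
def SSS {k d : ℕ} (S : Sys k d) (b : Fin k → ℤ) (t : Fin d → ℤ) (P : Finset ℕ) : ℝ := ∏ l ∈ P, (1 + tpS S b t l)

/-- The mean modulo `R` for the primes dividing `R`. -/
def MRS {k d : ℕ} (S : Sys k d) (b : Fin k → ℤ) (t : Fin d → ℤ) (p : Fin k → Ch) (R : ℕ) : ℂ :=
  mn S b t R (PhV p R.primeFactors)

/-- The mean over a complete period `Q!` for all primes up to `Q`. -/
def MQS {k d : ℕ} (S : Sys k d) (b : Fin k → ℤ) (t : Fin d → ℤ) (Q : ℕ) (p : Fin k → Ch) : ℂ :=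
  mn S b t Q.factorial (PhV p (pr Q))

/-- The mean over `Q!` of `∏_i uu(m_i) (1 - th_i ψ(m_i))`, `ψ` the real character of `px`. -/
def PMS {k d : ℕ} (S : Sys k d) (b : Fin k → ℤ) (t : Fin d → ℤ) (Q : ℕ) (px : Ch) (th : Fin k → ℝ) : ℝ :=
  (∑ n ∈ range Q.factorial, ∏ i, (uu (pr Q) (S.val b n t i) * (1 - th i * (cj px (S.val b n t i)).re))) /
    (Q.factorial : ℝ)

/-- The model with the explicit coefficients `Bc`, at the common level `Q`, for the length `X`: as `Mdl` in `H59P/Defs`. -/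
structure MdB (Q X : ℕ) (η E0 : ℝ) (px : Ch) (th : ℤ → ℝ) : Prop where
  eta_pos : 0 < η
  eta_le : η ≤ 1
  mem : px ∈ PC Q
  real : px.2 ^ 2 = 1
  triv : px = p0 → ∀ m, th m = 0
  nonneg : ∀ m, (X : ℤ) ≤ m → m ≤ 4 * X → 0 ≤ th m
  le : ∀ m, (X : ℤ) ≤ m → m ≤ 4 * X → th m ≤ 1 - η
  cf : ∃ eb : Ch → ℝ, (∀ p ∈ PC Q, 0 ≤ eb p) ∧ ∑ p ∈ PC Q, eb p ≤ η * E0 ∧
    ∀ m : ℤ, (X : ℤ) ≤ m → m ≤ 4 * X → ∀ p ∈ PC Q, ‖Bc Q X p m - MX px th m p‖ ≤ eb p

end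

end Pool.Agent.H9U
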