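import Pool.Agent.Lib.H44W.E1

/-!
# H9U, chunk U1A (M): Fourier expansion of the indicator function of an interval
-/

open Finset

namespace Pool.Agent.H9U

open Pool.Agent.H44W (ee)

theorem u1a_tel (θ : ℝ) (a : ℤ) (n : ℕ) :
    (1 - ee θ) * ∑ s ∈ Ico a (a + n), ee (θ * s) = ee (θ * a) - ee (θ * (a + n)) := by
  induction n with
  | zero => simp
  | succ n ih =>
    have h1 : Ico a (a + ((n + 1 : ℕ) : ℤ)) = insert (a + n) (Ico a (a + n)) := by
      ext x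
      simp only [mem_insert, mem_Ico]
      push_cast
      omega
    rw [h1, sum_insert (by simp), mul_add, ih]
    have h2 : ee (θ * (a + ((n + 1 : ℕ) : ℝ))) = ee θ * ee (θ * ((a + n : ℤ) : ℝ)) := by
      rw [← Pool.Agent.H44W.ee_add]
      congr 1
      push_cast
      ring
    rw [h2]
    push_cast
    ring

theorem u1a_norm (θ : ℝ) : ‖1 - ee θ‖ = 2 * |Real.sin (Real.pi * θ)| := by
  have h := Complex.norm_exp_I_mul_ofReal_sub_one (2 * Real.pi * θ)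
  have h1 : Complex.I * ((2 * Real.pi * θ : ℝ) : ℂ) = 2 * Real.pi * θ * Complex.I := by
    push_cast; ring
  rw [h1] at h
  rw [norm_sub_rev, ee, h]
  have h2 : 2 * Real.pi * θ / 2 = Real.pi * θ := by ring
  rw [h2, norm_mul, Real.norm_eq_abs, Real.norm_eq_abs, abs_of_pos (by norm_num : (0:ℝ) < 2)]

theorem u1a_sin {x : ℝ} (h0 : 0 ≤ x) (h1 : x ≤ 1) :
    1 ≤ |Real.sin (Real.pi * x)| * (1 / (2 * x) + 1 / (2 * (1 - x))) ∨ x = 0 ∨ x = 1 := by
  by_cases hx0 : x = 0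
  · exact Or.inr (Or.inl hx0)
  by_cases hx1 : x = 1
  · exact Or.inr (Or.inr hx1)
  left
  have hp0 : 0 < x := lt_of_le_of_ne h0 (Ne.symm hx0)
  have hp1 : 0 < 1 - x := by
    have := lt_of_le_of_ne h1 hx1
    linarith
  have hpi := Real.pi_pos
  rcases le_total x (1 / 2) with h | h
  · have h2 : 2 / Real.pi * (Real.pi * x) ≤ Real.sin (Real.pi * x) :=
      Real.mul_le_sin (by positivity) (by nlinarith)
    have h3 : 2 / Real.pi * (Real.pi * x) = 2 * x := by field_simp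
    rw [h3] at h2
    have h4 : 2 * x ≤ |Real.sin (Real.pi * x)| := le_trans h2 (le_abs_self _)
    have h5 : 1 = 2 * x * (1 / (2 * x)) := by field_simp
    have h6 : 0 ≤ 1 / (2 * (1 - x)) := by positivity
    have h7 : 0 ≤ 1 / (2 * x) := by positivity
    calc (1:ℝ) = 2 * x * (1 / (2 * x)) := h5
      _ ≤ |Real.sin (Real.pi * x)| * (1 / (2 * x)) := mul_le_mul_of_nonneg_right h4 h7
      _ ≤ _ := mul_le_mul_of_nonneg_left (by linarith) (abs_nonneg _)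
  · have h2 : 2 / Real.pi * (Real.pi * (1 - x)) ≤ Real.sin (Real.pi * (1 - x)) :=
      Real.mul_le_sin (by positivity) (by nlinarith)
    have h3 : 2 / Real.pi * (Real.pi * (1 - x)) = 2 * (1 - x) := by field_simp
    have h3' : Real.sin (Real.pi * (1 - x)) = Real.sin (Real.pi * x) := by
      rw [← Real.sin_pi_sub]; congr 1; ring
    rw [h3, h3'] at h2
    have h4 : 2 * (1 - x) ≤ |Real.sin (Real.pi * x)| := le_trans h2 (le_abs_self _)
    have h5 : 1 = 2 * (1 - x) * (1 / (2 * (1 - x))) := by field_simp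
    have h6 : 0 ≤ 1 / (2 * (1 - x)) := by positivity
    have h7 : 0 ≤ 1 / (2 * x) := by positivity
    calc (1:ℝ) = 2 * (1 - x) * (1 / (2 * (1 - x))) := h5
      _ ≤ |Real.sin (Real.pi * x)| * (1 / (2 * (1 - x))) := mul_le_mul_of_nonneg_right h4 h6
      _ ≤ _ := mul_le_mul_of_nonneg_left (by linarith) (abs_nonneg _)

theorem u1a_geo (M j : ℕ) (hj : 0 < j) (hjM : j < M) (a b : ℤ) :
    ‖∑ s ∈ Ico a b, ee (-((j : ℝ) * s / M))‖ ≤ M * (1 / (2 * (j : ℝ)) + 1 / (2 * ((M : ℝ) - j))) := by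
  have hM0 : (0:ℝ) < M := by exact_mod_cast lt_trans hj hjM
  have hj0 : (0:ℝ) < j := by exact_mod_cast hj
  have hjM' : (0:ℝ) < (M:ℝ) - j := by
    have : (j:ℝ) < M := by exact_mod_cast hjM
    linarith
  rcases le_total b a with hab | hab
  · rw [Ico_eq_empty (by omega), sum_empty, norm_zero]
    positivity
  obtain ⟨n, hn⟩ := Int.le.dest hab
  have hθ : ∀ s : ℤ, ee (-((j : ℝ) * s / M)) = ee (-((j:ℝ) / M) * s) := by
    intro s; congr 1; ring
  rw [sum_congr rfl fun s _ => hθ s, ← hn]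
  have h1 := congrArg norm (u1a_tel (-((j:ℝ) / M)) a n)
  rw [norm_mul, u1a_norm] at h1
  have h2 : ‖ee (-((j:ℝ) / M) * a) - ee (-((j:ℝ) / M) * (a + n))‖ ≤ 2 := by
    refine le_trans (norm_sub_le _ _) ?_
    rw [Pool.Agent.H44W.norm_ee, Pool.Agent.H44W.norm_ee]; norm_num
  have h3 : |Real.sin (Real.pi * -((j:ℝ) / M))| = |Real.sin (Real.pi * ((j:ℝ) / M))| := by
    rw [mul_neg, Real.sin_neg, abs_neg]
  rw [h3] at h1
  set S := ‖∑ s ∈ Ico a (a + n), ee (-((j:ℝ) / M) * s)‖ with hS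
  have hx1 : (j:ℝ) / M < 1 := by rw [div_lt_one hM0]; linarith
  rcases u1a_sin (x := (j:ℝ) / M) (by positivity) hx1.le with h4 | h4 | h4
  · have h5 : (1 / (2 * ((j:ℝ) / M)) + 1 / (2 * (1 - (j:ℝ) / M))) = M * (1 / (2 * (j : ℝ)) + 1 / (2 * ((M : ℝ) - j))) := by
      have : 1 - (j:ℝ) / M = ((M:ℝ) - j) / M := by field_simp
      rw [this]
      field_simp
    rw [h5] at h4
    set R := M * (1 / (2 * (j : ℝ)) + 1 / (2 * ((M : ℝ) - j))) with hR
    have hR0 : 0 ≤ R := by positivity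
    have hS0 : 0 ≤ S := norm_nonneg _
    have h6 : |Real.sin (Real.pi * ((j:ℝ) / M))| * S ≤ 1 := by linarith
    calc S = 1 * S := (one_mul _).symm
      _ ≤ |Real.sin (Real.pi * ((j:ℝ) / M))| * R * S := mul_le_mul_of_nonneg_right h4 hS0
      _ = |Real.sin (Real.pi * ((j:ℝ) / M))| * S * R := by ring
      _ ≤ 1 * R := mul_le_mul_of_nonneg_right h6 hR0
      _ = R := one_mul _
  · exfalso
    have : 0 < (j:ℝ) / M := by positivity
    linarith
  · exfalso; linarith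

/-- Proof. `c_j = (1/M) ∑_{s ∈ A} ee(-j s/M)`, `A = {0 ≤ s < M, u ≤ s < v}` (an interval `Ico u' v'`). Orthogonality (`ee_orth`): the sum over `j`
is `∑_{s ∈ A} [M ∣ m - s]`, i.e. the indicator of `A` at `m` for `0 ≤ m < M`. Size: `|c_0| ≤ 1`; for `0 < j < M` the geometric sum is at
most `2/|1 - ee(-j/M)|` and `|1 - ee(x)| = 2 |sin (π x)| ≥ 4 min(j, M-j)/M` (Jordan), so `‖c_j‖ ≤ 1/(2 min(j, M - j))
≤ 1/(2j) + 1/(2(M-j))`; the sum over `0 < j < M` is at most `∑_{0<j<M} 1/j ≤ 1 + log M` (`harmonic_le_one_add_log`). -/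
theorem U1A_ind (M : ℕ) (hM : 1 ≤ M) (u v : ℤ) : ∃ c : ℕ → ℂ,
    (∀ m : ℤ, 0 ≤ m → m < M → (if u ≤ m ∧ m < v then (1 : ℂ) else 0) = ∑ j ∈ range M, c j * ee ((j : ℝ) * m / M)) ∧
    ∑ j ∈ range M, ‖c j‖ ≤ 4 * (1 + Real.log M) := by
  have hM0 : (0:ℝ) < M := by exact_mod_cast hM
  have hMc : (M:ℂ) ≠ 0 := by
    have : (M:ℝ) ≠ 0 := hM0.ne'
    exact_mod_cast this
  set A : Finset ℤ := Ico (max u 0) (min v M) with hA
  refine ⟨fun j => (1 / (M:ℂ)) * ∑ s ∈ A, ee (-((j : ℝ) * s / M)), ?_, ?_⟩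
  · intro m hm0 hmM
    have h1 : ∀ j ∈ range M, (1 / (M:ℂ)) * (∑ s ∈ A, ee (-((j : ℝ) * s / M))) * ee ((j : ℝ) * m / M) =
        ∑ s ∈ A, (1 / (M:ℂ)) * ee ((j:ℝ) * ((m - s : ℤ) : ℝ) / M) := by
      intro j _
      rw [mul_assoc, sum_mul, mul_sum]
      refine sum_congr rfl fun s _ => ?_
      rw [← Pool.Agent.H44W.ee_add]
      congr 2
      push_cast
      ring
    rw [sum_congr rfl h1, sum_comm]
    have h2 : ∀ s ∈ A, ∑ j ∈ range M, (1 / (M:ℂ)) * ee ((j:ℝ) * ((m - s : ℤ) : ℝ) / M) = if s = m then 1 else 0 := by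
      intro s hs
      rw [← mul_sum, Pool.Agent.H44W.ee_orth M hM]
      rw [hA, mem_Ico] at hs
      have hs0 : 0 ≤ s := le_trans (le_max_right _ _) hs.1
      have hs1 : s < M := lt_of_lt_of_le hs.2 (min_le_right _ _)
      by_cases h : s = m
      · rw [if_pos h, if_pos (by rw [h, sub_self]; exact dvd_zero _), one_div, inv_mul_cancel₀ hMc]
      · rw [if_neg h, if_neg, mul_zero]
        intro hd
        apply h
        have h3 : m - s = 0 := Int.eq_zero_of_abs_lt_dvd hd (by rw [abs_lt]; constructor <;> omega)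
        omega
    rw [sum_congr rfl h2, sum_ite_eq' A m (fun _ => (1:ℂ))]
    by_cases h : u ≤ m ∧ m < v
    · rw [if_pos h, if_pos]
      rw [hA, mem_Ico]
      exact ⟨max_le h.1 hm0, lt_min h.2 hmM⟩
    · rw [if_neg h, if_neg]
      rw [hA, mem_Ico]
      intro h3
      exact h ⟨le_trans (le_max_left _ _) h3.1, lt_of_lt_of_le h3.2 (min_le_left _ _)⟩
  · obtain ⟨K, rfl⟩ : ∃ K, M = K + 1 := ⟨M - 1, by omega⟩
    have hlog : 0 ≤ Real.log ((K + 1 : ℕ) : ℝ) := Real.log_nonneg (by exact_mod_cast hM)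
    have hnorm : ∀ j : ℕ, ‖(1 / ((K + 1 : ℕ):ℂ)) * ∑ s ∈ A, ee (-((j : ℝ) * s / ((K + 1 : ℕ) : ℝ)))‖ =
        (1 / ((K + 1 : ℕ) : ℝ)) * ‖∑ s ∈ A, ee (-((j : ℝ) * s / ((K + 1 : ℕ) : ℝ)))‖ := by
      intro j
      rw [norm_mul, norm_div, norm_one, Complex.norm_natCast]
    rw [sum_range_succ']
    have h0 : ‖(1 / ((K + 1 : ℕ):ℂ)) * ∑ s ∈ A, ee (-(((0 : ℕ) : ℝ) * s / ((K + 1 : ℕ) : ℝ)))‖ ≤ 1 := by
      rw [hnorm]
      have h1 : ‖∑ s ∈ A, ee (-(((0 : ℕ) : ℝ) * s / ((K + 1 : ℕ) : ℝ)))‖ ≤ ((K + 1 : ℕ) : ℝ) := by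
        refine le_trans (norm_sum_le _ _) ?_
        rw [sum_congr rfl fun s _ => Pool.Agent.H44W.norm_ee _, sum_const, nsmul_eq_mul, mul_one]
        have h2 : A.card ≤ K + 1 := by
          rw [hA, Int.card_Ico]
          have e1 : (0:ℤ) ≤ max u 0 := le_max_right _ _
          have e2 : min v ((K + 1 : ℕ) : ℤ) ≤ ((K + 1 : ℕ) : ℤ) := min_le_right _ _
          omega
        exact_mod_cast h2
      calc (1 / ((K + 1 : ℕ) : ℝ)) * ‖∑ s ∈ A, ee (-(((0 : ℕ) : ℝ) * s / ((K + 1 : ℕ) : ℝ)))‖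
          ≤ (1 / ((K + 1 : ℕ) : ℝ)) * ((K + 1 : ℕ) : ℝ) := mul_le_mul_of_nonneg_left h1 (by positivity)
        _ = 1 := by rw [one_div, inv_mul_cancel₀ hM0.ne']
    have h1 : ∀ j ∈ range K, ‖(1 / ((K + 1 : ℕ):ℂ)) * ∑ s ∈ A, ee (-(((j + 1 : ℕ) : ℝ) * s / ((K + 1 : ℕ) : ℝ)))‖ ≤
        1 / 2 * (1 / ((j:ℝ) + 1)) + 1 / 2 * (1 / (((K - 1 - j : ℕ) : ℝ) + 1)) := by
      intro j hj
      rw [mem_range] at hj
      rw [hnorm]
      have h2 := u1a_geo (K + 1) (j + 1) (by omega) (by omega) (max u 0) (min v ((K + 1 : ℕ) : ℤ))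
      rw [← hA] at h2
      calc (1 / ((K + 1 : ℕ) : ℝ)) * ‖∑ s ∈ A, ee (-(((j + 1 : ℕ) : ℝ) * s / ((K + 1 : ℕ) : ℝ)))‖
          ≤ (1 / ((K + 1 : ℕ) : ℝ)) * (((K + 1 : ℕ) : ℝ) * (1 / (2 * ((j + 1 : ℕ) : ℝ)) + 1 / (2 * (((K + 1 : ℕ) : ℝ) - ((j + 1 : ℕ) : ℝ))))) :=
            mul_le_mul_of_nonneg_left h2 (by positivity)
        _ = 1 / (2 * ((j + 1 : ℕ) : ℝ)) + 1 / (2 * (((K + 1 : ℕ) : ℝ) - ((j + 1 : ℕ) : ℝ))) := by
            rw [← mul_assoc, one_div, inv_mul_cancel₀ hM0.ne', one_mul]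
        _ = _ := by
            have e1 : ((K - 1 - j : ℕ) : ℝ) + 1 = (K:ℝ) - j := by
              rw [Nat.cast_sub (by omega), Nat.cast_sub (by omega)]
              push_cast; ring
            rw [e1]
            push_cast
            rw [show (K:ℝ) + 1 - ((j:ℝ) + 1) = (K:ℝ) - j by ring, one_div_mul_one_div, one_div_mul_one_div]
    have hharm : ∑ j ∈ range K, 1 / ((j:ℝ) + 1) ≤ 1 + Real.log ((K + 1 : ℕ) : ℝ) := by
      have e1 := harmonic_le_one_add_log K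
      have e2 : ((harmonic K : ℚ) : ℝ) = ∑ j ∈ range K, 1 / ((j:ℝ) + 1) := by
        rw [harmonic]
        push_cast
        exact sum_congr rfl fun j _ => by rw [one_div]
      rw [← e2]
      refine le_trans e1 ?_
      rcases Nat.eq_zero_or_pos K with hK | hK
      · subst hK
        simp
      · have : Real.log K ≤ Real.log ((K + 1 : ℕ) : ℝ) :=
          Real.log_le_log (by exact_mod_cast hK) (by push_cast; linarith)
        linarith
    have hrefl : ∑ j ∈ range K, 1 / (((K - 1 - j : ℕ) : ℝ) + 1) = ∑ j ∈ range K, 1 / ((j:ℝ) + 1) :=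
      sum_range_reflect (fun j => 1 / ((j:ℝ) + 1)) K
    have h3 := sum_le_sum h1
    rw [sum_add_distrib, ← mul_sum, ← mul_sum, hrefl] at h3
    linarith

end Pool.Agent.H9U
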