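import Pool.Agent.Lib.H9U.Defs
import Pool.Agent.Lib.H59P.MDefs

/-!
# Project H9U: definitions for modules Z, A and the assembly
-/

open Finset

namespace Pool.Agent.H9U

open Pool.Agent.Lib.H68T (lp Lk PC p0)
open Pool.Agent.Lib.H18Q (gk KS Bc)
open Pool.Agent.Lib.H59P (Ch SF MX bx TS Rp)

noncomputable section

/-- **The conclusion of module L**: tuples of components whose moduli have a large least common multiple contribute little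
on average over `t`. -/
def LBig {k d : ℕ} (S : Sys k d) : Prop :=
  ∃ c C : ℝ, 0 < c ∧ 1 ≤ C ∧ ∀ Q D : ℕ, 1 ≤ D → D ≤ Q → ∀ p : Fin k → Ch, (∀ i, p i ∈ PC Q) →
    ∀ TT : Finset (Fin k → ℕ), TT ⊆ Fintype.piFinset (fun i => KS Q (p i).1) →
    (∀ κ ∈ TT, D < univ.lcm (fun i => (p i).1 * κ i)) →
    ∀ (b : Fin k → ℤ) (a H T : ℕ), Q ^ (10 * (k + 1)) ≤ H → Q ^ (10 * (k + 1)) ≤ T →
    ∑ t ∈ bx d T, ‖∑ n ∈ Ico a (a + H), ∑ κ ∈ TT, ∏ i, gk (p i) (κ i) (S.val b n (iv t) i)‖ ≤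
      C * (1 + Real.log Q) ^ C * ((T : ℝ) ^ d * H) * (D : ℝ) ^ (-c)

/-- The main term of a cell with coefficients `c`, moduli up to `D`, conductors up to `D1`. -/
def MCS {k d : ℕ} (S : Sys k d) (b : Fin k → ℤ) (t : Fin d → ℤ) (Q D D1 : ℕ) (px : Ch) (c : Fin k → Ch → ℂ) : ℂ :=
  ∑ p ∈ TS k Q D1 px, (∏ i, c i (p i)) *
    (MRS S b t p (Rp px p) * ((∑ e ∈ SF (D / Rp px p) (Rp px p), tdS S b t e : ℝ) : ℂ))

/-- The data of a small level `Q'`: moduli up to `D`, conductors up to `D1`; the coefficients of the characters of conductor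
at most `D1` are given by the model `MX px th` up to `η E0`. -/
structure Dat (k Q Q' D D1 D2 : ℕ) (η E0 : ℝ) (px : Ch) (th : ℤ → ℝ) (Xs : Fin k → ℕ) : Prop where
  D2_pos : 1 ≤ D2
  hD2 : px.1 * D2 ≤ D1
  hD1 : D1 * D1 ≤ D
  hD : D ≤ Q'
  mem : px ∈ PC Q'
  real : px.2 ^ 2 = 1
  eta_pos : 0 < η
  eta_le : η ≤ 1
  E0_nonneg : 0 ≤ E0
  E0_le : 4 * k * E0 ≤ 1
  triv : px = p0 → ∀ m, th m = 0
  nonneg : ∀ i, ∀ m, (Xs i : ℤ) ≤ m → m ≤ 4 * Xs i → 0 ≤ th m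
  le : ∀ i, ∀ m, (Xs i : ℤ) ≤ m → m ≤ 4 * Xs i → th m ≤ 1 - η
  cf : ∀ i, ∃ eb : Ch → ℝ, (∀ p ∈ PC Q', 0 ≤ eb p) ∧ ∑ p ∈ PC Q', eb p ≤ η * E0 ∧
    ∀ m : ℤ, (Xs i : ℤ) ≤ m → m ≤ 4 * Xs i → ∀ p ∈ PC Q', p.1 ≤ D1 → ‖Bc Q (Xs i) p m - MX px th m p‖ ≤ eb p

end

end Pool.Agent.H9U
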