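import Pool.Agent.Lib.H9U.L6
import Pool.Agent.Lib.H9U.ZDefs

/-!
# H9U, chunk LB (S): the conclusion of module L in the form used by module Z
-/

open Finset

namespace Pool.Agent.H9U

/-- Proof. `L6_base` with `v = a`, `u = 0` (`∑ n ∈ Ico a (a + H)` as a sum over `range H`: `Finset.sum_Ico_eq_sum_range`), `c = 1/144`, `C` replaced by `max C 1`, and
`1 ≤ (1 + log Q)^C` (`1 ≤ D ≤ Q`); `Q^(10 k) ≤ Q^(10 (k+1))`. -/
theorem LB_of {k d : ℕ} (S : Sys k d) (hS : S.Half) : LBig S := by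
  obtain ⟨C, hC, h⟩ := L6_base S hS
  refine ⟨1 / 144, max C 1, by norm_num, le_max_right _ _, ?_⟩
  intro Q D hD hDQ p hp TT hTT hTD b a H T hH hT
  have hQ : 1 ≤ Q := le_trans hD hDQ
  have hpow : Q ^ (10 * k) ≤ Q ^ (10 * (k + 1)) := Nat.pow_le_pow_right hQ (by omega)
  have h1 := h Q D hD p hp TT hTT hTD b (a : ℤ) (fun _ => 0) T H (le_trans hpow hT) (le_trans hpow hH)
  have e1 : ∀ t : Fin d → ℕ, ∑ n ∈ Ico a (a + H), ∑ κ ∈ TT, ∏ i, Pool.Agent.Lib.H18Q.gk (p i) (κ i) (S.val b n (iv t) i)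
      = ∑ n ∈ range H, ∑ κ ∈ TT, ∏ i, Pool.Agent.Lib.H18Q.gk (p i) (κ i) (S.val b ((a : ℤ) + n) (fun j => 0 + (t j : ℤ)) i) := by
    intro t
    rw [Finset.sum_Ico_eq_sum_range, Nat.add_sub_cancel_left]
    refine Finset.sum_congr rfl (fun n _ => Finset.sum_congr rfl (fun κ _ => Finset.prod_congr rfl (fun i _ => ?_)))
    have e2 : (fun j => 0 + (t j : ℤ)) = iv t := by
      funext j
      simp [iv]
    rw [e2]
    push_cast
    rfl
  simp only [e1]
  refine le_trans h1 ?_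
  have hlog : 0 ≤ Real.log Q := Real.log_nonneg (by exact_mod_cast hQ)
  have h2 : (1 : ℝ) ≤ (1 + Real.log Q) ^ (max C 1) :=
    Real.one_le_rpow (by linarith) (le_trans zero_le_one (le_max_right _ _))
  have h3 : C ≤ max C 1 * (1 + Real.log Q) ^ (max C 1) := by
    calc C ≤ max C 1 := le_max_left _ _
      _ = max C 1 * 1 := (mul_one _).symm
      _ ≤ max C 1 * (1 + Real.log Q) ^ (max C 1) :=
        mul_le_mul_of_nonneg_left h2 (le_trans zero_le_one (le_max_right _ _))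
  have h4 : (0 : ℝ) ≤ (T : ℝ) ^ d * H := by positivity
  have h5 : (0 : ℝ) ≤ (D : ℝ) ^ (-(1 / 144) : ℝ) := Real.rpow_nonneg (Nat.cast_nonneg _) _
  exact mul_le_mul_of_nonneg_right (mul_le_mul_of_nonneg_right h3 h4) h5

end Pool.Agent.H9U
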