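import Pool.Agent.Lib.H9U.T2

/-!
# H9U, chunk T6 (S/M): few `t` with a vanishing minor
-/

open Finset

namespace Pool.Agent.H9U

open Pool.Agent.Lib.H59P (bx)

/-- Proof. If `a_i c_j = a_j c_i` in all coordinates then `a_j lin_i = a_i lin_j`, and since `a_i, a_j ≠ 0` both forms vanish on the same vectors; but
`lin_i` vanishes on neither vector of `Sys.Half` for `i`, and `lin_j` vanishes on one of them. -/
theorem T6S_ne {k d : ℕ} (S : Sys k d) (hS : S.Half) (i j : Fin k) (hij : i ≠ j) :
    ∃ r : Fin d, S.a i * S.c j r - S.a j * S.c i r ≠ 0 := by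
  by_contra hc
  push Not at hc
  have key : ∀ (s : ℤ) (u : Fin d → ℤ), S.a i * S.lin j s u = S.a j * S.lin i s u := by
    intro s u
    unfold Sys.lin
    rw [mul_add, mul_add, Finset.mul_sum, Finset.mul_sum]
    have h1 : ∀ r, S.a i * (S.c j r * u r) = S.a j * (S.c i r * u r) := by
      intro r
      have h2 := hc r
      linear_combination u r * h2
    rw [Finset.sum_congr rfl fun r _ => h1 r]
    ring
  obtain ⟨ha, hh⟩ := hS
  obtain ⟨s, s', u, u', h1, h2, h3⟩ := hh i
  rcases h3 j (Ne.symm hij) with h4 | h4
  · have h5 := key s u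
    rw [h4, mul_zero] at h5
    rcases mul_eq_zero.1 h5.symm with h6 | h6
    · exact ha j h6
    · exact h1 h6
  · have h5 := key s' u'
    rw [h4, mul_zero] at h5
    rcases mul_eq_zero.1 h5.symm with h6 | h6
    · exact ha j h6
    · exact h2 h6

open Classical in
/-- Proof. `minr b t i j = ∑_r (a_i c_jr - a_j c_ir) t_r + const` with a nonzero coefficient at `r0` (`T6S_ne`): for given other coordinates at most one
value of `t_{r0}` (the map to the other coordinates, e.g. `t ↦ Function.update t r0 0`, is injective on the set). -/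
theorem T6S_card {k d : ℕ} (S : Sys k d) (hS : S.Half) (i j : Fin k) (hij : i ≠ j) (b : Fin k → ℤ) (T : ℕ) :
    ((bx d T).filter (fun t => S.minr b (iv t) i j = 0)).card * T ≤ T ^ d := by
  obtain ⟨r0, hr0⟩ := T6S_ne S hS i j hij
  have hcard : (bx d T).card = T ^ d := by
    unfold bx
    rw [Fintype.card_piFinset, Finset.prod_const, Finset.card_univ, Fintype.card_fin, Finset.card_range]
  obtain ⟨A, hA⟩ : ∃ A, A = (bx d T).filter (fun t => S.minr b (iv t) i j = 0) := ⟨_, rfl⟩
  rw [← hA]
  have hlin : ∀ t : Fin d → ℕ, S.minr b (iv t) i j =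
      ∑ r, (S.a i * S.c j r - S.a j * S.c i r) * (t r : ℤ) + (S.a i * b j - S.a j * b i) := by
    intro t
    unfold Sys.minr Sys.val Sys.lin iv
    rw [mul_add, mul_add, mul_add, mul_add, Finset.mul_sum, Finset.mul_sum]
    have h1 : ∀ r, (S.a i * S.c j r - S.a j * S.c i r) * (t r : ℤ) =
        S.a i * (S.c j r * (t r : ℤ)) - S.a j * (S.c i r * (t r : ℤ)) := fun r => by ring
    rw [Finset.sum_congr rfl fun r _ => h1 r, Finset.sum_sub_distrib]
    ring
  have hmem : ∀ t, t ∈ bx d T ↔ ∀ r, t r < T := by
    intro t
    unfold bx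
    rw [Fintype.mem_piFinset]
    exact forall_congr' fun r => Finset.mem_range
  have h2 : (A ×ˢ range T).card ≤ (bx d T).card := by
    refine Finset.card_le_card_of_injOn (fun x => Function.update x.1 r0 x.2) ?_ ?_
    · rintro ⟨t, y⟩ hx
      have hx' := Finset.mem_product.1 (Finset.mem_coe.1 hx)
      rw [Finset.mem_coe, hmem]
      intro r
      have ht : t ∈ bx d T := by
        have := hx'.1
        rw [hA, Finset.mem_filter] at this
        exact this.1
      show Function.update t r0 y r < T
      by_cases hr : r = r0
      · rw [hr, Function.update_self]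
        exact Finset.mem_range.1 hx'.2
      · rw [Function.update_of_ne hr]
        exact (hmem t).1 ht r
    · rintro ⟨t, y⟩ hx ⟨t', y'⟩ hx' he
      have he' : Function.update t r0 y = Function.update t' r0 y' := he
      have h3 := (Finset.mem_product.1 (Finset.mem_coe.1 hx)).1
      have h4 := (Finset.mem_product.1 (Finset.mem_coe.1 hx')).1
      rw [hA, Finset.mem_filter] at h3 h4
      have hy : y = y' := by
        have := congrFun he' r0
        rwa [Function.update_self, Function.update_self] at this
      have hother : ∀ r, r ≠ r0 → t r = t' r := by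
        intro r hr
        have := congrFun he' r
        rwa [Function.update_of_ne hr, Function.update_of_ne hr] at this
      have h5 : ∑ r, (S.a i * S.c j r - S.a j * S.c i r) * (t r : ℤ) =
          ∑ r, (S.a i * S.c j r - S.a j * S.c i r) * (t' r : ℤ) := by
        have h6 := h3.2
        have h7 := h4.2
        rw [hlin] at h6 h7
        linarith
      have h8 : (S.a i * S.c j r0 - S.a j * S.c i r0) * (t r0 : ℤ) =
          (S.a i * S.c j r0 - S.a j * S.c i r0) * (t' r0 : ℤ) := by
        rw [← Finset.add_sum_erase _ _ (Finset.mem_univ r0), ← Finset.add_sum_erase _ _ (Finset.mem_univ r0)] at h5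
        have h9 : ∑ r ∈ univ.erase r0, (S.a i * S.c j r - S.a j * S.c i r) * (t r : ℤ) =
            ∑ r ∈ univ.erase r0, (S.a i * S.c j r - S.a j * S.c i r) * (t' r : ℤ) :=
          Finset.sum_congr rfl fun r hr => by rw [hother r (Finset.ne_of_mem_erase hr)]
        rw [h9] at h5
        exact add_right_cancel h5
      have h10 : t r0 = t' r0 := by
        have := mul_left_cancel₀ hr0 h8
        exact_mod_cast this
      have h11 : t = t' := by
        funext r
        by_cases hr : r = r0
        · rw [hr]
          exact h10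
        · exact hother r hr
      rw [h11, hy]
  rw [Finset.card_product, Finset.card_range, hcard] at h2
  exact h2

end Pool.Agent.H9U
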