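import Pool.Agent.Lib.H9U.T2
import Pool.Agent.Lib.H59P.T4A

/-!
# H9U, chunk T4 (M): the Rankin product is small for every `t` without vanishing minors
-/

open Finset

namespace Pool.Agent.H9U

open Pool.Agent.Lib.H59P (Ch cj uu gl pr SF)

theorem t4_card (m : ℤ) (hm : m ≠ 0) (X : ℕ) (h : |m| ≤ (X : ℤ) ^ 3) :
    (m.natAbs.primeFactors.card : ℝ) * Real.log 2 ≤ 3 * Real.log X := by
  have h1 : 2 ^ m.natAbs.primeFactors.card ≤ m.natAbs := by
    calc 2 ^ m.natAbs.primeFactors.card = ∏ _p ∈ m.natAbs.primeFactors, 2 := by rw [prod_const]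
      _ ≤ ∏ p ∈ m.natAbs.primeFactors, p :=
        prod_le_prod (fun _ _ => Nat.zero_le _) fun p hp => (Nat.prime_of_mem_primeFactors hp).two_le
      _ ≤ m.natAbs := Nat.le_of_dvd (Int.natAbs_pos.2 hm) (Nat.prod_primeFactors_dvd _)
  have h2 : m.natAbs ≤ X ^ 3 := by
    have h3 : (m.natAbs : ℤ) ≤ ((X ^ 3 : ℕ) : ℤ) := by
      rw [Int.natCast_natAbs]
      push_cast
      exact h
    exact_mod_cast h3
  have h4 : ((2 : ℝ) ^ m.natAbs.primeFactors.card) ≤ (X : ℝ) ^ 3 := by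
    have h5 := h1.trans h2
    exact_mod_cast h5
  have h6 := Real.log_le_log (by positivity) h4
  rw [Real.log_pow, Real.log_pow] at h6
  exact_mod_cast h6

/-- The number of primes dividing one of the minors. -/
theorem t4_D {k d : ℕ} (S : Sys k d) (X Q : ℕ) (b : Fin k → ℤ) (t : Fin d → ℤ)
    (hm : ∀ i j, i ≠ j → S.minr b t i j ≠ 0 ∧ |S.minr b t i j| ≤ (X : ℤ) ^ 3) [DecidablePred fun l : ℕ => ∃ i j, i ≠ j ∧ (l : ℤ) ∣ S.minr b t i j] :
    (((pr Q).filter (fun l : ℕ => ∃ i j, i ≠ j ∧ (l : ℤ) ∣ S.minr b t i j)).card : ℝ) * Real.log 2 ≤ (k : ℝ) ^ 2 * (3 * Real.log X) := by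
  classical
  have h0 : (0 : ℝ) ≤ Real.log X := Real.log_natCast_nonneg X
  have hsub : (pr Q).filter (fun l : ℕ => ∃ i j, i ≠ j ∧ (l : ℤ) ∣ S.minr b t i j) ⊆
      (univ : Finset (Fin k × Fin k)).biUnion (fun q => if q.1 ≠ q.2 then (S.minr b t q.1 q.2).natAbs.primeFactors else ∅) := by
    intro l hl
    rw [mem_filter] at hl
    obtain ⟨hl1, i, j, hij, hd⟩ := hl
    rw [mem_biUnion]
    refine ⟨(i, j), mem_univ _, ?_⟩
    rw [if_pos hij]
    exact Nat.mem_primeFactors.2 ⟨(Pool.Agent.Lib.H59P.mem_pr.1 hl1).2, Int.natCast_dvd.1 hd, Int.natAbs_ne_zero.2 (hm i j hij).1⟩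
  have h1 : (((pr Q).filter (fun l : ℕ => ∃ i j, i ≠ j ∧ (l : ℤ) ∣ S.minr b t i j)).card : ℝ) ≤
      ∑ q : Fin k × Fin k, ((if q.1 ≠ q.2 then (S.minr b t q.1 q.2).natAbs.primeFactors else ∅).card : ℝ) := by
    exact_mod_cast (card_le_card hsub).trans card_biUnion_le
  have h2 : ∀ q : Fin k × Fin k, ((if q.1 ≠ q.2 then (S.minr b t q.1 q.2).natAbs.primeFactors else ∅).card : ℝ) * Real.log 2 ≤ 3 * Real.log X := by
    intro q
    by_cases hq : q.1 ≠ q.2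
    · rw [if_pos hq]
      exact t4_card _ (hm _ _ hq).1 X (hm _ _ hq).2
    · rw [if_neg hq, card_empty, Nat.cast_zero, zero_mul]
      positivity
  have hlog2 : (0 : ℝ) ≤ Real.log 2 := Real.log_nonneg (by norm_num)
  calc (((pr Q).filter (fun l : ℕ => ∃ i j, i ≠ j ∧ (l : ℤ) ∣ S.minr b t i j)).card : ℝ) * Real.log 2
      ≤ (∑ q : Fin k × Fin k, ((if q.1 ≠ q.2 then (S.minr b t q.1 q.2).natAbs.primeFactors else ∅).card : ℝ)) * Real.log 2 :=
        mul_le_mul_of_nonneg_right h1 hlog2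
    _ ≤ ∑ _q : Fin k × Fin k, 3 * Real.log X := by
        rw [sum_mul]
        exact sum_le_sum fun q _ => h2 q
    _ = (k : ℝ) ^ 2 * (3 * Real.log X) := by
        rw [sum_const, card_univ, Fintype.card_prod, Fintype.card_fin, nsmul_eq_mul]
        push_cast
        ring

/-- Proof. `η = 1/4`. By `T2S_bd` the product `RPS (1/4) Q` is at most the product over the primes `l ≤ Q` of: `1 + l 2^k` for the finitely many `l`
with `l ≤ 2k` or `l ∣ ∏ a_i` (a constant depending on `S`), `1 + 4^(k+3) l^(-7/4)` (product bounded by a constant), and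
`1 + 4^(k+3) l^(-3/4) ≤ exp(4^(k+3) l^(-3/4))` for the `l` dividing some minor. The product `Δ` of the nonzero minors is at most `X^(3k²)`, so it has at most
`ω ≤ 3 k² log X/log 2` prime factors, and `∑_{l ∣ Δ} l^(-3/4) ≤ ∑_{j ≤ ω} j^(-3/4) ≤ 4 ω^(1/4)` (the `j`-th prime factor is at least `j`). So the
product is at most `C exp(C (log X)^(1/4)) ≤ X^ε` for `X` large. Then `T3S_diff`. -/
theorem T4S_tail {k d : ℕ} (S : Sys k d) (ha : ∀ i, S.a i ≠ 0) (ε : ℝ) (hε : 0 < ε) : ∃ X0 : ℕ, ∀ X Q : ℕ, X0 ≤ X → Q ≤ X →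
    ∀ (b : Fin k → ℤ) (t : Fin d → ℤ), (∀ i j, i ≠ j → S.minr b t i j ≠ 0 ∧ |S.minr b t i j| ≤ (X : ℤ) ^ 3) →
    ∀ R E : ℕ, 1 ≤ E → E ≤ Q →
      |∑ e ∈ SF E R, tdS S b t e - SSS S b t ((pr Q).filter (fun l : ℕ => ¬ l ∣ R))| ≤
        (E : ℝ) ^ (-(1 / 4) : ℝ) * (X : ℝ) ^ ε := by
  classical
  set M : ℝ := (4 : ℝ) ^ (k + 3) with hM
  have hM0 : 0 < M := by positivity
  set L0 : ℕ := 2 * k + ∑ i, (S.a i).natAbs with hL0
  have hLa : ∀ l : ℕ, L0 < l → ∀ i, ¬ (l : ℤ) ∣ S.a i := by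
    intro l hl i hd
    have h1 : l ≤ (S.a i).natAbs := Nat.le_of_dvd (Int.natAbs_pos.2 (ha i)) (Int.natCast_dvd.1 hd)
    have h2 : (S.a i).natAbs ≤ ∑ i, (S.a i).natAbs := single_le_sum (f := fun i => (S.a i).natAbs) (fun _ _ => Nat.zero_le _) (mem_univ i)
    omega
  set c0 : ℝ := (L0 : ℝ) * 2 ^ k with hc0
  have hc00 : 0 ≤ c0 := by positivity
  -- the threshold
  obtain ⟨W, hW1, hW2⟩ : ∃ W : ℕ, 1 ≤ W ∧ M * (W : ℝ) ^ (-(3 / 4) : ℝ) * ((k : ℝ) ^ 2 * 3) / Real.log 2 ≤ ε / 2 := by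
    have h1 : Filter.Tendsto (fun W : ℕ => M * (W : ℝ) ^ (-(3 / 4) : ℝ) * ((k : ℝ) ^ 2 * 3) / Real.log 2) Filter.atTop (nhds (M * 0 * ((k : ℝ) ^ 2 * 3) / Real.log 2)) := by
      have h2 : Filter.Tendsto (fun W : ℕ => (W : ℝ) ^ (-(3 / 4) : ℝ)) Filter.atTop (nhds 0) :=
        (tendsto_rpow_neg_atTop (by norm_num)).comp tendsto_natCast_atTop_atTop
      exact ((h2.const_mul M).mul_const _).div_const _
    rw [mul_zero, zero_mul, zero_div] at h1
    have h3 := (h1.eventually (gt_mem_nhds (half_pos hε))).and (Filter.eventually_ge_atTop 1)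
    obtain ⟨W, h4, h5⟩ := h3.exists
    exact ⟨W, h5, h4.le⟩
  obtain ⟨X0, hX0⟩ : ∃ X0 : ℕ, ∀ X : ℕ, X0 ≤ X → ((L0 : ℝ) + 1) * c0 + 3 * M + ((W : ℝ) + 1) * M ≤ ε / 2 * Real.log X := by
    have h1 : Filter.Tendsto (fun X : ℕ => ε / 2 * Real.log X) Filter.atTop Filter.atTop :=
      (Real.tendsto_log_atTop.comp tendsto_natCast_atTop_atTop).const_mul_atTop (half_pos hε)
    exact Filter.eventually_atTop.1 (h1.eventually_ge_atTop _)
  refine ⟨max X0 1, fun X Q hX hQX b t hm R E hE hEQ => ?_⟩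
  have hX1 : (1 : ℝ) ≤ X := by exact_mod_cast (le_max_right X0 1).trans hX
  have hX00 := hX0 X ((le_max_left X0 1).trans hX)
  refine (T3S_diff S b t (1 / 4) (by norm_num) Q R E hE hEQ).trans (mul_le_mul_of_nonneg_left ?_ (Real.rpow_nonneg (Nat.cast_nonneg E) _))
  -- the Rankin product
  have hexp : RPS S b t (1 / 4) Q ≤ Real.exp (∑ l ∈ pr Q, (l : ℝ) ^ (1 / 4 : ℝ) * |tpS S b t l|) := by
    rw [RPS, Real.exp_sum]
    refine prod_le_prod (fun l _ => by positivity) fun l _ => ?_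
    rw [add_comm]
    exact Real.add_one_le_exp _
  refine hexp.trans ?_
  have hXe : (X : ℝ) ^ ε = Real.exp (ε * Real.log X) := by
    rw [Real.rpow_def_of_pos (by linarith), mul_comm]
  rw [hXe]
  refine Real.exp_le_exp.2 ?_
  set DD : ℕ → Prop := fun l : ℕ => ∃ i j, i ≠ j ∧ (l : ℤ) ∣ S.minr b t i j with hDD
  have hterm : ∀ l ∈ pr Q, (l : ℝ) ^ (1 / 4 : ℝ) * |tpS S b t l| ≤
      (if l ≤ L0 then c0 else 0) + M * (l : ℝ) ^ ((1 / 4 : ℝ) - 2) + (if l ≤ W then M else 0) +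
        (if DD l then M * (W : ℝ) ^ (-(3 / 4) : ℝ) else 0) := by
    intro l hl
    have hlp := (Pool.Agent.Lib.H59P.mem_pr.1 hl).2
    have hl1 : (1 : ℝ) ≤ l := by exact_mod_cast hlp.one_lt.le
    have hl0 : (0 : ℝ) < l := by linarith
    obtain ⟨hb1, hb2⟩ := T2S_bd S b t l hlp
    have hp1 : 0 ≤ M * (l : ℝ) ^ ((1 / 4 : ℝ) - 2) := by positivity
    have hp2 : 0 ≤ (if l ≤ W then M else 0) := by split_ifs <;> linarith
    have hp3 : 0 ≤ (if DD l then M * (W : ℝ) ^ (-(3 / 4) : ℝ) else 0) := by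
      split_ifs
      · positivity
      · exact le_rfl
    by_cases h1 : l ≤ L0
    · rw [if_pos h1]
      have h2 : (l : ℝ) ^ (1 / 4 : ℝ) ≤ (L0 : ℝ) := by
        calc (l : ℝ) ^ (1 / 4 : ℝ) ≤ (l : ℝ) ^ (1 : ℝ) := Real.rpow_le_rpow_of_exponent_le hl1 (by norm_num)
          _ = l := Real.rpow_one _
          _ ≤ L0 := by exact_mod_cast h1
      have h3 : (l : ℝ) ^ (1 / 4 : ℝ) * |tpS S b t l| ≤ c0 :=
        mul_le_mul h2 hb1 (abs_nonneg _) (Nat.cast_nonneg _)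
      linarith
    · rw [if_neg h1]
      push Not at h1
      obtain ⟨hb3, hb4⟩ := hb2 (by omega) (hLa l h1)
      by_cases h2 : DD l
      · rw [if_pos h2]
        have h3 : (l : ℝ) ^ (1 / 4 : ℝ) * |tpS S b t l| ≤ M * (l : ℝ) ^ (-(3 / 4) : ℝ) := by
          calc (l : ℝ) ^ (1 / 4 : ℝ) * |tpS S b t l| ≤ (l : ℝ) ^ (1 / 4 : ℝ) * (M / l) :=
              mul_le_mul_of_nonneg_left hb3 (by positivity)
            _ = M * (l : ℝ) ^ (-(3 / 4) : ℝ) := by
              have e : (l : ℝ) ^ (-(3 / 4) : ℝ) = (l : ℝ) ^ (1 / 4 : ℝ) / l := by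
                rw [← Real.rpow_sub_one hl0.ne']
                norm_num
              rw [e]
              ring
        by_cases h4 : l ≤ W
        · rw [if_pos h4]
          have h5 : (l : ℝ) ^ (-(3 / 4) : ℝ) ≤ 1 := Real.rpow_le_one_of_one_le_of_nonpos hl1 (by norm_num)
          have h6 : M * (l : ℝ) ^ (-(3 / 4) : ℝ) ≤ M := mul_le_of_le_one_right hM0.le h5
          have h7 : 0 ≤ M * (W : ℝ) ^ (-(3 / 4) : ℝ) := by positivity
          linarith
        · rw [if_neg h4]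
          push Not at h4
          have hW0 : (0 : ℝ) < W := by exact_mod_cast hW1
          have h5 : (l : ℝ) ^ (-(3 / 4) : ℝ) ≤ (W : ℝ) ^ (-(3 / 4) : ℝ) :=
            Real.rpow_le_rpow_of_nonpos hW0 (by exact_mod_cast h4.le) (by norm_num)
          have h6 := mul_le_mul_of_nonneg_left h5 hM0.le
          linarith
      · rw [if_neg h2]
        have h3 : (l : ℝ) ^ (1 / 4 : ℝ) * |tpS S b t l| ≤ M * (l : ℝ) ^ ((1 / 4 : ℝ) - 2) := by
          calc (l : ℝ) ^ (1 / 4 : ℝ) * |tpS S b t l| ≤ (l : ℝ) ^ (1 / 4 : ℝ) * (M / (l : ℝ) ^ 2) :=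
              mul_le_mul_of_nonneg_left (hb4 fun i j hij hd => h2 ⟨i, j, hij, hd⟩) (by positivity)
            _ = M * (l : ℝ) ^ ((1 / 4 : ℝ) - 2) := by
              have e : (l : ℝ) ^ ((1 / 4 : ℝ) - 2) = (l : ℝ) ^ (1 / 4 : ℝ) / (l : ℝ) ^ 2 := by
                rw [Real.rpow_sub hl0, Real.rpow_two]
              rw [e]
              ring
        linarith
  refine (sum_le_sum hterm).trans ?_
  rw [sum_add_distrib, sum_add_distrib, sum_add_distrib]
  have hs1 : ∀ (V : ℕ) (c : ℝ), 0 ≤ c → ∑ l ∈ pr Q, (if l ≤ V then c else 0) ≤ ((V : ℝ) + 1) * c := by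
    intro V c hc
    rw [← sum_filter, sum_const, nsmul_eq_mul]
    refine mul_le_mul_of_nonneg_right ?_ hc
    have h1 : ((pr Q).filter (fun l : ℕ => l ≤ V)).card ≤ V + 1 := by
      calc ((pr Q).filter (fun l : ℕ => l ≤ V)).card ≤ (range (V + 1)).card := card_le_card fun l hl => by
            rw [mem_filter] at hl
            rw [mem_range]
            omega
        _ = V + 1 := card_range _
    exact_mod_cast h1
  have hs2 : ∑ l ∈ pr Q, M * (l : ℝ) ^ ((1 / 4 : ℝ) - 2) ≤ 3 * M := by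
    rw [← mul_sum]
    have h1 := Pool.Agent.Lib.H59P.T4A_int (1 / 4) 1 (by norm_num) (by norm_num) le_rfl Q
    rw [Real.one_rpow, mul_one] at h1
    have h2 : (pr Q).filter (fun l : ℕ => (1 : ℝ) < (l : ℝ)) = pr Q := by
      refine filter_true_of_mem fun l hl => ?_
      exact_mod_cast (Pool.Agent.Lib.H59P.mem_pr.1 hl).2.one_lt
    rw [h2] at h1
    calc M * ∑ l ∈ pr Q, (l : ℝ) ^ ((1 / 4 : ℝ) - 2) ≤ M * 3 := mul_le_mul_of_nonneg_left h1 hM0.le
      _ = 3 * M := mul_comm _ _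
  have hs3 : ∑ l ∈ pr Q, (if DD l then M * (W : ℝ) ^ (-(3 / 4) : ℝ) else 0) ≤ ε / 2 * Real.log X := by
    rw [← sum_filter, sum_const, nsmul_eq_mul]
    have h1 := t4_D S X Q b t hm
    have hlog2 : (0 : ℝ) < Real.log 2 := Real.log_pos (by norm_num)
    have h0 : (0 : ℝ) ≤ Real.log X := Real.log_natCast_nonneg X
    have h2 : (((pr Q).filter DD).card : ℝ) ≤ (k : ℝ) ^ 2 * (3 * Real.log X) / Real.log 2 := by
      rw [le_div_iff₀ hlog2]
      exact h1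
    calc (((pr Q).filter DD).card : ℝ) * (M * (W : ℝ) ^ (-(3 / 4) : ℝ))
        ≤ ((k : ℝ) ^ 2 * (3 * Real.log X) / Real.log 2) * (M * (W : ℝ) ^ (-(3 / 4) : ℝ)) :=
          mul_le_mul_of_nonneg_right h2 (by positivity)
      _ = (M * (W : ℝ) ^ (-(3 / 4) : ℝ) * ((k : ℝ) ^ 2 * 3) / Real.log 2) * Real.log X := by ring
      _ ≤ ε / 2 * Real.log X := mul_le_mul_of_nonneg_right hW2 h0
  have hs4 := hs1 L0 c0 hc00
  have hs5 := hs1 W M hM0.le
  linarith

end Pool.Agent.H9U
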