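import Pool.Agent.Lib.H9U.Z3
import Pool.Agent.Lib.H9U.T4
import Pool.Agent.Lib.H59T.UM

/-!
# H9U, chunk Z4B (M): the main terms of all cells are large for every good `t`
-/

open Finset

namespace Pool.Agent.H9U

open Pool.Agent.Lib.H68T (lp Lk PC p0)
open Pool.Agent.Lib.H18Q (gk KS SG Bc RegP)
open Pool.Agent.Lib.H59P (Ch SF bx TS Rp MX pr)

theorem z4b_log (M : ℝ) (hM : 1 ≤ M) (k : ℕ) (β : ℝ) (hβ : 0 < β) : ∃ X0 : ℕ, ∀ X : ℕ, X0 ≤ X →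
    (2 * M * (1 + Real.log X)) ^ k * (4 * Real.exp (4 * k)) ≤ (X : ℝ) ^ β := by
  obtain ⟨γ, hγ⟩ : ∃ γ : ℝ, γ = β / (2 * (k + 1)) := ⟨_, rfl⟩
  have hγ0 : 0 < γ := by rw [hγ]; positivity
  obtain ⟨C', hC'⟩ : ∃ C' : ℝ, C' = (2 * M * (1 + 1 / γ)) ^ k * (4 * Real.exp (4 * k)) := ⟨_, rfl⟩
  have h1 := ((tendsto_rpow_atTop (half_pos hβ)).comp tendsto_natCast_atTop_atTop).eventually (Filter.eventually_ge_atTop C')
  obtain ⟨X1, hX1⟩ := Filter.eventually_atTop.1 h1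
  refine ⟨max X1 1, fun X hX => ?_⟩
  have hX0 : (1 : ℝ) ≤ X := by exact_mod_cast (le_max_right _ _).trans hX
  have hXp : (0 : ℝ) < X := by linarith
  have h2 : C' ≤ (X : ℝ) ^ (β / 2) := hX1 X ((le_max_left _ _).trans hX)
  have h3 : 1 + Real.log X ≤ (1 + 1 / γ) * (X : ℝ) ^ γ := by
    have h4 := Real.log_le_rpow_div hXp.le hγ0
    have h5 : (1 : ℝ) ≤ (X : ℝ) ^ γ := Real.one_le_rpow hX0 hγ0.le
    have h6 : (1 + 1 / γ) * (X : ℝ) ^ γ = (X : ℝ) ^ γ + (X : ℝ) ^ γ / γ := by ring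
    rw [h6]
    linarith
  have h6 : 0 ≤ Real.log X := Real.log_nonneg hX0
  have h7 : ((X : ℝ) ^ γ) ^ k ≤ (X : ℝ) ^ (β / 2) := by
    rw [← Real.rpow_natCast, ← Real.rpow_mul hXp.le]
    refine Real.rpow_le_rpow_of_exponent_le hX0 ?_
    have hk1 : (0 : ℝ) < 2 * ((k : ℝ) + 1) := by positivity
    rw [hγ, div_mul_eq_mul_div, div_le_div_iff₀ hk1 two_pos]
    nlinarith
  calc (2 * M * (1 + Real.log X)) ^ k * (4 * Real.exp (4 * k))
      ≤ (2 * M * ((1 + 1 / γ) * (X : ℝ) ^ γ)) ^ k * (4 * Real.exp (4 * k)) := by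
        gcongr
    _ = C' * ((X : ℝ) ^ γ) ^ k := by
        rw [hC', ← mul_assoc (2 * M), mul_pow (2 * M * (1 + 1 / γ))]
        ring
    _ ≤ (X : ℝ) ^ (β / 2) * (X : ℝ) ^ (β / 2) :=
        mul_le_mul h2 h7 (by positivity) (by positivity)
    _ = (X : ℝ) ^ β := by
        rw [← Real.rpow_add hXp]
        ring_nf

/-- Proof. `ε1 = θ δ3/(32 (k+1))`, `H = X / Q^8`. For each cell `j` the point `m_i = val b (jH) t i` is in `JJ (Xs i) ⊆ [Xs i, 4 Xs i]` (`jH < L`). `Z3S` with `Q := Q'`,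
`th i := th m_i` (`MX px (fun _ => th m_i) 0 p = MX px th m_i p` by definition), `c i p = Bc Q (Xs i) p m_i`, `M` from `UM_mass`, `eb` from `Dat.cf`, and
`τ = X^(-θ δ3/8)`: for `1 ≤ R ≤ D1`, `E = D/R ≥ D1 ≥ D2 ≥ Q'^δ3 ≥ X^(θ δ3)` (`D1 D1 ≤ D`, `1 ≤ px.1`), `E ≤ D ≤ Q' ≤ X`, `T4S_tail` with
`ε = θ δ3/8`. The error `(2M(1+log Q'))^k τ` is at most `η^k exp(-4k)/4` for `X` large (`η^k ≥ X^(-k ε1)`), so each cell is at least `H η^k exp(-4k)/4`, and the number of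
cells times `H` is at least `L - H ≥ X/2`. -/
theorem Z4B_low {k d : ℕ} (hk : 1 ≤ k) (S : Sys k d) (ha : ∀ i, S.a i ≠ 0) : ∃ K : ℝ, 1 ≤ K ∧
    ∀ Cr θ δ3 : ℝ, 1 ≤ Cr → 0 < θ → 0 < δ3 → ∀ C0 : ℕ, ∃ ε1 : ℝ, 0 < ε1 ∧ ∃ X0 : ℕ, ∀ Q Q' X : ℕ, X0 ≤ X →
    ∀ Xs : Fin k → ℕ, (∀ i, X ≤ Xs i ∧ Xs i ≤ C0 * X) → (∀ i, Rgm K Cr θ Q Q' (Xs i)) →
    ∀ (D D1 D2 : ℕ) (η E0 : ℝ) (px : Ch) (th : ℤ → ℝ), Dat k Q Q' D D1 D2 η E0 px th Xs → (Q' : ℝ) ^ δ3 ≤ D2 →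
    (X : ℝ) ^ (-ε1) ≤ η → ∀ (b : Fin k → ℤ) (L : ℕ) (t : Fin d → ℤ), X ≤ L → S.Adm b t →
    (∀ i j, i ≠ j → S.minr b t i j ≠ 0) → (∀ i, ∀ n ∈ range L, S.val b n t i ∈ JJ (Xs i)) →
    X * (η ^ k * Real.exp (-(4 * k : ℝ))) / 8 ≤
      (∑ j ∈ range (L / (X / Q ^ 8)), ((X / Q ^ 8 : ℕ) : ℂ) * MCS S b t Q' D D1 px
        (fun i p => Bc Q (Xs i) p (S.val b ((j * (X / Q ^ 8) : ℕ) : ℤ) t i))).re := by
  obtain ⟨K1, C1, hK1, hC1, hmass⟩ := Pool.Agent.Lib.H59T.UM_mass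
  refine ⟨max K1 16, hK1.trans (le_max_left _ _), fun Cr θ δ3 hCr hθ hδ3 C0 => ?_⟩
  obtain ⟨ε1, hε1⟩ : ∃ ε1 : ℝ, ε1 = θ * δ3 / (32 * (k + 1)) := ⟨_, rfl⟩
  have hε10 : 0 < ε1 := by rw [hε1]; positivity
  obtain ⟨XT, hXT⟩ := T4S_tail S ha (θ * δ3 / 8) (by positivity)
  obtain ⟨XL, hXL⟩ := z4b_log C1 hC1 k (3 * (θ * δ3) / 32) (by positivity)
  obtain ⟨A, hA⟩ : ∃ A : ℕ, ∀ i, |S.a i| ≤ (A : ℤ) := by
    refine ⟨∑ i, (S.a i).natAbs, fun i => ?_⟩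
    rw [Int.abs_eq_natAbs]
    exact_mod_cast Finset.single_le_sum (f := fun i => (S.a i).natAbs) (fun _ _ => Nat.zero_le _) (mem_univ i)
  refine ⟨ε1, hε10, max (max XT XL) (max (C0 + 2) (8 * A * C0)), ?_⟩
  intro Q Q' X hX Xs hXs hR D D1 D2 η E0 px th hD hD2 hη b L t hL hAdm hmin hJ
  have hXT' : XT ≤ X := ((le_max_left _ _).trans (le_max_left _ _)).trans hX
  have hXL' : XL ≤ X := ((le_max_right _ _).trans (le_max_left _ _)).trans hX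
  have hXC : C0 + 2 ≤ X := ((le_max_left _ _).trans (le_max_right _ _)).trans hX
  have hXA : 8 * A * C0 ≤ X := ((le_max_right _ _).trans (le_max_right _ _)).trans hX
  have hX2 : 2 ≤ X := (Nat.le_add_left _ _).trans hXC
  have hXr : (1 : ℝ) ≤ X := by exact_mod_cast (by omega : 1 ≤ X)
  have hXp : (0 : ℝ) < X := by linarith
  let i0 : Fin k := ⟨0, hk⟩
  have hreg : RegP 16 Q (Xs i0) := (hR i0).reg.mono (by positivity) (le_max_right _ _)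
  have hQ16 : (16 : ℝ) ≤ Q := hreg.Q_ge (by norm_num)
  have hQn : 16 ≤ Q := by exact_mod_cast hQ16
  have hXs0 : 0 < Xs i0 := by
    have := (hXs i0).1
    omega
  have hlog : Real.log (Xs i0) ≤ 2 * Real.log X := by
    have h1 : ((Xs i0 : ℕ) : ℝ) ≤ (X : ℝ) * X := by
      have h2 : Xs i0 ≤ X * X := (hXs i0).2.trans (Nat.mul_le_mul_right X (by omega))
      exact_mod_cast h2
    have h2 := Real.log_le_log (by exact_mod_cast hXs0) h1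
    rw [Real.log_mul hXp.ne' hXp.ne'] at h2
    linarith
  have hQX : Q ^ 8 ≤ X := by
    have h1 := hreg.logQ_le (by norm_num)
    have h2 : Real.log ((Q : ℝ) ^ 8) ≤ Real.log X := by
      rw [Real.log_pow]
      push_cast
      linarith
    have h3 : (Q : ℝ) ^ 8 ≤ X := (Real.log_le_log_iff (by positivity) hXp).1 h2
    exact_mod_cast h3
  obtain ⟨H, hH⟩ : ∃ H : ℕ, H = X / Q ^ 8 := ⟨_, rfl⟩
  have hQ8 : 0 < Q ^ 8 := by positivity
  have hH1 : 1 ≤ H := by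
    rw [hH]
    exact Nat.div_pos hQX hQ8
  have hH2 : 2 * H ≤ X := by
    have h1 : 2 ≤ Q ^ 8 := by
      calc 2 ≤ Q := by omega
        _ = Q ^ 1 := (pow_one Q).symm
        _ ≤ Q ^ 8 := Nat.pow_le_pow_right (by omega) (by norm_num)
    have h2 : X / Q ^ 8 ≤ X / 2 := Nat.div_le_div_left h1 (by norm_num)
    rw [hH]
    omega
  rw [← hH]
  have hnH : X ≤ 2 * (L / H * H) := by
    have h1 := Nat.div_add_mod L H
    have h2 := Nat.mod_lt L hH1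
    rw [mul_comm H] at h1
    omega
  obtain ⟨E, hE⟩ : ∃ E : ℝ, E = η ^ k * Real.exp (-(4 * k : ℝ)) := ⟨_, rfl⟩
  have hη0 := hD.eta_pos
  have hE0 : 0 < E := by rw [hE]; positivity
  -- bounds for the levels
  have hQ'1 : 1 ≤ Q' := by
    have h1 := (hR i0).low
    have h2 : (0 : ℝ) < ((Xs i0 : ℕ) : ℝ) ^ θ := Real.rpow_pos_of_pos (by exact_mod_cast hXs0) θ
    have h3 : (0 : ℝ) < Q' := lt_of_lt_of_le h2 h1
    exact_mod_cast h3
  have hQ'Q : Q' ≤ Q := (hR i0).le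
  have hQ'X : Q' ≤ X := by
    refine hQ'Q.trans (le_trans ?_ hQX)
    calc Q = Q ^ 1 := (pow_one Q).symm
      _ ≤ Q ^ 8 := Nat.pow_le_pow_right (by omega) (by norm_num)
  have hpx := (Pool.Agent.Lib.H68T.mem_PC.1 hD.mem)
  have hD2D1 : D2 ≤ D1 := (Nat.le_mul_of_pos_left D2 hpx.1).trans hD.hD2
  have hpxD1 : px.1 ≤ D1 := (Nat.le_mul_of_pos_right px.1 hD.D2_pos).trans hD.hD2
  have hD11 : 1 ≤ D1 := hD.D2_pos.trans hD2D1
  have hD1D : D1 ≤ D := (Nat.le_mul_of_pos_left D1 hD11).trans hD.hD1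
  have hXQ' : (X : ℝ) ^ θ ≤ Q' := by
    refine le_trans ?_ (hR i0).low
    exact Real.rpow_le_rpow hXp.le (by exact_mod_cast (hXs i0).1) hθ.le
  have hXD2 : (X : ℝ) ^ (θ * δ3) ≤ D2 := by
    rw [Real.rpow_mul hXp.le]
    exact (Real.rpow_le_rpow (by positivity) hXQ' hδ3.le).trans hD2
  have hPC : PC Q' ⊆ PC Q := by
    intro p hp
    have h1 := Pool.Agent.Lib.H68T.mem_PC.1 hp
    exact Pool.Agent.Lib.H68T.mem_PC.2 ⟨h1.1, h1.2.1.trans hQ'Q, h1.2.2⟩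
  -- the values
  have hval : ∀ i, ∀ n ∈ range L, (Xs i : ℤ) ≤ S.val b n t i ∧ S.val b n t i ≤ 4 * Xs i := by
    intro i n hn
    have h1 := hJ i n hn
    unfold JJ at h1
    rw [mem_Ico] at h1
    omega
  have h0L : 0 ∈ range L := mem_range.2 (by omega)
  have hmin' : ∀ i j, i ≠ j → S.minr b t i j ≠ 0 ∧ |S.minr b t i j| ≤ (X : ℤ) ^ 3 := by
    intro i j hij
    refine ⟨hmin i j hij, ?_⟩
    have hv : ∀ i, |S.val b 0 t i| ≤ 4 * (C0 : ℤ) * X := by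
      intro i
      have h1 := hval i 0 h0L
      have h2 : (Xs i : ℤ) ≤ C0 * X := by exact_mod_cast (hXs i).2
      rw [Nat.cast_zero] at h1
      rw [abs_le]
      constructor
      · have h3 : (0 : ℤ) ≤ Xs i := Int.natCast_nonneg _
        nlinarith
      · linarith
    have hA0 : (0 : ℤ) ≤ A := Int.natCast_nonneg A
    have h3 : |S.minr b t i j| ≤ A * (4 * (C0 : ℤ) * X) + A * (4 * (C0 : ℤ) * X) := by
      unfold Sys.minr
      refine (abs_sub _ _).trans (add_le_add ?_ ?_)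
      · rw [abs_mul]
        exact mul_le_mul (hA i) (hv j) (abs_nonneg _) hA0
      · rw [abs_mul]
        exact mul_le_mul (hA j) (hv i) (abs_nonneg _) hA0
    have h4 : (8 * A * C0 : ℤ) ≤ X := by exact_mod_cast hXA
    have h5 : (1 : ℤ) ≤ X := by exact_mod_cast (by omega : 1 ≤ X)
    calc |S.minr b t i j| ≤ A * (4 * (C0 : ℤ) * X) + A * (4 * (C0 : ℤ) * X) := h3
      _ = (8 * A * C0 : ℤ) * X := by ring
      _ ≤ X * X := mul_le_mul_of_nonneg_right h4 (by linarith)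
      _ ≤ (X : ℤ) ^ 3 := by nlinarith [mul_nonneg (by linarith : (0 : ℤ) ≤ X) (by linarith : (0 : ℤ) ≤ X)]
  -- the tail of the singular series
  have hτ : ∀ R : ℕ, 1 ≤ R → R ≤ D1 →
      |∑ e ∈ SF (D / R) R, tdS S b t e - SSS S b t ((Pool.Agent.Lib.H59P.pr Q').filter (fun l : ℕ => ¬ l ∣ R))| ≤
        (X : ℝ) ^ (-(θ * δ3 / 8)) := by
    intro R hR1 hRD
    have h1 : D1 ≤ D / R := by
      rw [Nat.le_div_iff_mul_le hR1]
      exact (Nat.mul_le_mul_left D1 hRD).trans hD.hD1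
    have h2 : 1 ≤ D / R := hD11.trans h1
    have h3 : D / R ≤ Q' := (Nat.div_le_self _ _).trans hD.hD
    refine (hXT X Q' hXT' hQ'X b t hmin' R (D / R) h2 h3).trans ?_
    have h4 : (X : ℝ) ^ (θ * δ3) ≤ ((D / R : ℕ) : ℝ) := hXD2.trans (by exact_mod_cast hD2D1.trans h1)
    have h5 : ((D / R : ℕ) : ℝ) ^ (-(1 / 4) : ℝ) ≤ ((X : ℝ) ^ (θ * δ3)) ^ (-(1 / 4) : ℝ) :=
      Real.rpow_le_rpow_of_nonpos (Real.rpow_pos_of_pos hXp _) h4 (by norm_num)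
    calc ((D / R : ℕ) : ℝ) ^ (-(1 / 4) : ℝ) * (X : ℝ) ^ (θ * δ3 / 8)
        ≤ ((X : ℝ) ^ (θ * δ3)) ^ (-(1 / 4) : ℝ) * (X : ℝ) ^ (θ * δ3 / 8) :=
          mul_le_mul_of_nonneg_right h5 (by positivity)
      _ = (X : ℝ) ^ (-(θ * δ3 / 8)) := by
          rw [← Real.rpow_mul hXp.le, ← Real.rpow_add hXp]
          ring_nf
  have herr : (2 * C1 * (1 + Real.log Q')) ^ k * (X : ℝ) ^ (-(θ * δ3 / 8)) ≤ E / 4 := by
    have h1 := hXL X hXL'
    have hlQ : Real.log Q' ≤ Real.log X := Real.log_le_log (by exact_mod_cast hQ'1) (by exact_mod_cast hQ'X)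
    have hlQ0 : 0 ≤ Real.log Q' := Real.log_nonneg (by exact_mod_cast hQ'1)
    have h2 : (2 * C1 * (1 + Real.log Q')) ^ k ≤ (2 * C1 * (1 + Real.log X)) ^ k := by
      gcongr
    have h3 : (X : ℝ) ^ (-(θ * δ3) / 32) ≤ η ^ k := by
      calc (X : ℝ) ^ (-(θ * δ3) / 32) ≤ ((X : ℝ) ^ (-ε1)) ^ k := by
            rw [← Real.rpow_natCast, ← Real.rpow_mul hXp.le]
            refine Real.rpow_le_rpow_of_exponent_le hXr ?_
            have h5 : ε1 * k ≤ θ * δ3 / 32 := by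
              have hk1 : (0 : ℝ) < 32 * ((k : ℝ) + 1) := by positivity
              rw [hε1, div_mul_eq_mul_div, div_le_div_iff₀ hk1 (by norm_num)]
              nlinarith [mul_pos hθ hδ3]
            linarith
        _ ≤ η ^ k := pow_le_pow_left₀ (by positivity) hη k
    have h4 : Real.exp (4 * k) * Real.exp (-(4 * k : ℝ)) = 1 := by
      rw [← Real.exp_add, add_neg_cancel, Real.exp_zero]
    have h5 : (X : ℝ) ^ (3 * (θ * δ3) / 32) * (X : ℝ) ^ (-(θ * δ3 / 8)) = (X : ℝ) ^ (-(θ * δ3) / 32) := by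
      rw [← Real.rpow_add hXp]
      ring_nf
    have hx8 : (0 : ℝ) < (X : ℝ) ^ (-(θ * δ3 / 8)) := Real.rpow_pos_of_pos hXp _
    have he : (0 : ℝ) < Real.exp (-(4 * k : ℝ)) := Real.exp_pos _
    calc (2 * C1 * (1 + Real.log Q')) ^ k * (X : ℝ) ^ (-(θ * δ3 / 8))
        ≤ (2 * C1 * (1 + Real.log X)) ^ k * (X : ℝ) ^ (-(θ * δ3 / 8)) := mul_le_mul_of_nonneg_right h2 hx8.le
      _ = ((2 * C1 * (1 + Real.log X)) ^ k * (4 * Real.exp (4 * k))) * (X : ℝ) ^ (-(θ * δ3 / 8)) * Real.exp (-(4 * k : ℝ)) / 4 := by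
          linear_combination (-((2 * C1 * (1 + Real.log X)) ^ k * (X : ℝ) ^ (-(θ * δ3 / 8)))) * h4
      _ ≤ (X : ℝ) ^ (3 * (θ * δ3) / 32) * (X : ℝ) ^ (-(θ * δ3 / 8)) * Real.exp (-(4 * k : ℝ)) / 4 := by
          gcongr
      _ ≤ η ^ k * Real.exp (-(4 * k : ℝ)) / 4 := by
          rw [h5]
          gcongr
      _ = E / 4 := by rw [hE]
  -- one cell
  have hcell : ∀ j ∈ range (L / H), (H : ℝ) * (E / 4) ≤
      (((H : ℕ) : ℂ) * MCS S b t Q' D D1 px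
        (fun i p => Bc Q (Xs i) p (S.val b ((j * H : ℕ) : ℤ) t i))).re := by
    intro j hj
    rw [mem_range] at hj
    have hjL : j * H ∈ range L := by
      rw [mem_range]
      have h1 : (j + 1) * H ≤ L := (Nat.mul_le_mul_right H hj).trans (Nat.div_mul_le_self L H)
      have h2 : (j + 1) * H = j * H + H := by ring
      omega
    have hm := fun i => hval i (j * H) hjL
    choose mb hmb1 hmb2 hmb3 using fun i => hmass Q (Xs i) ((hR i).reg.mono (by positivity) (le_max_left _ _))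
    choose eb heb1 heb2 heb3 using hD.cf
    have hZ := Z3S S b t hAdm Q' D D1 hQ'1 hD.hD hD1D px hD.mem hD.real hpxD1 η E0 hη0 hD.E0_nonneg hD.E0_le
      (fun i => th (S.val b ((j * H : ℕ) : ℤ) t i)) (fun i => hD.nonneg i _ (hm i).1 (hm i).2)
      (fun i => hD.le i _ (hm i).1 (hm i).2) (fun h i => hD.triv h _) C1 hC1
      (fun i p => Bc Q (Xs i) p (S.val b ((j * H : ℕ) : ℤ) t i))
      (fun i => by
        refine (Finset.sum_le_sum fun p hp => hmb3 i _ (hm i).1 (hm i).2 p (hPC hp)).trans ?_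
        exact (Finset.sum_le_sum_of_subset_of_nonneg hPC fun p hp _ => hmb1 i p hp).trans (hmb2 i))
      eb heb1 heb2 (fun i p hp hp1 => heb3 i _ (hm i).1 (hm i).2 p hp hp1) _ hτ
    rw [← Complex.ofReal_natCast, Complex.re_ofReal_mul]
    refine mul_le_mul_of_nonneg_left ?_ (Nat.cast_nonneg H)
    rw [← hE] at hZ
    linarith
  rw [Complex.re_sum]
  have hnH' : (X : ℝ) ≤ 2 * (((L / H : ℕ) : ℝ) * H) := by exact_mod_cast hnH
  calc (X : ℝ) * (η ^ k * Real.exp (-(4 * k : ℝ))) / 8 ≤ ((L / H : ℕ) : ℝ) * ((H : ℝ) * (E / 4)) := by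
        rw [← hE]
        nlinarith
    _ = ∑ _j ∈ range (L / H), (H : ℝ) * (E / 4) := by rw [sum_const, card_range, nsmul_eq_mul]
    _ ≤ _ := Finset.sum_le_sum hcell

end Pool.Agent.H9U
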