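import Pool.Agent.Lib.H9U.Z4A
import Pool.Agent.Lib.H9U.Z4B
import Pool.Agent.Lib.H9U.T6

/-!
# H9U, chunk Z4 (M): few `t` with few prime values, for given data of the small level
-/

open Finset

namespace Pool.Agent.H9U

open Pool.Agent.Lib.H68T (lp Lk PC p0)
open Pool.Agent.Lib.H18Q (gk KS SG Bc RegP)
open Pool.Agent.Lib.H59P (Ch SF bx TS Rp MX pr)

lemma z4_large (c M : ℝ) (hc : 0 < c) : ∃ X0 : ℕ, ∀ X : ℕ, X0 ≤ X → M ≤ (X : ℝ) ^ c := by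
  have h1 : Filter.Tendsto (fun X : ℕ => (X : ℝ) ^ c) Filter.atTop Filter.atTop :=
    (tendsto_rpow_atTop hc).comp tendsto_natCast_atTop_atTop
  exact Filter.eventually_atTop.1 (h1.eventually_ge_atTop M)

lemma z4_rgm {K K' Cr θ : ℝ} {Q Q' X : ℕ} (h : Rgm K Cr θ Q Q' X) (h0 : 0 ≤ K) (hK : K' ≤ K) :
    Rgm K' Cr θ Q Q' X := ⟨h.reg.mono h0 hK, h.log, h.low, h.le⟩

lemma z4_card_bx (d T : ℕ) : (bx d T).card = T ^ d := by
  unfold bx
  rw [Fintype.card_piFinset, Finset.prod_const, Finset.card_univ, Fintype.card_fin, Finset.card_range]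

lemma z4_QX {K : ℝ} {Q X : ℕ} (h : RegP K Q X) (hK : 1 ≤ K) (hX : 0 < X) : Q ≤ X := by
  obtain ⟨h1, h2, h3⟩ := h
  rcases Nat.eq_zero_or_pos Q with h0 | h0
  · omega
  · have hQ0 : 0 ≤ Real.log Q := Real.log_natCast_nonneg Q
    have h4 : Real.log Q ≤ Real.log X := by
      calc Real.log Q = 1 * Real.log Q := (one_mul _).symm
        _ ≤ K * Real.log Q := mul_le_mul_of_nonneg_right hK hQ0
        _ ≤ _ := h3
    have h5 := (Real.log_le_log_iff (by exact_mod_cast h0) (by exact_mod_cast hX)).1 h4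
    exact_mod_cast h5

/-- the case of small `T`. -/
lemma z4_small {d : ℕ} (hd : 1 ≤ d) (C0 X T n : ℕ) (hX : 1 ≤ X) (κ : ℝ) (hκ : κ ≤ 1 / 4)
    (h1 : T * T ≤ C0 * X) (h2 : n ≤ T ^ d) (h3 : (C0 : ℝ) ^ d ≤ (X : ℝ) ^ (1 / 2 : ℝ)) :
    (n : ℝ) ≤ (X : ℝ) ^ ((d : ℝ) - κ) := by
  have hX0 : (0 : ℝ) < X := by exact_mod_cast hX
  have hX1 : (1 : ℝ) ≤ X := by exact_mod_cast hX
  have hd1 : (1 : ℝ) ≤ d := by exact_mod_cast hd
  have e1 : n ^ 2 ≤ (C0 * X) ^ d := by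
    calc n ^ 2 ≤ (T ^ d) ^ 2 := Nat.pow_le_pow_left h2 2
      _ = (T * T) ^ d := by rw [← pow_mul, mul_comm d 2, pow_mul, sq]
      _ ≤ (C0 * X) ^ d := Nat.pow_le_pow_left h1 d
  have e2 : (n : ℝ) ^ 2 ≤ (C0 : ℝ) ^ d * (X : ℝ) ^ d := by
    rw [← mul_pow]
    exact_mod_cast e1
  have e3 : (n : ℝ) ^ 2 ≤ ((X : ℝ) ^ ((d : ℝ) - κ)) ^ 2 := by
    calc (n : ℝ) ^ 2 ≤ (C0 : ℝ) ^ d * (X : ℝ) ^ d := e2
      _ ≤ (X : ℝ) ^ (1 / 2 : ℝ) * (X : ℝ) ^ d := mul_le_mul_of_nonneg_right h3 (by positivity)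
      _ = (X : ℝ) ^ (1 / 2 + (d : ℝ)) := by
        rw [Real.rpow_add hX0, Real.rpow_natCast]
      _ ≤ (X : ℝ) ^ (((d : ℝ) - κ) * 2) := Real.rpow_le_rpow_of_exponent_le hX1 (by linarith)
      _ = _ := by
        rw [Real.rpow_mul hX0.le]
        norm_num
  exact (pow_le_pow_iff_left₀ (Nat.cast_nonneg n) (by positivity) two_ne_zero).1 e3

open Classical in
/-- the `t` with a vanishing minor. -/
lemma z4_minor {k d : ℕ} (S : Sys k d) (hS : S.Half) (hd : 1 ≤ d) (b : Fin k → ℤ) (T : ℕ) (hT : 0 < T) :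
    ((bx d T).filter (fun t => ∃ i j, i ≠ j ∧ S.minr b (iv t) i j = 0)).card ≤ k * k * T ^ (d - 1) := by
  have h1 : (bx d T).filter (fun t => ∃ i j, i ≠ j ∧ S.minr b (iv t) i j = 0) ⊆
      (univ : Finset (Fin k)).offDiag.biUnion
        (fun ij => (bx d T).filter (fun t => S.minr b (iv t) ij.1 ij.2 = 0)) := by
    intro t ht
    rw [Finset.mem_filter] at ht
    obtain ⟨h0, i, j, hij, hm⟩ := ht
    rw [Finset.mem_biUnion]
    exact ⟨(i, j), Finset.mem_offDiag.2 ⟨mem_univ _, mem_univ _, hij⟩, Finset.mem_filter.2 ⟨h0, hm⟩⟩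
  refine (Finset.card_le_card h1).trans ?_
  refine (Finset.card_biUnion_le_card_mul _ _ (T ^ (d - 1)) ?_).trans ?_
  · intro ij hij
    rw [Finset.mem_offDiag] at hij
    have h2 := T6S_card S hS ij.1 ij.2 hij.2.2 b T
    have h3 : T ^ d = T ^ (d - 1) * T := by
      rw [← pow_succ]
      congr 1
      omega
    rw [h3] at h2
    exact Nat.le_of_mul_le_mul_right h2 hT
  · refine Nat.mul_le_mul_right _ ?_
    rw [Finset.offDiag_card, Finset.card_univ, Fintype.card_fin]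
    exact Nat.sub_le _ _

/-- the bound for the exceptional set. -/
lemma z4_exc {k d : ℕ} (X n : ℕ) (hX : 1 ≤ X) (η κ' : ℝ)
    (hη : (X : ℝ) ^ (-(κ' / 4)) ≤ η ^ k)
    (h1 : (n : ℝ) * (X * (η ^ k * Real.exp (-(4 * k : ℝ))) / 16) ≤ (X : ℝ) ^ (1 + (d : ℝ) - κ'))
    (h2 : 32 * Real.exp (4 * k : ℝ) ≤ (X : ℝ) ^ (κ' / 2)) :
    (n : ℝ) ≤ (X : ℝ) ^ ((d : ℝ) - κ' / 4) / 2 := by
  have hX0 : (0 : ℝ) < X := by exact_mod_cast hX
  have hn : (0 : ℝ) ≤ n := Nat.cast_nonneg n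
  have hW : 0 < (X : ℝ) ^ (1 - κ' / 4) := Real.rpow_pos_of_pos hX0 _
  have e0 : (X : ℝ) * (X : ℝ) ^ (-(κ' / 4)) = (X : ℝ) ^ (1 - κ' / 4) := by
    rw [sub_eq_add_neg, Real.rpow_add hX0, Real.rpow_one]
  have e1 : (X : ℝ) ^ (1 - κ' / 4) * (n * (Real.exp (-(4 * k : ℝ)) / 16)) ≤
      (X : ℝ) ^ (1 - κ' / 4) * (X : ℝ) ^ ((d : ℝ) - 3 * κ' / 4) := by
    have e2 : (X : ℝ) ^ (1 - κ' / 4) * (X : ℝ) ^ ((d : ℝ) - 3 * κ' / 4) = (X : ℝ) ^ (1 + (d : ℝ) - κ') := by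
      rw [← Real.rpow_add hX0]
      congr 1
      ring
    rw [e2]
    refine le_trans ?_ h1
    have e3 : (X : ℝ) ^ (1 - κ' / 4) * (n * (Real.exp (-(4 * k : ℝ)) / 16)) =
        n * (X * ((X : ℝ) ^ (-(κ' / 4)) * Real.exp (-(4 * k : ℝ))) / 16) := by
      rw [← e0]
      ring
    rw [e3]
    refine mul_le_mul_of_nonneg_left ?_ hn
    refine div_le_div_of_nonneg_right ?_ (by norm_num)
    refine mul_le_mul_of_nonneg_left ?_ hX0.le
    exact mul_le_mul_of_nonneg_right hη (Real.exp_pos _).le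
  have e4 := le_of_mul_le_mul_left e1 hW
  have e5 : (n : ℝ) ≤ 16 * Real.exp (4 * k : ℝ) * (X : ℝ) ^ ((d : ℝ) - 3 * κ' / 4) := by
    have e6 : Real.exp (4 * k : ℝ) * Real.exp (-(4 * k : ℝ)) = 1 := by
      rw [← Real.exp_add, add_neg_cancel, Real.exp_zero]
    have e7 : (n : ℝ) = 16 * Real.exp (4 * k : ℝ) * (n * (Real.exp (-(4 * k : ℝ)) / 16)) := by
      have : 16 * Real.exp (4 * k : ℝ) * (n * (Real.exp (-(4 * k : ℝ)) / 16)) =
        n * (Real.exp (4 * k : ℝ) * Real.exp (-(4 * k : ℝ))) := by ring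
      rw [this, e6, mul_one]
    rw [e7]
    exact mul_le_mul_of_nonneg_left e4 (by positivity)
  have e8 : (X : ℝ) ^ ((d : ℝ) - κ' / 4) = (X : ℝ) ^ (κ' / 2) * (X : ℝ) ^ ((d : ℝ) - 3 * κ' / 4) := by
    rw [← Real.rpow_add hX0]
    congr 1
    ring
  rw [e8]
  have e9 : 0 ≤ (X : ℝ) ^ ((d : ℝ) - 3 * κ' / 4) := Real.rpow_nonneg hX0.le _
  have e10 := mul_le_mul_of_nonneg_right h2 e9
  linarith

open Classical in
/-- Proof. If `T < Q'^(10 (k+1)) ≤ Q ≤ X^(1/20)` the count is at most `T^d ≤ X^(d/2) ≤ X^(d-κ)` (`d ≥ 1`). Otherwise let `E(t)` be the summand of `Z4A_avg`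
(exponent `κ'`). By `Z4B_low` every `t` of the set has a vanishing minor (at most `k² T^(d-1)`, `T6S_card`) or `E(t) ≥ X η^k exp(-4k)/16`, and the number of the latter is at most
`16 e^(4k) X^(k ε1) X^(d - κ')`. `ε1` the minimum of that of `Z4B_low` and `κ'/(4k)` (the hypothesis `X^(-ε1) ≤ η` is stronger for a smaller `ε1`), `κ = min κ' 1/4`. -/
theorem Z4_count (hI : Pool.Agent.H9S.INV) {k d : ℕ} (hk : 1 ≤ k) (hd : 1 ≤ d) (S : Sys k d) (hS : S.Half) (hL : LBig S) :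
    ∃ K : ℝ, 1 ≤ K ∧
    ∀ Cr θ δ3 : ℝ, 1 ≤ Cr → 0 < θ → 0 < δ3 → ∀ C0 : ℕ, ∃ κ ε1 : ℝ, 0 < κ ∧ 0 < ε1 ∧ ∃ X0 : ℕ, ∀ Q Q' X : ℕ, X0 ≤ X →
    ∀ Xs : Fin k → ℕ, (∀ i, X ≤ Xs i ∧ Xs i ≤ C0 * X) → (∀ i, Rgm K Cr θ Q Q' (Xs i)) → Q' ^ (20 * (k + 1)) ≤ Q →
    ∀ (D D1 D2 : ℕ) (η E0 : ℝ) (px : Ch) (th : ℤ → ℝ), Dat k Q Q' D D1 D2 η E0 px th Xs → (Q' : ℝ) ^ δ3 ≤ D2 →
    (X : ℝ) ^ (-ε1) ≤ η → ∀ (b : Fin k → ℤ) (L T : ℕ), X ≤ L → L ≤ C0 * X → T ≤ C0 * X →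
    (∀ i, ∀ n ∈ range L, ∀ t ∈ bx d T, S.val b n (iv t) i ∈ JJ (Xs i)) →
    (((bx d T).filter (fun t => S.Adm b (iv t) ∧ ∑ n ∈ range L, ∏ i, lp (S.val b n (iv t) i) <
      X * (η ^ k * Real.exp (-(4 * k : ℝ))) / 16)).card : ℝ) ≤ (X : ℝ) ^ (d - κ) := by
  obtain ⟨K1, hK1, H1⟩ := Z4A_avg hI hk S hS hL
  obtain ⟨K2, hK2, H2⟩ := Z4B_low hk S hS.1
  have hKm : 1 ≤ max K1 K2 := hK1.trans (le_max_left _ _)
  refine ⟨max K1 K2, hKm, ?_⟩
  intro Cr θ δ3 hCr hθ hδ3 C0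
  obtain ⟨κ', hκ', Xa, H1⟩ := H1 Cr θ δ3 hCr hθ hδ3 C0
  obtain ⟨ε', hε', Xb, H2⟩ := H2 Cr θ δ3 hCr hθ hδ3 C0
  have hk0 : (0 : ℝ) < k := by exact_mod_cast hk
  have hε1 : 0 < min ε' (κ' / (4 * k)) := lt_min hε' (by positivity)
  have hκ : 0 < min κ' 1 / 4 := by
    have := lt_min hκ' one_pos
    positivity
  have hκa : min κ' 1 / 4 ≤ 1 / 4 := by
    have := min_le_right κ' (1 : ℝ)
    linarith
  have hκb : min κ' 1 / 4 ≤ κ' / 4 := by
    have := min_le_left κ' (1 : ℝ)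
    linarith
  obtain ⟨Xc, hXc⟩ := z4_large (1 / 2) ((C0 : ℝ) ^ d) (by norm_num)
  obtain ⟨Xd, hXd⟩ := z4_large (1 / 2) (2 * (k * k * (C0 : ℝ) ^ (d - 1))) (by norm_num)
  obtain ⟨Xe, hXe⟩ := z4_large (κ' / 2) (32 * Real.exp (4 * k : ℝ)) (by positivity)
  refine ⟨min κ' 1 / 4, min ε' (κ' / (4 * k)), hκ, hε1,
    max (max Xa Xb) (max (max Xc Xd) (max Xe 1)), ?_⟩
  intro Q Q' X hX Xs hXs hR hQQ D D1 D2 η E0 px th hDat hD2 hη b L T hXL hL1 hT hJ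
  have g1 : Xa ≤ X := le_trans (le_trans (le_max_left _ _) (le_max_left _ _)) hX
  have g2 : Xb ≤ X := le_trans (le_trans (le_max_right _ _) (le_max_left _ _)) hX
  have g3 : Xc ≤ X := le_trans (le_trans (le_trans (le_max_left _ _) (le_max_left _ _)) (le_max_right _ _)) hX
  have g4 : Xd ≤ X := le_trans (le_trans (le_trans (le_max_right _ _) (le_max_left _ _)) (le_max_right _ _)) hX
  have g5 : Xe ≤ X := le_trans (le_trans (le_trans (le_max_left _ _) (le_max_right _ _)) (le_max_right _ _)) hX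
  have hX1 : 1 ≤ X := le_trans (le_trans (le_trans (le_max_right _ _) (le_max_right _ _)) (le_max_right _ _)) hX
  have hX0r : (0 : ℝ) < X := by exact_mod_cast hX1
  have hX1r : (1 : ℝ) ≤ X := by exact_mod_cast hX1
  have f1 := hXc X g3
  have f2 := hXd X g4
  have f3 := hXe X g5
  have i0 : Fin k := ⟨0, hk⟩
  by_cases hT1 : T < Q' ^ (10 * (k + 1))
  · -- small `T`
    refine z4_small hd C0 X T _ hX1 _ hκa ?_ ((card_filter_le _ _).trans (z4_card_bx d T).le) f1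
    have h1 : T * T ≤ Q' ^ (20 * (k + 1)) := by
      calc T * T ≤ Q' ^ (10 * (k + 1)) * Q' ^ (10 * (k + 1)) := Nat.mul_le_mul hT1.le hT1.le
        _ = Q' ^ (20 * (k + 1)) := by
          rw [← pow_add]
          congr 1
          ring
    have h2 : Q ≤ Xs i0 := z4_QX (hR i0).reg hKm (lt_of_lt_of_le hX1 (hXs i0).1)
    exact h1.trans (hQQ.trans (h2.trans (hXs i0).2))
  · have hT1 : Q' ^ (10 * (k + 1)) ≤ T := not_lt.1 hT1
    -- `T` is positive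
    have hQ' : 0 < Q' := by
      have h1 := (hR i0).low
      have h2 : (0 : ℝ) < (Xs i0 : ℝ) := by exact_mod_cast lt_of_lt_of_le hX1 (hXs i0).1
      have h3 : (0 : ℝ) < (Q' : ℝ) := lt_of_lt_of_le (Real.rpow_pos_of_pos h2 θ) h1
      exact_mod_cast h3
    have hT0 : 0 < T := lt_of_lt_of_le (pow_pos hQ' _) hT1
    -- the error terms
    have hRa : ∀ i, Rgm K1 Cr θ Q Q' (Xs i) := fun i =>
      z4_rgm (hR i) (by linarith) (le_max_left _ _)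
    have hRb : ∀ i, Rgm K2 Cr θ Q Q' (Xs i) := fun i =>
      z4_rgm (hR i) (by linarith) (le_max_right _ _)
    have hD1D : D1 ≤ D := (Nat.le_mul_self D1).trans hDat.hD1
    have avg := H1 Q Q' X g1 Xs hXs hRa hQQ D D1 D2 px hDat.D2_pos hDat.hD2 hD1D hDat.hD hDat.mem
      hD2 b L T hL1 hT hT1 hJ
    have hη' : (X : ℝ) ^ (-ε') ≤ η := by
      refine le_trans (Real.rpow_le_rpow_of_exponent_le hX1r ?_) hη
      exact neg_le_neg (min_le_left _ _)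
    have hηk : (X : ℝ) ^ (-(κ' / 4)) ≤ η ^ k := by
      have h1 : (X : ℝ) ^ (-(κ' / (4 * k))) ≤ η := by
        refine le_trans (Real.rpow_le_rpow_of_exponent_le hX1r ?_) hη
        exact neg_le_neg (min_le_right _ _)
      have h2 := pow_le_pow_left₀ (Real.rpow_nonneg hX0r.le _) h1 k
      rw [← Real.rpow_natCast, ← Real.rpow_mul hX0r.le] at h2
      have h3 : -(κ' / (4 * k)) * (k : ℝ) = -(κ' / 4) := by
        field_simp
      rw [h3] at h2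
      exact h2
    obtain ⟨A, hA⟩ : ∃ A, A = (bx d T).filter (fun t => S.Adm b (iv t) ∧
      ∑ n ∈ range L, ∏ i, lp (S.val b n (iv t) i) < X * (η ^ k * Real.exp (-(4 * k : ℝ))) / 16) := ⟨_, rfl⟩
    rw [← hA]
    obtain ⟨G, hG⟩ : ∃ G, G = A.filter (fun t => ¬ ∃ i j, i ≠ j ∧ S.minr b (iv t) i j = 0) := ⟨_, rfl⟩
    have hcard : A.card ≤ k * k * T ^ (d - 1) + G.card := by
      rw [← Finset.card_filter_add_card_filter_not (s := A) (fun t => ∃ i j, i ≠ j ∧ S.minr b (iv t) i j = 0), ← hG]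
      refine Nat.add_le_add_right ?_ _
      refine le_trans (Finset.card_le_card ?_) (z4_minor S hS hd b T hT0)
      intro t ht
      rw [Finset.mem_filter, hA, Finset.mem_filter] at ht
      exact Finset.mem_filter.2 ⟨ht.1.1, ht.2⟩
    -- the set `G`
    have hGb : (G.card : ℝ) * (X * (η ^ k * Real.exp (-(4 * k : ℝ))) / 16) ≤ (X : ℝ) ^ (1 + (d : ℝ) - κ') := by
      refine le_trans ?_ avg
      have hsub : G ⊆ bx d T := by
        intro t ht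
        rw [hG, Finset.mem_filter, hA, Finset.mem_filter] at ht
        exact ht.1.1
      refine le_trans ?_ (Finset.sum_le_sum_of_subset_of_nonneg hsub fun _ _ _ => norm_nonneg _)
      rw [← nsmul_eq_mul]
      refine Finset.card_nsmul_le_sum _ _ _ ?_
      intro t ht
      have ht' := ht
      rw [hG, Finset.mem_filter, hA, Finset.mem_filter] at ht'
      obtain ⟨⟨htb, hadm, hlt⟩, hmin⟩ := ht'
      have hmin' : ∀ i j, i ≠ j → S.minr b (iv t) i j ≠ 0 := fun i j hij h0 => hmin ⟨i, j, hij, h0⟩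
      have low := H2 Q Q' X g2 Xs hXs hRb D D1 D2 η E0 px th hDat hD2 hη' b L (iv t) hXL hadm hmin'
        (fun i n hn => hJ i n hn t htb)
      have h1 := Complex.abs_re_le_norm (((∑ n ∈ range L, ∏ i, lp (S.val b n (iv t) i) : ℝ) : ℂ) -
        ∑ j ∈ range (L / (X / Q ^ 8)), ((X / Q ^ 8 : ℕ) : ℂ) * MCS S b (iv t) Q' D D1 px
        (fun i p => Bc Q (Xs i) p (S.val b ((j * (X / Q ^ 8) : ℕ) : ℤ) (iv t) i)))
      refine le_trans ?_ h1
      rw [Complex.sub_re, Complex.ofReal_re]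
      have h2 := neg_le_abs ((∑ n ∈ range L, ∏ i, lp (S.val b n (iv t) i) : ℝ) -
        (∑ j ∈ range (L / (X / Q ^ 8)), ((X / Q ^ 8 : ℕ) : ℂ) * MCS S b (iv t) Q' D D1 px
        (fun i p => Bc Q (Xs i) p (S.val b ((j * (X / Q ^ 8) : ℕ) : ℤ) (iv t) i))).re)
      refine le_trans ?_ h2
      linarith
    have hG2 := z4_exc (d := d) X G.card hX1 η κ' hηk hGb f3
    have hG3 : (X : ℝ) ^ ((d : ℝ) - κ' / 4) ≤ (X : ℝ) ^ ((d : ℝ) - min κ' 1 / 4) :=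
      Real.rpow_le_rpow_of_exponent_le hX1r (by linarith)
    have hB : ((k * k * T ^ (d - 1) : ℕ) : ℝ) ≤ (X : ℝ) ^ ((d : ℝ) - min κ' 1 / 4) / 2 := by
      have h1 : ((k * k * T ^ (d - 1) : ℕ) : ℝ) ≤ k * k * ((C0 : ℝ) * X) ^ (d - 1) := by
        push_cast
        refine mul_le_mul_of_nonneg_left ?_ (by positivity)
        exact pow_le_pow_left₀ (Nat.cast_nonneg T) (by exact_mod_cast hT) _
      have h2 : (X : ℝ) ^ (d - 1 : ℕ) = (X : ℝ) ^ ((d : ℝ) - 1) := by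
        rw [← Real.rpow_natCast]
        congr 1
        push_cast [hd]
        ring
      have h3 : (X : ℝ) ^ (1 / 2 : ℝ) * (X : ℝ) ^ ((d : ℝ) - 1) ≤ (X : ℝ) ^ ((d : ℝ) - min κ' 1 / 4) := by
        rw [← Real.rpow_add hX0r]
        exact Real.rpow_le_rpow_of_exponent_le hX1r (by linarith)
      rw [mul_pow, h2] at h1
      have h4 := mul_le_mul_of_nonneg_right f2 (Real.rpow_nonneg hX0r.le ((d : ℝ) - 1))
      linarith
    have hfin : (A.card : ℝ) ≤ ((k * k * T ^ (d - 1) : ℕ) : ℝ) + (G.card : ℝ) := by exact_mod_cast hcard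
    linarith

end Pool.Agent.H9U
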