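import Pool.Agent.Lib.H9U.A2
import Pool.Agent.Lib.H59P.YD

/-!
# H9U, chunk A3 (M): one level for all lengths between `X` and `C0 X`
-/

open Finset

namespace Pool.Agent.H9U

open Pool.Agent.Lib.H68T Pool.Agent.Lib.H18Q Pool.Agent.Lib.H59P

/-- **A3.** `K'` the constant of the regime, `E` the size of the error of the model.

Proof. `mdb_level` with constants `K, C`. Choose `kp ≥ max(K, K', 2) + 1` with `2 C exp(-(kp/C)) ≤ E/2`, `Q1 = ⌊X^(1/kp)⌋` (`X` large), which gives `Q ≤ Q1`, `log Q1 ≤ 200 log Q`;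
`Cr = 1000 kp`: `log (C0 X) ≤ 2 log X ≤ 4 kp log Q1 ≤ 800 kp log Q`. Also `2 Q^(-1/4) ≤ E/2` for `X` large (`log Q ≥ log X/Cr`), and `kp log Q ≤ kp log Q1 ≤ log X ≤ log Y`,
`RegP K'' Q Y` for `K'' ≤ kp` and `X` large (`K'' log log Y ≤ log Q`). First case (no exceptional zero): `px = p0`, `th = 0`, `η = 1`. Second case: `px = ⟨r, ψ⟩`,
`th m = m^(β-1)`, `η = 1 - X^(β-1)`: for `Y ∈ [X, C0 X]` the model of length `Y` gives `th m ≤ Y^(β-1) ≤ 1 - η` for `m ≥ Y` and coefficients of the error at most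
`(1 - Y^(β-1)) E/2 ≤ η E`: with `u = (1-β) log X`, `(1-β) log Y ≤ 2u`, `1 - e^(-2u) ≤ 2 (1 - e^(-u))`. `η ≥ (1-β) log Q/2 ≥ (1-β)/2` and
`1 - β ≥ m0/(4 r²)` (`yd_zero`, `H59P/YD.lean`, with `ρ = r`); `c0 = min(1, m0/8)`. `px.1^100 ≤ Q` from `ExcZ.cond`. (If `px = p0` were possible in the second case: no, `ψ ≠ 1` is
primitive, so `r ≠ 1`; compare `A4.lean`; this is in `MdB.triv` of the model anyway.) -/
theorem A3S (C0 : ℕ) (hC0 : 1 ≤ C0) (E K' : ℝ) (hE : 0 < E) : ∃ Cr c0 : ℝ, 1 ≤ Cr ∧ 0 < c0 ∧ ∃ X0 : ℕ,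
    ∀ X : ℕ, X0 ≤ X → ∃ Q : ℕ, (∀ Y : ℕ, X ≤ Y → Y ≤ C0 * X → RegP K' Q Y ∧ Real.log Y ≤ Cr * Real.log Q) ∧
    ∃ (px : Ch) (th : ℤ → ℝ) (η : ℝ), px.1 ^ 100 ≤ Q ∧ c0 / (px.1 : ℝ) ^ 2 ≤ η ∧
      ∀ Y : ℕ, X ≤ Y → Y ≤ C0 * X → MdB Q Y η E px th := by
  obtain ⟨c1, K, C, hc1, hc11, hK, hC, hlev⟩ := mdb_level
  obtain ⟨m0, hm0, hm1, hzero⟩ := yd_zero
  obtain ⟨E1, hE1⟩ : ∃ E1 : ℝ, E1 = E / 4 := ⟨_, rfl⟩
  have hE1p : 0 < E1 := by rw [hE1]; positivity
  obtain ⟨Kr, hKr⟩ : ∃ Kr : ℝ, Kr = |K'| + K + 1 := ⟨_, rfl⟩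
  have haK := abs_nonneg K'
  have hleK := le_abs_self K'
  have hKr1 : 1 ≤ Kr := by rw [hKr]; linarith
  have hKrK : K ≤ Kr := by rw [hKr]; linarith
  have hKrK' : K' ≤ Kr := by rw [hKr]; linarith
  obtain ⟨kp, hkpr, hkpe⟩ : ∃ kp : ℝ, Kr ≤ kp ∧ C * Real.exp (-(kp / C)) ≤ E1 := by
    refine ⟨max Kr (C * (C / E1)), le_max_left _ _, ?_⟩
    set kp := max Kr (C * (C / E1))
    have hCp : 0 < C := by linarith
    have h1 : C / E1 ≤ kp / C := by
      rw [le_div_iff₀ hCp]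
      calc C / E1 * C = C * (C / E1) := by ring
        _ ≤ kp := le_max_right _ _
    have h2 : C / E1 ≤ Real.exp (kp / C) := by
      have := Real.add_one_le_exp (kp / C)
      linarith
    rw [Real.exp_neg, ← div_eq_mul_inv, div_le_iff₀ (Real.exp_pos _)]
    rw [div_le_iff₀ hE1p] at h2
    linarith
  have hkp1 : 1 ≤ kp := hKr1.trans hkpr
  obtain ⟨D, hD⟩ : ∃ D : ℝ, D = 400 * kp := ⟨_, rfl⟩
  have hD1 : 400 ≤ D := by rw [hD]; linarith
  have hlogC0 : 0 ≤ Real.log (C0 : ℝ) := Real.log_nonneg (by exact_mod_cast hC0)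
  have hlogE : 0 ≤ Real.log (1 / E1 + 1) := Real.log_nonneg (by
    have : 0 < 1 / E1 := by positivity
    linarith)
  -- large `L`
  obtain ⟨L0, hL0⟩ := Filter.eventually_atTop.mp ((ev_log (2 * D * Kr) 1 one_pos).and
    (Filter.eventually_ge_atTop (Real.exp Kr + Real.log C0 + 2 * D * Kr + kp * (K + 2) +
      D * (4 * Real.log (1 / E1 + 1)) + D)))
  refine ⟨2 * D, min 1 (m0 / 8), by linarith, lt_min one_pos (by positivity), ⌈Real.exp (max L0 1)⌉₊,
    fun X hX => ?_⟩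
  obtain ⟨L, hL⟩ : ∃ L, L = Real.log X := ⟨_, rfl⟩
  have hXe : Real.exp (max L0 1) ≤ (X : ℝ) := (Nat.le_ceil _).trans (by exact_mod_cast hX)
  have hX0 : (0 : ℝ) < X := lt_of_lt_of_le (Real.exp_pos _) hXe
  have hLge : max L0 1 ≤ L := by
    rw [hL, Real.le_log_iff_exp_le hX0]; exact hXe
  have hL1 : 1 ≤ L := (le_max_right _ _).trans hLge
  obtain ⟨e1, e2⟩ := hL0 L ((le_max_left _ _).trans hLge)
  rw [Real.rpow_one] at e1
  have p1 : 0 < Real.exp Kr := Real.exp_pos _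
  have p2 : 0 ≤ 2 * D * Kr := by positivity
  have p3 : 0 ≤ kp * (K + 2) := by positivity
  have p4 : 0 ≤ D * (4 * Real.log (1 / E1 + 1)) := by positivity
  have hLa : Real.exp Kr ≤ L := by linarith
  have hLb : Real.log C0 ≤ L := by linarith
  have hLc : 2 * D * Kr ≤ L := by linarith
  have hLd : kp * (K + 2) ≤ L := by linarith
  have hLe : D * (4 * Real.log (1 / E1 + 1)) ≤ L := by linarith
  have hLf : D ≤ L := by linarith
  -- the scales
  have hY : ∀ Y : ℕ, X ≤ Y → Y ≤ C0 * X → L ≤ Real.log Y ∧ Real.log Y ≤ 2 * L ∧ (0 : ℝ) < Y := by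
    intro Y h1 h2
    have h1' : (X : ℝ) ≤ Y := by exact_mod_cast h1
    have h2' : (Y : ℝ) ≤ C0 * X := by exact_mod_cast h2
    have hY0 : (0 : ℝ) < Y := lt_of_lt_of_le hX0 h1'
    have hC0' : (0 : ℝ) < C0 := by exact_mod_cast hC0
    have h3 := Real.log_le_log hX0 h1'
    have h4 := Real.log_le_log hY0 h2'
    rw [Real.log_mul hC0'.ne' hX0.ne'] at h4
    rw [← hL] at h3 h4
    exact ⟨h3, by linarith, hY0⟩
  -- the level
  obtain ⟨q, hq⟩ : ∃ q, q = L / kp := ⟨_, rfl⟩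
  have hqL : kp * q = L := by rw [hq]; field_simp
  have hq0 : 0 < q := by rw [hq]; positivity
  have hqbig : K + 2 ≤ q := by
    rw [hq, le_div_iff₀ (by linarith)]
    linarith
  obtain ⟨Q1, hQ1⟩ : ∃ Q1, Q1 = ⌊Real.exp q⌋₊ := ⟨_, rfl⟩
  have hexpq : Real.exp 1 ≤ Real.exp q := Real.exp_le_exp.2 (by linarith)
  have he2 : (2 : ℝ) ≤ Real.exp 1 := by linarith [Real.exp_one_gt_d9]
  have hQ1le : (Q1 : ℝ) ≤ Real.exp q := by rw [hQ1]; exact Nat.floor_le (Real.exp_pos q).le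
  have hQ1ge : Real.exp q / 2 ≤ (Q1 : ℝ) := by
    have h1 := Nat.lt_floor_add_one (Real.exp q)
    rw [← hQ1] at h1
    linarith
  have hQ1pos : (0 : ℝ) < Q1 := by
    have := Real.exp_pos q
    linarith
  have hlQ1le : Real.log Q1 ≤ q := by
    rw [Real.log_le_iff_le_exp hQ1pos]; exact hQ1le
  have hlQ1ge : q - 1 ≤ Real.log Q1 := by
    rw [Real.le_log_iff_exp_le hQ1pos]
    refine le_trans ?_ hQ1ge
    rw [Real.exp_sub, div_le_div_iff₀ (Real.exp_pos 1) (by norm_num)]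
    have := mul_le_mul_of_nonneg_left he2 (Real.exp_pos q).le
    linarith
  obtain ⟨Q, hQQ1, hlQ, hcase⟩ := hlev Q1 (by linarith)
  have hQ1pos' : 0 < Q1 := by exact_mod_cast hQ1pos
  have hlQ0 : 0 < Real.log Q := by linarith
  have hQ0 : (0 : ℝ) < Q := by
    rcases Nat.eq_zero_or_pos Q with h | h
    · rw [h, Nat.cast_zero, Real.log_zero] at hlQ0; exact absurd hlQ0 (lt_irrefl _)
    · exact_mod_cast h
  have hlQle : Real.log Q ≤ q := (Real.log_le_log hQ0 (by exact_mod_cast hQQ1)).trans hlQ1le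
  have hLQ : L ≤ D * Real.log Q := by
    have h1 : q ≤ 400 * Real.log Q := by linarith
    calc L = kp * q := hqL.symm
      _ ≤ kp * (400 * Real.log Q) := mul_le_mul_of_nonneg_left h1 (by linarith)
      _ = D * Real.log Q := by rw [hD]; ring
  have hlQ1' : 1 ≤ Real.log Q := by
    have h1 : D * 1 ≤ D * Real.log Q := by linarith
    exact le_of_mul_le_mul_left h1 (by linarith)
  have hreg : ∀ Y : ℕ, X ≤ Y → Y ≤ C0 * X → RegP Kr Q Y ∧ kp * Real.log Q ≤ Real.log Y := by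
    intro Y h1 h2
    obtain ⟨y1, y2, y3⟩ := hY Y h1 h2
    have hkQ : kp * Real.log Q ≤ Real.log Y := by
      have := mul_le_mul_of_nonneg_left hlQle (by linarith : 0 ≤ kp)
      linarith
    refine ⟨⟨?_, ?_, ?_⟩, hkQ⟩
    · rw [Real.le_log_iff_exp_le (by linarith)]
      linarith
    · have g0 : (0:ℝ) < Real.log Y := by linarith
      have g1 : Real.log (Real.log Y) ≤ 1 + Real.log L := by
        have g2 : Real.log (Real.log Y) ≤ Real.log (2 * L) := Real.log_le_log g0 y2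
        rw [Real.log_mul (by norm_num) (by linarith)] at g2
        have g3 : Real.log 2 ≤ 1 := by linarith [Real.log_two_lt_d9]
        linarith
      have g2 : Kr * Real.log (Real.log Y) ≤ Kr * (1 + Real.log L) :=
        mul_le_mul_of_nonneg_left g1 (by linarith)
      have g3 : D * (Kr * (1 + Real.log L)) ≤ L := by
        have : D * (Kr * (1 + Real.log L)) = (2 * D * Kr) / 2 + (2 * D * Kr * Real.log L) / 2 := by ring
        rw [this]
        linarith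
      have g9 : Kr * (1 + Real.log L) ≤ Real.log Q :=
        le_of_mul_le_mul_left (g3.trans hLQ) (by linarith)
      linarith
    · exact (mul_le_mul_of_nonneg_right hkpr hlQ0.le).trans hkQ
  have herr : C * Real.exp (-(kp / C)) + (Q : ℝ) ^ (-(1 / 4) : ℝ) ≤ E / 2 := by
    have g1 : 4 * Real.log (1 / E1 + 1) ≤ Real.log Q :=
      le_of_mul_le_mul_left (hLe.trans hLQ) (by linarith)
    have g2 : (Q : ℝ) ^ (-(1 / 4) : ℝ) ≤ E1 := by
      rw [Real.rpow_def_of_pos hQ0]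
      have g3 : Real.exp (Real.log Q * -(1 / 4)) ≤ Real.exp (-Real.log (1 / E1 + 1)) :=
        Real.exp_le_exp.2 (by linarith)
      refine g3.trans ?_
      have g4 : 0 < 1 / E1 + 1 := by positivity
      rw [Real.exp_neg, Real.exp_log g4, inv_eq_one_div, div_le_iff₀ g4]
      have g5 : E1 * (1 / E1 + 1) = 1 + E1 := by field_simp
      linarith
    rw [hE1] at hkpe g2
    linarith
  obtain ⟨e, he⟩ : ∃ e, e = C * Real.exp (-(kp / C)) + (Q : ℝ) ^ (-(1 / 4) : ℝ) := ⟨_, rfl⟩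
  rw [← he] at herr
  have he0 : 0 ≤ e := by rw [he]; positivity
  refine ⟨Q, fun Y h1 h2 => ⟨(hreg Y h1 h2).1.mono (by linarith) hKrK', ?_⟩, ?_⟩
  · obtain ⟨y1, y2, y3⟩ := hY Y h1 h2
    linarith
  rcases hcase with hgood | ⟨r, hr, ψ, β, hexz, hexc⟩
  · refine ⟨p0, fun _ => 0, 1, ?_, ?_, fun Y h1 h2 => ?_⟩
    · have : (1:ℕ) ≤ Q := by exact_mod_cast (by exact_mod_cast hQ0 : 0 < Q)
      show 1 ^ 100 ≤ Q
      rw [one_pow]; exact this
    · show min 1 (m0 / 8) / ((1 : ℕ) : ℝ) ^ 2 ≤ 1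
      rw [Nat.cast_one, one_pow, div_one]
      exact min_le_left _ _
    · obtain ⟨g1, g2⟩ := hreg Y h1 h2
      have h := hgood kp (hKrK.trans hkpr) Y (g1.mono (by linarith) hKrK) g2
      rw [← he] at h
      refine ⟨h.eta_pos, h.eta_le, h.mem, h.real, h.triv, h.nonneg, h.le, ?_⟩
      obtain ⟨eb, b1, b2, b3⟩ := h.cf
      exact ⟨eb, b1, b2.trans (by linarith), b3⟩
  · have hXX := hexc kp (hKrK.trans hkpr) X ((hreg X le_rfl (Nat.le_mul_of_pos_left _ hC0)).1.mono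
      (by linarith) hKrK) (hreg X le_rfl (Nat.le_mul_of_pos_left _ hC0)).2
    obtain ⟨hη1, -⟩ := hXX
    obtain ⟨x, hx⟩ : ∃ x : ℝ, x = (X : ℝ) ^ (β - 1) := ⟨_, rfl⟩
    rw [← hx] at hη1
    have hβ := hexz.lt
    have hx0 : 0 ≤ x := by rw [hx]; positivity
    have hr1 : (1 : ℝ) ≤ r := by
      have : 0 < r := Nat.pos_of_ne_zero hr.ne
      exact_mod_cast this
    have hη0 : (1 - β) / 2 ≤ 1 - x := by
      have h1 : (1 - β) * 1 ≤ (1 - β) * Real.log Q := mul_le_mul_of_nonneg_left hlQ1' (by linarith)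
      linarith
    have hx1 : x ≤ 1 := by linarith
    refine ⟨⟨r, ψ⟩, fun m => (m : ℝ) ^ (β - 1), 1 - x, hexz.cond, ?_, fun Y h1 h2 => ?_⟩
    · have h1 := hzero r hr1 r ψ le_rfl hexz.prim hexz.ne hexz.sq β hβ hexz.zero
      show min 1 (m0 / 8) / ((r : ℕ) : ℝ) ^ 2 ≤ 1 - x
      have hr2 : (0:ℝ) < (r:ℝ) ^ 2 := by positivity
      have h2 : min 1 (m0 / 8) / (r : ℝ) ^ 2 ≤ (m0 / 8) / (r : ℝ) ^ 2 :=
        div_le_div_of_nonneg_right (min_le_right _ _) hr2.le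
      have h3 : (m0 / 8) / (r : ℝ) ^ 2 = m0 / (4 * (r : ℝ) ^ 2) / 2 := by field_simp; ring
      linarith
    · obtain ⟨g1, g2⟩ := hreg Y h1 h2
      obtain ⟨y1, y2, y3⟩ := hY Y h1 h2
      obtain ⟨-, h⟩ := hexc kp (hKrK.trans hkpr) Y (g1.mono (by linarith) hKrK) g2
      rw [← he] at h
      obtain ⟨y, hy⟩ : ∃ y : ℝ, y = (Y : ℝ) ^ (β - 1) := ⟨_, rfl⟩
      rw [← hy] at h
      have hyx : y ≤ x := by
        rw [hy, hx]
        exact Real.rpow_le_rpow_of_nonpos hX0 (by exact_mod_cast h1) (by linarith)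
      have hxy : x ^ 2 ≤ y := by
        rw [hy, hx, ← Real.rpow_natCast, ← Real.rpow_mul hX0.le, Real.rpow_def_of_pos hX0,
          Real.rpow_def_of_pos y3, ← hL]
        apply Real.exp_le_exp.2
        have : Real.log Y * (1 - β) ≤ 2 * L * (1 - β) := mul_le_mul_of_nonneg_right y2 (by linarith)
        push_cast
        linarith
      refine ⟨by linarith, by linarith, h.mem, h.real, h.triv, h.nonneg, ?_, ?_⟩
      · intro m hm1 hm2
        have := h.le m hm1 hm2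
        linarith
      · obtain ⟨eb, b1, b2, b3⟩ := h.cf
        refine ⟨eb, b1, b2.trans ?_, b3⟩
        have h3 : 1 - y ≤ 2 * (1 - x) := by
          have g3 := mul_self_nonneg (1 - x)
          have g4 : (1 - x) * (1 - x) = 1 - 2 * x + x ^ 2 := by ring
          linarith
        have h4 : (1 - y) * e ≤ 2 * (1 - x) * e := mul_le_mul_of_nonneg_right h3 he0
        have h5 : (1 - x) * e ≤ (1 - x) * (E / 2) := mul_le_mul_of_nonneg_left herr (by linarith)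
        linarith

end Pool.Agent.H9U
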