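import Pool.Agent.Lib.H9U.Defs
import Pool.Agent.Lib.H59P.T1

/-!
# H9U, chunk T1 (M): the local factors of the singular series, lower bound
-/

open Finset

namespace Pool.Agent.H9U

open Pool.Agent.Lib.H59P (Ch cj uu gl pr SF)

variable {k d : ℕ} (S : Sys k d) (b : Fin k → ℤ) (t : Fin d → ℤ)

/-- The number of classes `n` modulo `l` with `l ∣ val n i` for some `i`. -/
noncomputable def nuS (l : ℕ) : ℕ := by
  classical exact ((range l).filter (fun n : ℕ => ∃ i, (l : ℤ) ∣ S.val b n t i)).card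

theorem t1_gl (l : ℕ) (hl : l.Prime) (m : ℤ) :
    1 + gl l m = if (l : ℤ) ∣ m then 0 else (l : ℝ) / ((l : ℝ) - 1) := by
  have h1 : (1 : ℝ) < l := by exact_mod_cast hl.one_lt
  have h2 : (l : ℝ) - 1 ≠ 0 := by linarith
  rw [gl]
  by_cases h : (l : ℤ) ∣ m
  · rw [if_pos h, if_pos h]
    norm_num
  · rw [if_neg h, if_neg h]
    field_simp
    ring

theorem t1_prod (l : ℕ) (hl : l.Prime) (n : ℕ) [Decidable (∃ i, (l : ℤ) ∣ S.val b n t i)] :
    ∏ i, (1 + gl l (S.val b n t i)) =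
      if ∃ i, (l : ℤ) ∣ S.val b n t i then 0 else ((l : ℝ) / ((l : ℝ) - 1)) ^ k := by
  rw [Finset.prod_congr rfl fun i _ => t1_gl l hl (S.val b n t i)]
  split_ifs with hex
  · obtain ⟨i, hi⟩ := hex
    exact Finset.prod_eq_zero (Finset.mem_univ i) (if_pos hi)
  · have h2 : ∀ i ∈ (univ : Finset (Fin k)), (if (l : ℤ) ∣ S.val b n t i then 0 else (l : ℝ) / ((l : ℝ) - 1)) =
        (l : ℝ) / ((l : ℝ) - 1) := fun i _ => if_neg fun hd => hex ⟨i, hd⟩
    rw [Finset.prod_congr rfl h2, Finset.prod_const, Finset.card_univ, Fintype.card_fin]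

theorem t1_nuS (l : ℕ) [DecidablePred fun n : ℕ => ∃ i, (l : ℤ) ∣ S.val b n t i] :
    nuS S b t l = ((range l).filter (fun n : ℕ => ∃ i, (l : ℤ) ∣ S.val b n t i)).card := by
  unfold nuS
  congr

/-- Proof. As `T0_tp` (`H59P/T0.lean`): `∏_i (1 + gl l (val i))` is `0` if `l` divides some value and `(l/(l-1))^k` else. -/
theorem T0S_tp (l : ℕ) (hl : l.Prime) :
    1 + tpS S b t l = (1 - (nuS S b t l : ℝ) / l) * ((l : ℝ) / ((l : ℝ) - 1)) ^ k := by
  classical
  have hl0 : (l : ℝ) ≠ 0 := by exact_mod_cast hl.ne_zero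
  rw [tpS, Finset.sum_congr rfl fun n _ => t1_prod S b t l hl n, Finset.sum_ite, Finset.sum_const_zero,
    zero_add, Finset.sum_const, nsmul_eq_mul]
  have h1 := Finset.card_filter_add_card_filter_not (s := range l) (fun n : ℕ => ∃ i, (l : ℤ) ∣ S.val b n t i)
  rw [card_range] at h1
  have h2 : ((nuS S b t l : ℕ) : ℝ) +
      ((((range l).filter (fun n : ℕ => ¬ ∃ i, (l : ℤ) ∣ S.val b n t i)).card : ℕ) : ℝ) = l := by
    rw [t1_nuS]
    exact_mod_cast h1
  rw [← eq_sub_iff_add_eq'] at h2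
  rw [h2]
  field_simp
  ring

/-- Proof. For each `i` there is at most one class with `l ∣ a_i n + …` if `l ∤ a_i`; if `l ∣ a_i` the divisibility does not depend on `n`, so by
admissibility it never holds. Hence at most `k` classes, and by admissibility not all (`n` may be replaced by its residue). -/
theorem T0S_nu (l : ℕ) (hl : l.Prime) (hA : S.Adm b t) : nuS S b t l ≤ k ∧ nuS S b t l < l := by
  classical
  obtain ⟨m, hm⟩ := hA l hl
  have hdiff : ∀ (n n' : ℤ) (i : Fin k), S.val b n t i - S.val b n' t i = S.a i * (n - n') := by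
    intro n n' i
    simp only [Sys.val, Sys.lin]
    ring
  constructor
  · rw [t1_nuS]
    have h1 : (range l).filter (fun n : ℕ => ∃ i, (l : ℤ) ∣ S.val b n t i) ⊆
        (univ : Finset (Fin k)).biUnion fun i => (range l).filter fun n : ℕ => (l : ℤ) ∣ S.val b n t i := by
      intro n hn
      obtain ⟨h2, i, hi⟩ := mem_filter.1 hn
      exact mem_biUnion.2 ⟨i, mem_univ i, mem_filter.2 ⟨h2, hi⟩⟩
    refine (card_le_card h1).trans (card_biUnion_le.trans ?_)
    have h3 : ∀ i ∈ (univ : Finset (Fin k)),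
        ((range l).filter fun n : ℕ => (l : ℤ) ∣ S.val b n t i).card ≤ 1 := by
      intro i _
      refine card_le_one.2 fun n hn n' hn' => ?_
      obtain ⟨hn1, hn2⟩ := mem_filter.1 hn
      obtain ⟨hn1', hn2'⟩ := mem_filter.1 hn'
      have h4 : (l : ℤ) ∣ S.a i * ((n : ℤ) - n') := by
        rw [← hdiff]
        exact dvd_sub hn2 hn2'
      have hlp : Prime (l : ℤ) := Nat.prime_iff_prime_int.1 hl
      rcases hlp.dvd_or_dvd h4 with h5 | h5
      · exfalso
        refine hm i ?_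
        have h6 : (l : ℤ) ∣ S.val b m t i - S.val b n t i := by
          rw [hdiff]
          exact Dvd.dvd.mul_right h5 _
        have h7 := dvd_add h6 hn2
        rwa [sub_add_cancel] at h7
      · have h6 : (n : ℤ) ≡ n' [ZMOD l] := by
          rw [Int.modEq_iff_dvd]
          have h7 := (dvd_neg (α := ℤ)).2 h5
          rwa [neg_sub] at h7
        have h7 : n ≡ n' [MOD l] := Int.natCast_modEq_iff.1 h6
        exact Nat.ModEq.eq_of_lt_of_lt h7 (mem_range.1 hn1) (mem_range.1 hn1')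
    refine (Finset.sum_le_sum h3).trans ?_
    simp
  · rw [t1_nuS]
    have h1 : ((range l).filter (fun n : ℕ => ∃ i, (l : ℤ) ∣ S.val b n t i)).card < (range l).card := by
      have hl0 : (0 : ℤ) < l := by exact_mod_cast hl.pos
      have hnn : 0 ≤ m % (l : ℤ) := Int.emod_nonneg _ hl0.ne'
      have hlt : m % (l : ℤ) < l := Int.emod_lt_of_pos _ hl0
      refine Finset.card_lt_card (Finset.filter_ssubset.2 ⟨(m % (l : ℤ)).toNat, mem_range.2 ?_, ?_⟩)
      · have h8 : (((m % (l : ℤ)).toNat : ℕ) : ℤ) < l := by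
          rw [Int.toNat_of_nonneg hnn]
          exact hlt
        exact_mod_cast h8
      · rintro ⟨i, hi⟩
        refine hm i ?_
        rw [Int.toNat_of_nonneg hnn] at hi
        have h2 : (l : ℤ) ∣ S.val b m t i - S.val b (m % (l : ℤ)) t i := by
          rw [hdiff]
          refine Dvd.dvd.mul_left ?_ _
          exact Int.dvd_self_sub_emod
        have h7 := dvd_add h2 hi
        rwa [sub_add_cancel] at h7
    rwa [card_range] at h1

theorem t1_small (hA : S.Adm b t) {l : ℕ} (hl : l.Prime) : ((l : ℝ))⁻¹ ≤ 1 + tpS S b t l := by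
  have h1 : (1 : ℝ) < l := by exact_mod_cast hl.one_lt
  have h2 : nuS S b t l + 1 ≤ l := (T0S_nu S b t l hl hA).2
  have h3 : (nuS S b t l : ℝ) + 1 ≤ l := by exact_mod_cast h2
  have h4 : ((l : ℝ))⁻¹ ≤ 1 - (nuS S b t l : ℝ) / l := by
    rw [inv_eq_one_div, div_le_iff₀ (by linarith), sub_mul, div_mul_cancel₀ _ (by linarith)]
    linarith
  rw [T0S_tp S b t l hl]
  calc ((l : ℝ))⁻¹ = (l : ℝ)⁻¹ * 1 := (mul_one _).symm
    _ ≤ (1 - (nuS S b t l : ℝ) / l) * ((l : ℝ) / ((l : ℝ) - 1)) ^ k :=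
      mul_le_mul h4 (Lib.H59P.t1_B hl).1 zero_le_one (le_trans (by positivity) h4)

theorem t1_large (hA : S.Adm b t) {l : ℕ} (hl : l.Prime) (hk : 2 * k < l) :
    Real.exp (-(2 * (k : ℝ) ^ 2 * ((l : ℝ) ^ 2)⁻¹)) ≤ 1 + tpS S b t l := by
  have h1 : (1 : ℝ) < l := by exact_mod_cast hl.one_lt
  have h0 : (0 : ℝ) < l := by linarith
  have h2 : (nuS S b t l : ℝ) ≤ k := by exact_mod_cast (T0S_nu S b t l hl hA).1
  have h3 : 2 * (k : ℝ) ≤ l := by exact_mod_cast hk.le
  have h4 : (k : ℝ) / l ≤ 1 / 2 := by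
    rw [div_le_iff₀ h0]
    linarith
  have h4' : 0 ≤ (k : ℝ) / l := by positivity
  have h5 : Real.exp (-(2 * ((k : ℝ) / l) ^ 2)) ≤ 1 - ((k : ℝ) / l) ^ 2 :=
    Lib.H59P.t1_exp (by positivity) (by nlinarith)
  have h6 : 2 * (k : ℝ) ^ 2 * ((l : ℝ) ^ 2)⁻¹ = 2 * ((k : ℝ) / l) ^ 2 := by
    rw [div_pow, div_eq_mul_inv, mul_assoc]
  rw [h6]
  refine h5.trans ?_
  rw [T0S_tp S b t l hl]
  have h7 : 1 - (k : ℝ) / l ≤ 1 - (nuS S b t l : ℝ) / l := by
    have := div_le_div_of_nonneg_right h2 h0.le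
    linarith
  calc 1 - ((k : ℝ) / l) ^ 2 = (1 - (k : ℝ) / l) * (1 + (k : ℝ) / l) := by ring
    _ ≤ (1 - (nuS S b t l : ℝ) / l) * ((l : ℝ) / ((l : ℝ) - 1)) ^ k :=
      mul_le_mul h7 (Lib.H59P.t1_B hl).2 (by linarith) (by linarith)

/-- Proof. As `T_lower` (`H59P/T1.lean`), which uses only `nu ≤ k`, `nu < l` and the formula `T0_tp`: for `l ≤ 2k` the factor is at least `1/l`, for
`l > 2k` at least `exp(-2 k²/l²)`. -/
theorem T1S_low (hA : S.Adm b t) (P : Finset ℕ) (hP : ∀ l ∈ P, l.Prime) : Real.exp (-(4 * k : ℝ)) ≤ SSS S b t P := by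
  have h0 : SSS S b t P = (∏ l ∈ P.filter (fun l => l ≤ 2 * k), (1 + tpS S b t l)) *
      ∏ l ∈ P.filter (fun l => ¬ l ≤ 2 * k), (1 + tpS S b t l) := by
    rw [SSS]
    exact (Finset.prod_filter_mul_prod_filter_not P (fun l => l ≤ 2 * k) _).symm
  have h1 : Real.exp (-(2 * k * Real.log 4)) ≤
      ∏ l ∈ P.filter (fun l => l ≤ 2 * k), (1 + tpS S b t l) := by
    refine (Lib.H59P.t1_prodSmall k P hP).trans (Finset.prod_le_prod (fun l _ => by positivity) fun l hl => ?_)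
    exact t1_small S b t hA (hP l (mem_filter.1 hl).1)
  have h2 : Real.exp (-(k : ℝ)) ≤ ∏ l ∈ P.filter (fun l => ¬ l ≤ 2 * k), (1 + tpS S b t l) := by
    have h3 : Real.exp (-(k : ℝ)) ≤
        ∏ l ∈ P.filter (fun l => ¬ l ≤ 2 * k), Real.exp (-(2 * (k : ℝ) ^ 2 * ((l : ℝ) ^ 2)⁻¹)) := by
      rw [← Real.exp_sum, Finset.sum_neg_distrib, ← Finset.mul_sum]
      exact Real.exp_le_exp.2 (neg_le_neg (Lib.H59P.t1_sum k P))
    refine h3.trans (Finset.prod_le_prod (fun l _ => (Real.exp_pos _).le) fun l hl => ?_)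
    have h4 := mem_filter.1 hl
    exact t1_large S b t hA (hP l h4.1) (by omega)
  rw [h0]
  refine le_trans ?_ (mul_le_mul h1 h2 (Real.exp_pos _).le (le_trans (Real.exp_pos _).le h1))
  rw [← Real.exp_add]
  refine Real.exp_le_exp.2 ?_
  have h5 : Real.log 4 = 2 * Real.log 2 := by
    have h6 : (4 : ℝ) = 2 ^ 2 := by norm_num
    rw [h6, Real.log_pow]
    norm_num
  have h7 := Real.log_two_lt_d9
  have h8 : (0 : ℝ) ≤ k := Nat.cast_nonneg k
  rw [h5]
  nlinarith

end Pool.Agent.H9U
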