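import Pool.Agent.Lib.H9U.M3
import Pool.Agent.Lib.H59P.M5

/-!
# H9U, chunk M5 (M): complete means
-/

open Finset

namespace Pool.Agent.H9U

open Pool.Agent.Lib.H68T (PC p0)
open Pool.Agent.Lib.H59P (Ch cj uu gl pr SF)

variable {k d : ℕ} (S : Sys k d) (b : Fin k → ℤ) (t : Fin d → ℤ)

/-- the local factors at one prime -/
noncomputable def m5_g (l : ℕ) (n : ℤ) : ℂ :=
  ∏ i, (((1 + gl l (S.val b n t i) : ℝ)) : ℂ)

theorem m5_val (n N : ℤ) (i : Fin k) : S.val b (n + N) t i = S.val b n t i + S.a i * N := by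
  unfold Sys.val Sys.lin
  ring

theorem m5_g_per' (l c : ℕ) (n : ℤ) : m5_g S b t l (n + (l * c : ℕ)) = m5_g S b t l n := by
  unfold m5_g
  refine prod_congr rfl fun i _ => ?_
  have e : S.val b n t i + S.a i * ((l * c : ℕ) : ℤ) = S.val b n t i + (S.a i * c) * l := by push_cast; ring
  rw [m5_val, e, Pool.Agent.Lib.H59P.gl_per]

theorem m5_g_per (l : ℕ) (n : ℤ) : m5_g S b t l (n + l) = m5_g S b t l n := by
  have h1 := m5_g_per' S b t l 1 n
  rwa [mul_one] at h1

theorem m5_g_sum (l : ℕ) (hl : 0 < l) :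
    ∑ n ∈ range l, m5_g S b t l n = l * (((1 + tpS S b t l : ℝ)) : ℂ) := by
  have hl0 : (l : ℂ) ≠ 0 := by exact_mod_cast hl.ne'
  unfold tpS m5_g
  push_cast
  field_simp
  ring

theorem m5_ph (p : Fin k → Ch) (A P : Finset ℕ) (hd : Disjoint A P) (n : ℤ) :
    PhV p (A ∪ P) (fun i => S.val b n t i) = PhV p A (fun i => S.val b n t i) * ∏ l ∈ P, m5_g S b t l n := by
  unfold PhV m5_g uu
  rw [prod_comm (s := P), ← prod_mul_distrib]
  refine prod_congr rfl fun i _ => ?_
  rw [prod_union hd]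
  push_cast
  ring

theorem m5_per (p : Fin k → Ch) (R : ℕ) (hd : ∀ i, (p i).1 ∣ R) (j : ℕ) (m : ℤ) :
    PhV p R.primeFactors (fun i => S.val b (m + (R * j : ℕ)) t i) =
      PhV p R.primeFactors (fun i => S.val b m t i) := by
  induction j generalizing m with
  | zero => simp
  | succ j ihj =>
    have e : m + ((R * (j + 1) : ℕ) : ℤ) = (m + ((R * j : ℕ) : ℤ)) + R := by
      push_cast; ring
    rw [e, M3S_P S b t p R hd, ihj m]

theorem m5_main (R : ℕ) (hR : 0 < R) (p : Fin k → Ch) (hd : ∀ i, (p i).1 ∣ R)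
    (P : Finset ℕ) (hP : ∀ l ∈ P, l.Prime ∧ ¬ l ∣ R) :
    ∑ n ∈ range (R * ∏ l ∈ P, l), PhV p R.primeFactors (fun i => S.val b n t i) * ∏ l ∈ P, m5_g S b t l n =
      (∑ n ∈ range R, PhV p R.primeFactors (fun i => S.val b n t i)) *
        ∏ l ∈ P, (l * (((1 + tpS S b t l : ℝ)) : ℂ)) := by
  induction P using Finset.induction_on with
  | empty => simp
  | insert l P hl ih =>
    have ih := ih fun q hq => hP q (mem_insert_of_mem hq)
    obtain ⟨hlp, hlR⟩ := hP l (mem_insert_self _ _)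
    have hSpos : 0 < ∏ q ∈ P, q := prod_pos fun q hq => (hP q (mem_insert_of_mem hq)).1.pos
    have hco : Nat.Coprime (R * ∏ q ∈ P, q) l := by
      rw [Nat.coprime_comm, Nat.Prime.coprime_iff_not_dvd hlp]
      intro hdvd
      rcases (Nat.Prime.dvd_mul hlp).1 hdvd with h1 | h1
      · exact hlR h1
      · obtain ⟨q, hq, hlq⟩ := (Prime.dvd_finsetProd_iff hlp.prime _).1 h1
        have := (Nat.prime_dvd_prime_iff_eq hlp (hP q (mem_insert_of_mem hq)).1).1 hlq
        exact hl (this ▸ hq)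
    have e1 : R * ∏ q ∈ insert l P, q = (R * ∏ q ∈ P, q) * l := by
      rw [prod_insert hl]; ring
    have h3 := Pool.Agent.Lib.H59P.M3d
      (fun n => PhV p R.primeFactors (fun i => S.val b n t i) * ∏ q ∈ P, m5_g S b t q n) (m5_g S b t l)
      (R * ∏ q ∈ P, q) l (Nat.mul_pos hR hSpos) hlp.pos hco (by
        intro m
        have a2 : ∀ q ∈ P, m5_g S b t q (m + (R * ∏ q ∈ P, q : ℕ)) = m5_g S b t q m := by
          intro q hq
          have : R * ∏ q ∈ P, q = q * (R * ∏ t ∈ P.erase q, t) := by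
            rw [← mul_prod_erase P (fun t => t) hq]; ring
          rw [this]
          exact m5_g_per' S b t q _ m
        rw [m5_per S b t p R hd, prod_congr rfl a2]) (m5_g_per S b t l)
    rw [e1, prod_insert hl]
    have e2 : ∑ n ∈ range (R * (∏ q ∈ P, q) * l),
        PhV p R.primeFactors (fun i => S.val b n t i) * ∏ q ∈ insert l P, m5_g S b t q n =
        ∑ n ∈ range (R * (∏ q ∈ P, q) * l),
          (PhV p R.primeFactors (fun i => S.val b n t i) * ∏ q ∈ P, m5_g S b t q n) * m5_g S b t l n := by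
      refine sum_congr rfl fun n _ => ?_
      rw [prod_insert hl]
      ring
    rw [e2, h3, ih, m5_g_sum S b t l hlp.pos]
    ring

/-- Proof. As `M5` (`H59P/M5A.lean`, `M5.lean`): `PhV p (pr Q) m = PhV p R.primeFactors m * ∏_{l ≤ Q, l ∤ R} ∏_i (1 + gl l (m i))`; induction over
the primes `l` with `M3d`. -/
theorem M5S (Q R : ℕ) (hR : 0 < R) (hRQ : R ∣ Q.factorial) (p : Fin k → Ch) (hd : ∀ i, (p i).1 ∣ R) :
    MRS S b t p R * ((SSS S b t ((pr Q).filter (fun l => ¬ l ∣ R)) : ℝ) : ℂ) = MQS S b t Q p := by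
  obtain ⟨P, hSdef⟩ : ∃ P, P = (pr Q).filter (fun l => ¬ l ∣ R) := ⟨_, rfl⟩
  rw [← hSdef]
  have hS : ∀ l ∈ P, (l ≤ Q ∧ l.Prime) ∧ ¬ l ∣ R := by
    intro l hl
    rw [hSdef, mem_filter, pr, mem_filter, mem_Icc] at hl
    exact ⟨⟨hl.1.1.2, hl.1.2⟩, hl.2⟩
  have hSpos : 0 < ∏ q ∈ P, q := prod_pos fun q hq => (hS q hq).1.2.pos
  have hdisj : Disjoint R.primeFactors P := by
    rw [disjoint_left]
    intro l h1 h2
    exact (hS l h2).2 (Nat.dvd_of_mem_primeFactors h1)
  have hunion : R.primeFactors ∪ P = pr Q := by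
    ext l
    rw [mem_union, hSdef, mem_filter, Nat.mem_primeFactors]
    constructor
    · rintro (⟨h1, h2, -⟩ | h1)
      · rw [pr, mem_filter, mem_Icc]
        exact ⟨⟨h1.one_le, (Nat.Prime.dvd_factorial h1).1 (h2.trans hRQ)⟩, h1⟩
      · exact h1.1
    · intro h1
      by_cases h2 : l ∣ R
      · left
        rw [pr, mem_filter] at h1
        exact ⟨h1.2, h2, hR.ne'⟩
      · exact Or.inr ⟨h1, h2⟩
  have hper : ∀ m : ℤ, PhV p (pr Q) (fun i => S.val b (m + (R * ∏ q ∈ P, q : ℕ)) t i) =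
      PhV p (pr Q) (fun i => S.val b m t i) := by
    intro m
    rw [← hunion, m5_ph S b t p _ _ hdisj, m5_ph S b t p _ _ hdisj, m5_per S b t p R hd]
    congr 1
    refine prod_congr rfl fun q hq => ?_
    have : R * ∏ q ∈ P, q = q * (R * ∏ t ∈ P.erase q, t) := by
      rw [← mul_prod_erase P (fun t => t) hq]; ring
    rw [this]
    exact m5_g_per' S b t q _ m
  have hcop : Nat.Coprime R (∏ q ∈ P, q) := by
    apply Nat.Coprime.prod_right
    intro q hq
    rw [Nat.coprime_comm, Nat.Prime.coprime_iff_not_dvd (hS q hq).1.2]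
    exact (hS q hq).2
  have hdvdN : R * ∏ q ∈ P, q ∣ Q.factorial := by
    apply hcop.mul_dvd_of_dvd_of_dvd hRQ
    apply Finset.prod_primes_dvd
    · intro q hq
      exact (hS q hq).1.2.prime
    · intro q hq
      exact (Nat.Prime.dvd_factorial (hS q hq).1.2).2 (hS q hq).1.1
  obtain ⟨j, hj⟩ := hdvdN
  have hfac : 0 < Q.factorial := Nat.factorial_pos Q
  have hj0 : 0 < j := by
    rcases Nat.eq_zero_or_pos j with rfl | h1
    · rw [mul_zero] at hj
      omega
    · exact h1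
  have hsum : ∑ n ∈ range (R * ∏ l ∈ P, l), PhV p (pr Q) (fun i => S.val b n t i) =
      (∑ n ∈ range R, PhV p R.primeFactors (fun i => S.val b n t i)) *
        ∏ l ∈ P, (l * (((1 + tpS S b t l : ℝ)) : ℂ)) := by
    rw [← m5_main S b t R hR p hd P fun l hl => ⟨(hS l hl).1.2, (hS l hl).2⟩]
    refine sum_congr rfl fun n _ => ?_
    rw [← hunion, m5_ph S b t p _ _ hdisj]
  have hfull := Pool.Agent.Lib.H59P.m5a_full (fun m : ℤ => PhV p (pr Q) (fun i => S.val b m t i))
    (R * ∏ q ∈ P, q) hper j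
  unfold MQS MRS SSS mn
  rw [hj, hfull, hsum, prod_mul_distrib]
  have r0 : (R : ℂ) ≠ 0 := by exact_mod_cast hR.ne'
  have j0 : (j : ℂ) ≠ 0 := by exact_mod_cast hj0.ne'
  have s0 : (∏ l ∈ P, (l : ℂ)) ≠ 0 := by
    rw [← Nat.cast_prod]
    exact_mod_cast hSpos.ne'
  push_cast
  field_simp

/-- Proof. `M5S` with `R = 1`, `p i = p0` (`cj p0 m = 1`), or directly; compare `M5_SS` (`H59P/M5.lean`). -/
theorem M5S_SS (Q : ℕ) :
    (∑ n ∈ range Q.factorial, ∏ i, uu (pr Q) (S.val b n t i)) / (Q.factorial : ℝ) = SSS S b t (pr Q) := by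
  have hc : ∀ m : ℤ, cj p0 m = 1 := by
    intro m
    unfold cj p0
    rw [MulChar.one_apply (isUnit_of_subsingleton _), map_one]
  have h1 := M5S S b t Q 1 one_pos (one_dvd _) (fun _ : Fin k => p0) (fun _ => dvd_rfl)
  have h2 : (pr Q).filter (fun l => ¬ l ∣ 1) = pr Q := by
    apply filter_true_of_mem
    intro l hl h3
    rw [pr, mem_filter] at hl
    exact hl.2.one_lt.ne' (Nat.dvd_one.1 h3)
  have h3 : MRS S b t (fun _ : Fin k => p0) 1 = 1 := by
    unfold MRS mn PhV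
    rw [sum_range_one, Nat.primeFactors_one]
    simp [uu, hc]
  rw [h2, h3, one_mul] at h1
  have h4 : MQS S b t Q (fun _ : Fin k => p0) =
      (((∑ n ∈ range Q.factorial, ∏ i, uu (pr Q) (S.val b n t i)) / (Q.factorial : ℝ) : ℝ) : ℂ) := by
    unfold MQS mn PhV
    push_cast
    congr 1
    refine sum_congr rfl fun n _ => prod_congr rfl fun i _ => ?_
    rw [hc, one_mul]
  rw [h4] at h1
  exact (Complex.ofReal_injective h1).symm

end Pool.Agent.H9U
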