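import Pool.Agent.Lib.H9U.C3
import Pool.Agent.Lib.H9U.M5
import Pool.Agent.Lib.H9U.T1
import Pool.Agent.Lib.H9U.ZDefs

/-!
# H9U, chunk Z3 (M): lower bound for the main term of a cell
-/

open Finset

namespace Pool.Agent.H9U

open Pool.Agent.Lib.H68T (PC p0)
open Pool.Agent.Lib.H18Q (gk KS SG)
open Pool.Agent.Lib.H59P (Ch SF bx TS Rp MX pr)

/-- The modulus of a tuple in `TS`. -/
theorem z3_Rp {k : ℕ} (Q D1 : ℕ) (px : Ch) (hpx : px ∈ PC Q) (p : Fin k → Ch) (hp : p ∈ TS k Q D1 px) :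
    0 < Rp px p ∧ Rp px p ≤ D1 ∧ (∀ i, (p i).1 ∣ Rp px p) ∧ Rp px p ∣ Q.factorial ∧ ∀ i, p i ∈ PC Q := by
  unfold TS at hp
  rw [Finset.mem_filter, Fintype.mem_piFinset] at hp
  obtain ⟨hp1, hp2⟩ := hp
  refine ⟨?_, hp2, ?_, ?_, hp1⟩
  · have h1 : (univ.lcm fun i => (p i).1) ≠ 0 := by
      intro h0
      rw [Finset.lcm_eq_zero_iff] at h0
      obtain ⟨i, _, h2⟩ := h0
      have h3 : 0 < (p i).1 := (Pool.Agent.Lib.H68T.mem_PC.mp (hp1 i)).1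
      exact h3.ne' h2
    unfold Rp
    exact Nat.lcm_pos (Pool.Agent.Lib.H68T.mem_PC.mp hpx).1 (Nat.pos_of_ne_zero h1)
  · intro i
    unfold Rp
    exact (Finset.dvd_lcm (f := fun i => (p i).1) (Finset.mem_univ i)).trans (Nat.dvd_lcm_right _ _)
  · unfold Rp
    refine Nat.lcm_dvd (Nat.dvd_factorial (Pool.Agent.Lib.H68T.mem_PC.mp hpx).1
      (Pool.Agent.Lib.H68T.mem_PC.mp hpx).2.1) ?_
    refine Finset.lcm_dvd fun i _ => ?_
    exact Nat.dvd_factorial (Pool.Agent.Lib.H68T.mem_PC.mp (hp1 i)).1 (Pool.Agent.Lib.H68T.mem_PC.mp (hp1 i)).2.1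

/-- The truncated and the complete main term of a cell. -/
theorem z3_trunc {k d : ℕ} (S : Sys k d) (b : Fin k → ℤ) (t : Fin d → ℤ) (Q D D1 : ℕ)
    (hDQ : D ≤ Q) (hD1 : D1 ≤ D) (px : Ch) (hpx : px ∈ PC Q) (hcond : px.1 ≤ D1) (M : ℝ)
    (c : Fin k → Ch → ℂ) (hc : ∀ i, ∑ p ∈ PC Q, ‖c i p‖ ≤ M) (τ : ℝ)
    (hτ : ∀ R : ℕ, 1 ≤ R → R ≤ D1 →
      |∑ e ∈ SF (D / R) R, tdS S b t e - SSS S b t ((pr Q).filter (fun l : ℕ => ¬ l ∣ R))| ≤ τ) :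
    ‖MCS S b t Q D D1 px c - ∑ p ∈ TS k Q D1 px, (∏ i, c i (p i)) * MQS S b t Q p‖ ≤
      (2 * M * (1 + Real.log Q)) ^ k * τ := by
  classical
  have hpos : 0 < D1 := lt_of_lt_of_le (Pool.Agent.Lib.H68T.mem_PC.mp hpx).1 hcond
  have hτ0 : 0 ≤ τ := (abs_nonneg _).trans (hτ 1 le_rfl hpos)
  have hlog0 : 0 ≤ Real.log Q := Real.log_natCast_nonneg Q
  have hterm : ∀ p ∈ TS k Q D1 px,
      ‖(∏ i, c i (p i)) * (MRS S b t p (Rp px p) *
          ((∑ e ∈ SF (D / Rp px p) (Rp px p), tdS S b t e : ℝ) : ℂ)) -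
        (∏ i, c i (p i)) * MQS S b t Q p‖ ≤ (∏ i, ‖c i (p i)‖) * ((2 * (1 + Real.log Q)) ^ k * τ) := by
    intro p hp
    obtain ⟨hR0, hRle, hd, hfac, -⟩ := z3_Rp Q D1 px hpx p hp
    have hRQ : Rp px p ≤ Q := hRle.trans (hD1.trans hDQ)
    have hR0' : (0 : ℝ) < (Rp px p : ℝ) := by exact_mod_cast hR0
    have h1 : ‖MRS S b t p (Rp px p)‖ ≤ (2 * (1 + Real.log Q)) ^ k := by
      refine (M3S_bd S b t p (Rp px p) 1 hR0 squarefree_one (fun _ => 0)).2.2.2.trans ?_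
      refine pow_le_pow_left₀ (by positivity) ?_ k
      refine (Pool.Agent.Lib.H59P.M3b (Rp px p) hR0).trans ?_
      have hlog : Real.log (Rp px p : ℝ) ≤ Real.log Q := Real.log_le_log hR0' (by exact_mod_cast hRQ)
      linarith
    rw [← M5S S b t Q (Rp px p) hR0 hfac p hd, ← mul_sub, ← mul_sub, norm_mul, norm_mul, norm_prod,
      ← Complex.ofReal_sub, Complex.norm_real, Real.norm_eq_abs]
    have h2 := hτ (Rp px p) hR0 hRle
    have h3 : ‖MRS S b t p (Rp px p)‖ * |∑ e ∈ SF (D / Rp px p) (Rp px p), tdS S b t e -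
        SSS S b t ((pr Q).filter (fun l => ¬ l ∣ Rp px p))| ≤ (2 * (1 + Real.log Q)) ^ k * τ :=
      mul_le_mul h1 h2 (abs_nonneg _) (by positivity)
    exact mul_le_mul_of_nonneg_left h3 (Finset.prod_nonneg fun i _ => norm_nonneg _)
  have hsum : ∑ p ∈ TS k Q D1 px, ∏ i, ‖c i (p i)‖ ≤ M ^ k := by
    calc ∑ p ∈ TS k Q D1 px, ∏ i, ‖c i (p i)‖
        ≤ ∑ p ∈ Fintype.piFinset fun _ : Fin k => PC Q, ∏ i, ‖c i (p i)‖ := by
          refine Finset.sum_le_sum_of_subset_of_nonneg ?_ ?_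
          · intro p hp
            unfold TS at hp
            exact (Finset.mem_filter.mp hp).1
          · intro p _ _
            exact Finset.prod_nonneg fun i _ => norm_nonneg _
      _ = ∏ i, ∑ q ∈ PC Q, ‖c i q‖ := by
          rw [Finset.prod_univ_sum]
      _ ≤ ∏ _i : Fin k, M :=
          Finset.prod_le_prod (fun i _ => Finset.sum_nonneg fun _ _ => norm_nonneg _) fun i _ => hc i
      _ = M ^ k := by
          rw [Finset.prod_const, Finset.card_univ, Fintype.card_fin]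
  unfold MCS
  rw [← Finset.sum_sub_distrib]
  refine (norm_sum_le _ _).trans ?_
  refine (Finset.sum_le_sum hterm).trans ?_
  rw [← Finset.sum_mul]
  have h6 : (2 * M * (1 + Real.log Q)) ^ k * τ = M ^ k * ((2 * (1 + Real.log Q)) ^ k * τ) := by
    rw [← mul_assoc, ← mul_pow]
    ring
  rw [h6]
  exact mul_le_mul_of_nonneg_right hsum (by positivity)

/-- Proof. As `Z3a` and `Z3` (`H59P/Z3A.lean`, `Z3.lean`). For `p ∈ TS k Q D1 px`, `R = Rp px p` (`1 ≤ R ≤ D1`, all conductors divide `R`, so are `≤ D1`; `R ∣ Q!`):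
`‖MRS‖ ≤ (R/φ(R))^k ≤ (2(1+log Q))^k` (`M3S_bd`, `M3b`), and `MRS · SSS(primes ∤ R) = MQS` (`M5S`). So `MCS` is `∑_{p ∈ TS} ∏ c_i(p_i) MQS` up to
`(2 M (1+log Q))^k τ`. With `e i p = c i p - MX px (fun _ => th i) 0 p` if `p ∈ PC Q` and `p.1 ≤ D1`, and `0` else (this does not change the sum over `TS`), `C3S`: the real part of
that sum is at least `PMS/2`, and `PMS ≥ η^k SSS (pr Q) ≥ η^k exp(-4k)` (`Y1S`, `T1S_low`; `px.1 ≤ D1`). -/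
theorem Z3S {k d : ℕ} (S : Sys k d) (b : Fin k → ℤ) (t : Fin d → ℤ) (hA : S.Adm b t) (Q D D1 : ℕ) (hQ : 1 ≤ Q)
    (hDQ : D ≤ Q) (hD1 : D1 ≤ D) (px : Ch) (hpx : px ∈ PC Q) (hreal : px.2 ^ 2 = 1) (hcond : px.1 ≤ D1)
    (η E0 : ℝ) (hη : 0 < η) (hE0 : 0 ≤ E0) (hE : 4 * k * E0 ≤ 1) (th : Fin k → ℝ) (hth0 : ∀ i, 0 ≤ th i)
    (hth : ∀ i, th i ≤ 1 - η) (htriv : px = p0 → ∀ i, th i = 0) (M : ℝ) (hM : 1 ≤ M)
    (c : Fin k → Ch → ℂ) (hc : ∀ i, ∑ p ∈ PC Q, ‖c i p‖ ≤ M) (eb : Fin k → Ch → ℝ)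
    (heb0 : ∀ i, ∀ p ∈ PC Q, 0 ≤ eb i p) (heb : ∀ i, ∑ p ∈ PC Q, eb i p ≤ η * E0)
    (hce : ∀ i, ∀ p ∈ PC Q, p.1 ≤ D1 → ‖c i p - MX px (fun _ => th i) 0 p‖ ≤ eb i p) (τ : ℝ)
    (hτ : ∀ R : ℕ, 1 ≤ R → R ≤ D1 →
      |∑ e ∈ SF (D / R) R, tdS S b t e - SSS S b t ((pr Q).filter (fun l : ℕ => ¬ l ∣ R))| ≤ τ) :
    η ^ k * Real.exp (-(4 * k : ℝ)) / 2 - (2 * M * (1 + Real.log Q)) ^ k * τ ≤ (MCS S b t Q D D1 px c).re := by
  classical
  have z1 := z3_trunc S b t Q D D1 hDQ hD1 px hpx hcond M c hc τ hτ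
  let e : Fin k → Ch → ℂ := fun i p => if p.1 ≤ D1 then c i p - MX px (fun _ => th i) 0 p else 0
  have he : ∀ i, ∑ p ∈ PC Q, ‖e i p‖ ≤ η * E0 := by
    intro i
    refine (Finset.sum_le_sum fun p hp => ?_).trans (heb i)
    show ‖if p.1 ≤ D1 then c i p - MX px (fun _ => th i) 0 p else 0‖ ≤ eb i p
    split_ifs with h1
    · exact hce i p hp h1
    · rw [norm_zero]
      exact heb0 i p hp
  have z2 := C3S S b t Q D1 hQ η E0 px hpx hreal hcond hη hE0 hE th hth0 hth htriv e he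
  have hS : ∑ p ∈ TS k Q D1 px, (∏ i, (MX px (fun _ => th i) 0 (p i) + e i (p i))) * MQS S b t Q p =
      ∑ p ∈ TS k Q D1 px, (∏ i, c i (p i)) * MQS S b t Q p := by
    refine Finset.sum_congr rfl fun p hp => ?_
    obtain ⟨hR0, hRle, hd, -, -⟩ := z3_Rp Q D1 px hpx p hp
    congr 1
    refine Finset.prod_congr rfl fun i _ => ?_
    have h1 : (p i).1 ≤ D1 := (Nat.le_of_dvd hR0 (hd i)).trans hRle
    show MX px (fun _ => th i) 0 (p i) + (if (p i).1 ≤ D1 then c i (p i) - MX px (fun _ => th i) 0 (p i) else 0) = c i (p i)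
    rw [if_pos h1]
    ring
  rw [hS] at z2
  obtain ⟨T, hT⟩ : ∃ T, T = ∑ p ∈ TS k Q D1 px, (∏ i, c i (p i)) * MQS S b t Q p := ⟨_, rfl⟩
  obtain ⟨P, hP⟩ : ∃ P, P = PMS S b t Q px th := ⟨_, rfl⟩
  rw [← hT, ← hP] at z2
  rw [← hT] at z1
  have y2 : -(1 / 2 * P) ≤ (T - ((P : ℝ) : ℂ)).re := by
    have := (Complex.abs_re_le_norm (T - ((P : ℝ) : ℂ))).trans z2
    exact (abs_le.1 this).1
  rw [Complex.sub_re, Complex.ofReal_re] at y2
  have y1 := (abs_le.1 ((Complex.abs_re_le_norm _).trans z1)).1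
  rw [Complex.sub_re] at y1
  have y3 : η ^ k * Real.exp (-(4 * k : ℝ)) ≤ P := by
    rw [hP]
    refine le_trans ?_ (Y1S S b t Q px hreal η hη th hth0 hth)
    exact mul_le_mul_of_nonneg_left (T1S_low S b t hA (pr Q) (Pool.Agent.Lib.H59P.c3_pr Q)) (by positivity)
  linarith

end Pool.Agent.H9U
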