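import Pool.Agent.Lib.H9U.Z4
import Pool.Agent.Lib.H9U.A3

/-!
# H9U, chunk CORE (M/L): few `t` with few prime values
-/

open Finset

namespace Pool.Agent.H9U

open Pool.Agent.Lib.H68T (lp Lk PC p0)
open Pool.Agent.Lib.H18Q (gk KS SG Bc RegP)
open Pool.Agent.Lib.H59P (Ch SF bx TS Rp MX pr)

lemma core_large (c M : ℝ) (hc : 0 < c) : ∃ X0 : ℕ, ∀ X : ℕ, X0 ≤ X → M ≤ (X : ℝ) ^ c := by
  have h1 : Filter.Tendsto (fun X : ℕ => (X : ℝ) ^ c) Filter.atTop Filter.atTop :=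
    (tendsto_rpow_atTop hc).comp tendsto_natCast_atTop_atTop
  exact Filter.eventually_atTop.1 (h1.eventually_ge_atTop M)

lemma core_lp_nonneg (m : ℤ) : 0 ≤ lp m := by
  unfold Pool.Agent.Lib.H68T.lp
  split_ifs with h
  · have h1 := h.one_lt
    have h2 : (1 : ℤ) ≤ m := by omega
    exact Real.log_nonneg (by exact_mod_cast h2)
  · exact le_rfl

lemma core_lp_le (m : ℤ) (hm : 1 ≤ m) : lp m ≤ Real.log m := by
  unfold Pool.Agent.Lib.H68T.lp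
  split_ifs with h
  · exact le_rfl
  · exact Real.log_nonneg (by exact_mod_cast hm)

lemma core_PC {Q Q' : ℕ} (hQ : Q' ≤ Q) : PC Q' ⊆ PC Q := by
  intro p hp
  rw [Pool.Agent.Lib.H68T.mem_PC] at hp ⊢
  exact ⟨hp.1, hp.2.1.trans hQ, hp.2.2⟩

lemma core_dat2 {k : ℕ} (Q Q' D : ℕ) (hQ : Q' ≤ Q) (hD : 1 ≤ D) (hDQ : D ≤ Q') (Xs : Fin k → ℕ) (η E : ℝ) (px : Ch) (th : ℤ → ℝ)
    (hE : 0 ≤ E) (hkE : 4 * k * E ≤ 1) (hM : ∀ i, MdB Q (Xs i) η E px th) (hr : Nat.sqrt D < px.1) :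
    Dat k Q Q' D (Nat.sqrt D) (Nat.sqrt D) 1 E p0 (fun _ => 0) Xs where
  D2_pos := Nat.sqrt_pos.2 hD
  hD2 := by
    change 1 * Nat.sqrt D ≤ Nat.sqrt D
    rw [one_mul]
  hD1 := Nat.sqrt_le D
  hD := hDQ
  mem := Pool.Agent.Lib.H68T.p0_mem (hD.trans hDQ)
  real := by
    change (1 : DirichletCharacter ℂ 1) ^ 2 = 1
    exact one_pow 2
  eta_pos := one_pos
  eta_le := le_rfl
  E0_nonneg := hE
  E0_le := hkE
  triv := fun _ _ => rfl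
  nonneg := fun _ _ _ _ => le_rfl
  le := fun _ _ _ _ => by
    rw [sub_self]
  cf := by
    intro i
    obtain ⟨eb, h0, hs, hb⟩ := (hM i).cf
    refine ⟨eb, fun p hp => h0 p (core_PC hQ hp), ?_, ?_⟩
    · refine (Finset.sum_le_sum_of_subset_of_nonneg (core_PC hQ) fun p hp _ => h0 p hp).trans (hs.trans ?_)
      exact mul_le_mul_of_nonneg_right (hM i).eta_le hE
    · intro m h1 h2 p hp hpD
      have h3 : p ≠ px := by
        rintro rfl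
        omega
      have h4 : MX p0 (fun _ => 0) m p = MX px th m p := by
        unfold MX
        by_cases h5 : p = p0
        · rw [if_pos h5, if_pos h5]
        · rw [if_neg h5, if_neg h5, if_neg h5, if_neg h3]
      rw [h4]
      exact hb m h1 h2 p (core_PC hQ hp)

/-- From the model to the data of the small level, large conductor. Proof. `px := p0`, `th := 0`, `η := 1`, `D1 = D2 = √D`: for `p.1 ≤ D1 < px.1` we have `p ≠ px`, so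
`MX p0 _ m p = MX px th m p`; `∑ eb ≤ η E ≤ E` over the subset `PC Q' ⊆ PC Q`. -/
theorem CORE_dat2 {k : ℕ} (Q Q' D : ℕ) (hQ : Q' ≤ Q) (hD : 1 ≤ D) (hDQ : D ≤ Q') (Xs : Fin k → ℕ) (η E : ℝ) (px : Ch) (th : ℤ → ℝ)
    (hE : 0 ≤ E) (hkE : 4 * k * E ≤ 1) (hM : ∀ i, MdB Q (Xs i) η E px th) (hr : Nat.sqrt D < px.1) :
    Dat k Q Q' D (Nat.sqrt D) (Nat.sqrt D) 1 E p0 (fun _ => 0) Xs := by
  exact core_dat2 Q Q' D hQ hD hDQ Xs η E px th hE hkE hM hr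

lemma core_dat1 {k : ℕ} (hk : 1 ≤ k) (Q Q' D2 : ℕ) (hQ : Q' ≤ Q) (hD2 : 1 ≤ D2) (Xs : Fin k → ℕ) (η E : ℝ) (px : Ch) (th : ℤ → ℝ)
    (hE : 0 ≤ E) (hkE : 4 * k * E ≤ 1) (hM : ∀ i, MdB Q (Xs i) η E px th) (hr : px.1 * D2 ≤ Nat.sqrt Q') :
    Dat k Q Q' Q' (Nat.sqrt Q') D2 η E px th Xs where
  D2_pos := hD2
  hD2 := hr
  hD1 := Nat.sqrt_le Q'
  hD := le_rfl
  mem := by
    have h1 := (hM ⟨0, hk⟩).mem
    rw [Pool.Agent.Lib.H68T.mem_PC] at h1 ⊢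
    refine ⟨h1.1, ?_, h1.2.2⟩
    calc px.1 ≤ px.1 * D2 := Nat.le_mul_of_pos_right _ hD2
      _ ≤ Nat.sqrt Q' := hr
      _ ≤ Q' := Nat.sqrt_le_self Q'
  real := (hM ⟨0, hk⟩).real
  eta_pos := (hM ⟨0, hk⟩).eta_pos
  eta_le := (hM ⟨0, hk⟩).eta_le
  E0_nonneg := hE
  E0_le := hkE
  triv := (hM ⟨0, hk⟩).triv
  nonneg := fun i => (hM i).nonneg
  le := fun i => (hM i).le
  cf := by
    intro i
    obtain ⟨eb, h0, hs, hb⟩ := (hM i).cf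
    refine ⟨eb, fun p hp => h0 p (core_PC hQ hp), ?_, ?_⟩
    · exact (Finset.sum_le_sum_of_subset_of_nonneg (core_PC hQ) fun p hp _ => h0 p hp).trans hs
    · intro m h1 h2 p hp _
      exact hb m h1 h2 p (core_PC hQ hp)

/-- From the model to the data of the small level, small conductor. Proof. Direct; `px ∈ PC Q'` from `px ∈ PC Q` (`mem_PC`) and `px.1 ≤ Q'`. -/
theorem CORE_dat1 {k : ℕ} (hk : 1 ≤ k) (Q Q' D2 : ℕ) (hQ : Q' ≤ Q) (hD2 : 1 ≤ D2) (Xs : Fin k → ℕ) (η E : ℝ) (px : Ch) (th : ℤ → ℝ)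
    (hE : 0 ≤ E) (hkE : 4 * k * E ≤ 1) (hM : ∀ i, MdB Q (Xs i) η E px th) (hr : px.1 * D2 ≤ Nat.sqrt Q') :
    Dat k Q Q' Q' (Nat.sqrt Q') D2 η E px th Xs := by
  exact core_dat1 hk Q Q' D2 hQ hD2 Xs η E px th hE hkE hM hr

open Classical in
/-- the sum over the prime values. -/
lemma core_primes {k d : ℕ} (S : Sys k d) (b : Fin k → ℤ) (t : Fin d → ℤ) (L : ℕ) (M : ℝ)
    (h : ∀ i, ∀ n ∈ range L, 0 < S.val b n t i ∧ (S.val b n t i : ℝ) ≤ M) :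
    ∑ n ∈ range L, ∏ i, lp (S.val b n t i) ≤
      (((range L).filter (fun n : ℕ => ∀ i, (S.val b n t i).toNat.Prime)).card : ℝ) * Real.log M ^ k := by
  have h1 : ∀ n ∈ range L, ∏ i, lp (S.val b n t i) ≤
      if ∀ i, (S.val b n t i).toNat.Prime then Real.log M ^ k else 0 := by
    intro n hn
    by_cases hp : ∀ i, (S.val b n t i).toNat.Prime
    · rw [if_pos hp]
      calc ∏ i, lp (S.val b n t i) ≤ ∏ _i : Fin k, Real.log M := by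
            refine Finset.prod_le_prod (fun i _ => core_lp_nonneg _) fun i _ => ?_
            obtain ⟨h2, h3⟩ := h i n hn
            refine (core_lp_le _ (by omega)).trans ?_
            exact Real.log_le_log (by exact_mod_cast h2) h3
        _ = Real.log M ^ k := by
            rw [Finset.prod_const, Finset.card_univ, Fintype.card_fin]
    · rw [if_neg hp]
      push Not at hp
      obtain ⟨i, hi⟩ := hp
      refine le_of_eq (Finset.prod_eq_zero (mem_univ i) ?_)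
      unfold Pool.Agent.Lib.H68T.lp
      rw [if_neg hi]
  refine (Finset.sum_le_sum h1).trans ?_
  rw [← Finset.sum_filter, Finset.sum_const, nsmul_eq_mul]

/-- few primes give a small sum. -/
lemma core_thr {k C0 X n : ℕ} (hk : 1 ≤ k) (hC0 : 1 ≤ C0) (hX : 1 ≤ X) (ε η Sm : ℝ) (hε : 0 < ε)
    (hn : (n : ℝ) < (X : ℝ) ^ (1 - ε)) (hSm : Sm ≤ n * Real.log (4 * C0 * X) ^ k)
    (hη : (X : ℝ) ^ (-(ε / 4)) ≤ η ^ k)
    (hbig : 16 * Real.exp (4 * k : ℝ) * ((4 * C0 : ℝ) ^ (ε / 4) / (ε / (4 * k)) ^ k) + 1 ≤ (X : ℝ) ^ (ε / 2)) :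
    Sm < X * (η ^ k * Real.exp (-(4 * k : ℝ))) / 16 := by
  have hX0 : (0 : ℝ) < X := by exact_mod_cast hX
  have hX1 : (1 : ℝ) ≤ X := by exact_mod_cast hX
  have hC1 : (1 : ℝ) ≤ C0 := by exact_mod_cast hC0
  have hk0 : (0 : ℝ) < k := by exact_mod_cast hk
  have hs : 0 < ε / (4 * k) := by positivity
  have hy : (1 : ℝ) ≤ 4 * C0 * X := by nlinarith
  have hl0 : 0 ≤ Real.log (4 * C0 * X) := Real.log_nonneg hy
  have hl1 := Real.log_le_rpow_div (by linarith : (0 : ℝ) ≤ 4 * C0 * X) hs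
  have hl2 := pow_le_pow_left₀ hl0 hl1 k
  obtain ⟨A, hA⟩ : ∃ A, A = (4 * C0 : ℝ) ^ (ε / 4) / (ε / (4 * k)) ^ k := ⟨_, rfl⟩
  rw [← hA] at hbig
  have hA0 : 0 < A := by
    rw [hA]
    positivity
  have hl3 : Real.log (4 * C0 * X) ^ k ≤ A * (X : ℝ) ^ (ε / 4) := by
    refine hl2.trans (le_of_eq ?_)
    rw [div_pow, ← Real.rpow_natCast, ← Real.rpow_mul (by linarith)]
    have : ε / (4 * k) * (k : ℝ) = ε / 4 := by field_simp
    rw [this, Real.mul_rpow (by positivity) hX0.le, hA]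
    ring
  have h1 : Sm ≤ (X : ℝ) ^ (1 - ε) * (A * (X : ℝ) ^ (ε / 4)) := by
    refine hSm.trans (mul_le_mul hn.le hl3 (by positivity) (Real.rpow_nonneg hX0.le _))
  have h2 : (X : ℝ) ^ (1 - ε) * (A * (X : ℝ) ^ (ε / 4)) = A * (X : ℝ) ^ (1 - 3 * ε / 4) := by
    have : (X : ℝ) ^ (1 - 3 * ε / 4) = (X : ℝ) ^ (1 - ε) * (X : ℝ) ^ (ε / 4) := by
      rw [← Real.rpow_add hX0]
      congr 1
      ring
    rw [this]
    ring
  rw [h2] at h1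
  have h3 : (X : ℝ) * (X : ℝ) ^ (-(ε / 4)) = (X : ℝ) ^ (1 - 3 * ε / 4) * (X : ℝ) ^ (ε / 2) := by
    rw [← Real.rpow_add hX0]
    nth_rewrite 1 [← Real.rpow_one (X : ℝ)]
    rw [← Real.rpow_add hX0]
    congr 1
    ring
  have h4 : (X : ℝ) ^ (1 - 3 * ε / 4) * (16 * Real.exp (4 * k : ℝ) * A + 1) ≤
      (X : ℝ) * (X : ℝ) ^ (-(ε / 4)) := by
    rw [h3]
    exact mul_le_mul_of_nonneg_left hbig (Real.rpow_nonneg hX0.le _)
  have hW : 0 < (X : ℝ) ^ (1 - 3 * ε / 4) := Real.rpow_pos_of_pos hX0 _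
  have h5 : (X : ℝ) ^ (1 - 3 * ε / 4) * (16 * Real.exp (4 * k : ℝ) * A) < (X : ℝ) * η ^ k := by
    have := mul_le_mul_of_nonneg_left hη hX0.le
    nlinarith
  have h6 : Real.exp (4 * k : ℝ) * Real.exp (-(4 * k : ℝ)) = 1 := by
    rw [← Real.exp_add, add_neg_cancel, Real.exp_zero]
  have h7 := mul_lt_mul_of_pos_right h5 (Real.exp_pos (-(4 * k : ℝ)))
  have h8 : (X : ℝ) ^ (1 - 3 * ε / 4) * (16 * Real.exp (4 * k : ℝ) * A) * Real.exp (-(4 * k : ℝ)) =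
      16 * (A * (X : ℝ) ^ (1 - 3 * ε / 4)) := by
    have : (X : ℝ) ^ (1 - 3 * ε / 4) * (16 * Real.exp (4 * k : ℝ) * A) * Real.exp (-(4 * k : ℝ)) =
      16 * (A * (X : ℝ) ^ (1 - 3 * ε / 4)) * (Real.exp (4 * k : ℝ) * Real.exp (-(4 * k : ℝ))) := by ring
    rw [this, h6, mul_one]
  rw [h8] at h7
  have h9 : (X : ℝ) * (η ^ k * Real.exp (-(4 * k : ℝ))) / 16 = (X : ℝ) * η ^ k * Real.exp (-(4 * k : ℝ)) / 16 := by ring
  rw [h9]
  linarith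

/-- the small level. -/
lemma core_level (k C0 : ℕ) (hC0 : 1 ≤ C0) (Cr : ℝ) (hCr : 1 ≤ Cr) : ∃ X0 : ℕ, ∀ X : ℕ, X0 ≤ X →
    ∀ Q : ℕ, Real.log ((C0 : ℝ) * X) ≤ Cr * Real.log Q → ∃ Q' : ℕ,
      ((C0 : ℝ) * X) ^ (1 / (100 * (k + 1) * Cr)) ≤ Q' ∧ Q' ^ (20 * (k + 1)) ≤ Q ∧ Q' ≤ X := by
  have hk1 : (0 : ℝ) < (k : ℝ) + 1 := by positivity
  have hCr0 : 0 < Cr := by linarith
  obtain ⟨Xa, hXa⟩ := core_large (4 / (5 * Cr)) ((2 : ℝ) ^ (20 * (k + 1))) (by positivity)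
  refine ⟨max Xa (max (4 * C0) 2), ?_⟩
  intro X hX Q hQ
  have g1 : Xa ≤ X := (le_max_left _ _).trans hX
  have g2 : 4 * C0 ≤ X := ((le_max_left _ _).trans (le_max_right _ _)).trans hX
  have g3 : 2 ≤ X := ((le_max_right _ _).trans (le_max_right _ _)).trans hX
  have f1 := hXa X g1
  have hX2 : (2 : ℝ) ≤ X := by exact_mod_cast g3
  have hX0 : (0 : ℝ) < X := by linarith
  have hC1 : (1 : ℝ) ≤ C0 := by exact_mod_cast hC0
  have hX4 : 4 * (C0 : ℝ) ≤ X := by exact_mod_cast g2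
  obtain ⟨Z, hZ⟩ : ∃ Z : ℝ, Z = (C0 : ℝ) * X := ⟨_, rfl⟩
  obtain ⟨θ, hθ⟩ : ∃ θ : ℝ, θ = 1 / (100 * ((k : ℝ) + 1) * Cr) := ⟨_, rfl⟩
  rw [← hZ] at hQ ⊢
  rw [← hθ]
  have hZX : (X : ℝ) ≤ Z := by rw [hZ]; nlinarith
  have hZ2 : 2 ≤ Z := by linarith
  have hZ0 : 0 < Z := by linarith
  have hZ1 : 1 ≤ Z := by linarith
  have hθ0 : 0 < θ := by rw [hθ]; positivity
  have hθ1 : θ ≤ 1 / 2 := by
    rw [hθ]
    refine one_div_le_one_div_of_le (by norm_num) ?_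
    have h1 : 1 ≤ ((k : ℝ) + 1) := by
      have : (0 : ℝ) ≤ k := Nat.cast_nonneg k
      linarith
    nlinarith
  have hlZ : 0 < Real.log Z := Real.log_pos (by linarith)
  have hlQ : 0 < Real.log Q := by
    by_contra hcon
    push Not at hcon
    nlinarith
  have hQ0 : (0 : ℝ) < Q := by
    by_contra hcon
    have h0 : (Q : ℝ) = 0 := le_antisymm (not_lt.1 hcon) (Nat.cast_nonneg Q)
    rw [h0, Real.log_zero] at hlQ
    exact lt_irrefl _ hlQ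
  have hZQ : Z ^ (1 / Cr) ≤ Q := by
    rw [← Real.log_le_log_iff (Real.rpow_pos_of_pos hZ0 _) hQ0, Real.log_rpow hZ0, one_div,
      inv_mul_le_iff₀ hCr0]
    exact hQ
  have hZθ : 1 ≤ Z ^ θ := Real.one_le_rpow hZ1 hθ0.le
  refine ⟨⌈Z ^ θ⌉₊, Nat.le_ceil _, ?_, ?_⟩
  · have h1 : (⌈Z ^ θ⌉₊ : ℝ) ≤ 2 * Z ^ θ := by
      have := (Nat.ceil_lt_add_one (by linarith : (0 : ℝ) ≤ Z ^ θ)).le
      linarith
    have h2 : (⌈Z ^ θ⌉₊ : ℝ) ^ (20 * (k + 1)) ≤ (Q : ℝ) := by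
      calc (⌈Z ^ θ⌉₊ : ℝ) ^ (20 * (k + 1)) ≤ (2 * Z ^ θ) ^ (20 * (k + 1)) :=
            pow_le_pow_left₀ (Nat.cast_nonneg _) h1 _
        _ = 2 ^ (20 * (k + 1)) * Z ^ (1 / (5 * Cr)) := by
            rw [mul_pow, ← Real.rpow_natCast (Z ^ θ), ← Real.rpow_mul hZ0.le]
            congr 2
            rw [hθ]
            push_cast
            field_simp
            ring
        _ ≤ Z ^ (4 / (5 * Cr)) * Z ^ (1 / (5 * Cr)) := by
            refine mul_le_mul_of_nonneg_right ?_ (Real.rpow_nonneg hZ0.le _)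
            exact f1.trans (Real.rpow_le_rpow hX0.le hZX (by positivity))
        _ = Z ^ (1 / Cr) := by
            rw [← Real.rpow_add hZ0]
            congr 1
            field_simp
            ring
        _ ≤ Q := hZQ
    exact_mod_cast h2
  · have h1 : (⌈Z ^ θ⌉₊ : ℝ) ≤ 2 * Z ^ θ := by
      have := (Nat.ceil_lt_add_one (by linarith : (0 : ℝ) ≤ Z ^ θ)).le
      linarith
    have h2 : Z ^ θ ≤ Z ^ (1 / 2 : ℝ) := Real.rpow_le_rpow_of_exponent_le hZ1 hθ1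
    have h3 : 2 * Z ^ (1 / 2 : ℝ) ≤ X := by
      rw [← Real.sqrt_eq_rpow]
      have h4 : Real.sqrt Z ≤ X / 2 := by
        rw [Real.sqrt_le_left (by positivity), hZ]
        nlinarith
      linarith
    have h5 : (⌈Z ^ θ⌉₊ : ℝ) ≤ X := by linarith
    exact_mod_cast h5

/-- small conductor. -/
lemma core_case1 (Q' r : ℕ) (h4 : 4 ≤ (Q' : ℝ) ^ (23 / 40 : ℝ)) (hQ : 1 ≤ Q')
    (hr : (r : ℝ) ≤ (Q' : ℝ) ^ (1 / 80 : ℝ)) :
    1 ≤ ⌈(Q' : ℝ) ^ (1 / 5 : ℝ)⌉₊ ∧ r * ⌈(Q' : ℝ) ^ (1 / 5 : ℝ)⌉₊ ≤ Nat.sqrt Q' := by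
  have hQ1 : (1 : ℝ) ≤ Q' := by exact_mod_cast hQ
  have hQ0 : (0 : ℝ) < Q' := by linarith
  have h1 : (1 : ℝ) ≤ (Q' : ℝ) ^ (1 / 5 : ℝ) := Real.one_le_rpow hQ1 (by norm_num)
  have h2 : (⌈(Q' : ℝ) ^ (1 / 5 : ℝ)⌉₊ : ℝ) ≤ 2 * (Q' : ℝ) ^ (1 / 5 : ℝ) := by
    have := (Nat.ceil_lt_add_one (by linarith : (0 : ℝ) ≤ (Q' : ℝ) ^ (1 / 5 : ℝ))).le
    linarith
  constructor
  · rw [Nat.one_le_ceil_iff]
    linarith
  · rw [Nat.le_sqrt']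
    have h3 : ((r * ⌈(Q' : ℝ) ^ (1 / 5 : ℝ)⌉₊ : ℕ) : ℝ) ^ 2 ≤ Q' := by
      push_cast
      calc ((r : ℝ) * (⌈(Q' : ℝ) ^ (1 / 5 : ℝ)⌉₊ : ℝ)) ^ 2
          ≤ ((Q' : ℝ) ^ (1 / 80 : ℝ) * (2 * (Q' : ℝ) ^ (1 / 5 : ℝ))) ^ 2 :=
            pow_le_pow_left₀ (by positivity) (mul_le_mul hr h2 (Nat.cast_nonneg _) (by positivity)) 2
        _ = 4 * (Q' : ℝ) ^ (17 / 40 : ℝ) := by
            have e1 : (Q' : ℝ) ^ (17 / 40 : ℝ) = ((Q' : ℝ) ^ (1 / 80 : ℝ) * (Q' : ℝ) ^ (1 / 5 : ℝ)) ^ 2 := by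
              rw [← Real.rpow_add hQ0, ← Real.rpow_natCast, ← Real.rpow_mul hQ0.le]
              norm_num
            rw [e1]
            ring
        _ ≤ (Q' : ℝ) ^ (23 / 40 : ℝ) * (Q' : ℝ) ^ (17 / 40 : ℝ) :=
            mul_le_mul_of_nonneg_right h4 (by positivity)
        _ = Q' := by
            rw [← Real.rpow_add hQ0]
            norm_num
    exact_mod_cast h3

/-- large conductor. -/
lemma core_case2 (Q' r : ℕ) (δ : ℝ) (hδ : 0 < δ) (hδ1 : δ ≤ 1) (h2 : 2 ≤ (Q' : ℝ) ^ (δ / 4)) (hQ : 1 ≤ Q')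
    (hr : (Q' : ℝ) ^ δ < r) :
    1 ≤ ⌊(Q' : ℝ) ^ δ⌋₊ ∧ ⌊(Q' : ℝ) ^ δ⌋₊ ≤ Q' ∧ Nat.sqrt ⌊(Q' : ℝ) ^ δ⌋₊ < r ∧
      (Q' : ℝ) ^ (δ / 4) ≤ Nat.sqrt ⌊(Q' : ℝ) ^ δ⌋₊ := by
  have hQ1 : (1 : ℝ) ≤ Q' := by exact_mod_cast hQ
  have hQ0 : (0 : ℝ) < Q' := by linarith
  have h1 : (1 : ℝ) ≤ (Q' : ℝ) ^ δ := Real.one_le_rpow hQ1 hδ.le
  have hfl : (⌊(Q' : ℝ) ^ δ⌋₊ : ℝ) ≤ (Q' : ℝ) ^ δ := Nat.floor_le (by linarith)
  refine ⟨?_, ?_, ?_, ?_⟩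
  · rw [Nat.one_le_floor_iff]
    exact h1
  · have h3 : (Q' : ℝ) ^ δ ≤ Q' := by
      have := Real.rpow_le_rpow_of_exponent_le hQ1 hδ1
      rwa [Real.rpow_one] at this
    exact_mod_cast hfl.trans h3
  · have h4 : ⌊(Q' : ℝ) ^ δ⌋₊ < r := by exact_mod_cast lt_of_le_of_lt hfl hr
    exact lt_of_le_of_lt (Nat.sqrt_le_self _) h4
  · obtain ⟨D, hD⟩ : ∃ D, D = ⌊(Q' : ℝ) ^ δ⌋₊ := ⟨_, rfl⟩
    obtain ⟨y, hy⟩ : ∃ y, y = (Q' : ℝ) ^ (δ / 4) := ⟨_, rfl⟩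
    rw [← hD, ← hy]
    rw [← hy] at h2
    have h5 : (Q' : ℝ) ^ δ = y ^ 4 := by
      rw [hy, ← Real.rpow_natCast, ← Real.rpow_mul hQ0.le]
      congr 1
      push_cast
      ring
    have h6 : y ^ 4 < D + 1 := by
      rw [← h5, hD]
      exact Nat.lt_floor_add_one _
    have h7 : D < (Nat.sqrt D + 1) * (Nat.sqrt D + 1) := Nat.lt_succ_sqrt D
    have h8 : (D : ℝ) + 1 ≤ ((Nat.sqrt D : ℝ) + 1) * ((Nat.sqrt D : ℝ) + 1) := by
      exact_mod_cast h7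
    by_contra hcon
    push Not at hcon
    have h9 : (0 : ℝ) ≤ (Nat.sqrt D : ℝ) := Nat.cast_nonneg _
    have h10 : ((Nat.sqrt D : ℝ) + 1) * ((Nat.sqrt D : ℝ) + 1) ≤ (y + 1) * (y + 1) :=
      mul_le_mul (by linarith) (by linarith) (by linarith) (by linarith)
    have h11 : y + 1 ≤ y ^ 2 := by nlinarith
    have h12 : (y + 1) * (y + 1) ≤ y ^ 2 * y ^ 2 := mul_le_mul h11 h11 (by linarith) (by positivity)
    nlinarith

open Classical in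
/-- **CORE.** Proof. `K` from `Z4_count`. `A3S` with `E = 1/(4k)` and `K' = K` gives `Cr, c0` and for each large `X` a level `Q` with a model `px, th, η`. `θ = 1/(100 (k+1) Cr)`,
`Q' = ⌈(C0 X)^θ⌉`: `Rgm K Cr θ Q Q' (Xs i)`, `Q'^(20 (k+1)) ≤ Q`, `Q' ≤ X` for `X` large. `Z4_count` with `δ3 = 1/5` gives `κa, εa`; `δ2 = min (min εa (ε/(4k))) (1/20) / 4`; `Z4_count` with
`δ3 = δ2/4` gives `κb, εb`. Case 1, `px.1 ≤ Q'^δ2`: `CORE_dat1` with `D2 = ⌈Q'^(1/5)⌉` (`px.1 D2 ≤ Q'^(1/20) · 2 Q'^(1/5) ≤ √Q'` rounded down), `η ≥ c0/px.1² ≥ c0 Q'^(-2 δ2) ≥ X^(-min(εa, ε/(4k)))`.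
Case 2, `px.1 > Q'^δ2`: `CORE_dat2` with `D = ⌊Q'^δ2⌋` (`Q'^(δ2/4) ≤ √D` rounded down), `η = 1`. In both cases `η^k exp(-4k)/16 ≥ X^(-ε/2)`, and fewer than `X^(1-ε)` prime values imply
`∑_n ∏ lp < X^(1-ε) (log (4 C0 X))^k ≤ X^(1-ε/2)` (`lp m ≤ log m`, and `0` unless `m` is a prime; `m ∈ JJ (Xs i)`). -/
theorem CORE (hI : Pool.Agent.H9S.INV) {k d : ℕ} (hk : 1 ≤ k) (hd : 1 ≤ d) (S : Sys k d) (hS : S.Half) (hL : LBig S) (C0 : ℕ) (hC0 : 1 ≤ C0)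
    (ε : ℝ) (hε : 0 < ε) : ∃ κ : ℝ, 0 < κ ∧ ∃ X0 : ℕ, ∀ X : ℕ, X0 ≤ X →
    ∀ Xs : Fin k → ℕ, (∀ i, X ≤ Xs i ∧ Xs i ≤ C0 * X) → ∀ (b : Fin k → ℤ) (L T : ℕ), X ≤ L → L ≤ C0 * X → T ≤ C0 * X →
    (∀ i, ∀ n ∈ range L, ∀ t ∈ bx d T, S.val b n (iv t) i ∈ JJ (Xs i)) →
    (((bx d T).filter (fun t => S.Adm b (iv t) ∧
      (((range L).filter (fun n : ℕ => ∀ i, (S.val b n (iv t) i).toNat.Prime)).card : ℝ) < (X : ℝ) ^ (1 - ε))).card : ℝ) ≤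
      (X : ℝ) ^ (d - κ) := by
  obtain ⟨K, hK, HZ⟩ := Z4_count hI hk hd S hS hL
  have hk0 : (0 : ℝ) < k := by exact_mod_cast hk
  have hC1 : (1 : ℝ) ≤ C0 := by exact_mod_cast hC0
  have hE : (0 : ℝ) < 1 / (4 * k) := by positivity
  have hkE : 4 * (k : ℝ) * (1 / (4 * k)) ≤ 1 := by
    rw [mul_one_div, div_self (by positivity)]
  obtain ⟨Cr, c0, hCr, hc0, Xa, HA⟩ := A3S C0 hC0 (1 / (4 * k)) K hE
  obtain ⟨θ, hθ⟩ : ∃ θ : ℝ, θ = 1 / (100 * ((k : ℝ) + 1) * Cr) := ⟨_, rfl⟩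
  have hθ0 : 0 < θ := by rw [hθ]; positivity
  obtain ⟨κa, εa, hκa, hεa, Xb, HZa⟩ := HZ Cr θ (1 / 5) hCr hθ0 (by norm_num) C0
  obtain ⟨mm, hmm⟩ : ∃ mm, mm = min εa (ε / (4 * k)) := ⟨_, rfl⟩
  have hmm0 : 0 < mm := by rw [hmm]; exact lt_min hεa (by positivity)
  have hmma : mm ≤ εa := by rw [hmm]; exact min_le_left _ _
  have hmmb : mm ≤ ε / (4 * k) := by rw [hmm]; exact min_le_right _ _
  obtain ⟨δ2, hδ2⟩ : ∃ δ2, δ2 = min mm (1 / 20) / 4 := ⟨_, rfl⟩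
  have hδ0 : 0 < δ2 := by
    rw [hδ2]
    have : 0 < min mm (1 / 20) := lt_min hmm0 (by norm_num)
    positivity
  have hδa : δ2 ≤ mm / 4 := by
    rw [hδ2]
    have := min_le_left mm (1 / 20)
    linarith
  have hδb : δ2 ≤ 1 / 80 := by
    rw [hδ2]
    have := min_le_right mm (1 / 20)
    linarith
  obtain ⟨κb, εb, hκb, hεb, Xc, HZb⟩ := HZ Cr θ (δ2 / 4) hCr hθ0 (by positivity) C0
  obtain ⟨Xd, HL⟩ := core_level k C0 hC0 Cr hCr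
  obtain ⟨Xe, He⟩ := core_large (θ * (23 / 40)) 4 (by positivity)
  obtain ⟨Xf, Hf⟩ := core_large (θ * (δ2 / 4)) 2 (by positivity)
  obtain ⟨Xg, Hg⟩ := core_large (mm / 2) (1 / c0) (by positivity)
  obtain ⟨Xh, Hh⟩ := core_large (ε / 2)
    (16 * Real.exp (4 * k : ℝ) * ((4 * C0 : ℝ) ^ (ε / 4) / (ε / (4 * k)) ^ k) + 1) (by positivity)
  refine ⟨min κa κb, lt_min hκa hκb,
    max (max (max Xa Xb) (max Xc Xd)) (max (max Xe Xf) (max (max Xg Xh) 1)), ?_⟩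
  intro X hX Xs hXs b L T hXL hL1 hT hJ
  have g0 : max (max Xa Xb) (max Xc Xd) ≤ X := (le_max_left _ _).trans hX
  have g0' : max (max Xe Xf) (max (max Xg Xh) 1) ≤ X := (le_max_right _ _).trans hX
  have ga : Xa ≤ X := ((le_max_left _ _).trans (le_max_left _ _)).trans g0
  have gb : Xb ≤ X := ((le_max_right _ _).trans (le_max_left _ _)).trans g0
  have gc : Xc ≤ X := ((le_max_left _ _).trans (le_max_right _ _)).trans g0
  have gd : Xd ≤ X := ((le_max_right _ _).trans (le_max_right _ _)).trans g0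
  have ge : Xe ≤ X := ((le_max_left _ _).trans (le_max_left _ _)).trans g0'
  have gf : Xf ≤ X := ((le_max_right _ _).trans (le_max_left _ _)).trans g0'
  have gg : Xg ≤ X := (((le_max_left _ _).trans (le_max_left _ _)).trans (le_max_right _ _)).trans g0'
  have gh : Xh ≤ X := (((le_max_right _ _).trans (le_max_left _ _)).trans (le_max_right _ _)).trans g0'
  have hX1 : 1 ≤ X := ((le_max_right _ _).trans (le_max_right _ _)).trans g0'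
  have hX1r : (1 : ℝ) ≤ X := by exact_mod_cast hX1
  have hX0r : (0 : ℝ) < X := by linarith
  have i0 : Fin k := ⟨0, hk⟩
  obtain ⟨Q, hQ, px, th, η, hpx, hη, hM⟩ := HA X ga
  have hXC : X ≤ C0 * X := Nat.le_mul_of_pos_left _ hC0
  have hlogQ : Real.log ((C0 : ℝ) * X) ≤ Cr * Real.log Q := by
    have := (hQ (C0 * X) hXC le_rfl).2
    push_cast at this
    exact this
  obtain ⟨Q', hQ'1, hQ'2, hQ'3⟩ := HL X gd Q hlogQ
  rw [← hθ] at hQ'1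
  have hQ'X : (X : ℝ) ^ θ ≤ Q' := by
    refine (Real.rpow_le_rpow hX0r.le ?_ hθ0.le).trans hQ'1
    nlinarith
  have hQ'one : (1 : ℝ) ≤ Q' := (Real.one_le_rpow hX1r hθ0.le).trans hQ'X
  have hQ'1n : 1 ≤ Q' := by exact_mod_cast hQ'one
  have hQ'Q : Q' ≤ Q := by
    refine le_trans ?_ hQ'2
    calc Q' = Q' ^ 1 := (pow_one _).symm
      _ ≤ Q' ^ (20 * (k + 1)) := Nat.pow_le_pow_right hQ'1n (by omega)
  have hR : ∀ i, Rgm K Cr θ Q Q' (Xs i) := by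
    intro i
    obtain ⟨h1, h2⟩ := hQ (Xs i) (hXs i).1 (hXs i).2
    refine ⟨h1, h2, ?_, hQ'Q⟩
    refine le_trans ?_ hQ'1
    refine Real.rpow_le_rpow (Nat.cast_nonneg _) ?_ hθ0.le
    exact_mod_cast (hXs i).2
  have hMi : ∀ i, MdB Q (Xs i) η (1 / (4 * k)) px th := fun i => hM (Xs i) (hXs i).1 (hXs i).2
  have hr1 : 1 ≤ px.1 := (Pool.Agent.Lib.H68T.mem_PC.1 (hMi i0).mem).1
  have hr1r : (1 : ℝ) ≤ (px.1 : ℝ) := by exact_mod_cast hr1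
  have hbig := Hh X gh
  -- bounds for the values
  have hval : ∀ t ∈ bx d T, ∀ i, ∀ n ∈ range L, 0 < S.val b n (iv t) i ∧
      (S.val b n (iv t) i : ℝ) ≤ 4 * C0 * X := by
    intro t ht i n hn
    have h1 := hJ i n hn t ht
    unfold JJ at h1
    rw [Finset.mem_Ico] at h1
    have h2 : X ≤ Xs i := (hXs i).1
    have h3 : Xs i ≤ C0 * X := (hXs i).2
    have h4 : S.val b n (iv t) i ≤ 4 * ((C0 * X : ℕ) : ℤ) := by omega
    refine ⟨by omega, ?_⟩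
    have h5 : (S.val b n (iv t) i : ℝ) ≤ 4 * ((C0 * X : ℕ) : ℝ) := by exact_mod_cast h4
    push_cast at h5
    linarith
  -- few primes give a small sum
  have hsub : ∀ η' : ℝ, (X : ℝ) ^ (-(ε / 4)) ≤ η' ^ k →
      ((bx d T).filter (fun t => S.Adm b (iv t) ∧
      (((range L).filter (fun n : ℕ => ∀ i, (S.val b n (iv t) i).toNat.Prime)).card : ℝ) < (X : ℝ) ^ (1 - ε))).card ≤
      ((bx d T).filter (fun t => S.Adm b (iv t) ∧ ∑ n ∈ range L, ∏ i, lp (S.val b n (iv t) i) <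
      X * (η' ^ k * Real.exp (-(4 * k : ℝ))) / 16)).card := by
    intro η' hη'
    refine Finset.card_le_card ?_
    intro t ht
    rw [Finset.mem_filter] at ht ⊢
    obtain ⟨h1, h2, h3⟩ := ht
    refine ⟨h1, h2, ?_⟩
    exact core_thr hk hC0 hX1 ε η' _ hε h3 (core_primes S b (iv t) L (4 * C0 * X) (hval t h1)) hη' hbig
  by_cases hc : (px.1 : ℝ) ≤ (Q' : ℝ) ^ δ2
  · -- small conductor
    have hr80 : (px.1 : ℝ) ≤ (Q' : ℝ) ^ (1 / 80 : ℝ) :=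
      hc.trans (Real.rpow_le_rpow_of_exponent_le hQ'one hδb)
    have h4 : 4 ≤ (Q' : ℝ) ^ (23 / 40 : ℝ) := by
      refine (He X ge).trans ?_
      rw [Real.rpow_mul hX0r.le]
      exact Real.rpow_le_rpow (Real.rpow_nonneg hX0r.le _) hQ'X (by norm_num)
    obtain ⟨d1, d2⟩ := core_case1 Q' px.1 h4 hQ'1n hr80
    have hdat := CORE_dat1 hk Q Q' ⌈(Q' : ℝ) ^ (1 / 5 : ℝ)⌉₊ hQ'Q d1 Xs η (1 / (4 * k)) px th hE.le hkE hMi d2
    have hηmm : (X : ℝ) ^ (-mm) ≤ η := by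
      refine le_trans ?_ hη
      have h5 : ((px.1 : ℝ)) ^ 2 ≤ (X : ℝ) ^ (mm / 2) := by
        have h6 : (px.1 : ℝ) ≤ (X : ℝ) ^ (mm / 4) := by
          refine hc.trans ?_
          have h7 : (Q' : ℝ) ≤ X := by exact_mod_cast hQ'3
          refine (Real.rpow_le_rpow (Nat.cast_nonneg _) h7 hδ0.le).trans ?_
          exact Real.rpow_le_rpow_of_exponent_le hX1r hδa
        calc ((px.1 : ℝ)) ^ 2 ≤ ((X : ℝ) ^ (mm / 4)) ^ 2 := pow_le_pow_left₀ (Nat.cast_nonneg _) h6 2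
          _ = (X : ℝ) ^ (mm / 2) := by
            rw [← Real.rpow_natCast, ← Real.rpow_mul hX0r.le]
            congr 1
            push_cast
            ring
      have hr2 : (0 : ℝ) < (px.1 : ℝ) ^ 2 := by positivity
      rw [le_div_iff₀ hr2]
      have h8 := Hg X gg
      rw [div_le_iff₀ hc0] at h8
      have h9 : 0 < (X : ℝ) ^ (-mm) := Real.rpow_pos_of_pos hX0r _
      calc (X : ℝ) ^ (-mm) * (px.1 : ℝ) ^ 2 ≤ (X : ℝ) ^ (-mm) * (X : ℝ) ^ (mm / 2) :=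
            mul_le_mul_of_nonneg_left h5 h9.le
        _ = (X : ℝ) ^ (-mm) * (X : ℝ) ^ (mm / 2) * 1 := (mul_one _).symm
        _ ≤ (X : ℝ) ^ (-mm) * (X : ℝ) ^ (mm / 2) * ((X : ℝ) ^ (mm / 2) * c0) :=
            mul_le_mul_of_nonneg_left h8 (by positivity)
        _ = c0 := by
            have h10 : (X : ℝ) ^ (-mm) * (X : ℝ) ^ (mm / 2) * (X : ℝ) ^ (mm / 2) = 1 := by
              rw [← Real.rpow_add hX0r, ← Real.rpow_add hX0r]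
              have : -mm + mm / 2 + mm / 2 = 0 := by ring
              rw [this, Real.rpow_zero]
            rw [← mul_assoc, h10, one_mul]
    have hηa : (X : ℝ) ^ (-εa) ≤ η :=
      (Real.rpow_le_rpow_of_exponent_le hX1r (neg_le_neg hmma)).trans hηmm
    have hηk : (X : ℝ) ^ (-(ε / 4)) ≤ η ^ k := by
      have h5 : (X : ℝ) ^ (-(ε / (4 * k))) ≤ η :=
        (Real.rpow_le_rpow_of_exponent_le hX1r (neg_le_neg hmmb)).trans hηmm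
      have h6 := pow_le_pow_left₀ (Real.rpow_nonneg hX0r.le _) h5 k
      rw [← Real.rpow_natCast, ← Real.rpow_mul hX0r.le] at h6
      have h7 : -(ε / (4 * k)) * (k : ℝ) = -(ε / 4) := by field_simp
      rw [h7] at h6
      exact h6
    have hfin := HZa Q Q' X gb Xs hXs hR hQ'2 Q' (Nat.sqrt Q') ⌈(Q' : ℝ) ^ (1 / 5 : ℝ)⌉₊ η
      (1 / (4 * k)) px th hdat (Nat.le_ceil _) hηa b L T hXL hL1 hT hJ
    have h11 : ((((bx d T).filter (fun t => S.Adm b (iv t) ∧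
      (((range L).filter (fun n : ℕ => ∀ i, (S.val b n (iv t) i).toNat.Prime)).card : ℝ) <
        (X : ℝ) ^ (1 - ε))).card : ℕ) : ℝ) ≤ _ := Nat.cast_le.2 (hsub η hηk)
    refine h11.trans (hfin.trans (Real.rpow_le_rpow_of_exponent_le hX1r ?_))
    have := min_le_left κa κb
    linarith
  · -- large conductor
    push Not at hc
    have h2 : 2 ≤ (Q' : ℝ) ^ (δ2 / 4) := by
      refine (Hf X gf).trans ?_
      rw [Real.rpow_mul hX0r.le]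
      exact Real.rpow_le_rpow (Real.rpow_nonneg hX0r.le _) hQ'X (by positivity)
    obtain ⟨d1, d2, d3, d4⟩ := core_case2 Q' px.1 δ2 hδ0 (by linarith) h2 hQ'1n hc
    have hdat := CORE_dat2 Q Q' ⌊(Q' : ℝ) ^ δ2⌋₊ hQ'Q d1 d2 Xs η (1 / (4 * k)) px th hE.le hkE hMi d3
    have hη1 : (X : ℝ) ^ (-εb) ≤ 1 := Real.rpow_le_one_of_one_le_of_nonpos hX1r (by linarith)
    have hηk : (X : ℝ) ^ (-(ε / 4)) ≤ (1 : ℝ) ^ k := by
      rw [one_pow]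
      exact Real.rpow_le_one_of_one_le_of_nonpos hX1r (by linarith)
    have hfin := HZb Q Q' X gc Xs hXs hR hQ'2 ⌊(Q' : ℝ) ^ δ2⌋₊ (Nat.sqrt ⌊(Q' : ℝ) ^ δ2⌋₊)
      (Nat.sqrt ⌊(Q' : ℝ) ^ δ2⌋₊) 1 (1 / (4 * k)) p0 (fun _ => 0) hdat d4 hη1 b L T hXL hL1 hT hJ
    have h11 : ((((bx d T).filter (fun t => S.Adm b (iv t) ∧
      (((range L).filter (fun n : ℕ => ∀ i, (S.val b n (iv t) i).toNat.Prime)).card : ℝ) <
        (X : ℝ) ^ (1 - ε))).card : ℕ) : ℝ) ≤ _ := Nat.cast_le.2 (hsub 1 hηk)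
    refine h11.trans (hfin.trans (Real.rpow_le_rpow_of_exponent_le hX1r ?_))
    have := min_le_right κa κb
    linarith

end Pool.Agent.H9U
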