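import Pool.Agent.Lib.H9U.U0A
import Pool.Agent.Lib.H9U.ZDefs
import Pool.Agent.Lib.H59T.UM
import Pool.Agent.Lib.H59P.V1B

/-!
# H9U, chunk V1 (M): the coefficients are frozen in cells
-/

open Finset

namespace Pool.Agent.H9U

open Pool.Agent.Lib.H68T (lp Lk PC p0 dQ)
open Pool.Agent.Lib.H18Q (gk KS Bc RegP SG)
open Pool.Agent.Lib.H59P (Ch bx)

theorem v1_cells {β : Type*} [AddCommMonoid β] (f : ℕ → β) (H M : ℕ) :
    ∑ n ∈ range (M * H), f n = ∑ j ∈ range M, ∑ n ∈ Ico (j * H) (j * H + H), f n := by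
  induction M with
  | zero => simp
  | succ M ih =>
    rw [Finset.sum_range_succ, ← ih, Finset.range_eq_Ico, Finset.range_eq_Ico,
      Finset.sum_Ico_consecutive f (Nat.zero_le (M * H)) (Nat.le_add_right (M * H) H), Nat.succ_mul]

theorem v1_lip (Q X : ℕ) (p : Ch) (hl : ∀ m : ℤ, (X : ℤ) ≤ m → m ≤ 4 * X →
    ‖Bc Q X p (m + 1) - Bc Q X p m‖ ≤ (Q : ℝ) ^ 3 / (2 * X))
    (m : ℤ) (hm : (X : ℤ) ≤ m) (j : ℕ) (hj : m + j ≤ 4 * X) :
    ‖Bc Q X p (m + j) - Bc Q X p m‖ ≤ j * ((Q : ℝ) ^ 3 / (2 * X)) := by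
  induction j with
  | zero => simp
  | succ j ih =>
    push_cast at hj ⊢
    have h1 := ih (by omega)
    have h2 := hl (m + j) (by omega) (by omega)
    have e : Bc Q X p (m + (j + 1)) - Bc Q X p m =
        (Bc Q X p (m + j + 1) - Bc Q X p (m + j)) + (Bc Q X p (m + j) - Bc Q X p m) := by
      rw [← add_assoc m]
      ring
    rw [e]
    refine (norm_add_le _ _).trans ?_
    linarith

theorem v1_lip2 (Q X : ℕ) (p : Ch) (hl : ∀ m : ℤ, (X : ℤ) ≤ m → m ≤ 4 * X →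
    ‖Bc Q X p (m + 1) - Bc Q X p m‖ ≤ (Q : ℝ) ^ 3 / (2 * X))
    (m m' : ℤ) (hm : (X : ℤ) ≤ m) (hm4 : m ≤ 4 * X) (hm' : (X : ℤ) ≤ m') (hm4' : m' ≤ 4 * X) (D : ℕ)
    (hD : |m' - m| ≤ D) :
    ‖Bc Q X p m' - Bc Q X p m‖ ≤ D * ((Q : ℝ) ^ 3 / (2 * X)) := by
  have hP : 0 ≤ (Q : ℝ) ^ 3 / (2 * X) := by positivity
  rcases le_total m m' with h | h
  · have h1 := v1_lip Q X p hl m hm (m' - m).toNat (by omega)
    have e : m + ((m' - m).toNat : ℤ) = m' := by omega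
    rw [e] at h1
    refine h1.trans (mul_le_mul_of_nonneg_right ?_ hP)
    have : (m' - m).toNat ≤ D := by
      have := (abs_le.1 hD).2
      omega
    exact_mod_cast this
  · have h1 := v1_lip Q X p hl m' hm' (m - m').toNat (by omega)
    have e : m' + ((m - m').toNat : ℤ) = m := by omega
    rw [e, norm_sub_rev] at h1
    refine h1.trans (mul_le_mul_of_nonneg_right ?_ hP)
    have : (m - m').toNat ≤ D := by
      have := (abs_le.1 hD).1
      omega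
    exact_mod_cast this

theorem v1_dQ (Q : ℕ) (m : ℤ) : dQ Q m ≤ Q := by
  unfold Pool.Agent.Lib.H68T.dQ
  have h : ((Icc 1 Q).filter (fun d : ℕ => (d : ℤ) ∣ m)).card ≤ Q := by
    refine (Finset.card_filter_le _ _).trans ?_
    rw [Nat.card_Icc]
    omega
  exact_mod_cast h

/-- size of `SG` with crude constants -/
theorem v1_SG (Q : ℕ) (hQ : 1 ≤ Q) (B : Ch → ℂ) (mb : Ch → ℝ) (hB : ∀ p ∈ PC Q, ‖B p‖ ≤ mb p) (m : ℤ) (C : ℝ)
    (hC : ∑ p ∈ PC Q, mb p ≤ C) :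
    ‖SG Q B m‖ ≤ 100 * (Q : ℝ) ^ 4 * C := by
  refine (Pool.Agent.Lib.H59P.S1b Q hQ B mb hB m).trans ?_
  have hQ1 : (1 : ℝ) ≤ Q := by exact_mod_cast hQ
  have hlog : 0 ≤ Real.log Q := Real.log_nonneg hQ1
  have hlog2 : Real.log Q ≤ Q - 1 := Real.log_le_sub_one_of_pos (by linarith)
  have h1 : (1 + Real.log Q) ^ 3 ≤ (Q : ℝ) ^ 3 := pow_le_pow_left₀ (by linarith) (by linarith) 3
  have h2 := v1_dQ Q m
  have h3 : 0 ≤ dQ Q m := by
    unfold Pool.Agent.Lib.H68T.dQ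
    positivity
  have h4 : 0 ≤ ∑ p ∈ PC Q, mb p := Finset.sum_nonneg fun p hp => (norm_nonneg _).trans (hB p hp)
  have h5 : 0 ≤ (1 + Real.log Q) ^ 3 := by positivity
  calc 100 * (1 + Real.log Q) ^ 3 * dQ Q m * ∑ p ∈ PC Q, mb p
      ≤ 100 * (1 + Real.log Q) ^ 3 * dQ Q m * C := mul_le_mul_of_nonneg_left hC (by positivity)
    _ ≤ 100 * (Q : ℝ) ^ 3 * Q * C := by
        refine mul_le_mul_of_nonneg_right ?_ (h4.trans hC)
        refine mul_le_mul ?_ h2 h3 (by positivity)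
        exact mul_le_mul_of_nonneg_left h1 (by norm_num)
    _ = 100 * (Q : ℝ) ^ 4 * C := by ring

/-- Proof. `Lk_two`: `Lk Q' (X_i/Q²) m = SG Q' (Bc Q X_i · m) m` for `m = val n t i ∈ [X_i, 4X_i]`. `UM_mass` for `(Q, X_i)`: bounds `mb` of total size
at most `C` (also over the subset `PC Q' ⊆ PC Q`). `S1b` (`H59P/S1B.lean`): `‖SG Q' c m‖ ≤ Z := 100 (1+log Q')^3 Q' C` (`dQ Q' m ≤ Q'`), and for
`n` in the cell of `j H`: the difference of the two factors is `SG Q'` of `Bc Q X_i p (val n) - Bc Q X_i p (val (jH))`, where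
`|val n - val (jH)| ≤ |a_i| H`, so by `Bc_lip` (`H18Q/CL1.lean`, induction over the steps) at most `|a_i| H Q³/(2 X_i) ≤ |a_i| Q^(-5)` for each of the at most
`Q'^2` characters (`card_PC_le`); `v1b_prod` (`H59P/V1B.lean`) for the product. The total over `n < L ≤ C0 X` is at most
`C0 X · k · max|a_i| Q'^2 Z^k Q^(-5) · 100(1+log Q')^3 Q'`; the rest `n ≥ (L/H) H` has at most `H ≤ X Q^(-8)` elements, at most `Z^k` each.
`Q'^(20 (k+1)) ≤ Q` and `Q ≥ Q0`. -/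
theorem V1S {k d : ℕ} (S : Sys k d) : ∃ K : ℝ, 1 ≤ K ∧ ∀ C0 : ℕ, ∃ Q0 : ℕ, ∀ Q Q' X H L : ℕ, Q0 ≤ Q → 1 ≤ Q' →
    Q' ^ (20 * (k + 1)) ≤ Q → 1 ≤ H → H * Q ^ 8 ≤ X → L ≤ C0 * X → ∀ Xs : Fin k → ℕ, (∀ i, X ≤ Xs i) →
    (∀ i, RegP K Q (Xs i)) → ∀ (b : Fin k → ℤ) (t : Fin d → ℤ),
    (∀ i, ∀ n ∈ range L, (Xs i : ℤ) ≤ S.val b n t i ∧ S.val b n t i ≤ 4 * Xs i) →
    ‖((∑ n ∈ range L, ∏ i, Lk Q' (Xs i / Q ^ 2) (S.val b n t i) : ℝ) : ℂ) -
      ∑ j ∈ range (L / H), ∑ n ∈ Ico (j * H) (j * H + H),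
        ∏ i, SG Q' (fun p => Bc Q (Xs i) p (S.val b ((j * H : ℕ) : ℤ) t i)) (S.val b n t i)‖ ≤ X / Q := by
  obtain ⟨K1, hK1, hLk⟩ := Lk_two
  obtain ⟨K2, C, hK2, hC, hmass⟩ := Pool.Agent.Lib.H59T.UM_mass
  obtain ⟨K3, hK3, hlip⟩ := Pool.Agent.Lib.H18Q.Bc_lip
  obtain ⟨A, hA⟩ : ∃ A : ℕ, ∀ i, |S.a i| ≤ A := by
    refine ⟨∑ i, (S.a i).natAbs, fun i => ?_⟩
    rw [Int.abs_eq_natAbs]
    have := Finset.single_le_sum (f := fun i => (S.a i).natAbs) (fun _ _ => Nat.zero_le _) (Finset.mem_univ i)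
    exact_mod_cast this
  refine ⟨max (max K1 K2) K3, hK1.trans ((le_max_left _ _).trans (le_max_left _ _)), fun C0 => ?_⟩
  have hK0 : 0 ≤ max (max K1 K2) K3 :=
    zero_le_one.trans (hK1.trans ((le_max_left _ _).trans (le_max_left _ _)))
  obtain ⟨W, hW⟩ : ∃ W : ℝ, W = (C0 * k * (50 * A) + 1) * (100 * C) ^ k := ⟨_, rfl⟩
  refine ⟨⌈W⌉₊ + 1, fun Q Q' X H L hQ0 hQ' hQQ hH hHX hL Xs hXs hreg b t hval => ?_⟩
  have hWQ : W ≤ Q := by
    have h1 : W ≤ ⌈W⌉₊ := Nat.le_ceil W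
    have h2 : ((⌈W⌉₊ + 1 : ℕ) : ℝ) ≤ Q := by exact_mod_cast hQ0
    push_cast at h2
    linarith
  have hQ1 : 1 ≤ Q := by omega
  have hQ1r : (1 : ℝ) ≤ Q := by exact_mod_cast hQ1
  have hQp : (0 : ℝ) < Q := by linarith
  have hQ'r : (1 : ℝ) ≤ Q' := by exact_mod_cast hQ'
  have hQ'Q : Q' ≤ Q := by
    refine le_trans ?_ hQQ
    exact Nat.le_self_pow (by omega) Q'
  have hHr : (1 : ℝ) ≤ H := by exact_mod_cast hH
  have hHXr : (H : ℝ) * (Q : ℝ) ^ 8 ≤ X := by exact_mod_cast hHX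
  have hXp : (0 : ℝ) < X := lt_of_lt_of_le (by positivity) hHXr
  have hsub : PC Q' ⊆ PC Q := by
    intro p hp
    obtain ⟨a, b, c⟩ := Pool.Agent.Lib.H68T.mem_PC.1 hp
    exact Pool.Agent.Lib.H68T.mem_PC.2 ⟨a, b.trans hQ'Q, c⟩
  have hC0' : 0 ≤ C := by linarith
  obtain ⟨Z, hZ⟩ : ∃ Z : ℝ, Z = 100 * (Q' : ℝ) ^ 4 * C := ⟨_, rfl⟩
  have hQ'4 : (1 : ℝ) ≤ (Q' : ℝ) ^ 4 := one_le_pow₀ hQ'r
  have hZ1 : 1 ≤ Z := by
    rw [hZ]
    nlinarith
  have hZ0 : 0 ≤ Z := by linarith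
  -- the factors
  have hfac : ∀ i, ∀ m m' : ℤ, (Xs i : ℤ) ≤ m → m ≤ 4 * Xs i →
      ‖SG Q' (fun p => Bc Q (Xs i) p m) m'‖ ≤ Z := by
    intro i m m' hm hm4
    obtain ⟨mb, hmb0, hmbs, hmb⟩ := hmass Q (Xs i)
      ((hreg i).mono hK0 ((le_max_right _ _).trans (le_max_left _ _)))
    rw [hZ]
    exact v1_SG Q' hQ' _ mb (fun p hp => hmb m hm hm4 p (hsub hp)) m' C
      ((Finset.sum_le_sum_of_subset_of_nonneg hsub fun p hp _ => hmb0 p hp).trans hmbs)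
  have hL1 : ∀ n ∈ range L, ((∏ i, Lk Q' (Xs i / Q ^ 2) (S.val b n t i) : ℝ) : ℂ) =
      ∏ i, SG Q' (fun p => Bc Q (Xs i) p (S.val b n t i)) (S.val b n t i) := by
    intro n hn
    rw [Complex.ofReal_prod]
    refine Finset.prod_congr rfl fun i _ => ?_
    exact hLk Q Q' (Xs i) ((hreg i).mono hK0 ((le_max_left _ _).trans (le_max_left _ _))) hQ' hQ'Q _
      (hval i n hn).1 (hval i n hn).2
  obtain ⟨M, hM⟩ : ∃ M, M = L / H := ⟨_, rfl⟩
  have hMH : M * H ≤ L := by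
    rw [hM]
    exact Nat.div_mul_le_self L H
  have hrest : L - M * H ≤ H := by
    have h1 := Nat.div_add_mod' L H
    have h2 := Nat.mod_lt L (show 0 < H by omega)
    rw [← hM] at h1
    omega
  rw [← hM, Complex.ofReal_sum, Finset.sum_congr rfl hL1, ← Finset.sum_range_add_sum_Ico _ hMH,
    v1_cells _ H M]
  -- the main difference
  obtain ⟨δ, hδ⟩ : ∃ δ : ℝ, δ = 100 * (Q' : ℝ) ^ 4 * ((Q' : ℝ) ^ 2 * (A / (2 * (Q : ℝ) ^ 5))) := ⟨_, rfl⟩
  have hδ0 : 0 ≤ δ := by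
    rw [hδ]
    positivity
  have hcell : ∀ j ∈ range M, ∀ n ∈ Ico (j * H) (j * H + H),
      ‖∏ i, SG Q' (fun p => Bc Q (Xs i) p (S.val b n t i)) (S.val b n t i) -
        ∏ i, SG Q' (fun p => Bc Q (Xs i) p (S.val b ((j * H : ℕ) : ℤ) t i)) (S.val b n t i)‖ ≤
      k * δ * Z ^ k := by
    intro j hj n hn
    rw [mem_range] at hj
    rw [mem_Ico] at hn
    have hjH : j * H + H ≤ M * H := by
      calc j * H + H = (j + 1) * H := by ring
        _ ≤ M * H := Nat.mul_le_mul_right H hj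
    have hnL : n ∈ range L := by
      rw [mem_range]
      omega
    have hjL : j * H ∈ range L := by
      rw [mem_range]
      omega
    have key := Pool.Agent.Lib.H59P.v1b_prod (Finset.univ : Finset (Fin k))
      (fun i => SG Q' (fun p => Bc Q (Xs i) p (S.val b n t i)) (S.val b n t i))
      (fun i => SG Q' (fun p => Bc Q (Xs i) p (S.val b ((j * H : ℕ) : ℤ) t i)) (S.val b n t i))
      (fun _ => Z) δ hδ0 (fun _ => hZ0)
      (fun i _ => hfac i _ _ (hval i n hnL).1 (hval i n hnL).2)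
      (fun i _ => hfac i _ _ (hval i (j * H) hjL).1 (hval i (j * H) hjL).2)
      (fun i _ => ?_)
    · rw [Finset.prod_const, Finset.card_univ, Fintype.card_fin] at key
      exact key
    · rw [Pool.Agent.Lib.H59P.v1b_sub]
      have hXi : (X : ℝ) ≤ Xs i := by exact_mod_cast hXs i
      have hd : |S.val b n t i - S.val b ((j * H : ℕ) : ℤ) t i| ≤ ((A * H : ℕ) : ℤ) := by
        have e : S.val b n t i - S.val b ((j * H : ℕ) : ℤ) t i = S.a i * ((n : ℤ) - ((j * H : ℕ) : ℤ)) := by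
          unfold Sys.val Sys.lin
          ring
        rw [e, abs_mul, Nat.cast_mul]
        have h1 : |(n : ℤ) - ((j * H : ℕ) : ℤ)| ≤ H := by
          rw [abs_le]
          constructor
          · omega
          · omega
        exact mul_le_mul (hA i) h1 (abs_nonneg _) (by positivity)
      have h1 : ∀ p ∈ PC Q', ‖Bc Q (Xs i) p (S.val b n t i) - Bc Q (Xs i) p (S.val b ((j * H : ℕ) : ℤ) t i)‖ ≤
          A / (2 * (Q : ℝ) ^ 5) := by
        intro p _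
        refine (v1_lip2 Q (Xs i) p (fun m hm hm4 => hlip Q (Xs i) ((hreg i).mono hK0 (le_max_right _ _)) p m hm hm4)
          _ _ (hval i (j * H) hjL).1 (hval i (j * H) hjL).2 (hval i n hnL).1 (hval i n hnL).2 (A * H) hd).trans ?_
        have h2 : (Q : ℝ) ^ 3 / (2 * (Xs i : ℝ)) ≤ (Q : ℝ) ^ 3 / (2 * (H * (Q : ℝ) ^ 8)) := by
          apply div_le_div_of_nonneg_left (by positivity) (by positivity)
          linarith
        push_cast
        calc (A : ℝ) * H * ((Q : ℝ) ^ 3 / (2 * (Xs i : ℝ))) ≤ A * H * ((Q : ℝ) ^ 3 / (2 * (H * (Q : ℝ) ^ 8))) :=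
              mul_le_mul_of_nonneg_left h2 (by positivity)
          _ = A / (2 * (Q : ℝ) ^ 5) := by
              have : (H : ℝ) ≠ 0 := by positivity
              field_simp
      refine (v1_SG Q' hQ' _ (fun _ => A / (2 * (Q : ℝ) ^ 5)) h1 _
        ((Q' : ℝ) ^ 2 * (A / (2 * (Q : ℝ) ^ 5))) ?_).trans ?_
      · rw [Finset.sum_const, nsmul_eq_mul]
        refine mul_le_mul_of_nonneg_right ?_ (by positivity)
        exact_mod_cast Pool.Agent.Lib.H68T.card_PC_le Q'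
      · rw [← hδ]
        exact le_mul_of_one_le_right hδ0 hZ1
  have hmain : ‖(∑ j ∈ range M, ∑ n ∈ Ico (j * H) (j * H + H),
        ∏ i, SG Q' (fun p => Bc Q (Xs i) p (S.val b n t i)) (S.val b n t i)) -
      ∑ j ∈ range M, ∑ n ∈ Ico (j * H) (j * H + H),
        ∏ i, SG Q' (fun p => Bc Q (Xs i) p (S.val b ((j * H : ℕ) : ℤ) t i)) (S.val b n t i)‖ ≤
      (M * H : ℕ) * (k * δ * Z ^ k) := by
    rw [← Finset.sum_sub_distrib]
    refine (norm_sum_le _ _).trans ?_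
    have h1 : ∀ j ∈ range M, ‖(∑ n ∈ Ico (j * H) (j * H + H),
        ∏ i, SG Q' (fun p => Bc Q (Xs i) p (S.val b n t i)) (S.val b n t i)) -
      ∑ n ∈ Ico (j * H) (j * H + H),
        ∏ i, SG Q' (fun p => Bc Q (Xs i) p (S.val b ((j * H : ℕ) : ℤ) t i)) (S.val b n t i)‖ ≤
        H * (k * δ * Z ^ k) := by
      intro j hj
      rw [← Finset.sum_sub_distrib]
      refine (norm_sum_le _ _).trans ((Finset.sum_le_sum (hcell j hj)).trans ?_)
      rw [Finset.sum_const, nsmul_eq_mul, Nat.card_Ico, Nat.add_sub_cancel_left]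
    refine (Finset.sum_le_sum h1).trans ?_
    rw [Finset.sum_const, nsmul_eq_mul, Finset.card_range]
    push_cast
    exact le_of_eq (by ring)
  have hrst : ‖∑ n ∈ Ico (M * H) L, ∏ i, SG Q' (fun p => Bc Q (Xs i) p (S.val b n t i)) (S.val b n t i)‖ ≤
      H * Z ^ k := by
    refine (norm_sum_le _ _).trans ?_
    have h1 : ∀ n ∈ Ico (M * H) L, ‖∏ i, SG Q' (fun p => Bc Q (Xs i) p (S.val b n t i)) (S.val b n t i)‖ ≤ Z ^ k := by
      intro n hn
      rw [mem_Ico] at hn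
      have hnL : n ∈ range L := mem_range.2 hn.2
      rw [norm_prod]
      refine (Finset.prod_le_prod (fun i _ => norm_nonneg _)
        (fun i _ => hfac i _ _ (hval i n hnL).1 (hval i n hnL).2)).trans ?_
      rw [Finset.prod_const, Finset.card_univ, Fintype.card_fin]
    refine (Finset.sum_le_sum h1).trans ?_
    rw [Finset.sum_const, nsmul_eq_mul, Nat.card_Ico]
    refine mul_le_mul_of_nonneg_right ?_ (by positivity)
    exact_mod_cast hrest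
  have htot : ‖(∑ j ∈ range M, ∑ n ∈ Ico (j * H) (j * H + H),
        ∏ i, SG Q' (fun p => Bc Q (Xs i) p (S.val b n t i)) (S.val b n t i)) +
      (∑ n ∈ Ico (M * H) L, ∏ i, SG Q' (fun p => Bc Q (Xs i) p (S.val b n t i)) (S.val b n t i)) -
      ∑ j ∈ range M, ∑ n ∈ Ico (j * H) (j * H + H),
        ∏ i, SG Q' (fun p => Bc Q (Xs i) p (S.val b ((j * H : ℕ) : ℤ) t i)) (S.val b n t i)‖ ≤
      (M * H : ℕ) * (k * δ * Z ^ k) + H * Z ^ k := by
    rw [add_sub_right_comm]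
    exact (norm_add_le _ _).trans (add_le_add hmain hrst)
  refine htot.trans ?_
  -- numerics
  have hMHr : ((M * H : ℕ) : ℝ) ≤ C0 * X := by exact_mod_cast hMH.trans hL
  have hZk : Z ^ k = (100 * C) ^ k * (Q' : ℝ) ^ (4 * k) := by
    rw [hZ, pow_mul, ← mul_pow]
    congr 1
    ring
  have hq1 : (Q' : ℝ) ^ (4 * k + 6) ≤ Q := by
    have h1 : Q' ^ (4 * k + 6) ≤ Q := (Nat.pow_le_pow_right hQ' (by omega)).trans hQQ
    exact_mod_cast h1
  have hq2 : (Q' : ℝ) ^ (4 * k) ≤ Q := by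
    have h1 : Q' ^ (4 * k) ≤ Q := (Nat.pow_le_pow_right hQ' (by omega)).trans hQQ
    exact_mod_cast h1
  have hHle : (H : ℝ) ≤ X / (Q : ℝ) ^ 8 := by
    rw [le_div_iff₀ (by positivity)]
    exact hHXr
  have t1 : (M * H : ℕ) * (k * δ * Z ^ k) ≤ C0 * k * (50 * A) * (100 * C) ^ k * (X / (Q : ℝ) ^ 4) := by
    calc ((M * H : ℕ) : ℝ) * (k * δ * Z ^ k) ≤ C0 * X * (k * δ * Z ^ k) :=
          mul_le_mul_of_nonneg_right hMHr (by positivity)
      _ = C0 * k * (50 * A) * (100 * C) ^ k * (X / (Q : ℝ) ^ 5) * (Q' : ℝ) ^ (4 * k + 6) := by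
          rw [hδ, hZk]
          field_simp
          ring
      _ ≤ C0 * k * (50 * A) * (100 * C) ^ k * (X / (Q : ℝ) ^ 5) * Q := by
          refine mul_le_mul_of_nonneg_left hq1 (by positivity)
      _ = C0 * k * (50 * A) * (100 * C) ^ k * (X / (Q : ℝ) ^ 4) := by
          field_simp
  have t2 : H * Z ^ k ≤ 1 * (100 * C) ^ k * (X / (Q : ℝ) ^ 4) := by
    calc H * Z ^ k ≤ X / (Q : ℝ) ^ 8 * Z ^ k := mul_le_mul_of_nonneg_right hHle (by positivity)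
      _ = 1 * (100 * C) ^ k * (X / (Q : ℝ) ^ 8) * (Q' : ℝ) ^ (4 * k) := by
          rw [hZk]
          ring
      _ ≤ 1 * (100 * C) ^ k * (X / (Q : ℝ) ^ 8) * Q := by
          refine mul_le_mul_of_nonneg_left hq2 (by positivity)
      _ = 1 * (100 * C) ^ k * (X / (Q : ℝ) ^ 7) := by
          field_simp
      _ ≤ 1 * (100 * C) ^ k * (X / (Q : ℝ) ^ 4) := by
          refine mul_le_mul_of_nonneg_left ?_ (by positivity)
          apply div_le_div_of_nonneg_left hXp.le (by positivity)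
          exact pow_le_pow_right₀ hQ1r (by norm_num)
  calc ((M * H : ℕ) : ℝ) * (k * δ * Z ^ k) + H * Z ^ k
      ≤ W * (X / (Q : ℝ) ^ 4) := by
        rw [hW]
        linarith
    _ ≤ Q * (X / (Q : ℝ) ^ 4) := mul_le_mul_of_nonneg_right hWQ (by positivity)
    _ = X / (Q : ℝ) ^ 3 := by
        field_simp
    _ ≤ X / Q := by
        apply div_le_div_of_nonneg_left hXp.le hQp
        exact le_self_pow₀ hQ1r (by norm_num)

end Pool.Agent.H9U
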