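import Pool.Agent.Lib.H9U.Z1
import Pool.Agent.Lib.H59P.Z2B

/-!
# H9U, chunk Z2 (S/M): one cell
-/

open Finset

namespace Pool.Agent.H9U

open Pool.Agent.Lib.H68T (PC p0)
open Pool.Agent.Lib.H18Q (gk KS SG)
open Pool.Agent.Lib.H59P (Ch SF bx TS Rp)

/-- Proof. As `Z2b` (`H59P/Z2B.lean`, `z2b_dec`), in `ℓ¹`: by `Z1S` (`M2.lean`) the difference is `∑_p (∏ c_i(p_i)) f_p(t)` over all tuples `p`, `f_p(t)` the
difference of `Z1S_both` for `p ∈ TS`, the sum for `p ∉ TS`; `‖∏ c_i(p_i)‖ ≤ ∏ mb i (p_i)`, `∑_p ∏ mb i (p_i) = ∏_i ∑_p mb i p ≤ M^k`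
(`Finset.prod_univ_sum`); exchange the sums over `t` and `p`. -/
theorem Z2S {k d : ℕ} (S : Sys k d) (hL : LBig S) : ∃ c C : ℝ, 0 < c ∧ 1 ≤ C ∧
    ∀ (Q D D1 D2 : ℕ) (px : Ch), 1 ≤ D2 → px.1 * D2 ≤ D1 → D1 ≤ D → D ≤ Q → px ∈ PC Q →
    ∀ (b : Fin k → ℤ) (a H T : ℕ), Q ^ (10 * (k + 1)) ≤ H → Q ^ (10 * (k + 1)) ≤ T →
    (∀ t ∈ bx d T, ∀ n ∈ Ico a (a + H), ∀ i, 0 ≤ S.val b n (iv t) i) →
    ∀ (M : ℝ) (mb : Fin k → Ch → ℝ), 1 ≤ M → (∀ i, ∀ p ∈ PC Q, 0 ≤ mb i p) → (∀ i, ∑ p ∈ PC Q, mb i p ≤ M) →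
    ∀ c' : (Fin d → ℕ) → Fin k → Ch → ℂ, (∀ t ∈ bx d T, ∀ i, ∀ p ∈ PC Q, ‖c' t i p‖ ≤ mb i p) →
    ∑ t ∈ bx d T, ‖∑ n ∈ Ico a (a + H), ∏ i, SG Q (c' t i) (S.val b n (iv t) i) -
        H * MCS S b (iv t) Q D D1 px (c' t)‖ ≤
      M ^ k * (C * (1 + Real.log Q) ^ C * ((T : ℝ) ^ d * H) * (D2 : ℝ) ^ (-c)) := by
  classical
  obtain ⟨c, C, hc, hC, hmain⟩ := Z1S_both S hL
  refine ⟨c, C, hc, hC, ?_⟩
  intro Q D D1 D2 px h1 h2 h3 h4 hpx b a H T hH hT hpos M mb hM hmb hmbM c' hc'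
  have hmain' := hmain Q D D1 D2 px h1 h2 h3 h4 hpx b a H T hH hT hpos
  obtain ⟨B, hB⟩ : ∃ B : ℝ, B = C * (1 + Real.log Q) ^ C * ((T : ℝ) ^ d * H) * (D2 : ℝ) ^ (-c) := ⟨_, rfl⟩
  rw [← hB] at hmain' ⊢
  have hB0 : 0 ≤ B := by
    have e1 : 0 ≤ Real.log Q := Real.log_natCast_nonneg Q
    have e2 : 0 ≤ (1 + Real.log Q) ^ C := Real.rpow_nonneg (by linarith) _
    have e3 : (0 : ℝ) ≤ (D2 : ℝ) ^ (-c) := Real.rpow_nonneg (Nat.cast_nonneg _) _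
    have e4 : (0 : ℝ) ≤ (T : ℝ) ^ d * H := mul_nonneg (pow_nonneg (Nat.cast_nonneg _) _) (Nat.cast_nonneg _)
    rw [hB]
    exact mul_nonneg (mul_nonneg (mul_nonneg (by linarith) e2) e4) e3
  obtain ⟨g, hg⟩ : ∃ g : (Fin k → Ch) → (Fin d → ℕ) → ℂ, ∀ p t, g p t = (∑ n ∈ Ico a (a + H),
      ∑ κ ∈ Fintype.piFinset fun i => KS Q (p i).1, ∏ i, gk (p i) (κ i) (S.val b n (iv t) i)) -
      (if p ∈ TS k Q D1 px then H * (MRS S b (iv t) p (Rp px p) *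
        ((∑ e ∈ SF (D / Rp px p) (Rp px p), tdS S b (iv t) e : ℝ) : ℂ)) else 0) := ⟨fun p t => _, fun p t => rfl⟩
  have hsub : TS k Q D1 px ⊆ Fintype.piFinset fun _ : Fin k => PC Q := by
    unfold TS
    exact Finset.filter_subset _ _
  have key : ∀ t ∈ bx d T, ∑ n ∈ Ico a (a + H), ∏ i, SG Q (c' t i) (S.val b n (iv t) i) -
      H * MCS S b (iv t) Q D D1 px (c' t) =
      ∑ p ∈ Fintype.piFinset fun _ : Fin k => PC Q, (∏ i, c' t i (p i)) * g p t := by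
    intro t ht
    have e1 : ∑ n ∈ Ico a (a + H), ∏ i, SG Q (c' t i) (S.val b n (iv t) i) =
        ∑ p ∈ Fintype.piFinset fun _ : Fin k => PC Q, (∏ i, c' t i (p i)) *
          ∑ n ∈ Ico a (a + H), ∑ κ ∈ Fintype.piFinset fun i => KS Q (p i).1,
            ∏ i, gk (p i) (κ i) (S.val b n (iv t) i) := by
      rw [Finset.sum_congr rfl fun (n : ℕ) hn => Z1S Q (c' t) (fun i => S.val b n (iv t) i) (hpos t ht n hn),
        Finset.sum_comm]
      refine Finset.sum_congr rfl fun p _ => ?_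
      rw [Finset.mul_sum]
    have e2 : (H : ℂ) * MCS S b (iv t) Q D D1 px (c' t) = ∑ p ∈ Fintype.piFinset fun _ : Fin k => PC Q,
        (∏ i, c' t i (p i)) * (if p ∈ TS k Q D1 px then H * (MRS S b (iv t) p (Rp px p) *
        ((∑ e ∈ SF (D / Rp px p) (Rp px p), tdS S b (iv t) e : ℝ) : ℂ)) else 0) := by
      simp only [mul_ite, mul_zero]
      rw [← Finset.sum_filter, Finset.filter_mem_eq_inter, Finset.inter_eq_right.mpr hsub]
      unfold MCS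
      rw [Finset.mul_sum]
      refine Finset.sum_congr rfl fun p _ => ?_
      ring
    rw [e1, e2, ← Finset.sum_sub_distrib]
    refine Finset.sum_congr rfl fun p _ => ?_
    rw [hg, mul_sub]
  have hgB : ∀ p ∈ Fintype.piFinset (fun _ : Fin k => PC Q), ∑ t ∈ bx d T, ‖g p t‖ ≤ B := by
    intro p hp
    have hp' : ∀ i, p i ∈ PC Q := fun i => Fintype.mem_piFinset.mp hp i
    by_cases hpT : p ∈ TS k Q D1 px
    · have e := (hmain' p hp').1 hpT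
      refine le_trans (le_of_eq (Finset.sum_congr rfl fun t _ => ?_)) e
      rw [hg, if_pos hpT]
    · have e := (hmain' p hp').2 hpT
      refine le_trans (le_of_eq (Finset.sum_congr rfl fun t _ => ?_)) e
      rw [hg, if_neg hpT, sub_zero]
  have hmbP : ∀ p ∈ Fintype.piFinset (fun _ : Fin k => PC Q), 0 ≤ ∏ i, mb i (p i) := fun p hp =>
    Finset.prod_nonneg fun i _ => hmb i _ (Fintype.mem_piFinset.mp hp i)
  have hsum : ∑ p ∈ Fintype.piFinset fun _ : Fin k => PC Q, ∏ i, mb i (p i) ≤ M ^ k := by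
    rw [← Finset.prod_univ_sum]
    have e2 : ∏ i : Fin k, ∑ p ∈ PC Q, mb i p ≤ ∏ _i : Fin k, M :=
      Finset.prod_le_prod (fun i _ => Finset.sum_nonneg fun p hp => hmb i p hp) (fun i _ => hmbM i)
    simpa using e2
  calc ∑ t ∈ bx d T, ‖∑ n ∈ Ico a (a + H), ∏ i, SG Q (c' t i) (S.val b n (iv t) i) -
        H * MCS S b (iv t) Q D D1 px (c' t)‖
      ≤ ∑ t ∈ bx d T, ∑ p ∈ Fintype.piFinset fun _ : Fin k => PC Q, (∏ i, mb i (p i)) * ‖g p t‖ := by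
        refine Finset.sum_le_sum fun t ht => ?_
        rw [key t ht]
        refine (norm_sum_le _ _).trans (Finset.sum_le_sum fun p hp => ?_)
        rw [norm_mul, norm_prod]
        refine mul_le_mul_of_nonneg_right ?_ (norm_nonneg _)
        exact Finset.prod_le_prod (fun i _ => norm_nonneg _)
          (fun i _ => hc' t ht i _ (Fintype.mem_piFinset.mp hp i))
    _ = ∑ p ∈ Fintype.piFinset fun _ : Fin k => PC Q, (∏ i, mb i (p i)) * ∑ t ∈ bx d T, ‖g p t‖ := by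
        rw [Finset.sum_comm]
        refine Finset.sum_congr rfl fun p _ => ?_
        rw [Finset.mul_sum]
    _ ≤ ∑ p ∈ Fintype.piFinset fun _ : Fin k => PC Q, (∏ i, mb i (p i)) * B :=
        Finset.sum_le_sum fun p hp => mul_le_mul_of_nonneg_left (hgB p hp) (hmbP p hp)
    _ ≤ M ^ k * B := by
        rw [← Finset.sum_mul]
        exact mul_le_mul_of_nonneg_right hsum hB0

end Pool.Agent.H9U
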