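import Pool.Agent.Lib.H9U.U7
import Pool.Agent.Lib.H9U.V1
import Pool.Agent.Lib.H9U.Z2

/-!
# H9U, chunk Z4A (M): the sum over `n` against the main terms of all cells, on average over `t`
-/

open Finset

namespace Pool.Agent.H9U

open Pool.Agent.Lib.H68T (lp Lk PC p0)
open Pool.Agent.Lib.H18Q (gk KS SG Bc RegP)
open Pool.Agent.Lib.H59P (Ch SF bx TS Rp MX pr)

theorem z4a_card (d T : ℕ) : (bx d T).card = T ^ d := by
  unfold bx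
  rw [Fintype.card_piFinset, Finset.prod_const, Finset.card_univ, Fintype.card_fin, Finset.card_range]

theorem z4a_sum {ι κ : Type*} (s : Finset ι) (J : Finset κ) (f g : κ → ι → ℂ) (B : ℝ)
    (h : ∀ j ∈ J, ∑ t ∈ s, ‖f j t - g j t‖ ≤ B) :
    ∑ t ∈ s, ‖∑ j ∈ J, f j t - ∑ j ∈ J, g j t‖ ≤ J.card * B := by
  calc ∑ t ∈ s, ‖∑ j ∈ J, f j t - ∑ j ∈ J, g j t‖ ≤ ∑ t ∈ s, ∑ j ∈ J, ‖f j t - g j t‖ := by
        refine Finset.sum_le_sum fun t _ => ?_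
        rw [← Finset.sum_sub_distrib]
        exact norm_sum_le _ _
    _ = ∑ j ∈ J, ∑ t ∈ s, ‖f j t - g j t‖ := Finset.sum_comm
    _ ≤ J.card * B := by
        refine le_trans (Finset.sum_le_sum h) ?_
        rw [Finset.sum_const, nsmul_eq_mul]

theorem z4a_second (d C0 X Q T : ℕ) (Cr : ℝ) (hX : 1 ≤ X) (hT : T ≤ C0 * X)
    (hQ : (X : ℝ) ^ (1 / Cr) ≤ Q) :
    (T : ℝ) ^ d * ((X : ℝ) / Q) ≤ (C0 : ℝ) ^ d * (X : ℝ) ^ (1 + d - 1 / Cr) := by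
  have hX0 : (0:ℝ) < X := by exact_mod_cast hX
  have hp : (0:ℝ) < (X : ℝ) ^ (1 / Cr) := Real.rpow_pos_of_pos hX0 _
  have hTr : (T : ℝ) ≤ (C0 : ℝ) * X := by exact_mod_cast hT
  have h1 : (T : ℝ) ^ d ≤ (C0 : ℝ) ^ d * (X : ℝ) ^ d := by
    rw [← mul_pow]
    exact pow_le_pow_left₀ (Nat.cast_nonneg _) hTr d
  have h2 : (X : ℝ) / Q ≤ (X : ℝ) / (X : ℝ) ^ (1 / Cr) := div_le_div_of_nonneg_left hX0.le hp hQ
  have h3 : (X : ℝ) ^ (1 + (d:ℝ) - 1 / Cr) = (X : ℝ) ^ d * ((X : ℝ) / (X : ℝ) ^ (1 / Cr)) := by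
    rw [Real.rpow_sub hX0, Real.rpow_add hX0, Real.rpow_one, Real.rpow_natCast]
    ring
  rw [h3, ← mul_assoc]
  exact mul_le_mul h1 h2 (by positivity) (by positivity)

theorem z4a_log (C e : ℝ) (hC : 1 ≤ C) (he : 0 < e) (Q' X : ℕ) (hQ : 1 ≤ Q') (hQX : Q' ≤ X) :
    (1 + Real.log Q') ^ C ≤ (1 + C / e) ^ C * (X : ℝ) ^ e := by
  have hX1 : (1:ℝ) ≤ X := by exact_mod_cast le_trans hQ hQX
  have hX0 : (0:ℝ) < X := by linarith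
  have hC0 : 0 < C := by linarith
  have h6 : Real.log Q' ≤ Real.log X :=
      Real.log_le_log (by exact_mod_cast hQ) (by exact_mod_cast hQX)
  have h7 : Real.log X ≤ (X:ℝ) ^ (e / C) / (e / C) := Real.log_le_rpow_div hX0.le (by positivity)
  have h8 : (X:ℝ) ^ (e / C) / (e / C) = C / e * (X:ℝ) ^ (e / C) := by
    field_simp
  have h9 : (1:ℝ) ≤ (X:ℝ) ^ (e / C) := Real.one_le_rpow hX1 (by positivity)
  have h10 : 1 + Real.log Q' ≤ (1 + C / e) * (X:ℝ) ^ (e / C) := by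
    rw [h8] at h7
    have : 0 < C / e := by positivity
    nlinarith
  have hl0 : 0 ≤ Real.log Q' := Real.log_natCast_nonneg Q'
  have h11 : ((X:ℝ) ^ (e / C)) ^ C = (X:ℝ) ^ e := by
    rw [← Real.rpow_mul hX0.le, div_mul_cancel₀ _ hC0.ne']
  calc (1 + Real.log Q') ^ C ≤ ((1 + C / e) * (X:ℝ) ^ (e / C)) ^ C :=
        Real.rpow_le_rpow (by linarith) h10 hC0.le
    _ = (1 + C / e) ^ C * (X : ℝ) ^ e := by
        rw [Real.mul_rpow (by positivity) (by positivity), h11]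

theorem z4a_third (k d C0 : ℕ) (c C CM θ δ3 : ℝ) (hc : 0 < c) (hC : 1 ≤ C) (hCM : 1 ≤ CM) (hθ : 0 < θ)
    (hδ : 0 < δ3) (X Q' T L H D2 : ℕ) (hQ' : 1 ≤ Q') (hQX : Q' ≤ X) (hT : T ≤ C0 * X)
    (hL : L ≤ C0 * X) (hlow : (X : ℝ) ^ θ ≤ Q') (hD2 : (Q' : ℝ) ^ δ3 ≤ D2) :
    ((L / H : ℕ) : ℝ) * (CM ^ k * (C * (1 + Real.log Q') ^ C * ((T : ℝ) ^ d * H) * (D2 : ℝ) ^ (-c))) ≤
      (CM ^ k * C * (1 + C / (c * θ * δ3 / 2)) ^ C * (C0 : ℝ) ^ (d + 1)) *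
        (X : ℝ) ^ (1 + d - c * θ * δ3 / 2) := by
  have hX1 : (1:ℝ) ≤ X := by exact_mod_cast le_trans hQ' hQX
  have hX0 : (0:ℝ) < X := by linarith
  have hQ0 : (0:ℝ) < Q' := by exact_mod_cast hQ'
  have hTr : (T : ℝ) ≤ (C0 : ℝ) * X := by exact_mod_cast hT
  have h1 : (T : ℝ) ^ d ≤ (C0 : ℝ) ^ d * (X : ℝ) ^ d := by
    rw [← mul_pow]
    exact pow_le_pow_left₀ (Nat.cast_nonneg _) hTr d
  have h2 : ((L / H : ℕ) : ℝ) * H ≤ (C0 : ℝ) * X := by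
    have : (L / H) * H ≤ C0 * X := le_trans (Nat.div_mul_le_self L H) hL
    exact_mod_cast this
  have he : 0 < c * θ * δ3 / 2 := by positivity
  have h3 := z4a_log C (c * θ * δ3 / 2) hC he Q' X hQ' hQX
  have h4 : (D2 : ℝ) ^ (-c) ≤ (X : ℝ) ^ (-(c * θ * δ3)) := by
    have h5 : ((X : ℝ) ^ θ) ^ δ3 ≤ D2 :=
      le_trans (Real.rpow_le_rpow (Real.rpow_nonneg hX0.le _) hlow hδ.le) hD2
    have h6 : (0:ℝ) < ((X : ℝ) ^ θ) ^ δ3 := Real.rpow_pos_of_pos (Real.rpow_pos_of_pos hX0 _) _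
    have h7 : (D2 : ℝ) ^ (-c) ≤ (((X : ℝ) ^ θ) ^ δ3) ^ (-c) :=
      Real.rpow_le_rpow_of_nonpos h6 h5 (by linarith)
    rw [← Real.rpow_mul hX0.le, ← Real.rpow_mul hX0.le] at h7
    refine le_trans h7 (le_of_eq ?_)
    ring_nf
  have hl0 : 0 ≤ Real.log Q' := Real.log_natCast_nonneg Q'
  have hd : (0:ℝ) ≤ (D2 : ℝ) ^ (-c) := Real.rpow_nonneg (Nat.cast_nonneg _) _
  have hA : (0:ℝ) ≤ (1 + Real.log Q') ^ C := Real.rpow_nonneg (by linarith) _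
  have hB : (0:ℝ) ≤ (1 + C / (c * θ * δ3 / 2)) ^ C := Real.rpow_nonneg (by positivity) _
  have hCM0 : (0:ℝ) ≤ CM ^ k := by positivity
  have hLH : (0:ℝ) ≤ ((L / H : ℕ) : ℝ) * H := by positivity
  calc ((L / H : ℕ) : ℝ) * (CM ^ k * (C * (1 + Real.log Q') ^ C * ((T : ℝ) ^ d * H) * (D2 : ℝ) ^ (-c)))
      = (CM ^ k * C) * (((1 + Real.log Q') ^ C * (T : ℝ) ^ d) * ((((L / H : ℕ) : ℝ) * H) * (D2 : ℝ) ^ (-c))) := by
        ring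
    _ ≤ (CM ^ k * C) * ((((1 + C / (c * θ * δ3 / 2)) ^ C * (X : ℝ) ^ (c * θ * δ3 / 2)) *
          ((C0 : ℝ) ^ d * (X : ℝ) ^ d)) * (((C0 : ℝ) * X) * (X : ℝ) ^ (-(c * θ * δ3)))) := by
        refine mul_le_mul_of_nonneg_left ?_ (by positivity)
        refine mul_le_mul (mul_le_mul h3 h1 (by positivity) (by positivity)) (mul_le_mul h2 h4 hd (by positivity))
          (by positivity) (by positivity)
    _ = (CM ^ k * C * (1 + C / (c * θ * δ3 / 2)) ^ C * (C0 : ℝ) ^ (d + 1)) *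
        ((X : ℝ) ^ (c * θ * δ3 / 2) * (X : ℝ) ^ d * X * (X : ℝ) ^ (-(c * θ * δ3))) := by
        rw [pow_succ]
        ring
    _ = (CM ^ k * C * (1 + C / (c * θ * δ3 / 2)) ^ C * (C0 : ℝ) ^ (d + 1)) *
        (X : ℝ) ^ (1 + d - c * θ * δ3 / 2) := by
        refine congrArg (fun z : ℝ => (CM ^ k * C * (1 + C / (c * θ * δ3 / 2)) ^ C * (C0 : ℝ) ^ (d + 1)) * z) ?_
        rw [← Real.rpow_natCast (X : ℝ) d, ← Real.rpow_add hX0]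
        have h9 : (X:ℝ) ^ (c * θ * δ3 / 2 + (d:ℝ)) * X = (X:ℝ) ^ (c * θ * δ3 / 2 + (d:ℝ) + 1) := by
          rw [Real.rpow_add hX0 _ 1, Real.rpow_one]
        rw [h9, ← Real.rpow_add hX0]
        ring_nf

theorem z4a_final (d : ℕ) (A1 A2 κ1 κ2 κ3 : ℝ) (h1 : 0 < κ1) (h2 : 0 < κ2) (h3 : 0 < κ3) (hA1 : 0 ≤ A1)
    (hA2 : 0 ≤ A2) : ∃ κ : ℝ, 0 < κ ∧
    ∃ X0 : ℕ, ∀ X : ℕ, X0 ≤ X → (X : ℝ) ^ (1 + d - κ1) + A1 * (X : ℝ) ^ (1 + d - κ2) +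
      A2 * (X : ℝ) ^ (1 + d - κ3) ≤ (X : ℝ) ^ (1 + d - κ) := by
  obtain ⟨e, he⟩ : ∃ e : ℝ, e = min κ1 (min κ2 κ3) := ⟨_, rfl⟩
  have he0 : 0 < e := by rw [he]; exact lt_min h1 (lt_min h2 h3)
  obtain ⟨X1, hX1⟩ := u7_large (1 + A1 + A2) (e / 2) (by positivity)
  refine ⟨e / 2, by positivity, max X1 1, fun X hX => ?_⟩
  have hX1' := hX1 X (le_trans (le_max_left _ _) hX)
  have hXr : (1:ℝ) ≤ X := by exact_mod_cast le_trans (le_max_right _ _) hX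
  have hX0 : (0:ℝ) < X := by linarith
  have e1 : e ≤ κ1 := by rw [he]; exact min_le_left _ _
  have e2 : e ≤ κ2 := by rw [he]; exact (min_le_right _ _).trans (min_le_left _ _)
  have e3 : e ≤ κ3 := by rw [he]; exact (min_le_right _ _).trans (min_le_right _ _)
  have q1 : (X : ℝ) ^ (1 + d - κ1) ≤ (X : ℝ) ^ (1 + d - e) :=
    Real.rpow_le_rpow_of_exponent_le hXr (by linarith)
  have q2 : (X : ℝ) ^ (1 + d - κ2) ≤ (X : ℝ) ^ (1 + d - e) :=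
    Real.rpow_le_rpow_of_exponent_le hXr (by linarith)
  have q3 : (X : ℝ) ^ (1 + d - κ3) ≤ (X : ℝ) ^ (1 + d - e) :=
    Real.rpow_le_rpow_of_exponent_le hXr (by linarith)
  have hp : (0:ℝ) ≤ (X : ℝ) ^ (1 + d - e) := Real.rpow_nonneg hX0.le _
  calc (X : ℝ) ^ (1 + d - κ1) + A1 * (X : ℝ) ^ (1 + d - κ2) + A2 * (X : ℝ) ^ (1 + d - κ3)
      ≤ (X : ℝ) ^ (1 + d - e) + A1 * (X : ℝ) ^ (1 + d - e) + A2 * (X : ℝ) ^ (1 + d - e) := by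
        have := mul_le_mul_of_nonneg_left q2 hA1
        have := mul_le_mul_of_nonneg_left q3 hA2
        linarith
    _ = (1 + A1 + A2) * (X : ℝ) ^ (1 + d - e) := by ring
    _ ≤ (X : ℝ) ^ (e / 2) * (X : ℝ) ^ (1 + d - e) := mul_le_mul_of_nonneg_right hX1' hp
    _ = (X : ℝ) ^ (1 + d - e / 2) := by
        rw [← Real.rpow_add hX0]
        ring_nf

theorem z4a_Qpow (Q X Y C0 : ℕ) (K : ℝ) (hK : 20 ≤ K) (h : RegP K Q Y) (hY : Y ≤ C0 * X)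
    (hC : C0 ≤ X) : Q * Q ^ 8 ≤ X := by
  obtain ⟨h1, h2, h3⟩ := h
  have hl : 0 ≤ Real.log Q := Real.log_natCast_nonneg Q
  rcases Nat.eq_zero_or_pos Q with hq | hq
  · rw [hq]
    simp
  rcases Nat.eq_zero_or_pos Y with hy | hy
  · rw [hy] at h1
    simp at h1
    linarith
  have hqr : (0:ℝ) < Q := by exact_mod_cast hq
  have hyr : (0:ℝ) < Y := by exact_mod_cast hy
  have h4 : Real.log ((Q:ℝ) ^ 20) ≤ Real.log Y := by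
    rw [Real.log_pow]
    push_cast
    have : 20 * Real.log Q ≤ K * Real.log Q := mul_le_mul_of_nonneg_right hK hl
    linarith
  have h5 : (Q:ℝ) ^ 20 ≤ Y := (Real.log_le_log_iff (by positivity) hyr).1 h4
  have h6 : Q ^ 20 ≤ Y := by exact_mod_cast h5
  have h7 : Q ^ 20 ≤ X ^ 2 := by
    calc Q ^ 20 ≤ Y := h6
      _ ≤ C0 * X := hY
      _ ≤ X * X := Nat.mul_le_mul_right _ hC
      _ = X ^ 2 := by ring
  have h8 : Q ^ 10 ≤ X := by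
    have : (Q ^ 10) ^ 2 ≤ X ^ 2 := by
      rw [← pow_mul]
      exact h7
    exact (pow_le_pow_iff_left₀ (Nat.zero_le _) (Nat.zero_le _) two_ne_zero).1 this
  calc Q * Q ^ 8 = Q ^ 9 := by ring
    _ ≤ Q ^ 10 := Nat.pow_le_pow_right hq (by norm_num)
    _ ≤ X := h8

theorem z4a_Qlow (Q X Y : ℕ) (Cr : ℝ) (hCr : 1 ≤ Cr) (hX : 1 ≤ X) (hXY : X ≤ Y) (hQ : 1 ≤ Q)
    (h : Real.log Y ≤ Cr * Real.log Q) : (X : ℝ) ^ (1 / Cr) ≤ Q := by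
  have hX0 : (0:ℝ) < X := by exact_mod_cast hX
  have hQ0 : (0:ℝ) < Q := by exact_mod_cast hQ
  have hC0 : 0 < Cr := by linarith
  have h1 : Real.log X ≤ Real.log Y := Real.log_le_log hX0 (by exact_mod_cast hXY)
  rw [← Real.log_le_log_iff (Real.rpow_pos_of_pos hX0 _) hQ0, Real.log_rpow hX0, one_div,
    inv_mul_le_iff₀ hC0]
  linarith

theorem z4a_cells {k d : ℕ} (S : Sys k d) (c C : ℝ)
    (hZ : ∀ (Q D D1 D2 : ℕ) (px : Ch), 1 ≤ D2 → px.1 * D2 ≤ D1 → D1 ≤ D → D ≤ Q → px ∈ PC Q →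
    ∀ (b : Fin k → ℤ) (a H T : ℕ), Q ^ (10 * (k + 1)) ≤ H → Q ^ (10 * (k + 1)) ≤ T →
    (∀ t ∈ bx d T, ∀ n ∈ Ico a (a + H), ∀ i, 0 ≤ S.val b n (iv t) i) →
    ∀ (M : ℝ) (mb : Fin k → Ch → ℝ), 1 ≤ M → (∀ i, ∀ p ∈ PC Q, 0 ≤ mb i p) → (∀ i, ∑ p ∈ PC Q, mb i p ≤ M) →
    ∀ c' : (Fin d → ℕ) → Fin k → Ch → ℂ, (∀ t ∈ bx d T, ∀ i, ∀ p ∈ PC Q, ‖c' t i p‖ ≤ mb i p) →
    ∑ t ∈ bx d T, ‖∑ n ∈ Ico a (a + H), ∏ i, SG Q (c' t i) (S.val b n (iv t) i) -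
        H * MCS S b (iv t) Q D D1 px (c' t)‖ ≤
      M ^ k * (C * (1 + Real.log Q) ^ C * ((T : ℝ) ^ d * H) * (D2 : ℝ) ^ (-c)))
    (Q Q' D D1 D2 H L T : ℕ) (px : Ch) (hD2 : 1 ≤ D2) (hD21 : px.1 * D2 ≤ D1) (hD1 : D1 ≤ D)
    (hDQ : D ≤ Q') (hpx : px ∈ PC Q') (hQQ : Q' ≤ Q) (b : Fin k → ℤ) (hH1 : 1 ≤ H) (hH : Q' ^ (10 * (k + 1)) ≤ H)
    (hT : Q' ^ (10 * (k + 1)) ≤ T) (Xs : Fin k → ℕ)
    (hval : ∀ i, ∀ n ∈ range L, ∀ t ∈ bx d T, (Xs i : ℤ) ≤ S.val b n (iv t) i ∧ S.val b n (iv t) i ≤ 4 * Xs i)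
    (M : ℝ) (hM : 1 ≤ M) (mb : Fin k → Ch → ℝ) (hmb0 : ∀ i, ∀ p ∈ PC Q, 0 ≤ mb i p)
    (hmbs : ∀ i, ∑ p ∈ PC Q, mb i p ≤ M)
    (hmb : ∀ i, ∀ m : ℤ, (Xs i : ℤ) ≤ m → m ≤ 4 * Xs i → ∀ p ∈ PC Q, ‖Bc Q (Xs i) p m‖ ≤ mb i p) :
    ∑ t ∈ bx d T, ‖∑ j ∈ range (L / H), ∑ n ∈ Ico (j * H) (j * H + H),
        ∏ i, SG Q' (fun p => Bc Q (Xs i) p (S.val b ((j * H : ℕ) : ℤ) (iv t) i)) (S.val b n (iv t) i) -
      ∑ j ∈ range (L / H), ((H : ℕ) : ℂ) * MCS S b (iv t) Q' D D1 px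
        (fun i p => Bc Q (Xs i) p (S.val b ((j * H : ℕ) : ℤ) (iv t) i))‖ ≤
      ((L / H : ℕ) : ℝ) * (M ^ k * (C * (1 + Real.log Q') ^ C * ((T : ℝ) ^ d * H) * (D2 : ℝ) ^ (-c))) := by
  have hsub : PC Q' ⊆ PC Q := by
    intro p hp
    obtain ⟨a, b, c⟩ := Pool.Agent.Lib.H68T.mem_PC.1 hp
    exact Pool.Agent.Lib.H68T.mem_PC.2 ⟨a, b.trans hQQ, c⟩
  have h := z4a_sum (bx d T) (range (L / H))
    (fun j t => ∑ n ∈ Ico (j * H) (j * H + H),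
        ∏ i, SG Q' (fun p => Bc Q (Xs i) p (S.val b ((j * H : ℕ) : ℤ) (iv t) i)) (S.val b n (iv t) i))
    (fun j t => ((H : ℕ) : ℂ) * MCS S b (iv t) Q' D D1 px
        (fun i p => Bc Q (Xs i) p (S.val b ((j * H : ℕ) : ℤ) (iv t) i)))
    (M ^ k * (C * (1 + Real.log Q') ^ C * ((T : ℝ) ^ d * H) * (D2 : ℝ) ^ (-c))) (fun j hj => by
      have hj' : (j + 1) * H ≤ L :=
        le_trans (Nat.mul_le_mul_right _ (Finset.mem_range.1 hj)) (Nat.div_mul_le_self L H)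
      have hj2 : j * H + H ≤ L := by
        rw [← Nat.succ_mul]
        exact hj'
      exact hZ Q' D D1 D2 px hD2 hD21 hD1 hDQ hpx b (j * H) H T hH hT
        (fun t ht n hn i => by
          have hn' := Finset.mem_Ico.1 hn
          have := (hval i n (Finset.mem_range.2 (by omega)) t ht).1
          omega)
        M mb hM (fun i p hp => hmb0 i p (hsub hp))
        (fun i => (Finset.sum_le_sum_of_subset_of_nonneg hsub fun p hp _ => hmb0 i p hp).trans (hmbs i))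
        (fun t i p => Bc Q (Xs i) p (S.val b ((j * H : ℕ) : ℤ) (iv t) i))
        (fun t ht i p hp => by
          have hv := hval i (j * H) (Finset.mem_range.2 (by omega)) t ht
          exact hmb i _ hv.1 hv.2 p (hsub hp)))
  rw [Finset.card_range] at h
  exact h

/-- Proof. `K` the maximum of the constants of `U7_tel`, `V1S`, `UM_mass` and `20`. With `H = X / Q^8` (so `H Q^8 ≤ X`, `Q ≤ H` since `20 log Q ≤ log X`, hence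
`Q'^(10 (k+1)) ≤ H`) add: `U7_tel` (exponent `κ4`); `V1S` for each `t` (`T^d X/Q`, `Q ≥ X^(1/(2 Cr))`); `Z2S` with `Q := Q'` for each cell `j < L/H`, `a = j H`,
`c' t i p = Bc Q (Xs i) p (val b (jH) (iv t) i)`, `mb` from `UM_mass` for `(Q, Xs i)` (restricted to `PC Q' ⊆ PC Q`): the sum over the cells is at most
`(L/H) H T^d M^k C (1+log Q')^C D2^(-c)`, `L ≤ C0 X`, `T ≤ C0 X`, `D2 ≥ Q'^δ3 ≥ X^(θ δ3)` (`Rgm.low`, `X ≤ Xs i`). `κ = min (κ4) (1/(2Cr)) (c θ δ3)/2`. (`k = 0`: `Fin 0` has no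
`Xs i`; then both products are `1`, the difference is at most `H`; or use `PS: 1 ≤ k`.) -/
theorem Z4A_avg (hI : Pool.Agent.H9S.INV) {k d : ℕ} (hk : 1 ≤ k) (S : Sys k d) (hS : S.Half) (hL : LBig S) : ∃ K : ℝ, 1 ≤ K ∧
    ∀ Cr θ δ3 : ℝ, 1 ≤ Cr → 0 < θ → 0 < δ3 → ∀ C0 : ℕ, ∃ κ : ℝ, 0 < κ ∧ ∃ X0 : ℕ, ∀ Q Q' X : ℕ, X0 ≤ X →
    ∀ Xs : Fin k → ℕ, (∀ i, X ≤ Xs i ∧ Xs i ≤ C0 * X) → (∀ i, Rgm K Cr θ Q Q' (Xs i)) → Q' ^ (20 * (k + 1)) ≤ Q →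
    ∀ (D D1 D2 : ℕ) (px : Ch), 1 ≤ D2 → px.1 * D2 ≤ D1 → D1 ≤ D → D ≤ Q' → px ∈ PC Q' → (Q' : ℝ) ^ δ3 ≤ D2 →
    ∀ (b : Fin k → ℤ) (L T : ℕ), L ≤ C0 * X → T ≤ C0 * X → Q' ^ (10 * (k + 1)) ≤ T →
    (∀ i, ∀ n ∈ range L, ∀ t ∈ bx d T, S.val b n (iv t) i ∈ JJ (Xs i)) →
    ∑ t ∈ bx d T, ‖((∑ n ∈ range L, ∏ i, lp (S.val b n (iv t) i) : ℝ) : ℂ) -
      ∑ j ∈ range (L / (X / Q ^ 8)), ((X / Q ^ 8 : ℕ) : ℂ) * MCS S b (iv t) Q' D D1 px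
        (fun i p => Bc Q (Xs i) p (S.val b ((j * (X / Q ^ 8) : ℕ) : ℤ) (iv t) i))‖ ≤ (X : ℝ) ^ (1 + d - κ) := by
  obtain ⟨K1, hK1, hU⟩ := U7_tel hI S hS
  obtain ⟨K2, hK2, hV⟩ := V1S S
  obtain ⟨K3, CM, hK3, hCM, hMs⟩ := Pool.Agent.Lib.H59T.UM_mass
  obtain ⟨c, C, hc, hC, hZ⟩ := Z2S S hL
  refine ⟨max (max K1 K2) (max K3 20), le_trans hK1 (le_trans (le_max_left _ _) (le_max_left _ _)), ?_⟩
  intro Cr θ δ3 hCr hθ hδ C0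
  obtain ⟨κ4, hκ4, X4, hX4⟩ := hU Cr θ hCr hθ C0
  obtain ⟨Q0, hQ0⟩ := hV C0
  have hCr0 : 0 < Cr := by linarith
  obtain ⟨X5, hX5⟩ := u7_large (Q0 : ℝ) (1 / Cr) (by positivity)
  obtain ⟨κ, hκ, X6, hX6⟩ := z4a_final d ((C0 : ℝ) ^ d)
    (CM ^ k * C * (1 + C / (c * θ * δ3 / 2)) ^ C * (C0 : ℝ) ^ (d + 1)) κ4 (1 / Cr) (c * θ * δ3 / 2)
    hκ4 (by positivity) (by positivity) (by positivity)
    (by
      have : (0:ℝ) ≤ (1 + C / (c * θ * δ3 / 2)) ^ C := Real.rpow_nonneg (by positivity) _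
      positivity)
  refine ⟨κ, hκ, max (max X4 X5) (max X6 (max 1 C0)), ?_⟩
  intro Q Q' X hX Xs hXs hR hQ20 D D1 D2 px hD2 hD21 hD1 hDQ hpx hD2b b L T hLX hTX hTQ hval
  have a4 : X4 ≤ X := le_trans (le_trans (le_max_left _ _) (le_max_left _ _)) hX
  have a5 : X5 ≤ X := le_trans (le_trans (le_max_right _ _) (le_max_left _ _)) hX
  have a6 : X6 ≤ X := le_trans (le_trans (le_max_left _ _) (le_max_right _ _)) hX
  have a7 : max 1 C0 ≤ X := le_trans (le_trans (le_max_right _ _) (le_max_right _ _)) hX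
  have hX1 : 1 ≤ X := le_trans (le_max_left _ _) a7
  have hXC : C0 ≤ X := le_trans (le_max_right _ _) a7
  have hX1r : (1:ℝ) ≤ X := by exact_mod_cast hX1
  obtain ⟨i0⟩ : Nonempty (Fin k) := ⟨⟨0, hk⟩⟩
  have hKpos : (0:ℝ) ≤ max (max K1 K2) (max K3 20) := by
    have := le_max_right K3 20
    have := le_max_right (max K1 K2) (max K3 20)
    linarith
  have hQ'1 : 1 ≤ Q' := by
    obtain ⟨p1, p2, -⟩ := Pool.Agent.Lib.H68T.mem_PC.1 hpx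
    exact le_trans p1 p2
  have hQQ : Q' ≤ Q := (hR i0).le
  have hQ1 : 1 ≤ Q := le_trans hQ'1 hQQ
  have hQpow : Q * Q ^ 8 ≤ X := z4a_Qpow Q X (Xs i0) C0 20 le_rfl
    ((hR i0).reg.mono hKpos (le_trans (le_max_right _ _) (le_max_right _ _))) (hXs i0).2 hXC
  have hQlow : (X : ℝ) ^ (1 / Cr) ≤ Q := z4a_Qlow Q X (Xs i0) Cr hCr hX1 (hXs i0).1 hQ1 (hR i0).log
  have hQ0' : Q0 ≤ Q := by exact_mod_cast le_trans (hX5 X a5) hQlow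
  have hlow : (X : ℝ) ^ θ ≤ Q' := le_trans (Real.rpow_le_rpow (by linarith)
    (by exact_mod_cast (hXs i0).1) hθ.le) (hR i0).low
  have hQX : Q ≤ X := by
    refine le_trans ?_ hQpow
    exact Nat.le_mul_of_pos_right _ (Nat.pow_pos hQ1)
  obtain ⟨H, hHd⟩ : ∃ H : ℕ, H = X / Q ^ 8 := ⟨_, rfl⟩
  rw [← hHd]
  have hQH : Q ≤ H := by
    rw [hHd, Nat.le_div_iff_mul_le (Nat.pow_pos hQ1)]
    exact hQpow
  have hH1 : 1 ≤ H := le_trans hQ1 hQH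
  have hHX : H * Q ^ 8 ≤ X := by
    rw [hHd]
    exact Nat.div_mul_le_self _ _
  have hH10 : Q' ^ (10 * (k + 1)) ≤ H := by
    refine le_trans (le_trans ?_ hQ20) hQH
    exact Nat.pow_le_pow_right hQ'1 (by omega)
  have hval' : ∀ i, ∀ n ∈ range L, ∀ t ∈ bx d T, (Xs i : ℤ) ≤ S.val b n (iv t) i ∧
      S.val b n (iv t) i ≤ 4 * Xs i := by
    intro i n hn t ht
    have h1 := hval i n hn t ht
    unfold JJ at h1
    have h2 := Finset.mem_Ico.1 h1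
    constructor <;> omega
  have hms := fun i => hMs Q (Xs i) ((hR i).reg.mono hKpos (le_trans (le_max_left _ _) (le_max_right _ _)))
  choose mb hmb0 hmbs hmb using hms
  have hR1 : ∀ i, Rgm K1 Cr θ Q Q' (Xs i) := fun i =>
    ⟨(hR i).reg.mono hKpos (le_trans (le_max_left _ _) (le_max_left _ _)), (hR i).log, (hR i).low, (hR i).le⟩
  have p1 := hX4 Q Q' X a4 Xs hXs hR1 b L T hLX hTX hval
  have p2 : ∀ t ∈ bx d T, _ := fun t ht => hQ0 Q Q' X H L hQ0' hQ'1 hQ20 hH1 hHX hLX Xs (fun i => (hXs i).1)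
    (fun i => (hR i).reg.mono hKpos (le_trans (le_max_right _ _) (le_max_left _ _))) b (iv t)
    (fun i n hn => hval' i n hn t ht)
  have p3 := z4a_cells S c C hZ Q Q' D D1 D2 H L T px hD2 hD21 hD1 hDQ hpx hQQ b hH1 hH10 hTQ Xs hval'
    CM hCM mb hmb0 hmbs hmb
  have q2 := z4a_second d C0 X Q T Cr hX1 hTX hQlow
  have q3 := z4a_third k d C0 c C CM θ δ3 hc hC hCM hθ hδ X Q' T L H D2 hQ'1 (le_trans hQQ hQX) hTX hLX hlow hD2b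
  have q4 := hX6 X a6
  have tri : ∀ t ∈ bx d T, ‖((∑ n ∈ range L, ∏ i, lp (S.val b n (iv t) i) : ℝ) : ℂ) -
      ∑ j ∈ range (L / H), ((H : ℕ) : ℂ) * MCS S b (iv t) Q' D D1 px
        (fun i p => Bc Q (Xs i) p (S.val b ((j * H : ℕ) : ℤ) (iv t) i))‖ ≤
      |∑ n ∈ range L, (∏ i, lp (S.val b n (iv t) i) - ∏ i, Lk Q' (Xs i / Q ^ 2) (S.val b n (iv t) i))| +
      (X / Q : ℝ) +
      ‖∑ j ∈ range (L / H), ∑ n ∈ Ico (j * H) (j * H + H),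
        ∏ i, SG Q' (fun p => Bc Q (Xs i) p (S.val b ((j * H : ℕ) : ℤ) (iv t) i)) (S.val b n (iv t) i) -
      ∑ j ∈ range (L / H), ((H : ℕ) : ℂ) * MCS S b (iv t) Q' D D1 px
        (fun i p => Bc Q (Xs i) p (S.val b ((j * H : ℕ) : ℤ) (iv t) i))‖ := by
    intro t ht
    have e1 : ‖((∑ n ∈ range L, ∏ i, lp (S.val b n (iv t) i) : ℝ) : ℂ) -
        ((∑ n ∈ range L, ∏ i, Lk Q' (Xs i / Q ^ 2) (S.val b n (iv t) i) : ℝ) : ℂ)‖ =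
        |∑ n ∈ range L, (∏ i, lp (S.val b n (iv t) i) - ∏ i, Lk Q' (Xs i / Q ^ 2) (S.val b n (iv t) i))| := by
      rw [← Complex.ofReal_sub, ← Finset.sum_sub_distrib, Complex.norm_real, Real.norm_eq_abs]
    have e2 := p2 t ht
    rw [← e1]
    refine le_trans (norm_sub_le_norm_sub_add_norm_sub _
      (((∑ n ∈ range L, ∏ i, Lk Q' (Xs i / Q ^ 2) (S.val b n (iv t) i) : ℝ) : ℂ)) _) ?_
    rw [add_assoc]
    refine add_le_add le_rfl ?_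
    refine le_trans (norm_sub_le_norm_sub_add_norm_sub _ (∑ j ∈ range (L / H), ∑ n ∈ Ico (j * H) (j * H + H),
        ∏ i, SG Q' (fun p => Bc Q (Xs i) p (S.val b ((j * H : ℕ) : ℤ) (iv t) i)) (S.val b n (iv t) i)) _) ?_
    exact add_le_add e2 le_rfl
  refine le_trans (Finset.sum_le_sum tri) ?_
  rw [Finset.sum_add_distrib, Finset.sum_add_distrib, Finset.sum_const, z4a_card, nsmul_eq_mul, Nat.cast_pow]
  refine le_trans ?_ q4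
  exact add_le_add (add_le_add p1 q2) (le_trans p3 q3)

end Pool.Agent.H9U
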