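import Pool.Agent.Lib.H9U.U0A

/-!
# H9U, chunk U0B (M): the error of the projection of small level is uniform
-/

open Finset

namespace Pool.Agent.H9U

open Pool.Agent.H44W (ee)
open Pool.Agent.H9S (Bd lc Lc BF Sx Sy)
open Pool.Agent.Lib.H68T (lp Lk)
open Pool.Agent.Lib.H18Q (RegP)

theorem u0b_add (S T : Finset ℤ) (F1 F2 W f g : ℤ → ℂ) :
    BF S T (fun m => F1 m + F2 m) W f g = BF S T F1 W f g + BF S T F2 W f g := by
  unfold BF
  rw [← Finset.sum_add_distrib]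
  refine Finset.sum_congr rfl fun x _ => ?_
  rw [← Finset.sum_add_distrib]
  refine Finset.sum_congr rfl fun y _ => ?_
  ring

/-- Proof. Compare the proof of `H9S.OP_main` (`H9S/O3.lean`). `OPW` is `O1_op (E1_inv (K3_inv (T2_box (P2_inv hI))))`; its hypotheses at `(Q, X)`,
with `n := X`: `LKd C2 Q X` from `LK_box` (as in `OP_main`), the Fourier bound from `fourier_smallP`, the size of `Ec Q X` from
`BDL_bd` (with `n := X`) and `|lp| ≤ log (4 X)`, `W` bounded by `1 ≤ X^c`. So `‖BF (Ec Q X) W f g‖ ≤ X^(2-c)`. And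
`Er Q Q' X m = Ec Q X m + (Lc Q (X/Q²) m - Lc Q' (X/Q²) m)` (`BF` is additive in the kernel), the second part is at most
`C2 X² Q'^(-1/1152) ≤ C2 X^(2 - θ/1152)` (`LK_box`, `Rgm.low`). `κ = min (min c (θ/1152)) 1 / 2`, `X` large. Size: `U0_size`, `U0_lp` with
`ε = κ/200` (`2 X^(κ/200) ≤ X^(κ/100)`). `1 ≤ Q'` from `Rgm.low` (`X^θ ≥ 1`). -/
theorem U0_unif (hI : Pool.Agent.H9S.INV) : ∃ K : ℝ, 1 ≤ K ∧ ∀ Cr θ : ℝ, 1 ≤ Cr → 0 < θ → ∃ κ : ℝ, 0 < κ ∧ κ ≤ 1 ∧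
    ∃ X0 : ℕ, ∀ Q Q' X : ℕ, X0 ≤ X → Rgm K Cr θ Q Q' X → Unif X κ (Er Q Q' X) := by
  obtain ⟨K1, hK1, hbd⟩ := U0_size
  obtain ⟨K2, C2, hK2, hC2, hLK⟩ := Pool.Agent.Lib.H59T.LK_box
  obtain ⟨K3, hfs⟩ := Pool.Agent.Lib.H18Q.fourier_smallP
  have hO := Pool.Agent.H9S.O1_op (Pool.Agent.H9S.E1_inv (Pool.Agent.H9S.K3_inv (Pool.Agent.H9S.T2_box
    (Pool.Agent.H9S.P2_inv hI))))
  refine ⟨max (max K1 K2) (max K3 4), hK1.trans ((le_max_left _ _).trans (le_max_left _ _)), fun Cr θ hCr hθ => ?_⟩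
  obtain ⟨K, hK⟩ : ∃ K : ℝ, K = max (max K1 K2) (max K3 4) := ⟨_, rfl⟩
  rw [← hK]
  have hKK1 : K1 ≤ K := by rw [hK]; exact (le_max_left _ _).trans (le_max_left _ _)
  have hKK2 : K2 ≤ K := by rw [hK]; exact (le_max_right _ _).trans (le_max_left _ _)
  have hKK3 : K3 ≤ K := by rw [hK]; exact (le_max_left _ _).trans (le_max_right _ _)
  have hKK4 : (4:ℝ) ≤ K := by rw [hK]; exact (le_max_right _ _).trans (le_max_right _ _)
  have hK0 : 0 ≤ K := by linarith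
  clear hK
  obtain ⟨c, hc, n1, h1⟩ := hO Cr C2 hCr hC2
  obtain ⟨κ, hκ⟩ : ∃ κ : ℝ, κ = min (min c (θ / 1152)) 1 / 2 := ⟨_, rfl⟩
  have hm0 : 0 < min (min c (θ / 1152)) 1 := lt_min (lt_min hc (by positivity)) one_pos
  have hκ0 : 0 < κ := by rw [hκ]; linarith
  have hκc : 2 * κ ≤ c := by
    have := (min_le_left (min c (θ / 1152)) 1).trans (min_le_left c (θ / 1152))
    rw [hκ]; linarith
  have hκθ : 2 * κ ≤ θ / 1152 := by
    have := (min_le_left (min c (θ / 1152)) 1).trans (min_le_right c (θ / 1152))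
    rw [hκ]; linarith
  have hκ1 : 2 * κ ≤ 1 := by
    have := min_le_right (min c (θ / 1152)) 1
    rw [hκ]; linarith
  clear hκ
  obtain ⟨n2, h2⟩ := hbd (κ / 200) (by positivity)
  obtain ⟨n3, h3⟩ := U0_lp (κ / 200) (by positivity)
  have ht : ∀ᶠ n : ℕ in Filter.atTop, max (1 + C2) 2 ≤ (n:ℝ) ^ (κ / 200) :=
    ((tendsto_rpow_atTop (by positivity : 0 < κ / 200)).comp tendsto_natCast_atTop_atTop).eventually_ge_atTop _
  obtain ⟨n4, h4⟩ := Filter.eventually_atTop.1 ht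
  refine ⟨κ, hκ0, by linarith, max (max (max n1 n2) (max n3 n4)) 1, fun Q Q' X hX hR => ?_⟩
  have hreg := hR.reg
  have hX1 : 1 ≤ X := by omega
  have hXp : (0:ℝ) < X := by exact_mod_cast hX1
  have hXr : (1:ℝ) ≤ X := by exact_mod_cast hX1
  have h4' := h4 X (by omega)
  have h4a : 1 + C2 ≤ (X:ℝ) ^ (κ / 200) := (le_max_left _ _).trans h4'
  have h4b : (2:ℝ) ≤ (X:ℝ) ^ (κ / 200) := (le_max_right _ _).trans h4'
  have hQ4 : (4:ℝ) ≤ Q := (hreg.mono hK0 hKK4).Q_ge (by norm_num)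
  have hQ2 : 2 ≤ Q := by
    have : (2:ℝ) ≤ Q := by linarith
    exact_mod_cast this
  have hQ'1 : 1 ≤ Q' := by
    have h5 : (1:ℝ) ≤ (X:ℝ) ^ θ := Real.one_le_rpow hXr hθ.le
    have h6 := h5.trans hR.low
    exact_mod_cast h6
  have hQ'r : (0:ℝ) < Q' := by exact_mod_cast hQ'1
  -- sizes
  have hsz : ∀ Q'' : ℕ, 1 ≤ Q'' → Q'' ≤ Q → ∀ m : ℤ, (X:ℤ) ≤ m → m ≤ 4 * X →
      ‖lc m - Lc Q'' (X / Q ^ 2) m‖ ≤ (X:ℝ) ^ (κ / 100) := by
    intro Q'' hQ1 hQQ m hm1 hm2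
    have e1 := h2 Q Q'' X (by omega) (hreg.mono hK0 hKK1) hQ1 hQQ m hm1 hm2
    have e2 := h3 X (by omega) m hm2
    have e3 : ‖lc m - Lc Q'' (X / Q ^ 2) m‖ ≤ ‖lc m‖ + ‖Lc Q'' (X / Q ^ 2) m‖ := norm_sub_le _ _
    have e4 : ‖lc m‖ = |lp m| := by
      rw [lc, Complex.norm_real, Real.norm_eq_abs]
    have e5 : ‖Lc Q'' (X / Q ^ 2) m‖ = |Lk Q'' (X / Q ^ 2) m| := by
      rw [Lc, Complex.norm_real, Real.norm_eq_abs]
    have e6 : (X:ℝ) ^ (κ / 100) = (X:ℝ) ^ (κ / 200) * (X:ℝ) ^ (κ / 200) := by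
      rw [← Real.rpow_add hXp]
      congr 1
      ring
    have e7 : 0 ≤ (X:ℝ) ^ (κ / 200) := Real.rpow_nonneg hXp.le _
    rw [e6]
    rw [e4, e5] at e3
    nlinarith
  have hLKd : Pool.Agent.H9S.LKd C2 Q X := by
    intro Q'' hQ1 hQQ W f g hW hf hg
    have h3 := hLK Q Q'' X (hreg.mono hK0 hKK2) hQ1 hQQ f g W hf hg hW
    refine le_trans (le_of_eq ?_) h3
    rw [BF, Sx, Sy]
    simp only [Lc, Complex.ofReal_sub]
  constructor
  · intro W f g hW hf hg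
    have hA : ‖BF (Sx X) (Sy X) (Pool.Agent.H9S.Ec Q X) W f g‖ ≤ (X:ℝ) ^ (2 - c) := by
      refine h1 X (by omega) Q X hQ2 hR.log hX1 le_rfl hLKd ?_ ?_ W f g ?_ hf hg
      · intro th u v hu hv
        have h3 := hfs Q X (hreg.mono hK0 hKK3) th u v hu hv
        refine le_trans (le_of_eq ?_) h3
        congr 1
        refine Finset.sum_congr rfl fun m _ => ?_
        rw [Pool.Agent.H9S.Ec, lc, Lc, Complex.ofReal_sub, mul_comm th (m:ℝ)]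
        rfl
      · intro m hm1 hm2
        refine (hsz Q (by omega) le_rfl m hm1 hm2).trans ?_
        exact Real.rpow_le_rpow_of_exponent_le hXr (by linarith)
      · intro v _ _
        exact (hW v).trans (Real.one_le_rpow hXr hc.le)
    have hB := hLKd Q' hQ'1 hR.le W f g hW hf hg
    have hE : BF (Sx X) (Sy X) (Er Q Q' X) W f g = BF (Sx X) (Sy X) (Pool.Agent.H9S.Ec Q X) W f g +
        BF (Sx X) (Sy X) (fun m => Lc Q (X / Q ^ 2) m - Lc Q' (X / Q ^ 2) m) W f g := by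
      rw [← u0b_add]
      congr 1
      funext m
      rw [Er, Pool.Agent.H9S.Ec]
      ring
    have hC : (Q':ℝ) ^ (-(1 / 1152 : ℝ)) ≤ (X:ℝ) ^ (-(2 * κ)) := by
      calc (Q':ℝ) ^ (-(1 / 1152 : ℝ)) ≤ ((X:ℝ) ^ θ) ^ (-(1 / 1152 : ℝ)) :=
            Real.rpow_le_rpow_of_nonpos (Real.rpow_pos_of_pos hXp _) hR.low (by norm_num)
        _ = (X:ℝ) ^ (θ * (-(1 / 1152 : ℝ))) := (Real.rpow_mul hXp.le _ _).symm
        _ ≤ (X:ℝ) ^ (-(2 * κ)) := Real.rpow_le_rpow_of_exponent_le hXr (by linarith)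
    have hD : C2 * (X:ℝ) ^ 2 * (Q':ℝ) ^ (-(1 / 1152 : ℝ)) ≤ C2 * (X:ℝ) ^ (2 - 2 * κ) := by
      have e1 : (X:ℝ) ^ (2 - 2 * κ) = (X:ℝ) ^ 2 * (X:ℝ) ^ (-(2 * κ)) := by
        rw [← Real.rpow_natCast (X:ℝ) 2, ← Real.rpow_add hXp]
        congr 1
      rw [e1, ← mul_assoc]
      exact mul_le_mul_of_nonneg_left hC (by positivity)
    have hF : (X:ℝ) ^ (2 - c) ≤ (X:ℝ) ^ (2 - 2 * κ) := Real.rpow_le_rpow_of_exponent_le hXr (by linarith)
    have hG : (1 + C2) * (X:ℝ) ^ (2 - 2 * κ) ≤ (X:ℝ) ^ (2 - κ) := by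
      have e1 : (X:ℝ) ^ (2 - κ) = (X:ℝ) ^ κ * (X:ℝ) ^ (2 - 2 * κ) := by
        rw [← Real.rpow_add hXp]
        congr 1
        ring
      rw [e1]
      refine mul_le_mul_of_nonneg_right ?_ (Real.rpow_nonneg hXp.le _)
      exact h4a.trans (Real.rpow_le_rpow_of_exponent_le hXr (by linarith))
    rw [hE]
    refine (norm_add_le _ _).trans ?_
    linarith
  · intro m hm1 hm2
    exact hsz Q' hQ'1 hR.le m hm1 hm2

end Pool.Agent.H9U
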