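import Pool.Agent.Lib.H9U.U2

/-!
# H9U, chunk U3 (M): Fourier coefficients of `F(m) conj F(m+h)` on average over `h`; the `U³` norm
-/

open Finset

namespace Pool.Agent.H9U

open Pool.Agent.H44W (ee)
open Pool.Agent.H9S (Bd BF Sx Sy)

theorem u3_mem {X : ℕ} {m : ℤ} (hm : m ∈ JJ X) : (X:ℤ) ≤ m ∧ m ≤ 4 * X ∧ 2 * (X:ℤ) ≤ m ∧ m < 2 * X + X / 4 := by
  unfold JJ at hm
  rw [mem_Ico] at hm
  have : (X:ℤ) / 4 ≤ X := by omega
  omega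

/-- The sum over parallelograms, with the sizes. -/
theorem u3_par (κ : ℝ) (hκ : 0 < κ) : ∃ X0 : ℕ, ∀ X : ℕ, X0 ≤ X → ∀ F : ℤ → ℂ, Unif X κ F →
    ∀ W : ℤ → ℤ → ℂ, (∀ h l, ‖W h l‖ ≤ 1) →
    ‖∑ h ∈ Ioo (-(X : ℤ)) X, ∑ l ∈ Ioo (-(X : ℤ)) X, W h l *
      ∑ m ∈ JJ X, F m * (starRingEnd ℂ) (cutJ X F (m + h)) * (starRingEnd ℂ) (cutJ X F (m + l)) *
        cutJ X F (m + h + l)‖ ≤ ((X : ℝ) ^ (κ / 100)) ^ 3 * (X : ℝ) ^ (3 - κ / 2) := by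
  obtain ⟨X0, h0⟩ := U2_par κ hκ
  refine ⟨max X0 1, fun X hX F hF W hW => ?_⟩
  have hX1 : 1 ≤ X := by omega
  have hXp : (0:ℝ) < X := by exact_mod_cast hX1
  obtain ⟨B, hB⟩ : ∃ B : ℝ, B = (X:ℝ) ^ (κ / 100) := ⟨_, rfl⟩
  have hB0 : 0 < B := by rw [hB]; exact Real.rpow_pos_of_pos hXp _
  have hBc : (B:ℂ) ≠ 0 := by exact_mod_cast hB0.ne'
  rw [← hB]
  obtain ⟨f1, hf1⟩ : ∃ f1 : ℤ → ℂ, ∀ m, f1 m = if (X:ℤ) ≤ m ∧ m ≤ 4 * X then F m / B else 0 := ⟨_, fun _ => rfl⟩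
  obtain ⟨f2, hf2⟩ : ∃ f2 : ℤ → ℂ, ∀ m, f2 m = (starRingEnd ℂ) (f1 m) := ⟨_, fun _ => rfl⟩
  have hb1 : Bd f1 := by
    intro m
    rw [hf1]
    by_cases h : (X:ℤ) ≤ m ∧ m ≤ 4 * X
    · rw [if_pos h, norm_div, Complex.norm_real, Real.norm_of_nonneg hB0.le, div_le_one hB0, hB]
      exact hF.bd m h.1 h.2
    · rw [if_neg h, norm_zero]
      exact zero_le_one
  have hb2 : Bd f2 := by
    intro m
    rw [hf2, RCLike.norm_conj]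
    exact hb1 m
  have hFm : ∀ m ∈ JJ X, F m = B * f1 m := by
    intro m hm
    have h := u3_mem hm
    rw [hf1, if_pos ⟨h.1, h.2.1⟩]
    field_simp
  have hcm : ∀ m, (starRingEnd ℂ) (cutJ X F m) = B * cutJ X f2 m := by
    intro m
    unfold cutJ
    by_cases hm : m ∈ JJ X
    · rw [if_pos hm, if_pos hm, hFm m hm, map_mul, Complex.conj_ofReal, hf2]
    · rw [if_neg hm, if_neg hm, map_zero, mul_zero]
  have h1 := h0 X (by omega) F hF W f1 f2 f2 hW hb1 hb2 hb2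
  have h2 : (∑ h ∈ Ioo (-(X : ℤ)) X, ∑ l ∈ Ioo (-(X : ℤ)) X, W h l *
      ∑ m ∈ JJ X, F m * (starRingEnd ℂ) (cutJ X F (m + h)) * (starRingEnd ℂ) (cutJ X F (m + l)) *
        cutJ X F (m + h + l)) = ((B ^ 3 : ℝ) : ℂ) * ∑ h ∈ Ioo (-(X : ℤ)) X, ∑ l ∈ Ioo (-(X : ℤ)) X, W h l *
      ∑ m ∈ JJ X, f1 m * cutJ X f2 (m + h) * cutJ X f2 (m + l) * cutJ X F (m + h + l) := by
    rw [Finset.mul_sum]
    refine Finset.sum_congr rfl fun h _ => ?_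
    rw [Finset.mul_sum]
    refine Finset.sum_congr rfl fun l _ => ?_
    rw [mul_left_comm, Finset.mul_sum (s := JJ X) (a := ((B ^ 3 : ℝ) : ℂ))]
    congr 1
    refine Finset.sum_congr rfl fun m hm => ?_
    rw [hcm, hcm, hFm m hm]
    push_cast
    ring
  rw [h2, norm_mul, Complex.norm_real, Real.norm_of_nonneg (by positivity)]
  exact mul_le_mul_of_nonneg_left h1 (by positivity)

/-- The square of a sum over `JJ X`. -/
theorem u3_sq (X : ℕ) (hX : 1 ≤ X) (a : ℤ → ℂ) : ((‖∑ m ∈ JJ X, a m‖ ^ 2 : ℝ) : ℂ) =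
    ∑ l ∈ Ioo (-(X : ℤ)) X, ∑ m ∈ JJ X, a m * (starRingEnd ℂ) (cutJ X a (m + l)) := by
  have h1 : ((‖∑ m ∈ JJ X, a m‖ ^ 2 : ℝ) : ℂ) = (∑ m ∈ JJ X, a m) * (starRingEnd ℂ) (∑ m ∈ JJ X, a m) := by
    rw [Complex.mul_conj, Complex.normSq_eq_norm_sq]
  rw [h1, Finset.sum_comm, Finset.sum_mul]
  refine Finset.sum_congr rfl fun m hm => ?_
  rw [← Finset.mul_sum, map_sum]
  congr 1
  have h2 : ∀ l : ℤ, (starRingEnd ℂ) (cutJ X a (m + l)) =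
      if m + l ∈ JJ X then (starRingEnd ℂ) (a (m + l)) else 0 := by
    intro l
    unfold cutJ
    by_cases h : m + l ∈ JJ X
    · rw [if_pos h, if_pos h]
    · rw [if_neg h, if_neg h, map_zero]
  rw [Finset.sum_congr rfl fun l _ => h2 l, ← Finset.sum_filter]
  have hm' := u3_mem hm
  refine Finset.sum_nbij' (fun m' => m' - m) (fun l => m + l) ?_ ?_ ?_ ?_ ?_
  · intro m' hm2
    have h3 := u3_mem hm2
    rw [mem_filter, mem_Ioo]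
    refine ⟨by omega, ?_⟩
    rw [show m + (m' - m) = m' by ring]
    exact hm2
  · intro l hl
    exact (mem_filter.1 hl).2
  · intro m' _
    ring
  · intro l _
    ring
  · intro m' _
    rw [show m + (m' - m) = m' by ring]

/-- Proof. Let `a_h(m) = F m conj(cutJ F (m+h)) ee(θ_h m)`. Cauchy-Schwarz over `h` (at most `2X` values):
`(∑_h ‖∑_m a_h(m)‖)² ≤ 2X ∑_h ‖∑_m a_h(m)‖²`, and `‖∑_{m ∈ JJ} a(m)‖² = ∑_l ∑_m a(m) conj(a(m+l))` (both points in `JJ`, `|l| < X`), with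
`a(m) conj a(m+l) = F(m) conj(cutJ F(m+h)) conj(cutJ F(m+l)) cutJ F(m+h+l) ee(-θ_h l)`. Apply `U2_par` with `W h l = ee(-θ_h l)`,
`f1 = F/B`, `f2 = f3 = conj F/B` on `[X, 4X]` (and `0` elsewhere: only values on `JJ X ⊆ [X, 4X]` matter), `B = X^(κ/100)` (`Unif.bd`):
`(…)² ≤ 2X · X^(3κ/100) · X^(3 - κ/2)`, so the sum is at most `√2 X^(2 - κ/4 + 3κ/200) ≤ X^(2 - κ/8)` for `X` large. -/
theorem U3_sup (κ : ℝ) (hκ : 0 < κ) : ∃ X0 : ℕ, ∀ X : ℕ, X0 ≤ X → ∀ F : ℤ → ℂ, Unif X κ F → ∀ θ : ℤ → ℝ,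
    ∑ h ∈ Ioo (-(X : ℤ)) X, ‖∑ m ∈ JJ X, F m * (starRingEnd ℂ) (cutJ X F (m + h)) * ee (θ h * m)‖ ≤
      (X : ℝ) ^ (2 - κ / 8) := by
  obtain ⟨X0, h0⟩ := u3_par κ hκ
  have ht : ∀ᶠ n : ℕ in Filter.atTop, 2 ≤ (n:ℝ) ^ (κ * 22 / 100) :=
    ((tendsto_rpow_atTop (by positivity : 0 < κ * 22 / 100)).comp tendsto_natCast_atTop_atTop).eventually_ge_atTop _
  obtain ⟨n1, hn1⟩ := Filter.eventually_atTop.1 ht
  refine ⟨max (max X0 n1) 1, fun X hX F hF θ => ?_⟩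
  have hX1 : 1 ≤ X := by omega
  have hXp : (0:ℝ) < X := by exact_mod_cast hX1
  have hn1' := hn1 X (by omega)
  have h1 := h0 X (by omega) F hF (fun h l => ee (-(θ h * l))) (fun h l => by
    rw [Pool.Agent.H44W.norm_ee])
  -- the squares
  have h2 : ((∑ h ∈ Ioo (-(X : ℤ)) X,
      ‖∑ m ∈ JJ X, F m * (starRingEnd ℂ) (cutJ X F (m + h)) * ee (θ h * m)‖ ^ 2 : ℝ) : ℂ) =
      ∑ h ∈ Ioo (-(X : ℤ)) X, ∑ l ∈ Ioo (-(X : ℤ)) X, ee (-(θ h * l)) *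
      ∑ m ∈ JJ X, F m * (starRingEnd ℂ) (cutJ X F (m + h)) * (starRingEnd ℂ) (cutJ X F (m + l)) *
        cutJ X F (m + h + l) := by
    rw [Complex.ofReal_sum]
    refine Finset.sum_congr rfl fun h _ => ?_
    rw [u3_sq X hX1]
    refine Finset.sum_congr rfl fun l _ => ?_
    rw [Finset.mul_sum]
    refine Finset.sum_congr rfl fun m hm => ?_
    unfold cutJ
    by_cases hl : m + l ∈ JJ X
    · rw [if_pos hl, if_pos hl, map_mul, map_mul, Complex.conj_conj, ← Pool.Agent.H44W.ee_neg]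
      have e1 : ee (-(θ h * l)) = ee (θ h * m) * ee (-(θ h * ((m + l : ℤ) : ℝ))) := by
        rw [← Pool.Agent.H44W.ee_add]
        congr 1
        push_cast
        ring
      rw [e1, show m + l + h = m + h + l by ring]
      ring
    · rw [if_neg hl, if_neg hl, map_zero, mul_zero, mul_zero, zero_mul, mul_zero]
  have h3 : ∑ h ∈ Ioo (-(X : ℤ)) X,
      ‖∑ m ∈ JJ X, F m * (starRingEnd ℂ) (cutJ X F (m + h)) * ee (θ h * m)‖ ^ 2 ≤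
      ((X : ℝ) ^ (κ / 100)) ^ 3 * (X : ℝ) ^ (3 - κ / 2) := by
    refine le_trans (le_of_eq ?_) h1
    rw [← h2, Complex.norm_real, Real.norm_of_nonneg (Finset.sum_nonneg fun _ _ => by positivity)]
  have h5 : (∑ h ∈ Ioo (-(X : ℤ)) X,
      ‖∑ m ∈ JJ X, F m * (starRingEnd ℂ) (cutJ X F (m + h)) * ee (θ h * m)‖) ^ 2 ≤
      ((Ioo (-(X : ℤ)) X).card : ℝ) * ∑ h ∈ Ioo (-(X : ℤ)) X,
      ‖∑ m ∈ JJ X, F m * (starRingEnd ℂ) (cutJ X F (m + h)) * ee (θ h * m)‖ ^ 2 := sq_sum_le_card_mul_sum_sq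
  have h6 : ((Ioo (-(X : ℤ)) X).card : ℝ) ≤ 2 * X := by
    rw [Int.card_Ioo]
    have : ((X:ℤ) - -(X:ℤ) - 1).toNat ≤ 2 * X := by omega
    exact_mod_cast this
  have h7 : (∑ h ∈ Ioo (-(X : ℤ)) X,
      ‖∑ m ∈ JJ X, F m * (starRingEnd ℂ) (cutJ X F (m + h)) * ee (θ h * m)‖) ^ 2 ≤ ((X : ℝ) ^ (2 - κ / 8)) ^ 2 := by
    refine h5.trans ((mul_le_mul h6 h3 (Finset.sum_nonneg fun _ _ => by positivity) (by positivity)).trans ?_)
    have e1 : 2 * (X:ℝ) * (((X : ℝ) ^ (κ / 100)) ^ 3 * (X : ℝ) ^ (3 - κ / 2)) =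
        2 * (X:ℝ) ^ (4 - κ / 2 + 3 * κ / 100) := by
      have : (X:ℝ) ^ (4 - κ / 2 + 3 * κ / 100) = X * (((X : ℝ) ^ (κ / 100)) ^ 3 * (X : ℝ) ^ (3 - κ / 2)) := by
        rw [← Real.rpow_natCast, ← Real.rpow_mul hXp.le, ← Real.rpow_add hXp]
        nth_rewrite 2 [← Real.rpow_one (X:ℝ)]
        rw [← Real.rpow_add hXp]
        congr 1
        push_cast
        ring
      rw [this]
      ring
    have e2 : ((X : ℝ) ^ (2 - κ / 8)) ^ 2 = (X:ℝ) ^ (κ * 22 / 100) * (X:ℝ) ^ (4 - κ / 2 + 3 * κ / 100) := by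
      rw [← Real.rpow_natCast, ← Real.rpow_mul hXp.le, ← Real.rpow_add hXp]
      congr 1
      push_cast
      ring
    rw [e1, e2]
    exact mul_le_mul_of_nonneg_right hn1' (Real.rpow_nonneg hXp.le _)
  exact (pow_le_pow_iff_left₀ (Finset.sum_nonneg fun _ _ => norm_nonneg _) (Real.rpow_nonneg hXp.le _)
    two_ne_zero).1 h7

/-- The eighth power of the `U³` norm. Proof. `∑_{h,l} ‖S(h,l)‖²`, `S(h,l) = ∑_m F(m) conj F(m+h) conj F(m+l) F(m+h+l)` (cut off to `JJ X`) is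
`∑_{h,l} W(h,l) B³ · (…)` with `W = conj S/‖S‖`-type weights: `‖S‖² ≤ X B⁴ ‖S‖`, `∑ ‖S(h,l)‖ ≤ B³ X^(3 - κ/2)` by `U2_par` (weights
`W(h,l) = conj(S)/‖S‖`), `B = X^(κ/100)`. -/
theorem U3_norm (κ : ℝ) (hκ : 0 < κ) : ∃ X0 : ℕ, ∀ X : ℕ, X0 ≤ X → ∀ F : ℤ → ℂ, Unif X κ F →
    ∑ h ∈ Ioo (-(X : ℤ)) X, ∑ l ∈ Ioo (-(X : ℤ)) X, ‖∑ m ∈ JJ X, F m * (starRingEnd ℂ) (cutJ X F (m + h)) *
      (starRingEnd ℂ) (cutJ X F (m + l)) * cutJ X F (m + h + l)‖ ^ 2 ≤ (X : ℝ) ^ (4 - κ / 4) := by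
  obtain ⟨X0, h0⟩ := u3_par κ hκ
  refine ⟨max X0 1, fun X hX F hF => ?_⟩
  have hX1 : 1 ≤ X := by omega
  have hXp : (0:ℝ) < X := by exact_mod_cast hX1
  have hXr : (1:ℝ) ≤ X := by exact_mod_cast hX1
  obtain ⟨S, hS⟩ : ∃ S : ℤ → ℤ → ℂ, ∀ h l, S h l = ∑ m ∈ JJ X, F m * (starRingEnd ℂ) (cutJ X F (m + h)) *
      (starRingEnd ℂ) (cutJ X F (m + l)) * cutJ X F (m + h + l) := ⟨_, fun _ _ => rfl⟩
  obtain ⟨B, hB⟩ : ∃ B : ℝ, B = (X:ℝ) ^ (κ / 100) := ⟨_, rfl⟩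
  have hB0 : 0 < B := by rw [hB]; exact Real.rpow_pos_of_pos hXp _
  have h1 := h0 X (by omega) F hF (fun h l => (starRingEnd ℂ) (S h l) / (‖S h l‖ : ℂ)) (fun h l => by
    rw [norm_div, RCLike.norm_conj, Complex.norm_real, norm_norm]
    exact div_self_le_one _)
  rw [← hB] at h1
  have h2 : (∑ h ∈ Ioo (-(X : ℤ)) X, ∑ l ∈ Ioo (-(X : ℤ)) X,
      (starRingEnd ℂ) (S h l) / (‖S h l‖ : ℂ) * ∑ m ∈ JJ X, F m * (starRingEnd ℂ) (cutJ X F (m + h)) *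
      (starRingEnd ℂ) (cutJ X F (m + l)) * cutJ X F (m + h + l)) =
      ((∑ h ∈ Ioo (-(X : ℤ)) X, ∑ l ∈ Ioo (-(X : ℤ)) X, ‖S h l‖ : ℝ) : ℂ) := by
    push_cast
    refine Finset.sum_congr rfl fun h _ => Finset.sum_congr rfl fun l _ => ?_
    rw [← hS]
    by_cases h3 : S h l = 0
    · rw [h3, norm_zero]
      simp
    · have h4 : (‖S h l‖ : ℂ) ≠ 0 := by
        exact_mod_cast (norm_ne_zero_iff.2 h3)
      rw [div_mul_eq_mul_div, div_eq_iff h4, mul_comm ((starRingEnd ℂ) (S h l)), Complex.mul_conj,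
        Complex.normSq_eq_norm_sq]
      push_cast
      ring
  have h3 : ∑ h ∈ Ioo (-(X : ℤ)) X, ∑ l ∈ Ioo (-(X : ℤ)) X, ‖S h l‖ ≤ B ^ 3 * (X : ℝ) ^ (3 - κ / 2) := by
    refine le_trans (le_of_eq ?_) h1
    rw [h2, Complex.norm_real, Real.norm_of_nonneg
      (Finset.sum_nonneg fun _ _ => Finset.sum_nonneg fun _ _ => norm_nonneg _)]
  have hcB : ∀ m, ‖cutJ X F m‖ ≤ B := by
    intro m
    unfold cutJ
    by_cases hm : m ∈ JJ X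
    · rw [if_pos hm, hB]
      have := u3_mem hm
      exact hF.bd m this.1 this.2.1
    · rw [if_neg hm, norm_zero]
      exact hB0.le
  have h4 : ∀ h l, ‖S h l‖ ≤ X * B ^ 4 := by
    intro h l
    rw [hS]
    have hcard : ((JJ X).card : ℝ) ≤ X := by
      unfold JJ
      rw [Int.card_Ico]
      have : (2 * (X:ℤ) + X / 4 - 2 * X).toNat ≤ X := by omega
      exact_mod_cast this
    refine (norm_sum_le_of_le _ (fun m hm => ?_) : _ ≤ ∑ m ∈ JJ X, B ^ 4).trans ?_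
    · have hm' := u3_mem hm
      rw [norm_mul, norm_mul, norm_mul, RCLike.norm_conj, RCLike.norm_conj]
      have e1 : ‖F m‖ ≤ B := by rw [hB]; exact hF.bd m hm'.1 hm'.2.1
      calc ‖F m‖ * ‖cutJ X F (m + h)‖ * ‖cutJ X F (m + l)‖ * ‖cutJ X F (m + h + l)‖ ≤ B * B * B * B := by
            gcongr
            · exact hcB _
            · exact hcB _
            · exact hcB _
        _ = B ^ 4 := by ring
    · rw [Finset.sum_const, nsmul_eq_mul]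
      exact mul_le_mul_of_nonneg_right hcard (by positivity)
  calc ∑ h ∈ Ioo (-(X : ℤ)) X, ∑ l ∈ Ioo (-(X : ℤ)) X, ‖∑ m ∈ JJ X, F m * (starRingEnd ℂ) (cutJ X F (m + h)) *
      (starRingEnd ℂ) (cutJ X F (m + l)) * cutJ X F (m + h + l)‖ ^ 2
      ≤ ∑ h ∈ Ioo (-(X : ℤ)) X, ∑ l ∈ Ioo (-(X : ℤ)) X, (X * B ^ 4) * ‖S h l‖ := by
        refine Finset.sum_le_sum fun h _ => Finset.sum_le_sum fun l _ => ?_
        rw [← hS, sq]
        exact mul_le_mul_of_nonneg_right (h4 h l) (norm_nonneg _)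
    _ = (X * B ^ 4) * ∑ h ∈ Ioo (-(X : ℤ)) X, ∑ l ∈ Ioo (-(X : ℤ)) X, ‖S h l‖ := by
        rw [Finset.mul_sum]
        refine Finset.sum_congr rfl fun h _ => ?_
        rw [Finset.mul_sum]
    _ ≤ (X * B ^ 4) * (B ^ 3 * (X : ℝ) ^ (3 - κ / 2)) := mul_le_mul_of_nonneg_left h3 (by positivity)
    _ = (X:ℝ) ^ (4 - κ / 2 + 7 * κ / 100) := by
        have e1 : (X * B ^ 4) * (B ^ 3 * (X : ℝ) ^ (3 - κ / 2)) = X * (B ^ 7 * (X : ℝ) ^ (3 - κ / 2)) := by ring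
        rw [e1, hB, ← Real.rpow_natCast, ← Real.rpow_mul hXp.le, ← Real.rpow_add hXp]
        nth_rewrite 1 [← Real.rpow_one (X:ℝ)]
        rw [← Real.rpow_add hXp]
        congr 1
        push_cast
        ring
    _ ≤ (X:ℝ) ^ (4 - κ / 4) := Real.rpow_le_rpow_of_exponent_le hXr (by linarith)

end Pool.Agent.H9U
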