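import Pool.Agent.Lib.H9U.Defs
import Pool.Agent.Lib.H59P.A4

/-!
# H9U, chunk A1 (S/M): the model with explicit coefficients at good and at exceptional levels
-/

open Finset

namespace Pool.Agent.H9U

open Pool.Agent.Lib.H68T Pool.Agent.Lib.H18Q Pool.Agent.Lib.H59P

/-- Proof. Copy `mdl_good` (`H59P/A3.lean`): there `LevE` is proved with `e m p = Bc Q X p m - MX p0 _ m p`, which is exactly `MdB.cf` with the same `eb`. -/
theorem mdb_good (c : ℝ) (hc : 0 < c) : ∃ K C : ℝ, 1 ≤ K ∧ 1 ≤ C ∧ ∀ kp : ℝ, K ≤ kp →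
    ∀ Q X : ℕ, RegP K Q X → kp * Real.log Q ≤ Real.log X → Good c Q →
    MdB Q X 1 (C * Real.exp (-(kp / C)) + (Q : ℝ) ^ (-(1 / 4) : ℝ)) p0 (fun _ => 0) := by
  classical
  obtain ⟨K1, C, hK1, hC, hL1⟩ := L1_good_q c hc
  obtain ⟨K2, hK2, hLip⟩ := Bc_lip
  obtain ⟨K3, hK3, hLk⟩ := Lk_SG
  obtain ⟨K4, hK4, hB0⟩ := cl1_B0
  obtain ⟨K5, hK5, hB⟩ := B_leP
  refine ⟨max (max (max K1 K2) (max K3 K4)) (max K5 16), C,
    hK1.trans ((le_max_left _ _).trans ((le_max_left _ _).trans (le_max_left _ _))), hC, ?_⟩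
  intro kp hkp Q X hreg hkQ hgood
  obtain ⟨K, hKd⟩ : ∃ K, K = max (max (max K1 K2) (max K3 K4)) (max K5 16) := ⟨_, rfl⟩
  rw [← hKd] at hreg hkp
  have k1 : K1 ≤ K := by rw [hKd]; exact (le_max_left _ _).trans ((le_max_left _ _).trans (le_max_left _ _))
  have k2 : K2 ≤ K := by rw [hKd]; exact (le_max_right _ _).trans ((le_max_left _ _).trans (le_max_left _ _))
  have k3 : K3 ≤ K := by rw [hKd]; exact (le_max_left _ _).trans ((le_max_right _ _).trans (le_max_left _ _))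
  have k4 : K4 ≤ K := by rw [hKd]; exact (le_max_right _ _).trans ((le_max_right _ _).trans (le_max_left _ _))
  have k5 : K5 ≤ K := by rw [hKd]; exact (le_max_left _ _).trans (le_max_right _ _)
  have k6 : 16 ≤ K := by rw [hKd]; exact (le_max_right _ _).trans (le_max_right _ _)
  clear hKd
  have hKp : 1 ≤ K := hK1.trans k1
  have hK0 : 0 ≤ K := by linarith
  have hQ1 : 1 ≤ Q := hreg.Q_pos hKp
  have hQ1' : (1 : ℝ) ≤ Q := by exact_mod_cast hQ1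
  have hQK := hreg.Q_ge hKp
  have hX0 : (0 : ℝ) < X := by exact_mod_cast hreg.X_pos (by linarith)
  have hL := hL1 kp (by linarith) Q X (hreg.mono hK0 k1) hkQ hgood
  obtain ⟨q, hq⟩ : ∃ q, q = (Q : ℝ) ^ (-(5 / 2) : ℝ) := ⟨_, rfl⟩
  have hq0 : 0 ≤ q := by rw [hq]; positivity
  obtain ⟨eb, heb⟩ : ∃ eb : (Σ r : ℕ, DirichletCharacter ℂ r) → ℝ, eb = fun p =>
    (if p = p0 then ∫ t in (-(Q : ℝ) ^ 7)..((Q : ℝ) ^ 7), ‖FL X p0 t - F0 X t‖
      else ∫ t in (-(Q : ℝ) ^ 7)..((Q : ℝ) ^ 7), ‖FL X p t‖) + q := ⟨_, rfl⟩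
  have heb0 : ∀ p, 0 ≤ eb p := by
    intro p
    rw [heb]
    simp only
    split_ifs
    · exact add_nonneg (cl1_int_nonneg Q _) hq0
    · exact add_nonneg (cl1_int_nonneg Q _) hq0
  have hsum : ∑ p ∈ PC Q, eb p ≤ C * Real.exp (-(kp / C)) + (Q : ℝ) ^ (-(1 / 4) : ℝ) := by
    have h1 : ∑ p ∈ PC Q, eb p =
        (∑ p ∈ PC Q, (if p = p0 then ∫ t in (-(Q : ℝ) ^ 7)..((Q : ℝ) ^ 7), ‖FL X p0 t - F0 X t‖
          else ∫ t in (-(Q : ℝ) ^ 7)..((Q : ℝ) ^ 7), ‖FL X p t‖)) + (PC Q).card * q := by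
      rw [heb, Finset.sum_add_distrib, Finset.sum_const, nsmul_eq_mul]
    rw [h1, ph_split (PC Q) p0 (p0_mem hQ1) (fun p => p ≠ p0) (fun _ => Iff.rfl), if_pos rfl]
    have h2 : ∑ p ∈ (PC Q).filter (fun p => p ≠ p0),
        (if p = p0 then ∫ t in (-(Q : ℝ) ^ 7)..((Q : ℝ) ^ 7), ‖FL X p0 t - F0 X t‖
          else ∫ t in (-(Q : ℝ) ^ 7)..((Q : ℝ) ^ 7), ‖FL X p t‖) =
        ∑ p ∈ (PC Q).filter (fun p => p ≠ p0), ∫ t in (-(Q : ℝ) ^ 7)..((Q : ℝ) ^ 7), ‖FL X p t‖ :=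
      Finset.sum_congr rfl fun p hp => by rw [if_neg (mem_filter.1 hp).2]
    rw [h2]
    have h3 : ((PC Q).card : ℝ) * q ≤ 1 / Real.sqrt Q := by
      rw [← (cl1_Qpow hQ1).1, ← hq]
      apply mul_le_mul_of_nonneg_right _ hq0
      exact_mod_cast card_PC_le Q
    have h4 := a3_q4 (Q := Q) (by linarith)
    have h5 := a3_inv (Q := Q) (by linarith)
    have h6 : 2 / Real.sqrt Q = 1 / Real.sqrt Q + 1 / Real.sqrt Q := by ring
    linarith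
  refine ⟨one_pos, le_rfl, p0_mem hQ1, ?_, fun _ _ => rfl, fun _ _ _ => le_rfl, ?_, ?_⟩
  · have : p0.2 = 1 := rfl
    rw [this, one_pow]
  · intro m _ _
    simp
  · have hMX : ∀ m p, MX p0 (fun _ => 0) m p = if p = p0 then 1 else 0 := by
      intro m p
      unfold MX
      split_ifs <;> simp
    refine ⟨eb, fun p _ => heb0 p, ?_, ?_⟩
    · rw [one_mul]
      exact hsum
    · intro m hm hm4 p hp
      rw [hMX, heb]
      simp only
      split_ifs with h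
      · rw [h, hq]
        exact hB0 Q X (hreg.mono hK0 k4) m hm hm4
      · rw [sub_zero, hq]
        exact hB Q X (hreg.mono hK0 k5) p (mem_PC.1 hp).1 m hm hm4

/-- Proof. Copy `mdl_exc` (`H59P/A4.lean`): there `LevE` is proved with `e m p = Bc Q X p m - MX ⟨r, ψ⟩ _ m p`. -/
theorem mdb_exc : ∃ c1 K C : ℝ, 0 < c1 ∧ c1 < 1 ∧ 1 ≤ K ∧ 1 ≤ C ∧ ∀ kp : ℝ, K ≤ kp →
    ∀ Q X : ℕ, RegP K Q X → kp * Real.log Q ≤ Real.log X →
    ∀ (r : ℕ) [NeZero r] (ψ : DirichletCharacter ℂ r), r ^ 100 ≤ Q →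
    ψ.IsPrimitive → ψ ≠ 1 → ψ ^ 2 = 1 → ∀ β : ℝ, β < 1 → ψ.LFunction (β : ℂ) = 0 →
    (1 - β) * Real.log Q ≤ c1 →
    (1 - β) * Real.log Q / 2 ≤ 1 - (X : ℝ) ^ (β - 1) ∧
    MdB Q X (1 - (X : ℝ) ^ (β - 1)) (C * Real.exp (-(kp / C)) + (Q : ℝ) ^ (-(1 / 4) : ℝ)) ⟨r, ψ⟩
      (fun m => (m : ℝ) ^ (β - 1)) := by
  classical
  obtain ⟨c1, K1, C1, hc1, hc11, hK1, hC1, hL1⟩ := L1_exceptional_q
  obtain ⟨K2, hK2, hLip⟩ := Bc_lip
  obtain ⟨K3, hK3, hLk⟩ := Lk_SG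
  obtain ⟨K4, hK4, hB0⟩ := cl1_B0
  obtain ⟨K5, hK5, hB⟩ := B_leP
  obtain ⟨K6, hK6, hB1⟩ := B1_leP
  obtain ⟨ce, hce, hel⟩ := zero_elementary
  refine ⟨c1, max (max (max K1 K2) (max K3 K4)) (max (max K5 K6) (max 256 ((8 / ce) ^ 8))),
    2 * C1, hc1, hc11,
    hK1.trans ((le_max_left _ _).trans ((le_max_left _ _).trans (le_max_left _ _))),
    by linarith, ?_⟩
  intro kp hkp Q X hreg hkQ r _ ψ hr100 hprim hψ1 hψ2 β hβ hLβ hsmall
  obtain ⟨K, hKd⟩ : ∃ K, K = max (max (max K1 K2) (max K3 K4)) (max (max K5 K6)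
    (max 256 ((8 / ce) ^ 8))) := ⟨_, rfl⟩
  rw [← hKd] at hreg hkp
  have k1 : K1 ≤ K := by rw [hKd]; exact (le_max_left _ _).trans ((le_max_left _ _).trans (le_max_left _ _))
  have k2 : K2 ≤ K := by rw [hKd]; exact (le_max_right _ _).trans ((le_max_left _ _).trans (le_max_left _ _))
  have k3 : K3 ≤ K := by rw [hKd]; exact (le_max_left _ _).trans ((le_max_right _ _).trans (le_max_left _ _))
  have k4 : K4 ≤ K := by rw [hKd]; exact (le_max_right _ _).trans ((le_max_right _ _).trans (le_max_left _ _))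
  have k5 : K5 ≤ K := by rw [hKd]; exact (le_max_left _ _).trans ((le_max_left _ _).trans (le_max_right _ _))
  have k6 : K6 ≤ K := by rw [hKd]; exact (le_max_right _ _).trans ((le_max_left _ _).trans (le_max_right _ _))
  have k7 : 256 ≤ K := by rw [hKd]; exact (le_max_left _ _).trans ((le_max_right _ _).trans (le_max_right _ _))
  have k8 : (8 / ce) ^ 8 ≤ K := by
    rw [hKd]; exact (le_max_right _ _).trans ((le_max_right _ _).trans (le_max_right _ _))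
  clear hKd
  have hKp : 1 ≤ K := hK1.trans k1
  have hK0 : 0 ≤ K := by linarith
  have hQ1 : 1 ≤ Q := hreg.Q_pos hKp
  have hQ1' : (1 : ℝ) ≤ Q := by exact_mod_cast hQ1
  have hQK := hreg.Q_ge hKp
  have hlQ := hreg.logQ_ge hKp
  have hX1 : 1 ≤ X := hreg.X_pos (by linarith)
  have hX0 : (0 : ℝ) < X := by exact_mod_cast hX1
  have hr0 : 1 ≤ r := Nat.pos_of_ne_zero (NeZero.ne r)
  have hr : r ≤ Q := (Nat.le_self_pow (by norm_num) r).trans hr100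
  have hη : 0 < 1 - β := by linarith
  have hβ12 : 1 / 2 ≤ β := by
    by_contra hcon
    have h1 : (1 / 2 : ℝ) ≤ 1 - β := by linarith [not_le.1 hcon]
    have h2 : (1 / 2 : ℝ) * 3 ≤ (1 - β) * Real.log Q :=
      mul_le_mul h1 (by linarith) (by norm_num) hη.le
    linarith
  have hL := hL1 kp (by linarith) Q X (hreg.mono hK0 k1) hkQ r ψ hr hprim hψ1 hψ2 β hβ hLβ hsmall
  have hmemψ : (⟨r, ψ⟩ : Σ r : ℕ, DirichletCharacter ℂ r) ∈ PC Q :=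
    mem_PC.2 ⟨hr0, hr, hprim⟩
  have hneψ : (⟨r, ψ⟩ : Σ r : ℕ, DirichletCharacter ℂ r) ≠ p0 := by
    intro h
    unfold p0 at h
    obtain ⟨h1, h2⟩ := Sigma.mk.inj_iff.1 h
    subst h1
    exact hψ1 (eq_of_heq h2)
  obtain ⟨x, hxd⟩ : ∃ x, x = (1 - β) * Real.log Q := ⟨_, rfl⟩
  have hx0 : 0 < x := by rw [hxd]; exact mul_pos hη (by linarith)
  rw [← hxd] at hsmall hL ⊢
  obtain ⟨q, hq⟩ : ∃ q, q = (Q : ℝ) ^ (-(5 / 2) : ℝ) := ⟨_, rfl⟩
  have hq0 : 0 ≤ q := by rw [hq]; positivity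
  obtain ⟨q', hq'⟩ : ∃ q', q' = (Q : ℝ) ^ (-(3 / 2) : ℝ) := ⟨_, rfl⟩
  have hq'0 : 0 ≤ q' := by rw [hq']; positivity
  obtain ⟨I, hI⟩ : ∃ I : (Σ r : ℕ, DirichletCharacter ℂ r) → ℝ, I = fun p =>
    (if p = p0 then ∫ t in (-(Q : ℝ) ^ 7)..((Q : ℝ) ^ 7), ‖FL X p0 t - F0 X t‖
      else if p = ⟨r, ψ⟩ then ∫ t in (-(Q : ℝ) ^ 7)..((Q : ℝ) ^ 7), ‖FL X ⟨r, ψ⟩ t + Fb X β t‖
      else ∫ t in (-(Q : ℝ) ^ 7)..((Q : ℝ) ^ 7), ‖FL X p t‖) := ⟨_, rfl⟩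
  have hI0 : ∀ p, 0 ≤ I p := by
    intro p
    rw [hI]
    simp only
    split_ifs
    · exact cl1_int_nonneg Q _
    · exact cl1_int_nonneg Q _
    · exact cl1_int_nonneg Q _
  obtain ⟨eb, heb⟩ : ∃ eb : (Σ r : ℕ, DirichletCharacter ℂ r) → ℝ, eb = fun p =>
    I p + q + (if p = ⟨r, ψ⟩ then q' else 0) := ⟨_, rfl⟩
  have heb0 : ∀ p, 0 ≤ eb p := by
    intro p
    rw [heb]
    have := hI0 p
    simp only
    split_ifs <;> linarith
  have hIsum : ∑ p ∈ PC Q, I p ≤ (C1 * Real.exp (-(kp / C1)) + 1 / Q) * x := by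
    rw [ph_split (PC Q) p0 (p0_mem hQ1) (fun p => p ≠ p0) (fun _ => Iff.rfl),
      ph_split ((PC Q).filter (fun p => p ≠ p0)) ⟨r, ψ⟩ (mem_filter.2 ⟨hmemψ, hneψ⟩)
        (fun p => p ≠ ⟨r, ψ⟩) (fun _ => Iff.rfl)]
    have hfilt : ((PC Q).filter (fun p => p ≠ p0)).filter (fun p => p ≠ ⟨r, ψ⟩) =
        (PC Q).filter (fun p => p ≠ p0 ∧ p ≠ ⟨r, ψ⟩) := by
      ext p
      simp only [mem_filter]
      tauto
    rw [hfilt]
    have e1 : I p0 = ∫ t in (-(Q : ℝ) ^ 7)..((Q : ℝ) ^ 7), ‖FL X p0 t - F0 X t‖ := by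
      rw [hI]
      beta_reduce
      rw [if_pos rfl]
    have e2 : I ⟨r, ψ⟩ = ∫ t in (-(Q : ℝ) ^ 7)..((Q : ℝ) ^ 7), ‖FL X ⟨r, ψ⟩ t + Fb X β t‖ := by
      rw [hI]
      beta_reduce
      rw [if_neg hneψ, if_pos rfl]
    have e3 : ∑ p ∈ (PC Q).filter (fun p => p ≠ p0 ∧ p ≠ ⟨r, ψ⟩), I p =
        ∑ p ∈ (PC Q).filter (fun p => p ≠ p0 ∧ p ≠ ⟨r, ψ⟩),
          ∫ t in (-(Q : ℝ) ^ 7)..((Q : ℝ) ^ 7), ‖FL X p t‖ := by
      refine Finset.sum_congr rfl fun p hp => ?_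
      rw [hI]
      simp only
      rw [if_neg (mem_filter.1 hp).2.1, if_neg (mem_filter.1 hp).2.2]
    rw [e1, e2, e3]
    linarith
  obtain ⟨η, hηd⟩ : ∃ η, η = 1 - (X : ℝ) ^ (β - 1) := ⟨_, rfl⟩
  have hlQX : Real.log Q ≤ Real.log X := by
    have h1 : 1 * Real.log Q ≤ kp * Real.log Q :=
      mul_le_mul_of_nonneg_right (by linarith) (by linarith)
    linarith
  have hηx : x / 2 ≤ η := by
    rw [hηd, hxd]
    exact a4_eta hX1 hβ hlQX (by rw [← hxd]; linarith)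
  have hη0 : 0 < η := by linarith
  -- the size of η
  have hηQ : 4 * (Q : ℝ) ^ (-(1 / 4) : ℝ) ≤ η := by
    have hr1 : (1 : ℝ) ≤ r := by exact_mod_cast hr0
    have h6 := hel r ψ hψ1 hψ2 β hβ hLβ
    have h7 : ce / (r : ℝ) ^ 2 ≤ x := by
      rw [hxd]
      have h8 : 0 ≤ ce / (r : ℝ) ^ 2 := by positivity
      calc ce / (r : ℝ) ^ 2 = ce / (r : ℝ) ^ 2 * 1 := (mul_one _).symm
        _ ≤ (1 - β) * Real.log Q := mul_le_mul h6 (by linarith) zero_le_one hη.le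
    have h8 : 8 / ce * (r : ℝ) ^ 2 ≤ (Q : ℝ) ^ (1 / 4 : ℝ) := by
      have h9 : (8 / ce * (r : ℝ) ^ 2) ^ 8 ≤ (Q : ℝ) ^ 2 := by
        have h10 : (r : ℝ) ^ 16 ≤ Q := by
          have : r ^ 16 ≤ Q := (Nat.pow_le_pow_right hr0 (by norm_num)).trans hr100
          exact_mod_cast this
        calc (8 / ce * (r : ℝ) ^ 2) ^ 8 = (8 / ce) ^ 8 * (r : ℝ) ^ 16 := by ring
          _ ≤ (Q : ℝ) * (Q : ℝ) := mul_le_mul (k8.trans hQK) h10 (by positivity) (by positivity)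
          _ = _ := by ring
      have h11 : ((Q : ℝ) ^ (1 / 4 : ℝ)) ^ 8 = (Q : ℝ) ^ 2 := by
        rw [← Real.rpow_natCast, ← Real.rpow_mul (by linarith)]
        norm_num
      rw [← h11] at h9
      exact le_of_pow_le_pow_left₀ (by norm_num) (by positivity) h9
    have h12 : (0 : ℝ) < (Q : ℝ) ^ (1 / 4 : ℝ) := by positivity
    have h13 : 4 * (Q : ℝ) ^ (-(1 / 4) : ℝ) ≤ ce / (r : ℝ) ^ 2 / 2 := by
      have h14 : 4 * (Q : ℝ) ^ (-(1 / 4) : ℝ) = 4 / (Q : ℝ) ^ (1 / 4 : ℝ) := by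
        rw [Real.rpow_neg (by linarith)]
        exact (div_eq_mul_inv _ _).symm
      have h15 : ce / (r : ℝ) ^ 2 / 2 = 4 / (8 / ce * (r : ℝ) ^ 2) := by
        have hr2 : (0 : ℝ) < (r : ℝ) ^ 2 := by positivity
        rw [eq_div_iff (by positivity)]
        have e1 : ce / (r : ℝ) ^ 2 / 2 * (8 / ce * (r : ℝ) ^ 2) =
            4 * (ce / ce) * ((r : ℝ) ^ 2 / (r : ℝ) ^ 2) := by ring
        rw [e1, div_self hce.ne', div_self hr2.ne']
        norm_num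
      rw [h14, h15]
      exact div_le_div_of_nonneg_left (by norm_num) (by positivity) h8
    linarith
  have hsum : ∑ p ∈ PC Q, eb p ≤
      η * (2 * C1 * Real.exp (-(kp / (2 * C1))) + (Q : ℝ) ^ (-(1 / 4) : ℝ)) := by
    have h1 : ∑ p ∈ PC Q, eb p = ∑ p ∈ PC Q, I p + (PC Q).card * q + q' := by
      rw [heb, Finset.sum_add_distrib, Finset.sum_add_distrib, Finset.sum_const, nsmul_eq_mul,
        Finset.sum_ite_eq' (PC Q) _ (fun _ => q'), if_pos hmemψ]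
    have h3 : ((PC Q).card : ℝ) * q ≤ 1 / Real.sqrt Q := by
      rw [← (cl1_Qpow hQ1).1, ← hq]
      apply mul_le_mul_of_nonneg_right _ hq0
      exact_mod_cast card_PC_le Q
    have h4 : q' ≤ 1 / Real.sqrt Q := by rw [hq']; exact (cl1_Qpow hQ1).2
    have hq4 : 0 < (Q : ℝ) ^ (-(1 / 4) : ℝ) := by positivity
    have hsq : 1 / Real.sqrt Q = (Q : ℝ) ^ (-(1 / 4) : ℝ) * (Q : ℝ) ^ (-(1 / 4) : ℝ) := by
      rw [Real.sqrt_eq_rpow, one_div, ← Real.rpow_neg (by linarith), ← Real.rpow_add (by linarith)]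
      norm_num
    have h5 : 2 / Real.sqrt Q ≤ η / 2 * (Q : ℝ) ^ (-(1 / 4) : ℝ) := by
      have e1 : 2 / Real.sqrt Q = 2 * (Q : ℝ) ^ (-(1 / 4) : ℝ) * (Q : ℝ) ^ (-(1 / 4) : ℝ) := by
        rw [mul_assoc, ← hsq]; ring
      rw [e1]
      exact mul_le_mul_of_nonneg_right (by linarith) hq4.le
    have h6 : 1 / (Q : ℝ) * x ≤ η / 2 * (Q : ℝ) ^ (-(1 / 4) : ℝ) := by
      have e1 : 1 / (Q : ℝ) ≤ 1 / 4 * (Q : ℝ) ^ (-(1 / 4) : ℝ) := by
        have e2 : 1 / (Q : ℝ) ≤ 1 / Real.sqrt Q := a3_inv (by linarith)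
        have e3 : (Q : ℝ) ^ (-(1 / 4) : ℝ) ≤ 1 / 4 := by
          have e4 : (256 : ℝ) ^ (1 / 4 : ℝ) ≤ (Q : ℝ) ^ (1 / 4 : ℝ) :=
            Real.rpow_le_rpow (by norm_num) (by linarith) (by norm_num)
          have e5 : (256 : ℝ) ^ (1 / 4 : ℝ) = 4 := by
            rw [show (256 : ℝ) = 4 ^ (4 : ℝ) by norm_num, ← Real.rpow_mul (by norm_num)]
            norm_num
          rw [e5] at e4
          rw [Real.rpow_neg (by linarith), ← one_div]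
          exact one_div_le_one_div_of_le (by norm_num) e4
        rw [hsq] at e2
        exact e2.trans (mul_le_mul_of_nonneg_right e3 hq4.le)
      calc 1 / (Q : ℝ) * x ≤ (1 / 4 * (Q : ℝ) ^ (-(1 / 4) : ℝ)) * (2 * η) :=
            mul_le_mul e1 (by linarith) hx0.le (by positivity)
        _ = η / 2 * (Q : ℝ) ^ (-(1 / 4) : ℝ) := by ring
    have h7 : C1 * Real.exp (-(kp / C1)) * x ≤ η * (2 * C1 * Real.exp (-(kp / (2 * C1)))) := by
      have e1 : Real.exp (-(kp / C1)) ≤ Real.exp (-(kp / (2 * C1))) := by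
        apply Real.exp_le_exp.2
        have : kp / (2 * C1) ≤ kp / C1 :=
          div_le_div_of_nonneg_left (by linarith) (by linarith) (by linarith)
        linarith
      calc C1 * Real.exp (-(kp / C1)) * x ≤ C1 * Real.exp (-(kp / (2 * C1))) * (2 * η) := by
            apply mul_le_mul _ (by linarith) hx0.le (by positivity)
            exact mul_le_mul_of_nonneg_left e1 (by linarith)
        _ = η * (2 * C1 * Real.exp (-(kp / (2 * C1)))) := by ring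
    have h8 : 2 / Real.sqrt Q = 1 / Real.sqrt Q + 1 / Real.sqrt Q := by ring
    have h9 : (C1 * Real.exp (-(kp / C1)) + 1 / Q) * x = C1 * Real.exp (-(kp / C1)) * x + 1 / Q * x := by
      ring
    rw [h9] at hIsum
    rw [h1]
    linarith
  obtain ⟨μ, hμ⟩ : ∃ μ : ℤ → (Σ r : ℕ, DirichletCharacter ℂ r) → ℂ, μ = fun (m : ℤ) p =>
    if p = p0 then 1 else if p = ⟨r, ψ⟩ then -(((m : ℝ) ^ (β - 1) : ℝ) : ℂ) else 0 := ⟨_, rfl⟩
  have hμ0 : ∀ m, μ m p0 = 1 := fun m => by rw [hμ]; beta_reduce; rw [if_pos rfl]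
  have hμ1 : ∀ m, μ m ⟨r, ψ⟩ = -(((m : ℝ) ^ (β - 1) : ℝ) : ℂ) := fun m => by
    rw [hμ]; beta_reduce; rw [if_neg hneψ, if_pos rfl]
  have hμ2 : ∀ m p, p ≠ p0 → p ≠ ⟨r, ψ⟩ → μ m p = 0 := fun m p h h' => by
    rw [hμ]; beta_reduce; rw [if_neg h, if_neg h']
  have hμX : ∀ m p, MX ⟨r, ψ⟩ (fun m => (m : ℝ) ^ (β - 1)) m p = μ m p := by
    intro m p
    rw [hμ]
    rfl
  have hXr : (1 : ℝ) ≤ X := by exact_mod_cast hX1
  refine ⟨by rw [← hηd]; exact hηx, ?_⟩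
  rw [← hηd]
  refine ⟨hη0, ?_, hmemψ, hψ2, fun h => absurd h hneψ, ?_, ?_, ?_⟩
  · rw [hηd]
    have : 0 ≤ (X : ℝ) ^ (β - 1) := by positivity
    linarith
  · intro m hm _
    have hm1 : (1 : ℝ) ≤ (m : ℝ) := by
      have : (1 : ℤ) ≤ m := by omega
      exact_mod_cast this
    exact Real.rpow_nonneg (by linarith) _
  · intro m hm _
    have hmX : (X : ℝ) ≤ (m : ℝ) := by exact_mod_cast hm
    rw [hηd]
    have : (m : ℝ) ^ (β - 1) ≤ (X : ℝ) ^ (β - 1) :=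
      Real.rpow_le_rpow_of_nonpos hX0 hmX (by linarith)
    linarith
  · refine ⟨eb, fun p _ => heb0 p, hsum, ?_⟩
    intro m hm hm4 p hp
    rw [hμX, heb, hI]
    simp only
    by_cases h : p = p0
    · have h'' : p0 ≠ (⟨r, ψ⟩ : Σ r : ℕ, DirichletCharacter ℂ r) := fun h3 => hneψ h3.symm
      rw [h, hμ0, if_pos rfl, if_neg h'', add_zero, hq]
      exact hB0 Q X (hreg.mono hK0 k4) m hm hm4
    · by_cases h' : p = ⟨r, ψ⟩
      · rw [h', hμ1, if_neg hneψ, if_pos rfl, if_pos rfl, sub_neg_eq_add]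
        have h1 := hB1 Q X (hreg.mono hK0 k6) ⟨r, ψ⟩ hr0 β hβ12 hβ.le m hm hm4
        rw [← hq'] at h1
        refine le_trans h1 ?_
        linarith
      · rw [hμ2 _ p h h', if_neg h, if_neg h', if_neg h', sub_zero, add_zero, hq]
        exact hB Q X (hreg.mono hK0 k5) p (mem_PC.1 hp).1 m hm hm4

end Pool.Agent.H9U
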