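import Pool.Agent.Lib.H9U.A1
import Pool.Agent.Lib.H59P.A6

/-!
# H9U, chunk A2 (S/M): the level
-/

open Finset

namespace Pool.Agent.H9U

open Pool.Agent.Lib.H68T Pool.Agent.Lib.H18Q Pool.Agent.Lib.H59P

/-- Proof. Copy `mdl_level` (`H59P/A6.lean`) with `mdb_good`, `mdb_exc`. -/
theorem mdb_level : ∃ c1 K C : ℝ, 0 < c1 ∧ c1 < 1 ∧ 1 ≤ K ∧ 1 ≤ C ∧ ∀ Q1 : ℕ, K ≤ Real.log Q1 →
    ∃ Q : ℕ, Q ≤ Q1 ∧ Real.log Q1 ≤ 200 * Real.log Q ∧
      ((∀ kp : ℝ, K ≤ kp → ∀ X : ℕ, RegP K Q X → kp * Real.log Q ≤ Real.log X →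
        MdB Q X 1 (C * Real.exp (-(kp / C)) + (Q : ℝ) ^ (-(1 / 4) : ℝ)) p0 (fun _ => 0)) ∨
      ∃ (r : ℕ) (_ : NeZero r) (ψ : DirichletCharacter ℂ r) (β : ℝ), ExcZ c1 Q r ψ β ∧
        ∀ kp : ℝ, K ≤ kp → ∀ X : ℕ, RegP K Q X → kp * Real.log Q ≤ Real.log X →
        (1 - β) * Real.log Q / 2 ≤ 1 - (X : ℝ) ^ (β - 1) ∧
        MdB Q X (1 - (X : ℝ) ^ (β - 1)) (C * Real.exp (-(kp / C)) + (Q : ℝ) ^ (-(1 / 4) : ℝ)) ⟨r, ψ⟩
          (fun m => (m : ℝ) ^ (β - 1))) := by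
  obtain ⟨c1, K1, C1, hc1, hc11, hK1, hC1, hexc⟩ := mdb_exc
  obtain ⟨c2, K2, hc2, hgb⟩ := good_below
  obtain ⟨c, hcd⟩ : ∃ c, c = min c1 c2 := ⟨_, rfl⟩
  have hc0 : 0 < c := by rw [hcd]; exact lt_min hc1 hc2
  have hcc1 : c ≤ c1 := by rw [hcd]; exact min_le_left _ _
  have hcc2 : c ≤ c2 := by rw [hcd]; exact min_le_right _ _
  obtain ⟨K3, C3, hK3, hC3, hg3⟩ := mdb_good c hc0
  obtain ⟨K4, C4, hK4, hC4, hg4⟩ := mdb_good c2 hc2
  obtain ⟨K, hKd⟩ : ∃ K, K = K1 + 200 * |K2| + K3 + K4 + 400 := ⟨_, rfl⟩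
  obtain ⟨C, hCd⟩ : ∃ C, C = C1 + C3 + C4 := ⟨_, rfl⟩
  have ha2 := abs_nonneg K2
  have hle2 := le_abs_self K2
  have he2 : (2 : ℝ) ≤ Real.exp 1 := by linarith [Real.exp_one_gt_d9]
  refine ⟨c1, K, C, hc1, hc11, by linarith, by linarith, ?_⟩
  intro Q1 hQ1
  have hK0 : 0 ≤ K := by linarith
  have hQ1pos : (0 : ℝ) < Q1 := by
    have h1 : Q1 ≠ 0 := by
      rintro rfl
      rw [Nat.cast_zero, Real.log_zero] at hQ1
      linarith
    exact_mod_cast Nat.pos_of_ne_zero h1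
  -- errors
  have herr : ∀ C' : ℝ, 1 ≤ C' → C' ≤ C → ∀ kp : ℝ, 0 ≤ kp → ∀ Q : ℕ,
      C' * Real.exp (-(kp / C')) + (Q : ℝ) ^ (-(1 / 4) : ℝ) ≤
      C * Real.exp (-(kp / C)) + (Q : ℝ) ^ (-(1 / 4) : ℝ) := by
    intro C' h1 h2 kp hkp Q
    have h3 : Real.exp (-(kp / C')) ≤ Real.exp (-(kp / C)) := by
      apply Real.exp_le_exp.2
      have : kp / C ≤ kp / C' := div_le_div_of_nonneg_left hkp (by linarith) h2
      linarith
    have h4 := mul_le_mul h2 h3 (Real.exp_pos _).le (by linarith)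
    linarith
  have hmono : ∀ (Q X : ℕ) (η E E' : ℝ) (px : Ch) (th : ℤ → ℝ), E ≤ E' → MdB Q X η E px th →
      MdB Q X η E' px th := by
    intro Q X η E E' px th hE h
    refine ⟨h.eta_pos, h.eta_le, h.mem, h.real, h.triv, h.nonneg, h.le, ?_⟩
    obtain ⟨eb, h1, h2, h3⟩ := h.cf
    exact ⟨eb, h1, h2.trans (mul_le_mul_of_nonneg_left hE h.eta_pos.le), h3⟩
  by_cases hG : Good c Q1
  · refine ⟨Q1, le_rfl, by linarith, Or.inl ?_⟩
    intro kp hkp X hreg hkQ
    exact hmono _ _ _ _ _ _ _ (herr C3 hC3 (by linarith) kp (by linarith) Q1)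
      (hg3 kp (by linarith) Q1 X (hreg.mono hK0 (by linarith)) hkQ hG)
  · unfold Good at hG
    push Not at hG
    obtain ⟨r, hr, ψ, hrQ, hprim, hne, hsq, β, hβ1, hβ2, hz⟩ := hG
    have hβ : β < 1 := by
      rcases lt_or_eq_of_le hβ2 with h | h
      · exact h
      · exfalso
        rw [h] at hz
        refine DirichletCharacter.LFunction_ne_zero_of_one_le_re ψ (Or.inl hne) ?_ hz
        simp
    by_cases hr100 : r ^ 100 ≤ Q1
    · have hsm : (1 - β) * Real.log Q1 ≤ c1 := by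
        have h1 : 1 - β ≤ c / Real.log Q1 := by linarith
        rw [le_div_iff₀ (by linarith)] at h1
        linarith
      refine ⟨Q1, le_rfl, by linarith, Or.inr ⟨r, hr, ψ, β,
        ⟨hr100, hprim, hne, hsq, hβ, hz, hsm⟩, ?_⟩⟩
      intro kp hkp X hreg hkQ
      obtain ⟨h1, h2⟩ := hexc kp (by linarith) Q1 X (hreg.mono hK0 (by linarith)) hkQ r ψ hr100
        hprim hne hsq β hβ hz hsm
      exact ⟨h1, hmono _ _ _ _ _ _ _ (herr C1 hC1 (by linarith) kp (by linarith) Q1) h2⟩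
    · -- large conductor
      push Not at hr100
      have hr100' : (Q1 : ℝ) < (r : ℝ) ^ 100 := by exact_mod_cast hr100
      have hrpos : (0 : ℝ) < r := by exact_mod_cast Nat.pos_of_ne_zero (NeZero.ne r)
      have hlr : Real.log Q1 ≤ 100 * Real.log r := by
        have h1 := Real.log_le_log hQ1pos hr100'.le
        rw [Real.log_pow] at h1
        exact_mod_cast h1
      obtain ⟨u, hu⟩ : ∃ u, u = Real.log Q1 / 200 := ⟨_, rfl⟩
      have hu1 : 2 ≤ u := by rw [hu, le_div_iff₀ (by norm_num)]; linarith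
      have hlr' : u + 1 ≤ Real.log r := by
        have : Real.log Q1 = 200 * u := by rw [hu]; ring
        linarith
      have hexplr : Real.exp 1 ≤ r := by
        rw [← Real.le_log_iff_exp_le hrpos]
        linarith
      have hr2 : (2 : ℝ) ≤ r := by linarith
      have hr2' : 2 ≤ r := by exact_mod_cast hr2
      have hcast : ((r - 1 : ℕ) : ℝ) = r - 1 := by
        rw [Nat.cast_sub (by omega), Nat.cast_one]
      have hr1pos : (0 : ℝ) < ((r - 1 : ℕ) : ℝ) := by rw [hcast]; linarith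
      have hlow : u ≤ Real.log ((r - 1 : ℕ) : ℝ) := by
        rw [Real.le_log_iff_exp_le hr1pos, hcast]
        have h1 : Real.exp (u + 1) ≤ r := by
          rw [← Real.le_log_iff_exp_le hrpos]; exact hlr'
        rw [Real.exp_add] at h1
        have h2 : Real.exp u * 2 ≤ Real.exp u * Real.exp 1 :=
          mul_le_mul_of_nonneg_left he2 (Real.exp_pos _).le
        have h3 : 1 ≤ Real.exp u := Real.one_le_exp (by linarith)
        linarith
      have hKr : K2 ≤ r := by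
        have h1 : |K2| ≤ u := by
          rw [hu, le_div_iff₀ (by norm_num)]
          linarith
        have h3 : u + 1 ≤ Real.exp u := Real.add_one_le_exp _
        have h4 : Real.exp u ≤ ((r - 1 : ℕ) : ℝ) := by
          rw [← Real.le_log_iff_exp_le hr1pos]; exact hlow
        rw [hcast] at h4
        linarith
      have hexc' : Exc c2 Q1 r ψ β := by
        refine ⟨hrQ, hprim, hne, hsq, ?_, hβ, hz⟩
        have : c / Real.log Q1 ≤ c2 / Real.log Q1 :=
          div_le_div_of_nonneg_right hcc2 (by linarith)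
        linarith
      have hG2 := hgb Q1 r ψ β hKr hexc'
      refine ⟨r - 1, by omega, ?_, Or.inl ?_⟩
      · have : Real.log Q1 = 200 * u := by rw [hu]; ring
        linarith
      · intro kp hkp X hreg hkQ
        exact hmono _ _ _ _ _ _ _ (herr C4 hC4 (by linarith) kp (by linarith) (r - 1))
          (hg4 kp (by linarith) (r - 1) X (hreg.mono hK0 (by linarith)) hkQ hG2)

end Pool.Agent.H9U
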