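import Pool.Agent.Lib.H9U.M5
import Pool.Agent.Lib.H59P.C3
import Pool.Agent.Lib.H59P.M3A

/-!
# H9U, chunk C3 (M): the sum over the characters against the main term, and a lower bound for the main term
-/

open Finset

namespace Pool.Agent.H9U

open Pool.Agent.Lib.H68T (PC p0)
open Pool.Agent.Lib.H59P (Ch cj uu gl pr SF MX TS)

variable {k d : ℕ} (S : Sys k d) (b : Fin k → ℤ) (t : Fin d → ℤ)

/-- Proof. As `C3` (`H59P/C3.lean`): both sides are means over `n < Q!` of `∏_i uu (pr Q) (val i) ≥ 0` times the two sides of `c3_pt` at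
`m i = val i`. -/
theorem C3S (Q D1 : ℕ) (hQ : 1 ≤ Q) (η E0 : ℝ) (px : Ch) (hpx : px ∈ PC Q) (hreal : px.2 ^ 2 = 1)
    (hcond : px.1 ≤ D1) (hη : 0 < η) (hE0 : 0 ≤ E0) (hE : 4 * k * E0 ≤ 1) (th : Fin k → ℝ)
    (hth0 : ∀ i, 0 ≤ th i) (hth : ∀ i, th i ≤ 1 - η) (htriv : px = p0 → ∀ i, th i = 0)
    (e : Fin k → Ch → ℂ) (he : ∀ i, ∑ p ∈ PC Q, ‖e i p‖ ≤ η * E0) :
    ‖∑ p ∈ TS k Q D1 px, (∏ i, (MX px (fun _ => th i) 0 (p i) + e i (p i))) * MQS S b t Q p -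
      ((PMS S b t Q px th : ℝ) : ℂ)‖ ≤ 1 / 2 * PMS S b t Q px th := by
  have hQ0 : (0 : ℝ) < (Q.factorial : ℝ) := by exact_mod_cast Nat.factorial_pos Q
  have hU : ∀ n : ℤ, 0 ≤ ∏ i : Fin k, uu (pr Q) (S.val b n t i) := fun n =>
    Finset.prod_nonneg fun i _ => Pool.Agent.Lib.H59P.M3a_uu_nonneg _ (Pool.Agent.Lib.H59P.c3_pr Q) _
  have h1 : ∑ p ∈ TS k Q D1 px, (∏ i, (MX px (fun _ => th i) 0 (p i) + e i (p i))) * MQS S b t Q p =
      (∑ n ∈ range Q.factorial, ((∏ i : Fin k, uu (pr Q) (S.val b (n : ℤ) t i) : ℝ) : ℂ) *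
        ∑ p ∈ TS k Q D1 px, ∏ i, ((MX px (fun _ => th i) 0 (p i) + e i (p i)) * cj (p i) (S.val b (n : ℤ) t i))) /
        ((Q.factorial : ℝ) : ℂ) := by
    unfold MQS mn
    rw [Finset.sum_div]
    simp only [Finset.mul_sum, Finset.sum_div, mul_div_assoc']
    rw [Finset.sum_comm]
    refine Finset.sum_congr rfl fun n _ => ?_
    refine Finset.sum_congr rfl fun p _ => ?_
    unfold PhV
    rw [Finset.prod_mul_distrib, Finset.prod_mul_distrib, Complex.ofReal_prod]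
    push_cast
    ring
  have h2 : PMS S b t Q px th = (∑ n ∈ range Q.factorial, (∏ i : Fin k, uu (pr Q) (S.val b (n : ℤ) t i)) *
        ∏ i, (1 - th i * (cj px (S.val b (n : ℤ) t i)).re)) / (Q.factorial : ℝ) := by
    unfold PMS
    congr 1
    refine Finset.sum_congr rfl fun n _ => ?_
    rw [Finset.prod_mul_distrib]
  rw [h1, h2]
  rw [Complex.ofReal_div, ← sub_div, norm_div, Complex.norm_real, Real.norm_eq_abs, abs_of_pos hQ0, mul_div_assoc']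
  refine div_le_div_of_nonneg_right ?_ hQ0.le
  rw [Complex.ofReal_sum, ← Finset.sum_sub_distrib, Finset.mul_sum]
  refine (norm_sum_le _ _).trans (Finset.sum_le_sum fun n _ => ?_)
  rw [Complex.ofReal_mul, ← mul_sub, norm_mul, Complex.norm_real, Real.norm_eq_abs, abs_of_nonneg (hU n)]
  have hpt := Pool.Agent.Lib.H59P.c3_pt Q D1 hQ η E0 px hpx hreal hcond hη hE0 hE th hth0 hth htriv e he
    (fun i => S.val b (n : ℤ) t i)
  have := mul_le_mul_of_nonneg_left hpt (hU n)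
  refine this.trans (le_of_eq ?_)
  ring

/-- Proof. As `Y1` (`H59P/Y1.lean`): `1 - th_i ψ ≥ 1 - th_i ≥ η`, `uu ≥ 0`, `M5S_SS`. -/
theorem Y1S (Q : ℕ) (px : Ch) (hreal : px.2 ^ 2 = 1) (η : ℝ) (hη : 0 < η) (th : Fin k → ℝ) (h0 : ∀ i, 0 ≤ th i)
    (h1 : ∀ i, th i ≤ 1 - η) : η ^ k * SSS S b t (pr Q) ≤ PMS S b t Q px th := by
  have hpr : ∀ l ∈ pr Q, l.Prime := Pool.Agent.Lib.H59P.c3_pr Q
  have hQ0 : (0 : ℝ) < (Q.factorial : ℝ) := by exact_mod_cast Nat.factorial_pos Q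
  have hpt : ∀ n : ℕ, η ^ k * ∏ i, uu (pr Q) (S.val b (n : ℤ) t i) ≤
      ∏ i, (uu (pr Q) (S.val b (n : ℤ) t i) * (1 - th i * (cj px (S.val b (n : ℤ) t i)).re)) := by
    intro n
    have e1 : η ^ k * ∏ i, uu (pr Q) (S.val b (n : ℤ) t i) = ∏ i : Fin k, (uu (pr Q) (S.val b (n : ℤ) t i) * η) := by
      rw [Finset.prod_mul_distrib, Finset.prod_const, Finset.card_univ, Fintype.card_fin, mul_comm]
    rw [e1]
    refine Finset.prod_le_prod (fun i _ => mul_nonneg (Pool.Agent.Lib.H59P.M3a_uu_nonneg _ hpr _) hη.le) (fun i _ => ?_)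
    refine mul_le_mul_of_nonneg_left ?_ (Pool.Agent.Lib.H59P.M3a_uu_nonneg _ hpr _)
    have hc := (Pool.Agent.Lib.H59P.C3a px hreal (S.val b (n : ℤ) t i)).2
    have h2 := (abs_le.mp hc).2
    have h3 := mul_le_mul_of_nonneg_left h2 (h0 i)
    linarith [h1 i]
  rw [← M5S_SS S b t Q]
  unfold PMS
  rw [← mul_div_assoc]
  refine div_le_div_of_nonneg_right ?_ hQ0.le
  rw [Finset.mul_sum]
  exact Finset.sum_le_sum fun n _ => hpt n

end Pool.Agent.H9U
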