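import Pool.Agent.Lib.H9U.Defs

/-!
# Project H9U: the hand-ins (definitions)
-/

open Finset

namespace Pool.Agent.H9U

/-- `1 + ∑_i |a_i|` -/
def Sys.sa {k d : ℕ} (S : Sys k d) : ℕ := 1 + ∑ i, (S.a i).natAbs

/-- `1 + ∑_(i,j) |c_ij|` -/
def Sys.sc {k d : ℕ} (S : Sys k d) : ℕ := 1 + ∑ i, ∑ j, (S.c i j).natAbs

/-- `t` is admissible, and the forms have few simultaneous prime values for `n` in `[n0, n0 + X)`. -/
def Sys.Few {k d : ℕ} (S : Sys k d) (b : Fin k → ℤ) (n0 : ℤ) (X : ℕ) (ε : ℝ) (t : Fin d → ℕ) : Prop :=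
  S.Adm b (iv t) ∧
    (((range X).filter (fun n : ℕ => ∀ i, (S.val b (n0 + n) (iv t) i).toNat.Prime)).card : ℝ) < (X : ℝ) ^ (1 - ε)

end Pool.Agent.H9U
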