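import Pool.Agent.Lib.H9U.CORE
import Pool.Agent.Lib.H9U.FDefs

/-!
# H9U, chunk F1 (M): one box of the parameters `t`
-/

open Finset

namespace Pool.Agent.H9U

open Pool.Agent.Lib.H59P (bx)


theorem f1_val {k d : ℕ} (S : Sys k d) (b : Fin k → ℤ) (n0 n : ℤ) (u t : Fin d → ℕ) (i : Fin k) :
    S.val b (n0 + n) (iv (fun j => u j + t j)) i = S.val (fun i => S.val b n0 (iv u) i) n (iv t) i := by
  have h1 : ∑ j, S.c i j * iv (fun j => u j + t j) j = ∑ j, S.c i j * iv u j + ∑ j, S.c i j * iv t j := by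
    rw [← Finset.sum_add_distrib]
    refine Finset.sum_congr rfl fun j _ => ?_
    unfold iv
    push_cast
    ring
  unfold Sys.val Sys.lin
  rw [h1]
  ring

theorem f1_abs {k d : ℕ} (S : Sys k d) (X n : ℕ) (hn : n ≤ X) (t : Fin d → ℕ) (ht : ∀ j, t j ≤ X / S.sc) (i : Fin k) :
    |S.lin i n (iv t)| ≤ (S.sa * X : ℕ) := by
  have h1 : (S.a i).natAbs ≤ ∑ i, (S.a i).natAbs :=
    Finset.single_le_sum (f := fun i => (S.a i).natAbs) (fun _ _ => Nat.zero_le _) (Finset.mem_univ i)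
  have h2 : ∑ j, (S.c i j).natAbs ≤ ∑ i, ∑ j, (S.c i j).natAbs :=
    Finset.single_le_sum (f := fun i => ∑ j, (S.c i j).natAbs) (fun _ _ => Nat.zero_le _) (Finset.mem_univ i)
  have h3 : ∑ j, (S.c i j).natAbs ≤ S.sc := by
    unfold Sys.sc
    omega
  have h4 : S.sc * (X / S.sc) ≤ X := Nat.mul_div_le X S.sc
  have h5 : |∑ j, S.c i j * iv t j| ≤ (X : ℤ) := by
    calc |∑ j, S.c i j * iv t j| ≤ ∑ j, |S.c i j * iv t j| := Finset.abs_sum_le_sum_abs _ _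
      _ ≤ ∑ j, (((S.c i j).natAbs * (X / S.sc) : ℕ) : ℤ) := by
          refine Finset.sum_le_sum fun j _ => ?_
          rw [abs_mul, Int.abs_eq_natAbs (S.c i j)]
          have h6 : |iv t j| = ((t j : ℕ) : ℤ) := by
            unfold iv
            exact abs_of_nonneg (by positivity)
          rw [h6]
          exact_mod_cast Nat.mul_le_mul_left _ (ht j)
      _ = (((∑ j, (S.c i j).natAbs) * (X / S.sc) : ℕ) : ℤ) := by
          rw [Finset.sum_mul]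
          push_cast
          rfl
      _ ≤ (X : ℤ) := by
          exact_mod_cast (Nat.mul_le_mul_right _ h3).trans h4
  have h7 : |S.a i * (n : ℤ)| ≤ (((∑ i, (S.a i).natAbs) * X : ℕ) : ℤ) := by
    rw [abs_mul, Int.abs_eq_natAbs (S.a i), abs_of_nonneg (show (0 : ℤ) ≤ n by positivity)]
    exact_mod_cast Nat.mul_le_mul h1 hn
  unfold Sys.lin
  refine (abs_add_le _ _).trans ((add_le_add h7 h5).trans (le_of_eq ?_))
  unfold Sys.sa
  push_cast
  ring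

open Classical in
/-- Proof. `V i = S.val b n0 (iv u) i`, `A = S.sa`, `T' = X / S.sc`. For `n < X`, `t ∈ bx d T'`: `S.val b (n0 + n) (iv (u + t)) i = V i + a_i n + ∑_j c_ij t_j = S.val V n (iv t) i`
(linearity), `|a_i n| ≤ (A - 1) X`, `|∑_j c_ij t_j| ≤ S.sc * (X / S.sc) ≤ X`. Put `Xs i = ((V i - A X) / 2).toNat`: all these values lie in `JJ (Xs i)` for `X ≥ 12`
(`≥ V i - A X ≥ 2 Xs i`, and `≤ V i + A X ≤ 2 Xs i + 1 + 2 A X < 2 Xs i + Xs i / 4`, as `Xs i ≥ 9 A X - 1`), and `X ≤ Xs i ≤ C0 X`. So `CORE` applies with `b := V`, `L = X`, `T = T'`, constant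
`max C0 1`; `S.Adm V (iv t)` and `S.Adm b (iv (u + t))` are equivalent (shift `n` by `n0`), the two counts are the same. `κ := min κ 1`. -/
theorem F1_box (hI : Pool.Agent.H9S.INV) {k d : ℕ} (hk : 1 ≤ k) (hd : 1 ≤ d) (S : Sys k d) (hS : S.Half) (hL : LBig S) (C0 : ℕ)
    (ε : ℝ) (hε : 0 < ε) : ∃ κ : ℝ, 0 < κ ∧ κ ≤ 1 ∧ ∃ X0 : ℕ, ∀ X : ℕ, X0 ≤ X → ∀ (b : Fin k → ℤ) (n0 : ℤ) (u : Fin d → ℕ),
    (∀ i, (19 * S.sa * X : ℕ) ≤ S.val b n0 (iv u) i ∧ S.val b n0 (iv u) i ≤ (C0 * X : ℕ)) →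
    (((bx d (X / S.sc)).filter (fun t => S.Few b n0 X ε (fun j => u j + t j))).card : ℝ) ≤ (X : ℝ) ^ (d - κ) := by
  obtain ⟨κ, hκ, X0, hcore⟩ := CORE hI hk hd S hS hL (max C0 1) (le_max_right _ _) ε hε
  refine ⟨min κ 1, lt_min hκ one_pos, min_le_right _ _, max X0 12, ?_⟩
  intro X hX b n0 u hV
  have hX0 : X0 ≤ X := (le_max_left _ _).trans hX
  have hX12 : 12 ≤ X := (le_max_right _ _).trans hX
  obtain ⟨V, hVd⟩ : ∃ V : Fin k → ℤ, V = fun i => S.val b n0 (iv u) i := ⟨_, rfl⟩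
  have hV' : ∀ i, (19 * S.sa * X : ℕ) ≤ V i ∧ V i ≤ (C0 * X : ℕ) := fun i => by
    rw [hVd]
    exact hV i
  have hsa : 1 ≤ S.sa := by
    unfold Sys.sa
    omega
  have hsX : (12 : ℤ) ≤ ((S.sa * X : ℕ) : ℤ) := by
    exact_mod_cast hX12.trans (Nat.le_mul_of_pos_left X hsa)
  have hXs1 : (X : ℤ) ≤ ((S.sa * X : ℕ) : ℤ) := by
    exact_mod_cast Nat.le_mul_of_pos_left X hsa
  obtain ⟨M, hM⟩ : ∃ M : ℤ, M = ((S.sa * X : ℕ) : ℤ) := ⟨_, rfl⟩
  have hV1 : ∀ i, 19 * M ≤ V i := fun i => by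
    have h1 := (hV' i).1
    rw [hM]
    push_cast at h1 ⊢
    linarith
  rw [← hM] at hsX hXs1
  obtain ⟨Xs, hXs⟩ : ∃ Xs : Fin k → ℕ, Xs = fun i => ((V i - M) / 2).toNat := ⟨_, rfl⟩
  have hXsc : ∀ i, ((Xs i : ℕ) : ℤ) = (V i - M) / 2 := fun i => by
    rw [hXs]
    have h1 := hV1 i
    exact Int.toNat_of_nonneg (by omega)
  have hXsb : ∀ i, X ≤ Xs i ∧ Xs i ≤ max C0 1 * X := by
    intro i
    have h1 := hV1 i
    have h2 := hXsc i
    have h3 := (hV' i).2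
    constructor
    · omega
    · have h4 : (Xs i : ℤ) ≤ ((C0 * X : ℕ) : ℤ) := by omega
      have h5 : Xs i ≤ C0 * X := by exact_mod_cast h4
      exact h5.trans (Nat.mul_le_mul_right _ (le_max_left _ _))
  have hXC : X ≤ max C0 1 * X := Nat.le_mul_of_pos_left X (by have := le_max_right C0 1; omega)
  have hJ : ∀ i, ∀ n ∈ range X, ∀ t ∈ bx d (X / S.sc), S.val V n (iv t) i ∈ JJ (Xs i) := by
    intro i n hn t ht
    have ht' : ∀ j, t j ≤ X / S.sc := fun j => by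
      have h1 := Fintype.mem_piFinset.1 ht j
      exact (Finset.mem_range.1 h1).le
    have h1 := f1_abs S X n (Finset.mem_range.1 hn).le t ht' i
    rw [← hM, abs_le] at h1
    have h2 := hXsc i
    have h3 := hV1 i
    have h4 : S.val V n (iv t) i = S.lin i n (iv t) + V i := rfl
    unfold JJ
    rw [Finset.mem_Ico, h4]
    omega
  have hc := hcore X hX0 Xs hXsb V X (X / S.sc) le_rfl hXC ((Nat.div_le_self _ _).trans hXC) hJ
  have hX1 : (1 : ℝ) ≤ X := by exact_mod_cast (show 1 ≤ X by omega)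
  have hpow : (X : ℝ) ^ ((d : ℝ) - κ) ≤ (X : ℝ) ^ ((d : ℝ) - min κ 1) :=
    Real.rpow_le_rpow_of_exponent_le hX1 (by linarith [min_le_left κ 1])
  refine le_trans ?_ (hc.trans hpow)
  refine Nat.cast_le.2 (Finset.card_le_card ?_)
  intro t ht
  rw [Finset.mem_filter] at ht ⊢
  obtain ⟨ht1, hadm, hcnt⟩ := ht
  refine ⟨ht1, ?_, ?_⟩
  · intro l hl
    obtain ⟨n, hn⟩ := hadm l hl
    refine ⟨n - n0, fun i => ?_⟩
    have h1 := f1_val S b n0 (n - n0) u t i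
    rw [add_sub_cancel] at h1
    rw [hVd, ← h1]
    exact hn i
  · refine lt_of_le_of_lt (Nat.cast_le.2 (Finset.card_le_card ?_)) hcnt
    intro n hn
    rw [Finset.mem_filter] at hn ⊢
    refine ⟨hn.1, fun i => ?_⟩
    have h1 := hn.2 i
    rw [hVd, ← f1_val S b n0 n u t i] at h1
    exact h1

end Pool.Agent.H9U
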