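import Pool.Agent.Lib.H9U.Defs

/-!
# H9U, chunk F3 (M): general position
-/

open Finset

namespace Pool.Agent.H9U

lemma f3_den {m : ℕ} (c : Fin m → ℚ) : ∃ (N : ℤ) (w : Fin m → ℤ), N ≠ 0 ∧ ∀ l, (w l : ℚ) = N * c l := by
  have h : ∀ l, ∃ z : ℤ, (z : ℚ) = ((∏ l, (c l).den : ℕ) : ℤ) * c l := by
    intro l
    obtain ⟨q, hq⟩ : (c l).den ∣ ∏ l, (c l).den := Finset.dvd_prod_of_mem _ (mem_univ l)
    refine ⟨q * (c l).num, ?_⟩
    rw [hq]
    push_cast
    have h1 : (c l) * ((c l).den : ℚ) = ((c l).num : ℚ) := Rat.mul_den_eq_num (c l)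
    rw [← h1]
    ring
  choose w hw using h
  refine ⟨((∏ l, (c l).den : ℕ) : ℤ), w, ?_, hw⟩
  have h2 : (∏ l, (c l).den : ℕ) ≠ 0 := Finset.prod_ne_zero_iff.2 fun l _ => (c l).den_nz
  exact_mod_cast h2

/-- A linear functional separating one vector from others. Proof. The vectors `v i` (`i ∈ insert i0 J`) are linearly independent over `ℚ`, so there is a linear functional `φ : (Fin m → ℚ) →ₗ[ℚ] ℚ` with `φ (v i0) = 1` and
`φ (v j) = 0` for `j ∈ J` (for example `i0 ∉ J` and `v i0 ∉ span (v '' J)`: `Submodule.exists_le_ker_of_notMem` or `Submodule.exists_dual_map_eq_bot_of_notMem`; or extend to a basis). `φ x = ∑ l, w l * x l` with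
`w l = φ (Pi.single l 1)`; multiply `w` by a common denominator (the product of the denominators of the `w l`). -/
theorem F3_sep {k m : ℕ} (v : Fin k → Fin m → ℤ) (i0 : Fin k) (J : Finset (Fin k)) (hi : i0 ∉ J)
    (h : LinearIndependent ℚ (fun i : (insert i0 J : Finset (Fin k)) => fun l => (v i l : ℚ))) :
    ∃ w : Fin m → ℤ, ∑ l, v i0 l * w l ≠ 0 ∧ ∀ j ∈ J, ∑ l, v j l * w l = 0 := by
  have h0 := h.notMem_span_image (s := {i | (i : Fin k) ∈ J}) (x := ⟨i0, Finset.mem_insert_self i0 J⟩) hi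
  obtain ⟨φ, hφ1, hφ2⟩ := Submodule.exists_le_ker_of_notMem h0
  have hφ : ∀ x : Fin m → ℚ, φ x = ∑ l, x l * φ (fun j => if l = j then 1 else 0) := by
    intro x
    rw [LinearMap.pi_apply_eq_sum_univ φ x]
    rfl
  obtain ⟨N, w, hN, hw⟩ := f3_den (fun l => φ (fun j => if l = j then 1 else 0))
  have hsum : ∀ i, ((∑ l, v i l * w l : ℤ) : ℚ) = N * φ (fun l => (v i l : ℚ)) := by
    intro i
    rw [hφ, Finset.mul_sum]
    push_cast
    refine Finset.sum_congr rfl fun l _ => ?_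
    rw [hw l]
    ring
  refine ⟨w, ?_, ?_⟩
  · intro h1
    have h2 := hsum i0
    rw [h1, Int.cast_zero] at h2
    have h3 : (N : ℚ) ≠ 0 := by exact_mod_cast hN
    exact hφ1 ((mul_eq_zero.1 h2.symm).resolve_left h3)
  · intro j hj
    have h2 := hsum j
    have h3 : φ (fun l => (v j l : ℚ)) = 0 := by
      refine hφ2 (Submodule.subset_span ⟨⟨j, Finset.mem_insert_of_mem hj⟩, hj, rfl⟩)
    rw [h3, mul_zero] at h2
    exact_mod_cast h2

/-- Proof. For `i`, split `univ.erase i` (at most `2 d` elements) in two sets `J`, `J'` of at most `d` elements each (`Finset.exists_subset_card_eq` or `exists_subset_card_le`), `F3_sep` for the vectors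
`Fin.cons (S.a i) (S.c i)`; `s = w 0`, `u j = w j.succ` (`Fin.sum_univ_succ`, `Fin.cons_zero`, `Fin.cons_succ`). -/
theorem F3_half {k d : ℕ} (S : Sys k d) (ha : ∀ i, S.a i ≠ 0) (hk : k ≤ 2 * d + 1)
    (h : ∀ I : Finset (Fin k), I.card ≤ d + 1 →
      LinearIndependent ℚ (fun i : I => (fun l => ((Fin.cons (S.a i) (S.c i) : Fin (d + 1) → ℤ) l : ℚ)))) : S.Half := by
  refine ⟨ha, fun i => ?_⟩
  have hlin : ∀ (j : Fin k) (w : Fin (d + 1) → ℤ), S.lin j (w 0) (fun r => w r.succ) =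
      ∑ l, (Fin.cons (S.a j) (S.c j) : Fin (d + 1) → ℤ) l * w l := by
    intro j w
    rw [Fin.sum_univ_succ, Fin.cons_zero]
    unfold Sys.lin
    congr 1
  have hcard : (univ.erase i).card ≤ 2 * d := by
    rw [Finset.card_erase_of_mem (mem_univ i), Finset.card_univ, Fintype.card_fin]
    omega
  obtain ⟨J, hJ, hJc⟩ := Finset.exists_subset_card_eq (s := univ.erase i) (n := min d (univ.erase i).card)
    (min_le_right _ _)
  have hJ'c : ((univ.erase i) \ J).card ≤ d := by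
    rw [Finset.card_sdiff_of_subset hJ, hJc]
    omega
  have hiJ : i ∉ J := fun hi => (Finset.mem_erase.1 (hJ hi)).1 rfl
  have hiJ' : i ∉ (univ.erase i) \ J := fun hi =>
    (Finset.mem_erase.1 (Finset.mem_sdiff.1 hi).1).1 rfl
  have hc1 : (insert i J).card ≤ d + 1 := by
    rw [Finset.card_insert_of_notMem hiJ, hJc]
    have := min_le_left d (univ.erase i).card
    omega
  have hc2 : (insert i ((univ.erase i) \ J)).card ≤ d + 1 := by
    rw [Finset.card_insert_of_notMem hiJ']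
    omega
  obtain ⟨w, hw1, hw2⟩ := F3_sep (fun i => (Fin.cons (S.a i) (S.c i) : Fin (d + 1) → ℤ)) i J hiJ (h _ hc1)
  obtain ⟨w', hw1', hw2'⟩ := F3_sep (fun i => (Fin.cons (S.a i) (S.c i) : Fin (d + 1) → ℤ)) i _ hiJ' (h _ hc2)
  refine ⟨w 0, w' 0, fun r => w r.succ, fun r => w' r.succ, ?_, ?_, ?_⟩
  · rw [hlin]
    exact hw1
  · rw [hlin]
    exact hw1'
  · intro j hj
    by_cases hjJ : j ∈ J
    · left
      rw [hlin]
      exact hw2 j hjJ
    · right
      rw [hlin]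
      exact hw2' j (Finset.mem_sdiff.2 ⟨Finset.mem_erase.2 ⟨hj, mem_univ j⟩, hjJ⟩)

end Pool.Agent.H9U
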