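import Pool.Agent.Lib.H9U.F2

/-!
# H9U, chunk F4: linear families of translates
-/

open Finset

namespace Pool.Agent.H9U

open Pool.Agent.Lib.H59P (bx)

/-- The system of the forms `n + ∑_j c_ij t_j`. -/
def fsys {k d : ℕ} (c : Fin k → Fin d → ℤ) : Sys k d := ⟨fun _ => 1, c⟩

/-- powers -/
theorem f4_pow (B : ℕ) (ε : ℝ) (hε : 0 < ε) : ∃ X1 : ℕ, ∀ X T : ℕ, X1 ≤ X → X ≤ T → T ≤ B * X →
    (T : ℝ) ^ (1 - ε) ≤ (X : ℝ) ^ (1 - ε / 2) := by
  obtain ⟨X1, hX1⟩ : ∃ X1 : ℕ, ∀ X : ℕ, X1 ≤ X → ((B : ℝ) + 1) ≤ (X : ℝ) ^ (ε / 2) := by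
    have h := (tendsto_rpow_atTop (y := ε / 2) (by linarith)).comp tendsto_natCast_atTop_atTop
    obtain ⟨X1, h1⟩ := Filter.eventually_atTop.1 (h.eventually_ge_atTop ((B : ℝ) + 1))
    exact ⟨X1, fun X hX => h1 X hX⟩
  refine ⟨max X1 1, fun X T hX hXT hT => ?_⟩
  have hX0 : (1 : ℝ) ≤ X := by exact_mod_cast (le_max_right _ _).trans hX
  have hX2 : (0 : ℝ) < X := by linarith
  have h1 := hX1 X ((le_max_left _ _).trans hX)
  have hT0 : (X : ℝ) ≤ T := by exact_mod_cast hXT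
  have hT1 : (T : ℝ) ≤ B * X := by exact_mod_cast hT
  have e1 : (X : ℝ) ^ (1 - ε / 2) = (X : ℝ) ^ (ε / 2) * (X : ℝ) ^ (1 - ε) := by
    rw [← Real.rpow_add hX2]
    congr 1
    ring
  rw [e1]
  have h0 : 0 < (X : ℝ) ^ (1 - ε) := Real.rpow_pos_of_pos hX2 _
  rcases le_or_gt ε 1 with he | he
  · have hB1 : (1 : ℝ) ≤ (B : ℝ) + 1 := by linarith [(Nat.cast_nonneg B : (0 : ℝ) ≤ B)]
    calc (T : ℝ) ^ (1 - ε) ≤ (((B : ℝ) + 1) * X) ^ (1 - ε) :=
          Real.rpow_le_rpow (by linarith) (by nlinarith) (by linarith)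
      _ = ((B : ℝ) + 1) ^ (1 - ε) * (X : ℝ) ^ (1 - ε) := Real.mul_rpow (by linarith) hX2.le
      _ ≤ ((B : ℝ) + 1) ^ (1 : ℝ) * (X : ℝ) ^ (1 - ε) := by
        refine mul_le_mul_of_nonneg_right ?_ h0.le
        exact Real.rpow_le_rpow_of_exponent_le hB1 (by linarith)
      _ ≤ (X : ℝ) ^ (ε / 2) * (X : ℝ) ^ (1 - ε) := by
        rw [Real.rpow_one]
        exact mul_le_mul_of_nonneg_right h1 h0.le
  · calc (T : ℝ) ^ (1 - ε) ≤ (X : ℝ) ^ (1 - ε) := Real.rpow_le_rpow_of_nonpos hX2 hT0 (by linarith)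
      _ = 1 * (X : ℝ) ^ (1 - ε) := (one_mul _).symm
      _ ≤ (X : ℝ) ^ (ε / 2) * (X : ℝ) ^ (1 - ε) := by
        refine mul_le_mul_of_nonneg_right (Real.one_le_rpow hX0 (by linarith)) h0.le

open Classical in
/-- Proof. `F2_cover` for `fsys c` at `X = T / (R + 1)`, `R = 20 S.sa`, `n0 = R X`. -/
theorem F4_main (hI : Pool.Agent.H9S.INV) {k d : ℕ} (hk : 1 ≤ k) (hd : 1 ≤ d) (c : Fin k → Fin d → ℤ) (hS : (fsys c).Half)
    (hL : LBig (fsys c)) (C : ℕ) (ε : ℝ) (hε : 0 < ε) : ∃ η : ℝ, 0 < η ∧ ∃ T0 : ℕ, ∀ T : ℕ, T0 ≤ T → ∀ b : Fin k → ℤ,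
    (∀ i, |b i| ≤ (C * T : ℕ)) →
    (((bx d (T + 1)).filter (fun t => (∀ i, 0 ≤ b i + ∑ j, c i j * t j) ∧ (fsys c).Adm b (iv t) ∧
      (((Icc 1 T).filter (fun n : ℕ => ∀ i, (n + (b i + ∑ j, c i j * t j).toNat).Prime)).card : ℝ) < (T : ℝ) ^ (1 - ε))).card : ℝ) ≤
      (T : ℝ) ^ (d - η) := by
  obtain ⟨S, hSd⟩ : ∃ S : Sys k d, S = fsys c := ⟨_, rfl⟩
  obtain ⟨R, hR⟩ : ∃ R : ℕ, R = 20 * S.sa := ⟨_, rfl⟩
  have hR1 : 1 ≤ R := by
    rw [hR]
    unfold Sys.sa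
    omega
  obtain ⟨κ, hκ, hκ1, X0, hX0⟩ := F2_cover hI hk hd (fsys c) hS hL (R + (C + S.sc) * (2 * (R + 1)) + 2 * (R + 1)) (ε / 2) (by linarith)
  obtain ⟨X1, hX1⟩ := f4_pow (2 * (R + 1)) ε hε
  refine ⟨κ, hκ, (R + 1) * (X0 + X1 + 1), fun T hT b hb => ?_⟩
  obtain ⟨X, hX⟩ : ∃ X : ℕ, X = T / (R + 1) := ⟨_, rfl⟩
  have hXge : X0 + X1 + 1 ≤ X := by
    rw [hX, Nat.le_div_iff_mul_le (by omega), Nat.mul_comm]
    exact hT
  have hXT : (R + 1) * X ≤ T := by
    rw [hX]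
    exact Nat.mul_div_le T (R + 1)
  have hTX : T < (R + 1) * (X + 1) := by
    rw [hX]
    have := Nat.div_add_mod T (R + 1)
    have h2 := Nat.mod_lt T (show 0 < R + 1 by omega)
    nlinarith
  have hTB : T + 1 ≤ 2 * (R + 1) * X := by nlinarith
  have hXT' : X ≤ T := by nlinarith
  have key := hX0 X (by omega) b ((R * X : ℕ) : ℤ) (T + 1) (by nlinarith)
  refine le_trans ?_ (key.trans ?_)
  · refine Nat.cast_le.2 (card_le_card ?_)
    intro t ht
    rw [mem_filter] at ht ⊢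
    obtain ⟨ht1, ht2, ht3, ht4⟩ := ht
    have htj : ∀ j, (t j : ℤ) ≤ T := by
      intro j
      have := Fintype.mem_piFinset.1 ht1 j
      rw [mem_range] at this
      omega
    have hval : ∀ (n : ℤ) (i : Fin k), (fsys c).val b n (iv t) i = n + (b i + ∑ j, c i j * t j) := by
      intro n i
      show (1 * n + ∑ j, c i j * (t j : ℤ)) + b i = _
      ring
    have hab : ∀ i, |∑ j, c i j * (t j : ℤ)| ≤ S.sc * T := by
      intro i
      calc |∑ j, c i j * (t j : ℤ)| ≤ ∑ j, |c i j * (t j : ℤ)| := Finset.abs_sum_le_sum_abs _ _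
        _ ≤ ∑ j, |c i j| * T := by
          refine Finset.sum_le_sum fun j _ => ?_
          rw [abs_mul, abs_of_nonneg (Int.natCast_nonneg (t j))]
          exact mul_le_mul_of_nonneg_left (htj j) (abs_nonneg _)
        _ = (∑ j, |c i j|) * T := by rw [Finset.sum_mul]
        _ ≤ S.sc * T := by
          refine mul_le_mul_of_nonneg_right ?_ (Int.natCast_nonneg T)
          have h1 : (∑ j, |c i j|) = ((∑ j, (c i j).natAbs : ℕ) : ℤ) := by
            push_cast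
            rfl
          rw [h1]
          have h2 : ∑ j, (c i j).natAbs ≤ ∑ i, ∑ j, (c i j).natAbs :=
            Finset.single_le_sum (f := fun i => ∑ j, (c i j).natAbs) (fun _ _ => Nat.zero_le _) (mem_univ i)
          have h3 : S.sc = 1 + ∑ i, ∑ j, (c i j).natAbs := by
            rw [hSd]
            rfl
          exact_mod_cast (by omega : ∑ j, (c i j).natAbs ≤ S.sc)
    refine ⟨ht1, fun i => ?_, ht3, ?_⟩
    · have e1 : (20 * (fsys c).sa * X : ℕ) = R * X := by rw [hR, hSd]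
      rw [e1, hval]
      refine ⟨by have := ht2 i; linarith, ?_⟩
      have h1 := (abs_le.1 (hb i)).2
      have h2 := (abs_le.1 (hab i)).2
      have h3 : b i + ∑ j, c i j * (t j : ℤ) ≤ ((C * T + S.sc * T : ℕ) : ℤ) := by
        push_cast at h1 ⊢
        linarith
      have h4 : R * X + (C * T + S.sc * T) ≤ (R + (C + S.sc) * (2 * (R + 1)) + 2 * (R + 1)) * X := by
        have h5 : (C + S.sc) * T ≤ (C + S.sc) * (2 * (R + 1) * X) := Nat.mul_le_mul_left _ (by omega)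
        nlinarith
      have h6 : ((R * X : ℕ) : ℤ) + ((C * T + S.sc * T : ℕ) : ℤ) ≤
          (((R + (C + S.sc) * (2 * (R + 1)) + 2 * (R + 1)) * X : ℕ) : ℤ) := by exact_mod_cast h4
      linarith
    · refine lt_of_le_of_lt ?_ (lt_of_lt_of_le ht4 (hX1 X T (by omega) hXT' (by omega)))
      refine Nat.cast_le.2 (Finset.card_le_card_of_injOn (fun n => R * X + n) ?_ ?_)
      · intro n hn
        rw [mem_coe, mem_filter, mem_range] at hn
        rw [mem_coe, mem_filter, mem_Icc]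
        refine ⟨⟨?_, ?_⟩, fun i => ?_⟩
        · have : 1 ≤ R * X := Nat.mul_pos hR1 (by omega)
          show 1 ≤ R * X + n
          omega
        · have : R * X + n < (R + 1) * X := by nlinarith [hn.1]
          show R * X + n ≤ T
          omega
        · have h1 := hn.2 i
          rw [hval] at h1
          have h2 := ht2 i
          have h3 : (((R * X : ℕ) : ℤ) + (n : ℤ) + (b i + ∑ j, c i j * (t j : ℤ))).toNat =
              R * X + n + (b i + ∑ j, c i j * (t j : ℤ)).toNat := by omega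
          rw [h3] at h1
          exact h1
      · intro n _ n' _ h
        have h' : R * X + n = R * X + n' := h
        omega
  · have hd' : (1 : ℝ) ≤ d := by exact_mod_cast hd
    exact Real.rpow_le_rpow (Nat.cast_nonneg _) (by exact_mod_cast hXT') (by linarith)

end Pool.Agent.H9U
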