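import Pool.Agent.Lib.H9U.F4
import Pool.Agent.Lib.H59.SchinzelDefs

/-!
# H9U, chunk G1: Schinzel's problem for linear families
-/

open Finset Polynomial

namespace Pool.Agent.H9U

open Pool.Agent.Lib.H59P (bx)

/-- The system of the forms `-γ n` (for `N - G(n)`) and `f_i n + ∑_j c_ij t_j`. -/
def gsys {g d : ℕ} (γ : ℤ) (f : Fin g → ℤ) (c : Fin g → Fin d → ℤ) : Sys (g + 1) d :=
  ⟨Fin.cons (-γ) f, Fin.cons (fun _ => 0) c⟩

/-- the first form -/
theorem g1_val0 {g d : ℕ} (γ : ℤ) (f : Fin g → ℤ) (c : Fin g → Fin d → ℤ) (b : Fin g → ℤ) (e n : ℤ) (t : Fin d → ℤ) :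
    (gsys γ f c).val (Fin.cons e b) n t 0 = e - γ * n := by
  show ((-γ) * n + ∑ j : Fin d, (0 : ℤ) * t j) + e = e - γ * n
  simp only [zero_mul, Finset.sum_const_zero]
  ring

/-- the other forms -/
theorem g1_valS {g d : ℕ} (γ : ℤ) (f : Fin g → ℤ) (c : Fin g → Fin d → ℤ) (b : Fin g → ℤ) (e n : ℤ) (t : Fin d → ℤ)
    (i : Fin g) : (gsys γ f c).val (Fin.cons e b) n t i.succ = f i * n + (b i + ∑ j, c i j * t j) := by
  show (f i * n + ∑ j : Fin d, c i j * t j) + b i = _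
  ring

open Classical in
/-- Proof. `F2_cover` for `gsys γ f c` at `X = N / (2 (γ + 1) R)`, `R = 20 S.sa`, `n0 = R X`. -/
theorem G1_main (hI : Pool.Agent.H9S.INV) {g d : ℕ} (hd : 1 ≤ d) (γ : ℕ) (γ0 : ℤ) (f : Fin g → ℤ) (hf : ∀ i, 0 < f i)
    (c : Fin g → Fin d → ℤ) (hS : (gsys γ f c).Half)
    (hL : LBig (gsys γ f c)) (C : ℕ) (ε : ℝ) (hε : 0 < ε) : ∃ η : ℝ, 0 < η ∧ ∃ N0 : ℕ, ∀ N : ℕ, N0 ≤ N → ∀ b : Fin g → ℤ,
    (∀ i, |b i| ≤ (C * N : ℕ)) →
    (((bx d (N + 1)).filter (fun t => (∀ i, 0 ≤ b i + ∑ j, c i j * t j) ∧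
      (gsys γ f c).Adm (Fin.cons ((N : ℤ) - γ0) b) (iv t) ∧
      (((Icc 1 N).filter (fun n : ℕ => ((N : ℤ) - γ0 - γ * n).toNat.Prime ∧
        ∀ i, (f i * n + (b i + ∑ j, c i j * t j)).toNat.Prime)).card : ℝ) < (N : ℝ) ^ (1 - ε))).card : ℝ) ≤
      (N : ℝ) ^ (d - η) := by
  obtain ⟨S, hSd⟩ : ∃ S : Sys (g + 1) d, S = gsys γ f c := ⟨_, rfl⟩
  obtain ⟨R, hR⟩ : ∃ R : ℕ, R = 20 * S.sa := ⟨_, rfl⟩
  have hR1 : 1 ≤ R := by
    rw [hR]
    unfold Sys.sa
    omega
  obtain ⟨G2, hG2⟩ : ∃ G2 : ℕ, G2 = 2 * (γ + 1) * R := ⟨_, rfl⟩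
  have hG21 : 1 ≤ G2 := by
    rw [hG2]
    exact Nat.mul_pos (by omega) (by omega)
  obtain ⟨Fs, hFs⟩ : ∃ Fs : ℕ, Fs = ∑ i, (f i).natAbs := ⟨_, rfl⟩
  obtain ⟨κ, hκ, hκ1, X0, hX0⟩ := F2_cover hI (by omega) hd (gsys γ f c) hS hL
    (Fs * R + (C + S.sc + 2) * (2 * G2)) (ε / 2) (by linarith)
  obtain ⟨X1, hX1⟩ := f4_pow (2 * G2) ε hε
  refine ⟨κ, hκ, G2 * (X0 + X1 + 1) + 2 * γ0.natAbs, fun N hN b hb => ?_⟩
  obtain ⟨X, hX⟩ : ∃ X : ℕ, X = N / G2 := ⟨_, rfl⟩
  have hXge : X0 + X1 + 1 ≤ X := by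
    rw [hX, Nat.le_div_iff_mul_le (by omega), Nat.mul_comm]
    omega
  have hXN : G2 * X ≤ N := by
    rw [hX]
    exact Nat.mul_div_le N G2
  have hNX : N < G2 * (X + 1) := by
    rw [hX]
    have := Nat.div_add_mod N G2
    have h2 := Nat.mod_lt N (show 0 < G2 by omega)
    nlinarith
  have hNB : N + 1 ≤ 2 * G2 * X := by nlinarith
  have hXN' : X ≤ N := by nlinarith
  have hNC : N + 1 ≤ (Fs * R + (C + S.sc + 2) * (2 * G2)) * X := by
    have h1 : 2 * G2 * X ≤ (C + S.sc + 2) * (2 * G2) * X := by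
      refine Nat.mul_le_mul_right _ ?_
      calc 2 * G2 = 1 * (2 * G2) := (one_mul _).symm
        _ ≤ (C + S.sc + 2) * (2 * G2) := Nat.mul_le_mul_right _ (by omega)
    have h2 : (Fs * R + (C + S.sc + 2) * (2 * G2)) * X = Fs * R * X + (C + S.sc + 2) * (2 * G2) * X := by ring
    rw [h2]
    omega
  have key := hX0 X (by omega) (Fin.cons ((N : ℤ) - γ0) b) ((R * X : ℕ) : ℤ) (N + 1) hNC
  refine le_trans ?_ (key.trans ?_)
  · refine Nat.cast_le.2 (card_le_card ?_)
    intro t ht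
    rw [mem_filter] at ht ⊢
    obtain ⟨ht1, ht2, ht3, ht4⟩ := ht
    have htj : ∀ j, (t j : ℤ) ≤ N := by
      intro j
      have := Fintype.mem_piFinset.1 ht1 j
      rw [mem_range] at this
      omega
    have hsc : ∀ i, ∑ j, (c i j).natAbs ≤ S.sc := by
      intro i
      have h3 : S.sc = 1 + ∑ i : Fin (g + 1), ∑ j, ((gsys γ f c).c i j).natAbs := by
        rw [hSd]
        rfl
      rw [h3, Fin.sum_univ_succ]
      have h2 : ∑ j, (c i j).natAbs ≤ ∑ i, ∑ j, (c i j).natAbs :=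
        Finset.single_le_sum (f := fun i => ∑ j, (c i j).natAbs) (fun _ _ => Nat.zero_le _) (mem_univ i)
      have h4 : ∑ i : Fin g, ∑ j, ((gsys γ f c).c i.succ j).natAbs = ∑ i, ∑ j, (c i j).natAbs := rfl
      rw [h4]
      omega
    have hab : ∀ i, |∑ j, c i j * (t j : ℤ)| ≤ S.sc * N := by
      intro i
      calc |∑ j, c i j * (t j : ℤ)| ≤ ∑ j, |c i j * (t j : ℤ)| := Finset.abs_sum_le_sum_abs _ _
        _ ≤ ∑ j, |c i j| * N := by
          refine Finset.sum_le_sum fun j _ => ?_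
          rw [abs_mul, abs_of_nonneg (Int.natCast_nonneg (t j))]
          exact mul_le_mul_of_nonneg_left (htj j) (abs_nonneg _)
        _ = (∑ j, |c i j|) * N := by rw [Finset.sum_mul]
        _ ≤ S.sc * N := by
          refine mul_le_mul_of_nonneg_right ?_ (Int.natCast_nonneg N)
          have h1 : (∑ j, |c i j|) = ((∑ j, (c i j).natAbs : ℕ) : ℤ) := by
            push_cast
            rfl
          rw [h1]
          exact_mod_cast hsc i
    have hγR : γ * (R * X) + R * X ≤ G2 * X := by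
      rw [hG2]
      have : 2 * (γ + 1) * R * X = 2 * (γ * (R * X) + R * X) := by ring
      omega
    have hγR2 : 2 * (γ * (R * X) + R * X) ≤ N := by
      have : G2 * X = 2 * (γ * (R * X) + R * X) := by rw [hG2]; ring
      omega
    have hγ0 : 2 * γ0.natAbs ≤ N := by omega
    have e1 : (20 * (gsys γ f c).sa * X : ℕ) = R * X := by rw [hR, hSd]
    refine ⟨ht1, fun i => ?_, ht3, ?_⟩
    · rw [e1]
      refine Fin.cases ?_ (fun i => ?_) i
      · rw [g1_val0]
        have h7 : ((Fs * R + (C + S.sc + 2) * (2 * G2)) * X : ℕ) = Fs * R * X + (C + S.sc) * (2 * G2) * X + 2 * (2 * G2 * X) := by ring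
        rw [h7]
        have h8 : (γ : ℤ) * ((R * X : ℕ) : ℤ) = ((γ * (R * X) : ℕ) : ℤ) := by push_cast; ring
        rw [h8]
        constructor <;> omega
      · rw [g1_valS]
        have hiv : ∀ j, iv t j = (t j : ℤ) := fun j => rfl
        simp only [hiv]
        have h9 := ht2 i
        have h10 : ((R * X : ℕ) : ℤ) ≤ f i * ((R * X : ℕ) : ℤ) := by
          have : 1 ≤ f i := hf i
          nlinarith [Int.natCast_nonneg (R * X)]
        refine ⟨by linarith, ?_⟩
        have h1 := (abs_le.1 (hb i)).2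
        have h2 := (abs_le.1 (hab i)).2
        have h11 : f i * ((R * X : ℕ) : ℤ) ≤ ((Fs * (R * X) : ℕ) : ℤ) := by
          push_cast
          refine mul_le_mul_of_nonneg_right ?_ (by positivity)
          have h12 : (f i).natAbs ≤ Fs := by
            rw [hFs]
            exact Finset.single_le_sum (f := fun i => (f i).natAbs) (fun _ _ => Nat.zero_le _) (mem_univ i)
          have h13 : f i ≤ ((f i).natAbs : ℤ) := Int.le_natAbs
          exact h13.trans (by exact_mod_cast h12)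
        have h4 : Fs * (R * X) + (C * N + S.sc * N) ≤ (Fs * R + (C + S.sc + 2) * (2 * G2)) * X := by
          have h5 : (C + S.sc) * N ≤ (C + S.sc) * (2 * G2 * X) := Nat.mul_le_mul_left _ (by omega)
          nlinarith
        have h6 : ((Fs * (R * X) : ℕ) : ℤ) + ((C * N + S.sc * N : ℕ) : ℤ) ≤
            (((Fs * R + (C + S.sc + 2) * (2 * G2)) * X : ℕ) : ℤ) := by exact_mod_cast h4
        push_cast at h1 h2 h6 h11 ⊢
        linarith
    · refine lt_of_le_of_lt ?_ (lt_of_lt_of_le ht4 (hX1 X N (by omega) hXN' (by omega)))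
      refine Nat.cast_le.2 (Finset.card_le_card_of_injOn (fun n => R * X + n) ?_ ?_)
      · intro n hn
        rw [mem_coe, mem_filter, mem_range] at hn
        rw [mem_coe, mem_filter, mem_Icc]
        refine ⟨⟨?_, ?_⟩, ?_, fun i => ?_⟩
        · have : 1 ≤ R * X := Nat.mul_pos hR1 (by omega)
          show 1 ≤ R * X + n
          omega
        · have h1 : X ≤ R * X := Nat.le_mul_of_pos_left _ (by omega)
          show R * X + n ≤ N
          omega
        · have h1 := hn.2 0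
          rw [g1_val0] at h1
          show ((N : ℤ) - γ0 - γ * ((R * X + n : ℕ) : ℤ)).toNat.Prime
          push_cast at h1 ⊢
          exact h1
        · have h1 := hn.2 i.succ
          rw [g1_valS] at h1
          show (f i * ((R * X + n : ℕ) : ℤ) + (b i + ∑ j, c i j * (t j : ℤ))).toNat.Prime
          push_cast at h1 ⊢
          exact h1
      · intro n _ n' _ h
        have h' : R * X + n = R * X + n' := h
        omega
  · have hd' : (1 : ℝ) ≤ d := by exact_mod_cast hd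
    exact Real.rpow_le_rpow (Nat.cast_nonneg _) (by exact_mod_cast hXN') (by linarith)

end Pool.Agent.H9U
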