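import Pool.Agent.Lib.H9U.LDefs

/-!
# H9U, chunk L0 (S): fibres of the multiplication by `e` on `ZMod q`
-/

open Finset

namespace Pool.Agent.H9U

/-- the fibres have at most `|e|` elements -/
theorem l0_card (q : ℕ) [NeZero q] (e : ℤ) (he : e ≠ 0) (c y : ZMod q) :
    ((univ : Finset (ZMod q)).filter (fun m => (e : ZMod q) * m + c = y)).card ≤ e.natAbs := by
  classical
  have hq0 : 0 < q := Nat.pos_of_ne_zero (NeZero.ne q)
  have he0 : 0 < e.natAbs := Int.natAbs_pos.2 he
  rw [← Finset.card_range e.natAbs]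
  refine Finset.card_le_card_of_injOn (fun m => m.val * e.natAbs / q) ?_ ?_
  · intro m _
    simp only [Finset.coe_range, Set.mem_Iio]
    rw [Nat.div_lt_iff_lt_mul hq0, mul_comm]
    exact Nat.mul_lt_mul_of_pos_left (ZMod.val_lt m) he0
  · intro m hm m' hm' heq
    simp only [coe_filter, mem_univ, true_and, Set.mem_setOf_eq] at hm hm'
    have h1 : (e : ZMod q) * m = (e : ZMod q) * m' := by
      have := hm.trans hm'.symm
      exact add_right_cancel this
    have h2 : ((m.val * e.natAbs : ℕ) : ZMod q) = ((m'.val * e.natAbs : ℕ) : ZMod q) := by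
      push_cast
      rw [ZMod.natCast_zmod_val, ZMod.natCast_zmod_val]
      rcases Int.natAbs_eq e with h3 | h3
      · have h4 : (e : ZMod q) = (e.natAbs : ZMod q) := by
          conv_lhs => rw [h3]
          rw [Int.cast_natCast]
        rw [← h4, mul_comm m, mul_comm m']
        exact h1
      · have h4 : (e : ZMod q) = -(e.natAbs : ZMod q) := by
          conv_lhs => rw [h3]
          rw [Int.cast_neg, Int.cast_natCast]
        rw [h4, neg_mul, neg_mul, neg_inj] at h1
        rw [mul_comm m, mul_comm m']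
        exact h1
    rw [ZMod.natCast_eq_natCast_iff] at h2
    have h3 : m.val * e.natAbs = m'.val * e.natAbs := by
      have h4 := Nat.div_add_mod (m.val * e.natAbs) q
      have h5 := Nat.div_add_mod (m'.val * e.natAbs) q
      have h6 : m.val * e.natAbs / q = m'.val * e.natAbs / q := heq
      have h7 : m.val * e.natAbs % q = m'.val * e.natAbs % q := h2
      rw [← h4, ← h5, h6, h7]
    exact ZMod.val_injective q (Nat.eq_of_mul_eq_mul_right he0 h3)

/-- Proof. The fibres of `m ↦ e m + c` have at most `|e|` elements: on `{m : e m + c = y}` the residue of `m.val * |e|` modulo `q` is constant, so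
`m ↦ (m.val * e.natAbs) / q`, with values in `range e.natAbs`, is injective. Then `Finset.sum_fiberwise`-type rearrangement
(`∑_m g(e m + c) = ∑_y #{m : e m + c = y} g(y)`). -/
theorem L0_fib (q : ℕ) [NeZero q] (e : ℤ) (he : e ≠ 0) (c : ZMod q) (g : ZMod q → ℝ) (hg : ∀ x, 0 ≤ g x) :
    ∑ m : ZMod q, g ((e : ZMod q) * m + c) ≤ |(e : ℝ)| * ∑ x : ZMod q, g x := by
  classical
  rw [← Finset.sum_fiberwise univ (fun m : ZMod q => (e : ZMod q) * m + c), Finset.mul_sum]
  refine Finset.sum_le_sum fun y _ => ?_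
  have h1 : ∑ m ∈ univ.filter (fun m : ZMod q => (e : ZMod q) * m + c = y), g ((e : ZMod q) * m + c) =
      ∑ m ∈ univ.filter (fun m : ZMod q => (e : ZMod q) * m + c = y), g y := by
    refine Finset.sum_congr rfl fun m hm => ?_
    rw [(mem_filter.1 hm).2]
  rw [h1, Finset.sum_const, nsmul_eq_mul]
  refine mul_le_mul_of_nonneg_right ?_ (hg y)
  have h2 : ((e.natAbs : ℕ) : ℝ) = |(e : ℝ)| := by
    rw [← Int.cast_abs, ← Int.natCast_natAbs, Int.cast_natCast]
  rw [← h2]
  exact_mod_cast l0_card q e he c y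

end Pool.Agent.H9U
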