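import Pool.Agent.Lib.H9U.LDefs

/-!
# H9U, chunk L1B (S/M): the average of the box sum over the base point
-/

open Finset

namespace Pool.Agent.H9U

/-- Proof. Replace `n, n'` by `n + m, n' + m` (`Equiv.sum_comp (Equiv.addRight m)`). -/
theorem L1B_shift (q : ℕ) [NeZero q] (F : ZMod q → ℂ) (e0 e1 e2 c m : ZMod q) :
    Bq F e0 e1 e2 (e0 * m + c) = Bq F e0 e1 e2 c := by
  unfold Bq
  symm
  rw [← Equiv.sum_comp (Equiv.addRight m)]
  refine sum_congr rfl fun n _ => ?_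
  rw [← Equiv.sum_comp (Equiv.addRight m)]
  refine sum_congr rfl fun n' _ => sum_congr rfl fun x _ => sum_congr rfl fun x' _ => ?_
  congr 2
  refine sum_congr rfl fun y _ => ?_
  simp only [Equiv.coe_addRight]
  have h : ∀ n x : ZMod q, e0 * (n + m) + e1 * x + e2 * y + c = e0 * n + e1 * x + e2 * y + (e0 * m + c) := by
    intro n x
    ring
  rw [h, h, h, h]

theorem l1b_sq (q : ℕ) [NeZero q] (g : ZMod q → ℂ) :
    (((‖∑ z : ZMod q, g z‖ ^ 2 : ℝ)) : ℂ) = ∑ h : ZMod q, ∑ z : ZMod q, g z * star (g (z + h)) := by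
  have e2 : (((‖∑ z : ZMod q, g z‖ ^ 2 : ℝ)) : ℂ) = (∑ z : ZMod q, g z) * star (∑ z : ZMod q, g z) := by
    rw [Complex.star_def, Complex.mul_conj, Complex.normSq_eq_norm_sq]
  rw [e2, star_sum, Finset.sum_mul_sum, Finset.sum_comm]
  have e3 : ∀ z : ZMod q, ∑ h : ZMod q, g z * star (g (z + h)) = ∑ w : ZMod q, g z * star (g w) := by
    intro z
    rw [← Equiv.sum_comp (Equiv.addLeft z) (fun w => g z * star (g w))]
    rfl
  rw [Finset.sum_comm, Finset.sum_comm (f := fun h z => g z * star (g (z + h)))]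
  exact (Finset.sum_congr rfl fun z _ => e3 z).symm

/-- the sum over the base point of the squares -/
theorem l1b_R (q : ℕ) [NeZero q] (P : ZMod q → ℂ) (e2 : ZMod q) :
    ((∑ c : ZMod q, ‖∑ y : ZMod q, P (c + e2 * y)‖ ^ 2 : ℝ) : ℂ) =
      q * ∑ h : ZMod q, ∑ s : ZMod q, P s * star (P (s + e2 * h)) := by
  push_cast
  have h1 : ∀ c : ZMod q, ((‖∑ y : ZMod q, P (c + e2 * y)‖ : ℝ) : ℂ) ^ 2 =
      ∑ h : ZMod q, ∑ y : ZMod q, P (c + e2 * y) * star (P (c + e2 * y + e2 * h)) := by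
    intro c
    have := l1b_sq q (fun y => P (c + e2 * y))
    push_cast at this
    rw [this]
    refine sum_congr rfl fun h _ => sum_congr rfl fun y _ => ?_
    rw [mul_add, ← add_assoc]
  rw [sum_congr rfl fun c _ => h1 c, Finset.sum_comm, mul_sum]
  refine sum_congr rfl fun h _ => ?_
  rw [Finset.sum_comm]
  have h2 : ∀ y : ZMod q, ∑ c : ZMod q, P (c + e2 * y) * star (P (c + e2 * y + e2 * h)) =
      ∑ s : ZMod q, P s * star (P (s + e2 * h)) := by
    intro y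
    exact Equiv.sum_comp (Equiv.addRight (e2 * y)) (fun s => P s * star (P (s + e2 * h)))
  rw [sum_congr rfl fun y _ => h2 y, Finset.sum_const, Finset.card_univ, ZMod.card, nsmul_eq_mul]

/-- differences -/
theorem l1b_diff (q : ℕ) [NeZero q] {M : Type*} [AddCommMonoid M] (f : ZMod q → M) :
    ∑ n : ZMod q, ∑ n' : ZMod q, f (n' - n) = q • ∑ h : ZMod q, f h := by
  have h1 : ∀ n : ZMod q, ∑ n' : ZMod q, f (n' - n) = ∑ h : ZMod q, f h := by
    intro n
    exact Equiv.sum_comp (Equiv.subRight n) f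
  rw [sum_congr rfl fun n _ => h1 n, Finset.sum_const, Finset.card_univ, ZMod.card]

/-- Proof. For fixed `n, n', x, x'` replace `c` by `c - e0 n - e1 x`: `∑_c ‖∑_y P4z F A B (c + e2 y)‖²` with `A = e0 (n' - n)`,
`B = e1 (x' - x)`; this is `∑_{y,y'} ∑_c P4z F A B (c + e2 y) star (P4z F A B (c + e2 y')) = q ∑_{h''} ∑_s P4z F A B s
star (P4z F A B (s + e2 h''))` (`c = s - e2 y`, `y' = y + h''`). Then `n' = n + h`, `x' = x + h'`, the sums over `n` and `x` give `q²`. All is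
real, so one may compute in the complex numbers and take real parts. -/
theorem L1B_avg (q : ℕ) [NeZero q] (F : ZMod q → ℂ) (e0 e1 e2 : ZMod q) :
    ∑ c : ZMod q, Bq F e0 e1 e2 c = (q : ℝ) ^ 3 * Vq F e0 e1 e2 := by
  obtain ⟨R, hR⟩ : ∃ R : ZMod q → ZMod q → ℝ, ∀ A B, R A B = ∑ c : ZMod q, ‖∑ y : ZMod q, P4z F A B (c + e2 * y)‖ ^ 2 :=
    ⟨_, fun _ _ => rfl⟩
  have h1 : ∑ c : ZMod q, Bq F e0 e1 e2 c = ∑ n : ZMod q, ∑ n' : ZMod q, ∑ x : ZMod q, ∑ x' : ZMod q,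
      R (e0 * (n' - n)) (e1 * (x' - x)) := by
    unfold Bq
    rw [Finset.sum_comm]
    refine sum_congr rfl fun n _ => ?_
    rw [Finset.sum_comm]
    refine sum_congr rfl fun n' _ => ?_
    rw [Finset.sum_comm]
    refine sum_congr rfl fun x _ => ?_
    rw [Finset.sum_comm]
    refine sum_congr rfl fun x' _ => ?_
    rw [hR, ← Equiv.sum_comp (Equiv.addRight (e0 * n + e1 * x))
      (fun c => ‖∑ y : ZMod q, P4z F (e0 * (n' - n)) (e1 * (x' - x)) (c + e2 * y)‖ ^ 2)]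
    refine sum_congr rfl fun c _ => ?_
    simp only [Equiv.coe_addRight]
    congr 2
    refine sum_congr rfl fun y _ => ?_
    unfold P4z
    have a1 : e0 * n + e1 * x + e2 * y + c = c + (e0 * n + e1 * x) + e2 * y := by ring
    have a2 : e0 * n' + e1 * x + e2 * y + c = c + (e0 * n + e1 * x) + e2 * y + e0 * (n' - n) := by ring
    have a3 : e0 * n + e1 * x' + e2 * y + c = c + (e0 * n + e1 * x) + e2 * y + e1 * (x' - x) := by ring
    have a4 : e0 * n' + e1 * x' + e2 * y + c = c + (e0 * n + e1 * x) + e2 * y + e0 * (n' - n) + e1 * (x' - x) := by ring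
    rw [a1, a2, a3, a4]
  have h2 : ∑ n : ZMod q, ∑ n' : ZMod q, ∑ x : ZMod q, ∑ x' : ZMod q,
      R (e0 * (n' - n)) (e1 * (x' - x)) = (q : ℝ) ^ 2 * ∑ h : ZMod q, ∑ h' : ZMod q, R (e0 * h) (e1 * h') := by
    rw [l1b_diff q (fun h => ∑ x : ZMod q, ∑ x' : ZMod q, R (e0 * h) (e1 * (x' - x))), nsmul_eq_mul]
    have h3 : ∀ h : ZMod q, ∑ x : ZMod q, ∑ x' : ZMod q, R (e0 * h) (e1 * (x' - x)) = (q : ℝ) * ∑ h' : ZMod q, R (e0 * h) (e1 * h') := by
      intro h
      rw [l1b_diff q (fun h' => R (e0 * h) (e1 * h')), nsmul_eq_mul]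
    rw [sum_congr rfl fun h _ => h3 h, ← mul_sum]
    ring
  rw [h1, h2]
  have h4 : ((∑ h : ZMod q, ∑ h' : ZMod q, R (e0 * h) (e1 * h') : ℝ) : ℂ) =
      q * ∑ h : ZMod q, ∑ h' : ZMod q, ∑ h'' : ZMod q, ∑ s : ZMod q,
        P4z F (e0 * h) (e1 * h') s * star (P4z F (e0 * h) (e1 * h') (s + e2 * h'')) := by
    rw [Complex.ofReal_sum, mul_sum]
    refine sum_congr rfl fun h _ => ?_
    rw [Complex.ofReal_sum, mul_sum]
    refine sum_congr rfl fun h' _ => ?_
    rw [hR, l1b_R q (P4z F (e0 * h) (e1 * h')) e2]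
  have h5 : ∑ h : ZMod q, ∑ h' : ZMod q, R (e0 * h) (e1 * h') = (q : ℝ) * Vq F e0 e1 e2 := by
    have h6 := congrArg Complex.re h4
    rw [Complex.ofReal_re, ← Complex.ofReal_natCast, Complex.re_ofReal_mul] at h6
    rw [h6]
    rfl
  rw [h5]
  ring

end Pool.Agent.H9U
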