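import Pool.Agent.Lib.H9U.L0

/-!
# H9U, chunk L1C (M): removing the steps
-/

open Finset

namespace Pool.Agent.H9U

open Pool.Agent.Lib.H59T (UU)

/-- Proof. Both sides are sums over the eight points `s + ε·(e0 h, e1 h', e2 h'')`; rename the variables (`Finset.sum_comm`, `ring`). -/
theorem L1C_symm (q : ℕ) [NeZero q] (F : ZMod q → ℂ) (e0 e1 e2 : ZMod q) :
    Vq F e0 e1 e2 = Vq F e0 e2 e1 ∧ Vq F e0 e1 e2 = Vq F e1 e0 e2 := by
  constructor
  · unfold Vq
    congr 1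
    refine Finset.sum_congr rfl fun h _ => ?_
    rw [Finset.sum_comm]
    refine Finset.sum_congr rfl fun h' _ => Finset.sum_congr rfl fun h'' _ => Finset.sum_congr rfl fun s _ => ?_
    unfold P4z
    have a1 : s + e0 * h + e2 * h' = s + e2 * h' + e0 * h := by ring
    have a2 : s + e2 * h' + e1 * h'' = s + e1 * h'' + e2 * h' := by ring
    have a3 : s + e2 * h' + e0 * h + e1 * h'' = s + e1 * h'' + e0 * h + e2 * h' := by ring
    have a4 : s + e0 * h + e1 * h'' = s + e1 * h'' + e0 * h := by ring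
    rw [a2, a3, a4, a1]
    simp only [star_mul', star_star]
    ring
  · unfold Vq
    congr 1
    rw [Finset.sum_comm]
    refine Finset.sum_congr rfl fun h _ => Finset.sum_congr rfl fun h' _ => Finset.sum_congr rfl fun h'' _ =>
      Finset.sum_congr rfl fun s _ => ?_
    have a : ∀ A B s : ZMod q, P4z F A B s = P4z F B A s := by
      intro A B s
      unfold P4z
      rw [add_right_comm]
      ring
    rw [a (e0 * h') (e1 * h), a (e0 * h') (e1 * h)]

/-- autocorrelations along multiples of `e` -/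
theorem l1c_pos (q : ℕ) [NeZero q] (R : ZMod q → ℂ) (e : ZMod q) :
    0 ≤ (∑ h : ZMod q, ∑ s : ZMod q, R s * star (R (s + e * h))).re := by
  have hq0 : (0 : ℝ) < q := by exact_mod_cast Nat.pos_of_ne_zero (NeZero.ne q)
  have h1 : ((∑ s : ZMod q, ‖∑ u : ZMod q, R (s + e * u)‖ ^ 2 : ℝ) : ℂ) =
      (q : ℂ) * ∑ h : ZMod q, ∑ s : ZMod q, R s * star (R (s + e * h)) := by
    have e1 : ∀ s : ZMod q, ((‖∑ u : ZMod q, R (s + e * u)‖ ^ 2 : ℝ) : ℂ) =
        ∑ u : ZMod q, ∑ u' : ZMod q, R (s + e * u) * star (R (s + e * u')) := by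
      intro s
      rw [← Complex.normSq_eq_norm_sq, ← Complex.mul_conj, map_sum, Finset.sum_mul_sum]
      rfl
    rw [Complex.ofReal_sum, Finset.sum_congr rfl fun s _ => e1 s, Finset.sum_comm]
    have e2 : ∀ u : ZMod q, ∑ s : ZMod q, ∑ u' : ZMod q, R (s + e * u) * star (R (s + e * u')) =
        ∑ h : ZMod q, ∑ s : ZMod q, R s * star (R (s + e * h)) := by
      intro u
      rw [Finset.sum_comm, ← Equiv.sum_comp (Equiv.addRight u)]
      refine Finset.sum_congr rfl fun h _ => ?_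
      rw [← Equiv.sum_comp (Equiv.addRight (-(e * u)))]
      refine Finset.sum_congr rfl fun s _ => ?_
      simp only [Equiv.coe_addRight]
      congr 2
      · ring
      · congr 1
        ring
    rw [Finset.sum_congr rfl fun u _ => e2 u, Finset.sum_const, Finset.card_univ, ZMod.card, nsmul_eq_mul]
  have h2 := congrArg Complex.re h1
  rw [Complex.ofReal_re, ← Complex.ofReal_natCast, Complex.re_ofReal_mul] at h2
  have h3 : 0 ≤ (q : ℝ) * (∑ h : ZMod q, ∑ s : ZMod q, R s * star (R (s + e * h))).re := by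
    rw [← h2]
    positivity
  exact nonneg_of_mul_nonneg_right h3 hq0

/-- the average over the first two differences is not negative -/
theorem l1c_g (q : ℕ) [NeZero q] (F : ZMod q → ℂ) (e0 e1 m : ZMod q) :
    0 ≤ (∑ h : ZMod q, ∑ h' : ZMod q, ∑ s : ZMod q,
      P4z F (e0 * h) (e1 * h') s * star (P4z F (e0 * h) (e1 * h') (s + m))).re := by
  rw [Finset.sum_comm, Complex.re_sum]
  refine Finset.sum_nonneg fun h' _ => ?_
  have h1 := l1c_pos q (fun s => (F s * star (F (s + m))) * star (F (s + e1 * h') * star (F (s + e1 * h' + m)))) e0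
  refine le_of_le_of_eq h1 (congrArg Complex.re ?_)
  refine Finset.sum_congr rfl fun h _ => Finset.sum_congr rfl fun s _ => ?_
  unfold P4z
  have a1 : s + e0 * h + e1 * h' + m = s + m + e0 * h + e1 * h' := by ring
  have a2 : s + e0 * h + m = s + m + e0 * h := by ring
  have a3 : s + e1 * h' + m = s + m + e1 * h' := by ring
  rw [a1, a2, a3]
  simp only [star_mul', star_star]
  ring

/-- Proof. `Vq F e0 e1 e2 = ∑_{h''} g(e2 h'')` with `g(m) = Re ∑_{h,h',s} P4z F (e0 h) (e1 h') s star (P4z F (e0 h) (e1 h') (s + m))`. With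
`P(s) = F(s) star F(s + m)` this is `Re ∑_{h,h',s} P(s) star P(s + e0 h) star P(s + e1 h') P(s + e0 h + e1 h')
= ∑_{h'} Re ∑_{h,s} R(s) star R(s + e0 h)`, `R(s) = P(s) star P(s + e1 h')`, and `q ∑_{h,s} R(s) star R(s + e0 h) =
∑_s ‖∑_u R(s + e0 u)‖² ≥ 0` (substitute `s → s + e0 u`, `h → u' - u`). So `g ≥ 0` and `L0_fib` (with `c = 0`) gives the claim. -/
theorem L1C_step (q : ℕ) [NeZero q] (F : ZMod q → ℂ) (e0 e1 : ZMod q) (e2 : ℤ) (he : e2 ≠ 0) :
    Vq F e0 e1 (e2 : ZMod q) ≤ |(e2 : ℝ)| * Vq F e0 e1 1 := by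
  have h1 : ∀ e : ZMod q, Vq F e0 e1 e = ∑ h'' : ZMod q, (∑ h : ZMod q, ∑ h' : ZMod q, ∑ s : ZMod q,
      P4z F (e0 * h) (e1 * h') s * star (P4z F (e0 * h) (e1 * h') (s + e * h''))).re := by
    intro e
    unfold Vq
    rw [← Complex.re_sum]
    congr 1
    rw [Finset.sum_congr rfl fun h _ => Finset.sum_comm, Finset.sum_comm]
  rw [h1, h1]
  have h2 := L0_fib q e2 he 0 (fun m => (∑ h : ZMod q, ∑ h' : ZMod q, ∑ s : ZMod q,
      P4z F (e0 * h) (e1 * h') s * star (P4z F (e0 * h) (e1 * h') (s + m))).re) (fun m => l1c_g q F e0 e1 m)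
  simp only [add_zero] at h2
  simp only [one_mul]
  exact h2

/-- Proof. `Vq F 1 1 1 = UU F`: `∑_{h'',s} G(s) star G(s + h'') = ‖∑_s G(s)‖²`. Then `L1C_step` three times, with `L1C_symm`. -/
theorem L1C_le (q : ℕ) [NeZero q] (F : ZMod q → ℂ) (e0 e1 e2 : ℤ) (h0 : e0 ≠ 0) (h1 : e1 ≠ 0) (h2 : e2 ≠ 0) :
    Vq F (e0 : ZMod q) (e1 : ZMod q) (e2 : ZMod q) ≤ |(e0 : ℝ)| * |(e1 : ℝ)| * |(e2 : ℝ)| * UU F := by
  have hU : Vq F 1 1 1 = UU F := by
    have e1 : ((UU F : ℝ) : ℂ) = ∑ h : ZMod q, ∑ h' : ZMod q, ∑ h'' : ZMod q, ∑ s : ZMod q,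
        P4z F (1 * h) (1 * h') s * star (P4z F (1 * h) (1 * h') (s + 1 * h'')) := by
      unfold UU
      rw [Complex.ofReal_sum]
      refine Finset.sum_congr rfl fun h _ => ?_
      rw [Complex.ofReal_sum]
      refine Finset.sum_congr rfl fun h' _ => ?_
      rw [← Complex.normSq_eq_norm_sq, ← Complex.mul_conj, Finset.sum_mul, Finset.sum_comm]
      refine Finset.sum_congr rfl fun s _ => ?_
      rw [← Finset.mul_sum, one_mul, one_mul]
      congr 1
      rw [map_sum, ← Equiv.sum_comp (Equiv.addLeft s)]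
      refine Finset.sum_congr rfl fun h'' _ => ?_
      rw [Equiv.coe_addLeft, one_mul]
      rfl
    have e2 := congrArg Complex.re e1
    rw [Complex.ofReal_re] at e2
    rw [e2]
    rfl
  have s1 := L1C_step q F (e0 : ZMod q) (e1 : ZMod q) e2 h2
  have s2 := L1C_step q F (e0 : ZMod q) 1 e1 h1
  have s3 := L1C_step q F 1 1 e0 h0
  have t1 : Vq F (e0 : ZMod q) (e1 : ZMod q) 1 = Vq F (e0 : ZMod q) 1 (e1 : ZMod q) := (L1C_symm q F _ _ _).1
  have t2 : Vq F (e0 : ZMod q) 1 1 = Vq F 1 1 (e0 : ZMod q) := ((L1C_symm q F _ _ _).2).trans (L1C_symm q F _ _ _).1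
  rw [hU] at s3
  rw [t1] at s1
  rw [t2] at s2
  have a1 : (0 : ℝ) ≤ |(e1 : ℝ)| := abs_nonneg _
  have a2 : (0 : ℝ) ≤ |(e2 : ℝ)| := abs_nonneg _
  calc _ ≤ |(e2 : ℝ)| * Vq F (e0 : ZMod q) 1 (e1 : ZMod q) := s1
    _ ≤ |(e2 : ℝ)| * (|(e1 : ℝ)| * (|(e0 : ℝ)| * UU F)) :=
        mul_le_mul_of_nonneg_left (s2.trans (mul_le_mul_of_nonneg_left s3 a1)) a2
    _ = _ := by ring

end Pool.Agent.H9U
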