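import Pool.Agent.Lib.H9U.L1A
import Pool.Agent.Lib.H9U.L1B
import Pool.Agent.Lib.H9U.L1C

/-!
# H9U, chunk L1 (S): the box lemma
-/

open Finset

namespace Pool.Agent.H9U

open Pool.Agent.Lib.H59T (UU)

/-- **The box lemma.** Proof. `L1A_cs`; `q Bq(c) = ∑_m Bq(e0 m + c)` (`L1B_shift`) `≤ |e0| ∑_x Bq(x)` (`L0_fib`, `Bq ≥ 0`)
`= |e0| q³ Vq ≤ |e0| q³ |e0 e1 e2| UU F` (`L1B_avg`, `L1C_le`); divide by `q`. -/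
theorem L1_box (q : ℕ) [NeZero q] (F : ZMod q → ℂ) (A B W : ZMod q → ZMod q → ℂ) (hA : ∀ x y, ‖A x y‖ ≤ 1)
    (hB : ∀ x y, ‖B x y‖ ≤ 1) (hW : ∀ x y, ‖W x y‖ ≤ 1) (e0 e1 e2 : ℤ) (h0 : e0 ≠ 0) (h1 : e1 ≠ 0) (h2 : e2 ≠ 0)
    (c : ZMod q) :
    ‖∑ x : ZMod q, ∑ y : ZMod q, ∑ n : ZMod q, W x y * A n y * B n x *
        F ((e0 : ZMod q) * n + (e1 : ZMod q) * x + (e2 : ZMod q) * y + c)‖ ^ 8 ≤
      |(e0 : ℝ)| ^ 2 * |(e1 : ℝ)| * |(e2 : ℝ)| * (q : ℝ) ^ 20 * UU F := by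
  have hq0 : (0 : ℝ) < q := by exact_mod_cast Nat.pos_of_ne_zero (NeZero.ne q)
  refine (L1A_cs q F A B W hA hB hW (e0 : ZMod q) (e1 : ZMod q) (e2 : ZMod q) c).trans ?_
  have hB0 : ∀ x, 0 ≤ Bq F (e0 : ZMod q) (e1 : ZMod q) (e2 : ZMod q) x := by
    intro x
    unfold Bq
    positivity
  have h3 : (q : ℝ) * Bq F (e0 : ZMod q) (e1 : ZMod q) (e2 : ZMod q) c ≤
      |(e0 : ℝ)| * ((q : ℝ) ^ 3 * (|(e0 : ℝ)| * |(e1 : ℝ)| * |(e2 : ℝ)| * UU F)) := by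
    have h4 : (q : ℝ) * Bq F (e0 : ZMod q) (e1 : ZMod q) (e2 : ZMod q) c =
        ∑ m : ZMod q, Bq F (e0 : ZMod q) (e1 : ZMod q) (e2 : ZMod q) ((e0 : ZMod q) * m + c) := by
      rw [Finset.sum_congr rfl fun m _ => L1B_shift q F (e0 : ZMod q) (e1 : ZMod q) (e2 : ZMod q) c m, Finset.sum_const,
        Finset.card_univ, ZMod.card, nsmul_eq_mul]
    rw [h4]
    refine (L0_fib q e0 h0 c _ hB0).trans ?_
    refine mul_le_mul_of_nonneg_left ?_ (abs_nonneg _)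
    rw [L1B_avg]
    exact mul_le_mul_of_nonneg_left (L1C_le q F e0 e1 e2 h0 h1 h2) (by positivity)
  have h5 : (q : ℝ) * ((q : ℝ) ^ 18 * Bq F (e0 : ZMod q) (e1 : ZMod q) (e2 : ZMod q) c) ≤
      (q : ℝ) * (|(e0 : ℝ)| ^ 2 * |(e1 : ℝ)| * |(e2 : ℝ)| * (q : ℝ) ^ 20 * UU F) := by
    have h6 := mul_le_mul_of_nonneg_left h3 (by positivity : (0 : ℝ) ≤ (q : ℝ) ^ 18)
    refine le_trans (le_of_eq ?_) (h6.trans (le_of_eq ?_))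
    · ring
    · ring
  exact le_of_mul_le_mul_left h5 hq0

end Pool.Agent.H9U
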