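import Pool.Agent.Lib.H9U.LDefs

/-!
# H9U, chunk L1A (M): three applications of the inequality of Cauchy and Schwarz
-/

open Finset

namespace Pool.Agent.H9U

theorem l1a_c {ι : Type*} [Fintype ι] (u v : ι → ℂ) (hu : ∀ i, ‖u i‖ ≤ 1) :
    ‖∑ i, u i * v i‖ ^ 2 ≤ Fintype.card ι * ∑ i, ‖v i‖ ^ 2 := by
  have h1 : ‖∑ i, u i * v i‖ ≤ ∑ i, ‖v i‖ := by
    refine (norm_sum_le _ _).trans (Finset.sum_le_sum fun i _ => ?_)
    rw [norm_mul]
    exact mul_le_of_le_one_left (norm_nonneg _) (hu i)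
  have h2 : (∑ i, ‖v i‖) ^ 2 ≤ Fintype.card ι * ∑ i, ‖v i‖ ^ 2 := by
    have := sq_sum_le_card_mul_sum_sq (s := (univ : Finset ι)) (f := fun i => ‖v i‖)
    rwa [Finset.card_univ] at this
  exact (pow_le_pow_left₀ (norm_nonneg _) h1 2).trans h2

theorem l1a_sq {ι : Type*} [Fintype ι] (a : ι → ℂ) : ((‖∑ i, a i‖ ^ 2 : ℝ) : ℂ) = ∑ i, ∑ j, a i * star (a j) := by
  have h2 : ((‖∑ i, a i‖ ^ 2 : ℝ) : ℂ) = (∑ i, a i) * star (∑ i, a i) := by
    rw [Complex.star_def, Complex.mul_conj, Complex.normSq_eq_norm_sq]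
  rw [h2, star_sum, Finset.sum_mul_sum]

theorem l1a_m (u v : ℂ) (hu : ‖u‖ ≤ 1) (hv : ‖v‖ ≤ 1) : ‖u * v‖ ≤ 1 := by
  rw [norm_mul]
  exact mul_le_one₀ hu (norm_nonneg _) hv

/-- Proof. `T` = the sum. (1) Over `(x, y)`, with `‖W‖ ≤ 1`: `|T|² ≤ q² T1`, `T1 = ∑_{x,y} |∑_n A(n,y) B(n,x) F|²
= ∑_{y,n,n'} A(n,y) star A(n',y) ∑_x B(n,x) star B(n',x) F(n,x,y) star F(n',x,y)`. (2) Over `(y, n, n')`: `T1² ≤ q³ T2`,
`T2 = ∑_{y,n,n'} |∑_x …|² = ∑_{n,n',x,x'} B(n,x) star B(n',x) star B(n,x') B(n',x') ∑_y F F F F`. (3) Over `(n,n',x,x')`: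
`T2² ≤ q⁴ Bq`. So `|T|^8 ≤ q^8 T1^4 ≤ q^8 q^6 T2² ≤ q^18 Bq`. (`u3_sq`, `ua_cs`, `ua_sq` in `H59T/U3.lean`, `UA.lean` are similar.) -/
theorem L1A_cs (q : ℕ) [NeZero q] (F : ZMod q → ℂ) (A B W : ZMod q → ZMod q → ℂ) (hA : ∀ x y, ‖A x y‖ ≤ 1)
    (hB : ∀ x y, ‖B x y‖ ≤ 1) (hW : ∀ x y, ‖W x y‖ ≤ 1) (e0 e1 e2 c : ZMod q) :
    ‖∑ x : ZMod q, ∑ y : ZMod q, ∑ n : ZMod q, W x y * A n y * B n x * F (e0 * n + e1 * x + e2 * y + c)‖ ^ 8 ≤
      (q : ℝ) ^ 18 * Bq F e0 e1 e2 c := by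
  obtain ⟨G, hG⟩ : ∃ G : ZMod q → ZMod q → ZMod q → ℂ, ∀ n x y, G n x y = F (e0 * n + e1 * x + e2 * y + c) :=
    ⟨_, fun _ _ _ => rfl⟩
  have hs : ∀ z : ℂ, ‖star z‖ = ‖z‖ := fun z => norm_star z
  set T1 : ℝ := ∑ x : ZMod q, ∑ y : ZMod q, ‖∑ n : ZMod q, A n y * (B n x * G n x y)‖ ^ 2 with hT1
  set T2 : ℝ := ∑ y : ZMod q, ∑ n : ZMod q, ∑ n' : ZMod q,
    ‖∑ x : ZMod q, B n x * star (B n' x) * (G n x y * star (G n' x y))‖ ^ 2 with hT2
  have h1 : ‖∑ x : ZMod q, ∑ y : ZMod q, ∑ n : ZMod q, W x y * A n y * B n x * F (e0 * n + e1 * x + e2 * y + c)‖ ^ 2 ≤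
      (q : ℝ) ^ 2 * T1 := by
    have e := l1a_c (ι := ZMod q × ZMod q) (fun p => W p.1 p.2) (fun p => ∑ n : ZMod q, A n p.2 * (B n p.1 * G n p.1 p.2))
      (fun p => hW p.1 p.2)
    rw [Fintype.card_prod, ZMod.card, Fintype.sum_prod_type, Fintype.sum_prod_type] at e
    have e2 : ∑ x : ZMod q, ∑ y : ZMod q, ∑ n : ZMod q, W x y * A n y * B n x * F (e0 * n + e1 * x + e2 * y + c) =
        ∑ x : ZMod q, ∑ y : ZMod q, W x y * ∑ n : ZMod q, A n y * (B n x * G n x y) := by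
      refine sum_congr rfl fun x _ => sum_congr rfl fun y _ => ?_
      rw [mul_sum]
      refine sum_congr rfl fun n _ => ?_
      rw [hG]
      ring
    rw [e2]
    refine e.trans (le_of_eq ?_)
    push_cast
    ring
  have hT1n : 0 ≤ T1 := Finset.sum_nonneg fun x _ => Finset.sum_nonneg fun y _ => by positivity
  have hT2n : 0 ≤ T2 := Finset.sum_nonneg fun x _ => Finset.sum_nonneg fun y _ => Finset.sum_nonneg fun _ _ => by positivity
  have h2 : T1 ^ 2 ≤ (q : ℝ) ^ 3 * T2 := by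
    have e := l1a_c (ι := ZMod q × ZMod q × ZMod q) (fun p => A p.2.1 p.1 * star (A p.2.2 p.1))
      (fun p => ∑ x : ZMod q, B p.2.1 x * star (B p.2.2 x) * (G p.2.1 x p.1 * star (G p.2.2 x p.1)))
      (fun p => l1a_m _ _ (hA _ _) (by rw [hs]; exact hA _ _))
    rw [Fintype.card_prod, Fintype.card_prod, ZMod.card, Fintype.sum_prod_type, Fintype.sum_prod_type] at e
    simp only [Fintype.sum_prod_type] at e
    have e2 : ((T1 : ℝ) : ℂ) = ∑ y : ZMod q, ∑ n : ZMod q, ∑ n' : ZMod q, A n y * star (A n' y) *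
        ∑ x : ZMod q, B n x * star (B n' x) * (G n x y * star (G n' x y)) := by
      rw [hT1]
      push_cast [l1a_sq]
      rw [Finset.sum_comm]
      refine sum_congr rfl fun y _ => ?_
      have e3 : ∀ x : ZMod q, ((‖∑ n : ZMod q, A n y * (B n x * G n x y)‖ : ℝ) : ℂ) ^ 2 =
          ∑ n : ZMod q, ∑ n' : ZMod q, A n y * star (A n' y) * (B n x * star (B n' x) * (G n x y * star (G n' x y))) := by
        intro x
        have := l1a_sq (fun n : ZMod q => A n y * (B n x * G n x y))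
        push_cast at this
        rw [this]
        refine sum_congr rfl fun n _ => sum_congr rfl fun n' _ => ?_
        rw [star_mul', star_mul']
        ring
      rw [sum_congr rfl fun x _ => e3 x, Finset.sum_comm]
      refine sum_congr rfl fun n _ => ?_
      rw [Finset.sum_comm]
      refine sum_congr rfl fun n' _ => ?_
      rw [mul_sum]
    rw [← e2, Complex.norm_real, Real.norm_of_nonneg hT1n] at e
    refine e.trans (le_of_eq ?_)
    push_cast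
    ring
  have h3 : T2 ^ 2 ≤ (q : ℝ) ^ 4 * Bq F e0 e1 e2 c := by
    have e := l1a_c (ι := ZMod q × ZMod q × ZMod q × ZMod q)
      (fun p => (B p.1 p.2.2.1 * star (B p.2.1 p.2.2.1)) * (star (B p.1 p.2.2.2) * B p.2.1 p.2.2.2))
      (fun p => ∑ y : ZMod q, G p.1 p.2.2.1 y * star (G p.2.1 p.2.2.1 y) * star (G p.1 p.2.2.2 y) * G p.2.1 p.2.2.2 y)
      (fun p => l1a_m _ _ (l1a_m _ _ (hB _ _) (by rw [hs]; exact hB _ _)) (l1a_m _ _ (by rw [hs]; exact hB _ _) (hB _ _)))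
    rw [Fintype.card_prod, Fintype.card_prod, Fintype.card_prod, ZMod.card, Fintype.sum_prod_type, Fintype.sum_prod_type] at e
    simp only [Fintype.sum_prod_type] at e
    have f2 : ((T2 : ℝ) : ℂ) = ∑ n : ZMod q, ∑ n' : ZMod q, ∑ x : ZMod q, ∑ x' : ZMod q,
        (B n x * star (B n' x)) * (star (B n x') * B n' x') *
        ∑ y : ZMod q, G n x y * star (G n' x y) * star (G n x' y) * G n' x' y := by
      rw [hT2]
      push_cast
      have e3 : ∀ y n n' : ZMod q, ((‖∑ x : ZMod q, B n x * star (B n' x) * (G n x y * star (G n' x y))‖ : ℝ) : ℂ) ^ 2 =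
          ∑ x : ZMod q, ∑ x' : ZMod q, (B n x * star (B n' x)) * (star (B n x') * B n' x') *
            (G n x y * star (G n' x y) * star (G n x' y) * G n' x' y) := by
        intro y n n'
        have := l1a_sq (fun x : ZMod q => B n x * star (B n' x) * (G n x y * star (G n' x y)))
        push_cast at this
        rw [this]
        refine sum_congr rfl fun x _ => sum_congr rfl fun x' _ => ?_
        rw [star_mul', star_mul', star_mul', star_star, star_star]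
        ring
      rw [sum_congr rfl fun y _ => sum_congr rfl fun n _ => sum_congr rfl fun n' _ => e3 y n n', Finset.sum_comm]
      refine sum_congr rfl fun n _ => ?_
      rw [Finset.sum_comm]
      refine sum_congr rfl fun n' _ => ?_
      rw [Finset.sum_comm]
      refine sum_congr rfl fun x _ => ?_
      rw [Finset.sum_comm]
      refine sum_congr rfl fun x' _ => ?_
      rw [mul_sum]
    rw [← f2, Complex.norm_real, Real.norm_of_nonneg hT2n] at e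
    refine e.trans (le_of_eq ?_)
    have e4 : Bq F e0 e1 e2 c = ∑ n : ZMod q, ∑ n' : ZMod q, ∑ x : ZMod q, ∑ x' : ZMod q,
        ‖∑ y : ZMod q, G n x y * star (G n' x y) * star (G n x' y) * G n' x' y‖ ^ 2 := by
      unfold Bq
      simp only [hG]
    rw [e4]
    push_cast
    ring
  have hB0 : 0 ≤ Bq F e0 e1 e2 c := by
    unfold Bq
    exact Finset.sum_nonneg fun _ _ => Finset.sum_nonneg fun _ _ => Finset.sum_nonneg fun _ _ =>
      Finset.sum_nonneg fun _ _ => by positivity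
  have hq0 : (0 : ℝ) ≤ q := Nat.cast_nonneg _
  set T := ‖∑ x : ZMod q, ∑ y : ZMod q, ∑ n : ZMod q, W x y * A n y * B n x * F (e0 * n + e1 * x + e2 * y + c)‖ with hT
  calc T ^ 8 = (T ^ 2) ^ 4 := by ring
    _ ≤ ((q : ℝ) ^ 2 * T1) ^ 4 := pow_le_pow_left₀ (by positivity) h1 4
    _ = (q : ℝ) ^ 8 * (T1 ^ 2) ^ 2 := by ring
    _ ≤ (q : ℝ) ^ 8 * ((q : ℝ) ^ 3 * T2) ^ 2 :=
        mul_le_mul_of_nonneg_left (pow_le_pow_left₀ (by positivity) h2 2) (by positivity)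
    _ = (q : ℝ) ^ 14 * T2 ^ 2 := by ring
    _ ≤ (q : ℝ) ^ 14 * ((q : ℝ) ^ 4 * Bq F e0 e1 e2 c) := mul_le_mul_of_nonneg_left h3 (by positivity)
    _ = _ := by ring

end Pool.Agent.H9U
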