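import Pool.Agent.Lib.H9U.L1

/-!
# H9U, chunk L2 (M): the first moment is bounded by the `U³` norm of each function
-/

open Finset

namespace Pool.Agent.H9U

open Pool.Agent.Lib.H59T (UU)

/-- the affine forms along the two directions -/
theorem l2_vz {k d : ℕ} (S : Sys k d) (s s' : ℤ) (u u' : Fin d → ℤ) (q : ℕ) (b : Fin k → ℤ) (n x y : ZMod q)
    (t : Fin d → ZMod q) (i : Fin k) :
    S.vz q b (n + (x * s + y * s')) (fun j => t j + (x * u j + y * u' j)) i =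
      S.vz q b n t i + x * (S.lin i s u : ZMod q) + y * (S.lin i s' u' : ZMod q) := by
  unfold Sys.vz Sys.lin
  push_cast
  simp only [mul_add, Finset.sum_add_distrib, Finset.mul_sum]
  have h1 : ∀ v : Fin d → ℤ, ∀ z : ZMod q, ∑ j, (S.c i j : ZMod q) * (z * (v j : ZMod q)) =
      ∑ j, z * ((S.c i j : ZMod q) * (v j : ZMod q)) := by
    intro v z
    exact Finset.sum_congr rfl fun j _ => by ring
  rw [h1 u x, h1 u' y]
  ring

/-- unimodular factors -/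
theorem l2_w {ι : Type*} (z : ι → ℂ) : ∃ w : ι → ℂ, (∀ t, ‖w t‖ ≤ 1) ∧ ∀ t, ((‖z t‖ : ℝ) : ℂ) = w t * z t := by
  classical
  refine ⟨fun t => if z t = 0 then 0 else ((‖z t‖ : ℝ) : ℂ) / z t, fun t => ?_, fun t => ?_⟩
  · show ‖(if z t = 0 then 0 else ((‖z t‖ : ℝ) : ℂ) / z t)‖ ≤ 1
    split_ifs with h
    · rw [norm_zero]
      exact zero_le_one
    · rw [norm_div, Complex.norm_real, norm_norm, div_self (norm_ne_zero_iff.2 h)]
  · show ((‖z t‖ : ℝ) : ℂ) = (if z t = 0 then 0 else ((‖z t‖ : ℝ) : ℂ) / z t) * z t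
    split_ifs with h
    · rw [h, norm_zero, Complex.ofReal_zero, zero_mul]
    · rw [div_mul_cancel₀ _ h]

/-- a product of functions bounded by one -/
theorem l2_prod {ι : Type*} (s : Finset ι) (f : ι → ℂ) (hf : ∀ i ∈ s, ‖f i‖ ≤ 1) : ‖∏ i ∈ s, f i‖ ≤ 1 := by
  rw [norm_prod]
  exact Finset.prod_le_one (fun i _ => norm_nonneg _) hf

/-- the bound for one base point -/
theorem l2_pt {k d : ℕ} (S : Sys k d) (i0 : Fin k) (s s' : ℤ) (u u' : Fin d → ℤ) (h0 : S.a i0 ≠ 0)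
    (h1 : S.lin i0 s u ≠ 0) (h2 : S.lin i0 s' u' ≠ 0) (h : ∀ j, j ≠ i0 → S.lin j s u = 0 ∨ S.lin j s' u' = 0)
    (q : ℕ) [NeZero q] (b : Fin k → ℤ) (G : Fin k → ZMod q → ℂ) (hG : ∀ i x, ‖G i x‖ ≤ 1)
    (W : ZMod q → ZMod q → ℂ) (hW : ∀ x y, ‖W x y‖ ≤ 1) (t : Fin d → ZMod q) :
    ‖∑ x : ZMod q, ∑ y : ZMod q, ∑ n : ZMod q, W x y *
        ∏ i, G i (S.vz q b n t i + x * (S.lin i s u : ZMod q) + y * (S.lin i s' u' : ZMod q))‖ ^ 8 ≤
      |(S.a i0 : ℝ)| ^ 2 * |(S.lin i0 s u : ℝ)| * |(S.lin i0 s' u' : ℝ)| * (q : ℝ) ^ 20 * UU (G i0) := by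
  classical
  obtain ⟨I1, hI1⟩ : ∃ I1 : Finset (Fin k), I1 = (univ.erase i0).filter (fun i => S.lin i s u = 0) := ⟨_, rfl⟩
  obtain ⟨I2, hI2⟩ : ∃ I2 : Finset (Fin k), I2 = (univ.erase i0).filter (fun i => ¬ S.lin i s u = 0) := ⟨_, rfl⟩
  obtain ⟨A, hA⟩ : ∃ A : ZMod q → ZMod q → ℂ, ∀ n y, A n y =
      ∏ i ∈ I1, G i (S.vz q b n t i + y * (S.lin i s' u' : ZMod q)) := ⟨fun n y => _, fun n y => rfl⟩
  obtain ⟨B, hB⟩ : ∃ B : ZMod q → ZMod q → ℂ, ∀ n x, B n x =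
      ∏ i ∈ I2, G i (S.vz q b n t i + x * (S.lin i s u : ZMod q)) := ⟨fun n x => _, fun n x => rfl⟩
  have key := L1_box q (G i0) A B W (fun n y => by rw [hA]; exact l2_prod _ _ fun i _ => hG i _)
    (fun n x => by rw [hB]; exact l2_prod _ _ fun i _ => hG i _) hW (S.a i0) (S.lin i0 s u) (S.lin i0 s' u') h0 h1 h2
    (S.vz q b 0 t i0)
  have e : ∀ x y n : ZMod q, W x y *
        ∏ i, G i (S.vz q b n t i + x * (S.lin i s u : ZMod q) + y * (S.lin i s' u' : ZMod q)) =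
      W x y * A n y * B n x * G i0 ((S.a i0 : ZMod q) * n + (S.lin i0 s u : ZMod q) * x +
        (S.lin i0 s' u' : ZMod q) * y + S.vz q b 0 t i0) := by
    intro x y n
    rw [← Finset.mul_prod_erase univ _ (mem_univ i0),
      ← Finset.prod_filter_mul_prod_filter_not (univ.erase i0) (fun i => S.lin i s u = 0), ← hI1, ← hI2]
    have e1 : ∏ i ∈ I1, G i (S.vz q b n t i + x * (S.lin i s u : ZMod q) + y * (S.lin i s' u' : ZMod q)) = A n y := by
      rw [hA]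
      refine Finset.prod_congr rfl fun i hi => ?_
      rw [hI1, mem_filter] at hi
      rw [hi.2, Int.cast_zero, mul_zero, add_zero]
    have e2 : ∏ i ∈ I2, G i (S.vz q b n t i + x * (S.lin i s u : ZMod q) + y * (S.lin i s' u' : ZMod q)) = B n x := by
      rw [hB]
      refine Finset.prod_congr rfl fun i hi => ?_
      rw [hI2, mem_filter] at hi
      have h3 : S.lin i s' u' = 0 := by
        rcases h i (Finset.ne_of_mem_erase hi.1) with h4 | h4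
        · exact absurd h4 hi.2
        · exact h4
      rw [h3, Int.cast_zero, mul_zero, add_zero]
    have e3 : S.vz q b n t i0 + x * (S.lin i0 s u : ZMod q) + y * (S.lin i0 s' u' : ZMod q) =
        (S.a i0 : ZMod q) * n + (S.lin i0 s u : ZMod q) * x + (S.lin i0 s' u' : ZMod q) * y + S.vz q b 0 t i0 := by
      unfold Sys.vz
      ring
    rw [e1, e2, e3]
    ring
  rw [Finset.sum_congr rfl fun x _ => Finset.sum_congr rfl fun y _ => Finset.sum_congr rfl fun n _ => e x y n]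
  exact key

/-- Proof. The vectors `(s, u)`, `(s', u')` of `Sys.Half` for `i0`; `e0 = a_{i0}`, `e1 = lin i0 s u`, `e2 = lin i0 s' u'`,
`E = a² |e1| |e2|`. Let `w t` be of absolute value `≤ 1` with `‖z_t‖ = w t * z_t`, `z_t = ∑_n ∏_i G i (vz n t i)`, so `FZ = Σ := ∑_{t,n} w t ∏_i G i (vz n t i)`.
For every `(x, y)` the map `(t, n) ↦ (t + x u + y u', n + x s + y s')` is a bijection, so `q² Σ = ∑_t ∑_{x,y,n} w(t + x u + y u')
∏_i G i (vz n t i + x lin_i(s,u) + y lin_i(s',u'))`. For fixed `t` this is a sum as in `L1_box`: `W x y = w(..)`, the factor `i0` is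
`F(e0 n + e1 x + e2 y + c)`, `c = vz 0 t i0`, the factors `i ≠ i0` with `lin i s u = 0` do not depend on `x` (product `A n y`), the others do not
depend on `y` (product `B n x`; `Finset.prod_filter`-type splitting). So `‖∑_{x,y,n}‖ ≤ (E q^20 UU)^(1/8)` for each `t` and
`q² Σ ≤ q^d (E q^20 UU)^(1/8) = q^(d+3) (E UU/q⁴)^(1/8)`. -/
theorem L2_one {k d : ℕ} (S : Sys k d) (i0 : Fin k) (s s' : ℤ) (u u' : Fin d → ℤ) (h0 : S.a i0 ≠ 0)
    (h1 : S.lin i0 s u ≠ 0) (h2 : S.lin i0 s' u' ≠ 0) (h : ∀ j, j ≠ i0 → S.lin j s u = 0 ∨ S.lin j s' u' = 0)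
    (q : ℕ) [NeZero q] (b : Fin k → ℤ) (G : Fin k → ZMod q → ℂ) (hG : ∀ i x, ‖G i x‖ ≤ 1) :
    FZ S q b G ≤ (q : ℝ) ^ (d + 1) *
      ((|(S.a i0 : ℝ)| ^ 2 * |(S.lin i0 s u : ℝ)| * |(S.lin i0 s' u' : ℝ)|) * UU (G i0) / (q : ℝ) ^ 4) ^ (1 / 8 : ℝ) := by
  classical
  have hq0 : (0 : ℝ) < q := by exact_mod_cast Nat.pos_of_ne_zero (NeZero.ne q)
  obtain ⟨z, hz⟩ : ∃ z : (Fin d → ZMod q) → ℂ, ∀ t, z t = ∑ n : ZMod q, ∏ i, G i (S.vz q b n t i) :=
    ⟨fun t => _, fun t => rfl⟩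
  obtain ⟨w, hw1, hw⟩ := l2_w z
  obtain ⟨E, hE⟩ : ∃ E : ℝ, E = |(S.a i0 : ℝ)| ^ 2 * |(S.lin i0 s u : ℝ)| * |(S.lin i0 s' u' : ℝ)| := ⟨_, rfl⟩
  have hE0 : 0 ≤ E := by rw [hE]; positivity
  have hU0 : 0 ≤ UU (G i0) := by
    unfold UU
    positivity
  rw [← hE]
  -- the sum as a complex number
  have e1 : ((FZ S q b G : ℝ) : ℂ) = ∑ t, w t * z t := by
    unfold FZ
    rw [Complex.ofReal_sum]
    refine Finset.sum_congr rfl fun t _ => ?_
    rw [← hz, hw]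
  -- shifted sums
  have e2 : ∀ x y : ZMod q, ∑ t, w t * z t = ∑ t : Fin d → ZMod q, ∑ n : ZMod q,
      w (fun j => t j + (x * u j + y * u' j)) *
        ∏ i, G i (S.vz q b n t i + x * (S.lin i s u : ZMod q) + y * (S.lin i s' u' : ZMod q)) := by
    intro x y
    rw [← Equiv.sum_comp (Equiv.addRight (fun j => x * (u j : ZMod q) + y * (u' j : ZMod q)))]
    refine Finset.sum_congr rfl fun t _ => ?_
    have e3 : (Equiv.addRight (fun j => x * (u j : ZMod q) + y * (u' j : ZMod q))) t =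
        fun j => t j + (x * u j + y * u' j) := rfl
    rw [e3, hz, ← Equiv.sum_comp (Equiv.addRight (x * (s : ZMod q) + y * (s' : ZMod q))), Finset.mul_sum]
    refine Finset.sum_congr rfl fun n _ => ?_
    rw [Equiv.coe_addRight]
    congr 1
    refine Finset.prod_congr rfl fun i _ => ?_
    rw [l2_vz]
  have e4 : ((q : ℂ) ^ 2) * ((FZ S q b G : ℝ) : ℂ) = ∑ t : Fin d → ZMod q, ∑ x : ZMod q, ∑ y : ZMod q, ∑ n : ZMod q,
      w (fun j => t j + (x * u j + y * u' j)) *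
        ∏ i, G i (S.vz q b n t i + x * (S.lin i s u : ZMod q) + y * (S.lin i s' u' : ZMod q)) := by
    have e5 : ((q : ℂ) ^ 2) * ((FZ S q b G : ℝ) : ℂ) = ∑ x : ZMod q, ∑ y : ZMod q, ∑ t, w t * z t := by
      rw [Finset.sum_const, Finset.sum_const, Finset.card_univ, ZMod.card, e1, nsmul_eq_mul, nsmul_eq_mul]
      ring
    rw [e5, Finset.sum_congr rfl fun x _ => Finset.sum_congr rfl fun y _ => e2 x y, Finset.sum_comm' (t' := univ)
      (s' := fun _ => univ) (by simp)]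
    rw [Finset.sum_comm]
    rw [Finset.sum_congr rfl fun x _ => Finset.sum_comm, Finset.sum_comm]
  have e6 : ∀ t : Fin d → ZMod q, ‖∑ x : ZMod q, ∑ y : ZMod q, ∑ n : ZMod q,
      w (fun j => t j + (x * u j + y * u' j)) *
        ∏ i, G i (S.vz q b n t i + x * (S.lin i s u : ZMod q) + y * (S.lin i s' u' : ZMod q))‖ ≤
      (E * (q : ℝ) ^ 20 * UU (G i0)) ^ (1 / 8 : ℝ) := by
    intro t
    have h3 := l2_pt S i0 s s' u u' h0 h1 h2 h q b G hG (fun x y => w (fun j => t j + (x * u j + y * u' j)))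
      (fun x y => hw1 _) t
    rw [← hE] at h3
    have h4 := Real.rpow_le_rpow (by positivity) h3 (by norm_num : (0 : ℝ) ≤ 1 / 8)
    rw [← Real.rpow_natCast, ← Real.rpow_mul (norm_nonneg _)] at h4
    norm_num at h4
    norm_num
    exact h4
  have e7 : (q : ℝ) ^ 2 * FZ S q b G ≤ (q : ℝ) ^ d * (E * (q : ℝ) ^ 20 * UU (G i0)) ^ (1 / 8 : ℝ) := by
    have hF0 : 0 ≤ FZ S q b G := by
      unfold FZ
      exact Finset.sum_nonneg fun t _ => norm_nonneg _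
    have e8 : (q : ℝ) ^ 2 * FZ S q b G = ‖((q : ℂ) ^ 2) * ((FZ S q b G : ℝ) : ℂ)‖ := by
      rw [norm_mul, norm_pow, Complex.norm_natCast, Complex.norm_real, Real.norm_eq_abs, abs_of_nonneg hF0]
    rw [e8, e4]
    refine (norm_sum_le _ _).trans ((Finset.sum_le_sum fun t _ => e6 t).trans (le_of_eq ?_))
    rw [Finset.sum_const, Finset.card_univ, Fintype.card_fun, ZMod.card, Fintype.card_fin, nsmul_eq_mul]
    push_cast
    ring
  have e9 : (E * (q : ℝ) ^ 20 * UU (G i0)) ^ (1 / 8 : ℝ) = (q : ℝ) ^ 3 * (E * UU (G i0) / (q : ℝ) ^ 4) ^ (1 / 8 : ℝ) := by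
    have h5 : E * (q : ℝ) ^ 20 * UU (G i0) = (q : ℝ) ^ 24 * (E * UU (G i0) / (q : ℝ) ^ 4) := by
      field_simp
    have h6 : ((q : ℝ) ^ 24) ^ (1 / 8 : ℝ) = (q : ℝ) ^ 3 := by
      rw [← Real.rpow_natCast, ← Real.rpow_mul hq0.le, ← Real.rpow_natCast]
      norm_num
    rw [h5, Real.mul_rpow (by positivity) (by positivity), h6]
  rw [e9] at e7
  have h7 : (q : ℝ) ^ 2 * FZ S q b G ≤ (q : ℝ) ^ 2 * ((q : ℝ) ^ (d + 1) * (E * UU (G i0) / (q : ℝ) ^ 4) ^ (1 / 8 : ℝ)) := by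
    refine e7.trans (le_of_eq ?_)
    ring
  exact le_of_mul_le_mul_left h7 (by positivity)

/-- Proof. `E` = the sum over `i0` of the constants in `L2_one`, plus `1`. -/
theorem L2_all {k d : ℕ} (S : Sys k d) (hS : S.Half) : ∃ E : ℝ, 1 ≤ E ∧ ∀ (q : ℕ) [NeZero q] (b : Fin k → ℤ)
    (G : Fin k → ZMod q → ℂ), (∀ i x, ‖G i x‖ ≤ 1) → ∀ i0 : Fin k,
    FZ S q b G ≤ (q : ℝ) ^ (d + 1) * (E * UU (G i0) / (q : ℝ) ^ 4) ^ (1 / 8 : ℝ) := by
  choose s s' u u' h1 h2 h using hS.2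
  refine ⟨∑ i0, (|(S.a i0 : ℝ)| ^ 2 * |(S.lin i0 (s i0) (u i0) : ℝ)| * |(S.lin i0 (s' i0) (u' i0) : ℝ)|) + 1, ?_, ?_⟩
  · have : 0 ≤ ∑ i0, (|(S.a i0 : ℝ)| ^ 2 * |(S.lin i0 (s i0) (u i0) : ℝ)| * |(S.lin i0 (s' i0) (u' i0) : ℝ)|) :=
      Finset.sum_nonneg fun i _ => by positivity
    linarith
  · intro q _ b G hG i0
    refine (L2_one S i0 (s i0) (s' i0) (u i0) (u' i0) (hS.1 i0) (h1 i0) (h2 i0) (h i0) q b G hG).trans ?_
    have hU0 : 0 ≤ UU (G i0) := by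
      unfold UU
      positivity
    have h3 : |(S.a i0 : ℝ)| ^ 2 * |(S.lin i0 (s i0) (u i0) : ℝ)| * |(S.lin i0 (s' i0) (u' i0) : ℝ)| ≤
        ∑ i0, (|(S.a i0 : ℝ)| ^ 2 * |(S.lin i0 (s i0) (u i0) : ℝ)| * |(S.lin i0 (s' i0) (u' i0) : ℝ)|) + 1 := by
      have h4 := Finset.single_le_sum (f := fun i0 => |(S.a i0 : ℝ)| ^ 2 * |(S.lin i0 (s i0) (u i0) : ℝ)| *
        |(S.lin i0 (s' i0) (u' i0) : ℝ)|) (fun i _ => by positivity) (mem_univ i0)
      linarith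
    refine mul_le_mul_of_nonneg_left ?_ (by positivity)
    refine Real.rpow_le_rpow (by positivity) ?_ (by norm_num)
    refine div_le_div_of_nonneg_right ?_ (by positivity)
    exact mul_le_mul_of_nonneg_right h3 hU0

end Pool.Agent.H9U
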