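import Pool.Agent.Lib.H9U.LDefs
import Pool.Agent.Lib.H59T.C3

/-!
# H9U, chunk L2T (S/M): functions on the integers and on `ZMod q`
-/

open Finset

namespace Pool.Agent.H9U

open Pool.Agent.Lib.H59P (Ch bx)

/-- Proof. `CA_range` (`H18Q/CA.lean`, used in `C3_nest` of `H59T/C3.lean`) for the sum over `n`; for `t` the bijection `t ↦ fun j => (t j : ZMod q)` from
`bx d q` to `Fin d → ZMod q` (inverse `fun j => (t j).val`; `Finset.sum_bij'` or `Finset.sum_nbij'`). -/
theorem L2T {k d : ℕ} (S : Sys k d) (q : ℕ) [NeZero q] (b : Fin k → ℤ) (F : Fin k → ℤ → ℂ) (G : Fin k → ZMod q → ℂ)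
    (h : ∀ i (m : ℤ), F i m = G i (m : ZMod q)) : FM S q b F = FZ S q b G := by
  unfold FM FZ bx
  refine Finset.sum_bij' (fun (t : Fin d → ℕ) _ => fun j => (t j : ZMod q)) (fun (z : Fin d → ZMod q) _ => fun j => (z j).val)
    (fun _ _ => mem_univ _) (fun z _ => Fintype.mem_piFinset.2 fun j => mem_range.2 (ZMod.val_lt (z j))) (fun t ht => ?_)
    (fun z _ => funext fun j => ZMod.natCast_zmod_val (z j)) (fun t _ => ?_)
  · funext j
    have h1 := mem_range.1 (Fintype.mem_piFinset.1 ht j)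
    show (((t j : ℕ) : ZMod q)).val = t j
    rw [ZMod.val_natCast, Nat.mod_eq_of_lt h1]
  · rw [← Pool.Agent.Lib.H18Q.CA_range q (fun n => ∏ i, G i (S.vz q b n (fun j => (t j : ZMod q)) i))]
    congr 1
    refine Finset.sum_congr rfl fun n _ => Finset.prod_congr rfl fun i _ => ?_
    rw [h]
    congr 1
    unfold Sys.val Sys.lin Sys.vz iv
    push_cast
    rfl

end Pool.Agent.H9U
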