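import Pool.Agent.Lib.H9U.L2
import Pool.Agent.Lib.H9U.L2T
import Pool.Agent.Lib.H59T.UC
import Pool.Agent.Lib.H59T.L4
import Pool.Agent.Lib.H59T.E7

/-!
# H9U, chunk L3 (M): the local factors at the primes dividing the conductors
-/

open Finset

namespace Pool.Agent.H9U

open Pool.Agent.Lib.H59P (Ch bx)
open Pool.Agent.Lib.H59T (UU Rm Pm Kp dof tau lf)

/-- functions bounded by two -/
theorem l3_scale {k d : ℕ} (S : Sys k d) (q : ℕ) [NeZero q] (b : Fin k → ℤ) (G : Fin k → ZMod q → ℂ) :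
    FZ S q b G = 2 ^ k * FZ S q b (fun i t => G i t / 2) := by
  unfold FZ
  rw [Finset.mul_sum]
  refine Finset.sum_congr rfl fun t _ => ?_
  have h1 : ∑ n : ZMod q, ∏ i, G i (S.vz q b n t i) = (2 : ℂ) ^ k * ∑ n : ZMod q, ∏ i, G i (S.vz q b n t i) / 2 := by
    rw [Finset.mul_sum]
    refine Finset.sum_congr rfl fun n _ => ?_
    rw [Finset.prod_div_distrib, Finset.prod_const, Finset.card_univ, Fintype.card_fin]
    field_simp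
  have hn2 : ‖(2 : ℂ)‖ = 2 := by simp
  rw [h1, norm_mul, norm_pow, hn2]

/-- The bound for one prime power. -/
theorem l3_one {k d : ℕ} (S : Sys k d) (E : ℝ) (hE1 : 1 ≤ E) (hE : ∀ (q : ℕ) [NeZero q] (b : Fin k → ℤ)
    (G : Fin k → ZMod q → ℂ), (∀ i x, ‖G i x‖ ≤ 1) → ∀ i0 : Fin k,
    FZ S q b G ≤ (q : ℝ) ^ (d + 1) * (E * UU (G i0) / (q : ℝ) ^ 4) ^ (1 / 8 : ℝ))
    (b : Fin k → ℤ) (l a : ℕ) (hl : l.Prime) (ha : 1 ≤ a) (χ : DirichletCharacter ℂ (l ^ a))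
    (hχ : χ.IsPrimitive) (c : ℝ) (hc : |c| ≤ 2) (g : Fin k → ℤ → ℂ)
    (hp : ∀ i m, g i (m + (l ^ a : ℕ)) = g i m) (hb : ∀ i m, ‖g i m‖ ≤ 2) (i0 : Fin k)
    (h : ∀ m : ℤ, g i0 m = c * (starRingEnd ℂ) (χ (m : ZMod (l ^ a)))) :
    FM S (l ^ a) b g ≤ ((l ^ a : ℕ) : ℝ) ^ (d + 1) *
      (2 ^ k * (13 * E) ^ (1 / 8 : ℝ) * ((l ^ a : ℕ) : ℝ) ^ (-(1 / 72) : ℝ)) := by
  have hne : NeZero (l ^ a) := ⟨pow_ne_zero _ hl.ne_zero⟩
  have hl0 : (0 : ℝ) < l := by exact_mod_cast hl.pos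
  have hq0 : (0 : ℝ) < ((l ^ a : ℕ) : ℝ) := by exact_mod_cast pow_pos hl.pos a
  choose G hG using fun i => Pool.Agent.Lib.H59T.C3_fun (l ^ a) (g i) (hp i)
  have hs : ∀ t : ZMod (l ^ a), ∃ m : ℤ, (m : ZMod (l ^ a)) = t := fun t => ZMod.intCast_surjective t
  have bG : ∀ i t, ‖G i t‖ ≤ 2 := by
    intro i t
    obtain ⟨m, rfl⟩ := hs t
    rw [← hG]
    exact hb i m
  have hG0 : ∀ t, G i0 t = c * (starRingEnd ℂ) (χ t) := by
    intro t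
    obtain ⟨m, rfl⟩ := hs t
    rw [← hG]
    exact h m
  have u4 : UU (fun t => G i0 t / 2) ≤ 13 * ((l ^ a : ℕ) : ℝ) ^ 4 * (l : ℝ) ^ (-(a / 9 : ℝ)) :=
    (Pool.Agent.Lib.H59T.uc_UU (l ^ a) χ c hc (fun t => G i0 t / 2) (fun t => by rw [hG0])).trans
      (Pool.Agent.Lib.H59T.U1_all l a hl ha χ hχ)
  have hUU0 : 0 ≤ UU (fun t => G i0 t / 2) :=
    Finset.sum_nonneg fun _ _ => Finset.sum_nonneg fun _ _ => by positivity
  have v0 : ((l ^ a : ℕ) : ℝ) ^ (-(1 / 9 : ℝ)) = (l : ℝ) ^ (-(a / 9 : ℝ)) := by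
    push_cast
    rw [← Real.rpow_natCast, ← Real.rpow_mul hl0.le]
    congr 1
    ring
  have u1 := hE (l ^ a) b (fun i t => G i t / 2) (fun i t => by
    have hn2 : ‖(2 : ℂ)‖ = 2 := by simp
    rw [norm_div, hn2]
    have := bG i t
    linarith) i0
  have u5 : (E * UU (fun t => G i0 t / 2) / ((l ^ a : ℕ) : ℝ) ^ 4) ^ (1 / 8 : ℝ) ≤
      (13 * E) ^ (1 / 8 : ℝ) * ((l ^ a : ℕ) : ℝ) ^ (-(1 / 72) : ℝ) := by
    have w1 : E * UU (fun t => G i0 t / 2) / ((l ^ a : ℕ) : ℝ) ^ 4 ≤ 13 * E * ((l ^ a : ℕ) : ℝ) ^ (-(1 / 9 : ℝ)) := by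
      rw [div_le_iff₀ (by positivity), v0]
      calc E * UU (fun t => G i0 t / 2) ≤ E * (13 * ((l ^ a : ℕ) : ℝ) ^ 4 * (l : ℝ) ^ (-(a / 9 : ℝ))) :=
            mul_le_mul_of_nonneg_left u4 (by linarith)
        _ = 13 * E * (l : ℝ) ^ (-(a / 9 : ℝ)) * ((l ^ a : ℕ) : ℝ) ^ 4 := by ring
    have w2 : (13 * E * ((l ^ a : ℕ) : ℝ) ^ (-(1 / 9 : ℝ))) ^ (1 / 8 : ℝ) =
        (13 * E) ^ (1 / 8 : ℝ) * ((l ^ a : ℕ) : ℝ) ^ (-(1 / 72) : ℝ) := by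
      rw [Real.mul_rpow (by linarith) (by positivity), ← Real.rpow_mul hq0.le]
      norm_num
    rw [← w2]
    refine Real.rpow_le_rpow (by positivity) w1 (by norm_num)
  rw [L2T S (l ^ a) b g G (fun i m => hG i m), l3_scale]
  have h2k : (0 : ℝ) ≤ 2 ^ k := by positivity
  calc (2 : ℝ) ^ k * FZ S (l ^ a) b (fun i t => G i t / 2) ≤
      2 ^ k * (((l ^ a : ℕ) : ℝ) ^ (d + 1) * ((13 * E) ^ (1 / 8 : ℝ) * ((l ^ a : ℕ) : ℝ) ^ (-(1 / 72) : ℝ))) := by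
        refine mul_le_mul_of_nonneg_left (u1.trans ?_) h2k
        exact mul_le_mul_of_nonneg_left u5 (by positivity)
    _ = _ := by ring

/-- Proof. `a = (Rm p).factorization l`, `q = l^a`. `E7_attained`: `a ≥ 1`, all `(p i).1.factorization l ≤ a`, with equality and `l ∣ (p i0).1` for some `i0`.
`L4_per`, `L4_norm` (`H59T/L4.lean`): the functions `lf (p i) (κ i) l` have period `q` and are bounded by `2`; `C3_fun`: functions `G i` on `ZMod q`; `L2T`.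
`FZ S q b G = 2^k FZ S q b (G/2) ≤ 2^k q^(d+1) (E UU(G i0/2)/q⁴)^(1/8)` (`L2_all`), `G i0 = c conj χ` with `|c| ≤ 2` (`L4_char`), `uc_UU`
(`H59T/UC.lean`), `U1_all`: `UU ≤ 13 q⁴ l^(-a/9)`, and `(l^(-a/9))^(1/8) = q^(-1/72)`. `2^A ≥ 2^k (13 E)^(1/8)`. -/
theorem L3_pow {k d : ℕ} (S : Sys k d) (hS : S.Half) : ∃ A : ℕ, ∀ (b : Fin k → ℤ) (p : Fin k → Ch), Pm p →
    ∀ κ : Fin k → ℕ, Kp p κ → ∀ l : ℕ, l.Prime → l ∣ Rm p →
    FM S (l ^ (Rm p).factorization l) b (fun i => lf (p i) (κ i) l) ≤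
      ((l ^ (Rm p).factorization l : ℕ) : ℝ) ^ (d + 1) *
        (2 ^ A * ((l ^ (Rm p).factorization l : ℕ) : ℝ) ^ (-(1 / 72) : ℝ)) := by
  obtain ⟨E, hE1, hE⟩ := L2_all S hS
  obtain ⟨A, hA⟩ := pow_unbounded_of_one_lt (2 ^ k * (13 * E) ^ (1 / 8 : ℝ)) (by norm_num : (1 : ℝ) < 2)
  refine ⟨A, fun b p hp κ _hκ l hl hd => ?_⟩
  have hl2 : (2 : ℝ) ≤ l := by exact_mod_cast hl.two_le
  obtain ⟨h1, h2, i0, h3, h4⟩ := Pool.Agent.Lib.H59T.E7_attained p hp l hl hd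
  have hch := Pool.Agent.Lib.H59T.L4_char (p i0) (hp i0).1 (hp i0).2 l hl h4
  rw [h3] at hch
  obtain ⟨χ, hχ, hlf⟩ := hch
  have hc : |(l : ℝ) / ((l : ℝ) - 1)| ≤ 2 := by
    rw [abs_of_nonneg (by apply div_nonneg <;> linarith), div_le_iff₀ (by linarith)]
    linarith
  have hper : ∀ (i : Fin k) (m : ℤ),
      lf (p i) (κ i) l (m + ((l ^ (Rm p).factorization l : ℕ) : ℤ)) = lf (p i) (κ i) l m := by
    intro i m
    have := Pool.Agent.Lib.H59T.L4_per (p i) (hp i).1 (hp i).2 (κ i) l ((Rm p).factorization l) hl h1 (h2 i) m 1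
    rw [mul_one] at this
    rw [← this]
    push_cast
    rfl
  refine (l3_one S E hE1 hE b l ((Rm p).factorization l) hl h1 χ hχ _ hc (fun i => lf (p i) (κ i) l)
    (fun i m => hper i m) (fun i m => Pool.Agent.Lib.H59T.L4_norm _ _ _ hl m) i0 (fun m => hlf (κ i0) m)).trans ?_
  refine mul_le_mul_of_nonneg_left ?_ (by positivity)
  exact mul_le_mul_of_nonneg_right hA.le (by positivity)

end Pool.Agent.H9U
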