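import Pool.Agent.Lib.H9U.L2T
import Pool.Agent.Lib.H9U.T6
import Pool.Agent.Lib.H59T.C3
import Pool.Agent.Lib.H59T.E3

/-!
# H9U, chunk L4 (M): the local factors at the other primes
-/

open Finset

namespace Pool.Agent.H9U

open Pool.Agent.Lib.H59P (Ch bx)
open Pool.Agent.Lib.H59T (UU Rm Pm Kp dof tau lf glz)

/-- Two forms which are not proportional modulo `l` have few common zeros. Proof. For given `t` there is at most one `n` with `vz n t i = 0`
(`a_i` is invertible), and then `a_i vz j - a_j vz i = ∑_r (a_i c_jr - a_j c_ir) t_r + const = 0`; the number of such `t` is at most `l^(d-1)`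
(the coordinate `r0` is determined by the others). -/
theorem L4_zero {k d : ℕ} (S : Sys k d) (l : ℕ) [Fact l.Prime] (b : Fin k → ℤ) (i j : Fin k)
    (ha : ((S.a i : ℤ) : ZMod l) ≠ 0) (r : Fin d) (hr : ((S.a i * S.c j r - S.a j * S.c i r : ℤ) : ZMod l) ≠ 0) :
    (((univ : Finset ((Fin d → ZMod l) × ZMod l)).filter
      (fun x => S.vz l b x.2 x.1 i = 0 ∧ S.vz l b x.2 x.1 j = 0)).card : ℝ) * l ≤ (l : ℝ) ^ d := by
  obtain ⟨A, hA⟩ : ∃ A, A = (univ : Finset ((Fin d → ZMod l) × ZMod l)).filter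
      (fun x => S.vz l b x.2 x.1 i = 0 ∧ S.vz l b x.2 x.1 j = 0) := ⟨_, rfl⟩
  rw [← hA]
  have hlin : ∀ (n : ZMod l) (t : Fin d → ZMod l), (S.a i : ZMod l) * S.vz l b n t j - (S.a j : ZMod l) * S.vz l b n t i =
      ∑ r, ((S.a i : ZMod l) * S.c j r - (S.a j : ZMod l) * S.c i r) * t r +
        ((S.a i : ZMod l) * b j - (S.a j : ZMod l) * b i) := by
    intro n t
    unfold Sys.vz
    have h1 : ∀ r, ((S.a i : ZMod l) * S.c j r - (S.a j : ZMod l) * S.c i r) * t r =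
        (S.a i : ZMod l) * (S.c j r * t r) - (S.a j : ZMod l) * (S.c i r * t r) := fun r => by ring
    rw [Finset.sum_congr rfl fun r _ => h1 r, Finset.sum_sub_distrib, ← Finset.mul_sum, ← Finset.mul_sum]
    ring
  have h2 : (A ×ˢ (univ : Finset (ZMod l))).card ≤ (univ : Finset (Fin d → ZMod l)).card := by
    refine Finset.card_le_card_of_injOn (fun x => Function.update x.1.1 r x.2) (fun _ _ => Finset.mem_coe.2 (Finset.mem_univ _)) ?_
    rintro ⟨⟨t, n⟩, y⟩ hx ⟨⟨t', n'⟩, y'⟩ hx' he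
    have he' : Function.update t r y = Function.update t' r y' := he
    have h3 := (Finset.mem_product.1 (Finset.mem_coe.1 hx)).1
    have h4 := (Finset.mem_product.1 (Finset.mem_coe.1 hx')).1
    rw [hA, Finset.mem_filter] at h3 h4
    have hy : y = y' := by
      have := congrFun he' r
      rwa [Function.update_self, Function.update_self] at this
    have hother : ∀ s, s ≠ r → t s = t' s := by
      intro s hs
      have := congrFun he' s
      rwa [Function.update_of_ne hs, Function.update_of_ne hs] at this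
    have e1 : S.vz l b n t i = 0 := h3.2.1
    have e2 : S.vz l b n t j = 0 := h3.2.2
    have e3 : S.vz l b n' t' i = 0 := h4.2.1
    have e4 : S.vz l b n' t' j = 0 := h4.2.2
    have h5 : ∑ s, ((S.a i : ZMod l) * S.c j s - (S.a j : ZMod l) * S.c i s) * t s =
        ∑ s, ((S.a i : ZMod l) * S.c j s - (S.a j : ZMod l) * S.c i s) * t' s := by
      have h6 := hlin n t
      have h7 := hlin n' t'
      rw [e1, e2, mul_zero, mul_zero, sub_zero] at h6
      rw [e3, e4, mul_zero, mul_zero, sub_zero] at h7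
      exact add_right_cancel (h6.symm.trans h7)
    have h8 : ((S.a i : ZMod l) * S.c j r - (S.a j : ZMod l) * S.c i r) * t r =
        ((S.a i : ZMod l) * S.c j r - (S.a j : ZMod l) * S.c i r) * t' r := by
      rw [← Finset.add_sum_erase _ _ (Finset.mem_univ r), ← Finset.add_sum_erase _ _ (Finset.mem_univ r)] at h5
      have h9 : ∑ s ∈ univ.erase r, ((S.a i : ZMod l) * S.c j s - (S.a j : ZMod l) * S.c i s) * t s =
          ∑ s ∈ univ.erase r, ((S.a i : ZMod l) * S.c j s - (S.a j : ZMod l) * S.c i s) * t' s :=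
        Finset.sum_congr rfl fun s hs => by rw [hother s (Finset.ne_of_mem_erase hs)]
      rw [h9] at h5
      exact add_right_cancel h5
    have hr' : (S.a i : ZMod l) * S.c j r - (S.a j : ZMod l) * S.c i r ≠ 0 := by
      intro h
      apply hr
      push_cast
      exact h
    have h10 : t r = t' r := mul_left_cancel₀ hr' h8
    have h11 : t = t' := by
      funext s
      by_cases hs : s = r
      · rw [hs]
        exact h10
      · exact hother s hs
    have h12 : n = n' := by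
      rw [← h11] at e3
      have h13 : (S.a i : ZMod l) * n = (S.a i : ZMod l) * n' := by
        unfold Sys.vz at e1 e3
        linear_combination e1 - e3
      exact mul_left_cancel₀ ha h13
    rw [h11, h12, hy]
  rw [Finset.card_product, Finset.card_univ, Finset.card_univ, ZMod.card, Fintype.card_fun, Fintype.card_fin,
    ZMod.card] at h2
  exact_mod_cast h2

theorem l4_abs (l : ℕ) [Fact l.Prime] (s : ZMod l) : |glz l s| ≤ (if s = 0 then 1 else 0) + 1 / ((l : ℝ) - 1) := by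
  have h2 : (2:ℝ) ≤ l := by exact_mod_cast (Fact.out : l.Prime).two_le
  have h3 : 0 < 1 / ((l : ℝ) - 1) := by
    apply div_pos one_pos
    linarith
  unfold glz
  split_ifs
  · rw [abs_neg, abs_one]
    linarith
  · rw [abs_of_pos h3]
    linarith

theorem l4_abs1 (l : ℕ) [Fact l.Prime] (s : ZMod l) : |glz l s| ≤ 1 := by
  have h2 : (2:ℝ) ≤ l := by exact_mod_cast (Fact.out : l.Prime).two_le
  have h3 : 0 < 1 / ((l : ℝ) - 1) := by
    apply div_pos one_pos
    linarith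
  unfold glz
  split_ifs
  · rw [abs_neg, abs_one]
  · rw [abs_of_pos h3, div_le_one (by linarith)]
    linarith

/-- For given `t` exactly one `n` makes the form `i` vanish; general sums over `n`. -/
theorem l4_bij {k d : ℕ} (S : Sys k d) (l : ℕ) [Fact l.Prime] (b : Fin k → ℤ) (i : Fin k)
    (ha : ((S.a i : ℤ) : ZMod l) ≠ 0) (t : Fin d → ZMod l) {M : Type*} [AddCommMonoid M] (f : ZMod l → M) :
    ∑ n : ZMod l, f (S.vz l b n t i) = ∑ s : ZMod l, f s := by
  have hinj : Function.Injective fun n : ZMod l => S.vz l b n t i := by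
    intro n n' h
    have h' : S.vz l b n t i = S.vz l b n' t i := h
    unfold Sys.vz at h'
    have h1 : (S.a i : ZMod l) * n = (S.a i : ZMod l) * n' := by
      linear_combination h'
    exact mul_left_cancel₀ ha h1
  have hbij : Function.Bijective fun n : ZMod l => S.vz l b n t i := Finite.injective_iff_bijective.1 hinj
  exact hbij.sum_comp f

theorem l4_triv {k d : ℕ} (S : Sys k d) (l : ℕ) [Fact l.Prime] (b : Fin k → ℤ) (I : Finset (Fin k)) :
    ∑ t : Fin d → ZMod l, ‖∑ n : ZMod l, ∏ i ∈ I, ((glz l (S.vz l b n t i) : ℝ) : ℂ)‖ ≤ (l : ℝ) ^ (d + 1) := by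
  have h1 : ∀ t : Fin d → ZMod l, ‖∑ n : ZMod l, ∏ i ∈ I, ((glz l (S.vz l b n t i) : ℝ) : ℂ)‖ ≤ (l : ℝ) := by
    intro t
    refine (norm_sum_le _ _).trans ?_
    have h2 : ∀ n ∈ (univ : Finset (ZMod l)), ‖∏ i ∈ I, ((glz l (S.vz l b n t i) : ℝ) : ℂ)‖ ≤ 1 := by
      intro n _
      rw [norm_prod]
      refine Finset.prod_le_one (fun _ _ => norm_nonneg _) fun i _ => ?_
      rw [Complex.norm_real, Real.norm_eq_abs]
      exact l4_abs1 l _
    refine (Finset.sum_le_sum h2).trans ?_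
    rw [Finset.sum_const, Finset.card_univ, ZMod.card, nsmul_eq_mul, mul_one]
  refine (Finset.sum_le_sum fun t _ => h1 t).trans ?_
  rw [Finset.sum_const, Finset.card_univ, Fintype.card_fun, Fintype.card_fin, ZMod.card, nsmul_eq_mul]
  push_cast
  rw [pow_succ]

theorem l4_two {k d : ℕ} (S : Sys k d) (l : ℕ) [Fact l.Prime] (b : Fin k → ℤ) (I : Finset (Fin k)) {i j : Fin k}
    (hi : i ∈ I) (hj : j ∈ I) (hij : i ≠ j) (hai : ((S.a i : ℤ) : ZMod l) ≠ 0) (haj : ((S.a j : ℤ) : ZMod l) ≠ 0)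
    (r : Fin d) (hr : ((S.a i * S.c j r - S.a j * S.c i r : ℤ) : ZMod l) ≠ 0) :
    ∑ t : Fin d → ZMod l, ‖∑ n : ZMod l, ∏ i ∈ I, ((glz l (S.vz l b n t i) : ℝ) : ℂ)‖ ≤
      (l : ℝ) ^ (d + 1) * (9 / (l : ℝ) ^ 2) := by
  have h2 : (2:ℝ) ≤ l := by exact_mod_cast (Fact.out : l.Prime).two_le
  obtain ⟨δ, hδ⟩ : ∃ δ : ℝ, δ = 1 / ((l : ℝ) - 1) := ⟨_, rfl⟩
  have hδ0 : 0 < δ := by
    rw [hδ]
    apply div_pos one_pos
    linarith
  have hδ2 : δ * l ≤ 2 := by
    rw [hδ, div_mul_eq_mul_div, one_mul, div_le_iff₀ (by linarith)]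
    linarith
  have hpt : ∀ (t : Fin d → ZMod l) (n : ZMod l), ‖∏ i ∈ I, ((glz l (S.vz l b n t i) : ℝ) : ℂ)‖ ≤
      (if S.vz l b n t i = 0 ∧ S.vz l b n t j = 0 then (1:ℝ) else 0) +
      δ * ((if S.vz l b n t i = 0 then (1:ℝ) else 0) + (if S.vz l b n t j = 0 then (1:ℝ) else 0)) + δ ^ 2 := by
    intro t n
    rw [norm_prod, ← Finset.mul_prod_erase I _ hi,
      ← Finset.mul_prod_erase (I.erase i) _ (Finset.mem_erase.2 ⟨hij.symm, hj⟩), ← mul_assoc]
    have h3 : ∏ m ∈ (I.erase i).erase j, ‖((glz l (S.vz l b n t m) : ℝ) : ℂ)‖ ≤ 1 :=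
      Finset.prod_le_one (fun _ _ => norm_nonneg _) fun m _ => by
        rw [Complex.norm_real, Real.norm_eq_abs]
        exact l4_abs1 l _
    have h4 : ‖((glz l (S.vz l b n t i) : ℝ) : ℂ)‖ * ‖((glz l (S.vz l b n t j) : ℝ) : ℂ)‖ ≤
        ((if S.vz l b n t i = 0 then (1:ℝ) else 0) + δ) * ((if S.vz l b n t j = 0 then (1:ℝ) else 0) + δ) := by
      rw [Complex.norm_real, Real.norm_eq_abs, Complex.norm_real, Real.norm_eq_abs, hδ]
      exact mul_le_mul (l4_abs l _) (l4_abs l _) (abs_nonneg _) ((abs_nonneg _).trans (l4_abs l _))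
    calc _ ≤ ‖((glz l (S.vz l b n t i) : ℝ) : ℂ)‖ * ‖((glz l (S.vz l b n t j) : ℝ) : ℂ)‖ * 1 :=
          mul_le_mul_of_nonneg_left h3 (by positivity)
      _ ≤ _ := by
          rw [mul_one]
          refine h4.trans (le_of_eq ?_)
          by_cases hi0 : S.vz l b n t i = 0 <;> by_cases hj0 : S.vz l b n t j = 0 <;> simp [hi0, hj0] <;> ring
  have hone : ∀ (m : Fin k), ((S.a m : ℤ) : ZMod l) ≠ 0 → ∀ t : Fin d → ZMod l,
      ∑ n : ZMod l, (if S.vz l b n t m = 0 then (1:ℝ) else 0) = 1 := by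
    intro m hm t
    rw [l4_bij S l b m hm t (fun s => if s = 0 then (1:ℝ) else 0)]
    simp
  have hZ : ∑ t : Fin d → ZMod l, ∑ n : ZMod l, (if S.vz l b n t i = 0 ∧ S.vz l b n t j = 0 then (1:ℝ) else 0) =
      ((((univ : Finset ((Fin d → ZMod l) × ZMod l)).filter
      (fun x => S.vz l b x.2 x.1 i = 0 ∧ S.vz l b x.2 x.1 j = 0)).card : ℕ) : ℝ) := by
    rw [Finset.card_filter, Nat.cast_sum, Fintype.sum_prod_type]
    refine Finset.sum_congr rfl fun t _ => Finset.sum_congr rfl fun n _ => ?_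
    split_ifs <;> simp
  obtain ⟨Z, hZe⟩ : ∃ Z : ℝ, Z = ((((univ : Finset ((Fin d → ZMod l) × ZMod l)).filter
      (fun x => S.vz l b x.2 x.1 i = 0 ∧ S.vz l b x.2 x.1 j = 0)).card : ℕ) : ℝ) := ⟨_, rfl⟩
  have hZl := L4_zero S l b i j hai r hr
  rw [← hZe] at hZ hZl
  have hsum : ∑ t : Fin d → ZMod l, ‖∑ n : ZMod l, ∏ i ∈ I, ((glz l (S.vz l b n t i) : ℝ) : ℂ)‖ ≤
      Z + (l : ℝ) ^ d * (2 * δ + δ ^ 2 * l) := by
    calc _ ≤ ∑ t : Fin d → ZMod l, ∑ n : ZMod l, ((if S.vz l b n t i = 0 ∧ S.vz l b n t j = 0 then (1:ℝ) else 0) +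
          δ * ((if S.vz l b n t i = 0 then (1:ℝ) else 0) + (if S.vz l b n t j = 0 then (1:ℝ) else 0)) + δ ^ 2) :=
          Finset.sum_le_sum fun t _ => (norm_sum_le _ _).trans (Finset.sum_le_sum fun n _ => hpt t n)
      _ = Z + (l : ℝ) ^ d * (2 * δ + δ ^ 2 * l) := by
          have h5 : ∀ t : Fin d → ZMod l, ∑ n : ZMod l, ((if S.vz l b n t i = 0 ∧ S.vz l b n t j = 0 then (1:ℝ) else 0) +
              δ * ((if S.vz l b n t i = 0 then (1:ℝ) else 0) + (if S.vz l b n t j = 0 then (1:ℝ) else 0)) + δ ^ 2) =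
              ∑ n : ZMod l, (if S.vz l b n t i = 0 ∧ S.vz l b n t j = 0 then (1:ℝ) else 0) + (2 * δ + δ ^ 2 * l) := by
            intro t
            rw [Finset.sum_add_distrib, Finset.sum_add_distrib, ← Finset.mul_sum, Finset.sum_add_distrib,
              hone i hai t, hone j haj t, Finset.sum_const, Finset.card_univ, ZMod.card, nsmul_eq_mul]
            ring
          rw [Finset.sum_congr rfl fun t _ => h5 t, Finset.sum_add_distrib, hZ, Finset.sum_const, Finset.card_univ,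
            Fintype.card_fun, Fintype.card_fin, ZMod.card, nsmul_eq_mul]
          push_cast
          ring
  refine hsum.trans ?_
  have hl0 : (0:ℝ) < l := by linarith
  have hld : (0:ℝ) < (l : ℝ) ^ d := pow_pos hl0 _
  have h6 : (l : ℝ) ^ (d + 1) * (9 / (l : ℝ) ^ 2) = (l : ℝ) ^ d * 9 / l := by
    rw [pow_succ]
    field_simp
  rw [h6, le_div_iff₀ hl0]
  have h7 : (2 * δ + δ ^ 2 * l) * l ≤ 8 := by
    have h8 : (2 * δ + δ ^ 2 * l) * l = 2 * (δ * l) + (δ * l) ^ 2 := by ring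
    rw [h8]
    have h9 : 0 ≤ δ * l := by positivity
    nlinarith
  have h10 : (l : ℝ) ^ d * ((2 * δ + δ ^ 2 * l) * l) ≤ (l : ℝ) ^ d * 8 := mul_le_mul_of_nonneg_left h7 hld.le
  nlinarith

/-- Proof. `M0 = ∏_i |a_i| · ∏_{i ≠ j} |m_ij|`, `m_ij = a_i c_jr - a_j c_ir ≠ 0` for some `r` (`T6S_ne`). `l ∣ M0`: `l ≤ M0`, trivial bound
`l^(d+1)` (`|glz| ≤ 1`) and `2^A ≥ M0²`. `l ∤ M0`: if `I = {i}`, the sum over `n` vanishes (`n ↦ vz n t i` is a bijection,
`E3_glz` in `H59T/E3.lean`). Else take `i ≠ j` in `I`: `|∏_{I} glz| ≤ |glz(vz i)| |glz(vz j)|`; the sum over `(t, n)` of this is at most the number of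
common zeros (`L4_zero`) plus `2 l^d/(l-1)` (exactly one is zero, the other factor is `1/(l-1)`; for given `t` at most two `n`) plus
`l^(d+1)/(l-1)²`: at most `l^(d-1) + 4 l^(d-1) + 4 l^(d-1)`, and `2^A ≥ 9`. -/
theorem L4_gl {k d : ℕ} (S : Sys k d) (hS : S.Half) : ∃ A : ℕ, ∀ (l : ℕ) [Fact l.Prime] (b : Fin k → ℤ)
    (I : Finset (Fin k)), I.Nonempty →
    ∑ t : Fin d → ZMod l, ‖∑ n : ZMod l, ∏ i ∈ I, ((glz l (S.vz l b n t i) : ℝ) : ℂ)‖ ≤
      (l : ℝ) ^ (d + 1) * (2 ^ A / (l : ℝ) ^ 2) := by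
  have hex : ∀ i j : Fin k, ∃ m : ℤ, m ≠ 0 ∧ (i ≠ j → ∃ r : Fin d, S.a i * S.c j r - S.a j * S.c i r = m) := by
    intro i j
    by_cases hij : i = j
    · exact ⟨1, one_ne_zero, fun h => absurd hij h⟩
    · obtain ⟨r, hr⟩ := T6S_ne S hS i j hij
      exact ⟨_, hr, fun _ => ⟨r, rfl⟩⟩
  choose m hm0 hm using hex
  obtain ⟨M, hM⟩ : ∃ M : ℤ, M = (∏ i, S.a i) * ∏ i, ∏ j, m i j := ⟨_, rfl⟩
  have hM0 : M ≠ 0 := by
    rw [hM]
    exact mul_ne_zero (Finset.prod_ne_zero_iff.2 fun i _ => hS.1 i)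
      (Finset.prod_ne_zero_iff.2 fun i _ => Finset.prod_ne_zero_iff.2 fun j _ => hm0 i j)
  refine ⟨M.natAbs ^ 2 + 4, fun l hlf b I hI => ?_⟩
  have hl := hlf.out
  have h2 : (2:ℝ) ≤ l := by exact_mod_cast hl.two_le
  have hl0 : (0:ℝ) < l := by linarith
  by_cases hlM : (l : ℤ) ∣ M
  · have h3 : l ≤ M.natAbs := Nat.le_of_dvd (Int.natAbs_pos.2 hM0) (Int.natCast_dvd.1 hlM)
    have h4 : l ^ 2 ≤ 2 ^ (M.natAbs ^ 2 + 4) := by
      calc l ^ 2 ≤ M.natAbs ^ 2 := Nat.pow_le_pow_left h3 2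
        _ ≤ 2 ^ (M.natAbs ^ 2) := Nat.lt_two_pow_self.le
        _ ≤ 2 ^ (M.natAbs ^ 2 + 4) := Nat.pow_le_pow_right (by norm_num) (by omega)
    have h5 : (l : ℝ) ^ 2 ≤ 2 ^ (M.natAbs ^ 2 + 4) := by exact_mod_cast h4
    refine (l4_triv S l b I).trans ?_
    have h6 : 1 ≤ (2:ℝ) ^ (M.natAbs ^ 2 + 4) / (l : ℝ) ^ 2 := by
      rw [le_div_iff₀ (by positivity), one_mul]
      exact h5
    calc (l : ℝ) ^ (d + 1) = (l : ℝ) ^ (d + 1) * 1 := (mul_one _).symm
      _ ≤ _ := mul_le_mul_of_nonneg_left h6 (by positivity)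
  · have hla : ∀ i, ((S.a i : ℤ) : ZMod l) ≠ 0 := by
      intro i h
      rw [ZMod.intCast_zmod_eq_zero_iff_dvd] at h
      apply hlM
      rw [hM]
      exact dvd_mul_of_dvd_left (h.trans (Finset.dvd_prod_of_mem _ (Finset.mem_univ i))) _
    have hlm : ∀ i j, ((m i j : ℤ) : ZMod l) ≠ 0 := by
      intro i j h
      rw [ZMod.intCast_zmod_eq_zero_iff_dvd] at h
      apply hlM
      rw [hM]
      refine dvd_mul_of_dvd_right ?_ _
      have h3 : m i j ∣ ∏ j, m i j := Finset.dvd_prod_of_mem _ (Finset.mem_univ j)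
      have h4 : ∏ j, m i j ∣ ∏ i, ∏ j, m i j := Finset.dvd_prod_of_mem (fun i => ∏ j, m i j) (Finset.mem_univ i)
      exact h.trans (h3.trans h4)
    obtain ⟨i, hi⟩ := hI
    by_cases hone : ∃ j ∈ I, i ≠ j
    · obtain ⟨j, hj, hij⟩ := hone
      obtain ⟨r, hr⟩ := hm i j hij
      refine (l4_two S l b I hi hj hij (hla i) (hla j) r (by rw [hr]; exact hlm i j)).trans ?_
      refine mul_le_mul_of_nonneg_left ?_ (by positivity)
      refine div_le_div_of_nonneg_right ?_ (by positivity)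
      calc (9:ℝ) ≤ 2 ^ 4 := by norm_num
        _ ≤ 2 ^ (M.natAbs ^ 2 + 4) := pow_le_pow_right₀ (by norm_num) (by omega)
    · push Not at hone
      have hIi : I = {i} := by
        ext j
        rw [Finset.mem_singleton]
        constructor
        · intro hj
          exact (hone j hj).symm
        · intro hj
          rw [hj]
          exact hi
      have h7 : ∑ t : Fin d → ZMod l, ‖∑ n : ZMod l, ∏ i ∈ I, ((glz l (S.vz l b n t i) : ℝ) : ℂ)‖ = 0 := by
        refine Finset.sum_eq_zero fun t _ => ?_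
        rw [hIi]
        simp only [Finset.prod_singleton]
        rw [l4_bij S l b i (hla i) t (fun s => ((glz l s : ℝ) : ℂ)), ← Complex.ofReal_sum, Pool.Agent.Lib.H59T.E3_glz]
        simp
      rw [h7]
      positivity

/-- Proof. `l ∤ Rm p`, so `l` divides no `(p i).1` and `lf (p i) (κ i) l m` is `gl l m` if `l ∣ κ i` and `1` else; `C3_gl`, `L2T` with
`G i = if l ∣ κ i then glz l else 1`, and `L4_gl` with `I = {i : l ∣ κ i}` (`Finset.prod_filter`). -/
theorem L4_out {k d : ℕ} (S : Sys k d) (hS : S.Half) : ∃ A : ℕ, ∀ (b : Fin k → ℤ) (p : Fin k → Ch), Pm p →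
    ∀ κ : Fin k → ℕ, Kp p κ → ∀ l : ℕ, l.Prime → ¬ l ∣ Rm p → (∃ i, l ∣ κ i) →
    FM S l b (fun i => lf (p i) (κ i) l) ≤ (l : ℝ) ^ (d + 1) * (2 ^ A / (l : ℝ) ^ 2) := by
  obtain ⟨A, hA⟩ := L4_gl S hS
  refine ⟨A, fun b p hp κ hκ l hl hlR hex => ?_⟩
  have hlf : Fact l.Prime := ⟨hl⟩
  have hl0 : NeZero l := ⟨hl.ne_zero⟩
  have hlp : ∀ i, ¬ l ∣ (p i).1 := fun i h =>
    hlR (h.trans (Finset.dvd_lcm (Finset.mem_univ i)))
  rw [L2T S l b (fun i => lf (p i) (κ i) l) (fun i s => if l ∣ κ i then ((glz l s : ℝ) : ℂ) else 1) (fun i m => by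
    unfold Pool.Agent.Lib.H59T.lf
    rw [if_neg (hlp i), Pool.Agent.Lib.H59T.C3_gl])]
  have h := hA l b (univ.filter fun i => l ∣ κ i) (by
    obtain ⟨i, hi⟩ := hex
    exact ⟨i, Finset.mem_filter.2 ⟨Finset.mem_univ i, hi⟩⟩)
  refine le_trans (le_of_eq ?_) h
  unfold FZ
  refine Finset.sum_congr rfl fun t _ => congrArg norm (Finset.sum_congr rfl fun n _ => ?_)
  rw [Finset.prod_filter]

end Pool.Agent.H9U
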