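import Pool.Agent.Lib.H9U.LDefs
import Pool.Agent.Lib.H59P.M3D

/-!
# H9U, chunk L5A (M): the first moment is multiplicative
-/

open Finset

namespace Pool.Agent.H9U

open Pool.Agent.Lib.H59P (Ch bx)

/-- Proof. `t ↦ (t mod a, t mod b)` (coordinatewise) is a bijection from `bx d (a b)` to `bx d a × bx d b` (`Nat.chineseRemainder` in each coordinate;
or injective and equal cardinalities), and `f` and `g` depend only on the residues. -/
theorem L5A_box (d a b : ℕ) (ha : 0 < a) (hb : 0 < b) (hab : Nat.Coprime a b) (f g : (Fin d → ℤ) → ℝ)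
    (hf : ∀ t t' : Fin d → ℤ, (∀ j, (a : ℤ) ∣ t j - t' j) → f t = f t')
    (hg : ∀ t t' : Fin d → ℤ, (∀ j, (b : ℤ) ∣ t j - t' j) → g t = g t') :
    ∑ t ∈ bx d (a * b), f (iv t) * g (iv t) = (∑ t ∈ bx d a, f (iv t)) * ∑ t ∈ bx d b, g (iv t) := by
  classical
  have hmod : ∀ (c : ℕ) (t : Fin d → ℕ) (j : Fin d), (c : ℤ) ∣ iv t j - iv (fun j => t j % c) j := by
    intro c t j
    refine ⟨((t j / c : ℕ) : ℤ), ?_⟩
    have h := Nat.mod_add_div (t j) c
    have h2 : (t j : ℤ) = ((t j % c : ℕ) : ℤ) + (c : ℤ) * ((t j / c : ℕ) : ℤ) := by exact_mod_cast h.symm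
    change (t j : ℤ) - ((t j % c : ℕ) : ℤ) = _
    rw [h2]
    ring
  rw [Finset.sum_mul_sum, ← Finset.sum_product']
  refine Finset.sum_bij (fun (t : Fin d → ℕ) _ => ((fun j => t j % a : Fin d → ℕ), (fun j => t j % b : Fin d → ℕ))) ?_ ?_ ?_ ?_
  · intro t _
    rw [Finset.mem_product]
    refine ⟨Fintype.mem_piFinset.2 fun j => Finset.mem_range.2 (Nat.mod_lt _ ha), Fintype.mem_piFinset.2 fun j => Finset.mem_range.2 (Nat.mod_lt _ hb)⟩
  · intro t ht t' ht' h
    funext j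
    have h1 : t j % a = t' j % a := congrFun (congrArg Prod.fst h) j
    have h2 : t j % b = t' j % b := congrFun (congrArg Prod.snd h) j
    have h3 : t j ≡ t' j [MOD (a * b)] := (Nat.modEq_and_modEq_iff_modEq_mul hab).1 ⟨h1, h2⟩
    exact Nat.ModEq.eq_of_lt_of_lt h3 (Finset.mem_range.1 (Fintype.mem_piFinset.1 ht j)) (Finset.mem_range.1 (Fintype.mem_piFinset.1 ht' j))
  · rintro ⟨x, y⟩ hxy
    rw [Finset.mem_product] at hxy
    have hx : ∀ j, x j < a := fun j => Finset.mem_range.1 (Fintype.mem_piFinset.1 hxy.1 j)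
    have hy : ∀ j, y j < b := fun j => Finset.mem_range.1 (Fintype.mem_piFinset.1 hxy.2 j)
    refine ⟨fun j => (Nat.chineseRemainder hab (x j) (y j) : ℕ), ?_, ?_⟩
    · exact Fintype.mem_piFinset.2 fun j => Finset.mem_range.2 (Nat.chineseRemainder_lt_mul hab (x j) (y j) ha.ne' hb.ne')
    · refine Prod.ext (funext fun j => ?_) (funext fun j => ?_)
      · have h1 := (Nat.chineseRemainder hab (x j) (y j)).2.1
        unfold Nat.ModEq at h1
        change (Nat.chineseRemainder hab (x j) (y j) : ℕ) % a = x j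
        rw [h1, Nat.mod_eq_of_lt (hx j)]
      · have h1 := (Nat.chineseRemainder hab (x j) (y j)).2.2
        unfold Nat.ModEq at h1
        change (Nat.chineseRemainder hab (x j) (y j) : ℕ) % b = y j
        rw [h1, Nat.mod_eq_of_lt (hy j)]
  · intro t _
    change f (iv t) * g (iv t) = f (iv fun j => t j % a) * g (iv fun j => t j % b)
    rw [hf _ _ (hmod a t), hg _ _ (hmod b t)]

theorem l5a_per (f : ℤ → ℂ) (P : ℕ) (hf : ∀ m, f (m + P) = f m) (m m' : ℤ) (h : (P : ℤ) ∣ m - m') : f m = f m' := by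
  obtain ⟨c, hc⟩ := h
  have h1 : ∀ (j : ℕ) (m : ℤ), f (m + j * P) = f m := fun j m => Pool.Agent.Lib.H59P.m3c_per f P hf j m
  rcases Int.eq_nat_or_neg c with ⟨j, hj | hj⟩
  · have e : m = m' + j * P := by
      rw [hj] at hc
      linear_combination hc
    rw [e, h1]
  · have e : m' = m + j * P := by
      rw [hj] at hc
      linear_combination -hc
    rw [e, h1]

theorem l5a_fper {k d : ℕ} (S : Sys k d) (a : ℕ) (β : Fin k → ℤ) (F : Fin k → ℤ → ℂ) (hF : ∀ i m, F i (m + a) = F i m)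
    (n : ℤ) (t : Fin d → ℤ) : ∏ i, F i (S.val β (n + a) t i) = ∏ i, F i (S.val β n t i) := by
  refine Finset.prod_congr rfl fun i _ => l5a_per (F i) a (hF i) _ _ ⟨S.a i, ?_⟩
  unfold Sys.val Sys.lin
  ring

theorem l5a_tper {k d : ℕ} (S : Sys k d) (a : ℕ) (β : Fin k → ℤ) (F : Fin k → ℤ → ℂ) (hF : ∀ i m, F i (m + a) = F i m)
    (n : ℤ) (t t' : Fin d → ℤ) (h : ∀ j, (a : ℤ) ∣ t j - t' j) : ∏ i, F i (S.val β n t i) = ∏ i, F i (S.val β n t' i) := by
  refine Finset.prod_congr rfl fun i _ => l5a_per (F i) a (hF i) _ _ ?_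
  have e : S.val β n t i - S.val β n t' i = ∑ j, S.c i j * (t j - t' j) := by
    unfold Sys.val Sys.lin
    simp only [mul_sub, Finset.sum_sub_distrib]
    ring
  rw [e]
  exact Finset.dvd_sum fun j _ => Dvd.dvd.mul_left (h j) _

/-- Proof. For fixed `t`: `M3d` (`H59P/M3D.lean`) for the sum over `n`, the norm of a product; then `L5A_box`. -/
theorem L5A_two {k d : ℕ} (S : Sys k d) (a b : ℕ) (ha : 0 < a) (hb : 0 < b) (hab : Nat.Coprime a b) (β : Fin k → ℤ)
    (F G : Fin k → ℤ → ℂ) (hF : ∀ i m, F i (m + a) = F i m) (hG : ∀ i m, G i (m + b) = G i m) :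
    FM S (a * b) β (fun i m => F i m * G i m) = FM S a β F * FM S b β G := by
  unfold FM
  rw [← L5A_box d a b ha hb hab (fun t => ‖∑ n ∈ range a, ∏ i, F i (S.val β n t i)‖) (fun t => ‖∑ n ∈ range b, ∏ i, G i (S.val β n t i)‖)
    (fun t t' h => by
      refine congrArg _ (Finset.sum_congr rfl fun n _ => l5a_tper S a β F hF n t t' h))
    (fun t t' h => by
      refine congrArg _ (Finset.sum_congr rfl fun n _ => l5a_tper S b β G hG n t t' h))]
  refine Finset.sum_congr rfl fun t _ => ?_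
  rw [← norm_mul, ← Pool.Agent.Lib.H59P.M3d (fun n => ∏ i, F i (S.val β n (iv t) i)) (fun n => ∏ i, G i (S.val β n (iv t) i)) a b ha hb hab
    (fun m => l5a_fper S a β F hF m (iv t)) (fun m => l5a_fper S b β G hG m (iv t))]
  refine congrArg _ (Finset.sum_congr rfl fun n _ => ?_)
  exact Finset.prod_mul_distrib

/-- Proof. Induction over `P` with `L5A_two`, as `C1_prod` (`H59T/C1.lean`); `FM S 1 β (fun _ _ => 1) = 1`. -/
theorem L5A_prod {k d : ℕ} (S : Sys k d) (β : Fin k → ℤ) (P : Finset ℕ) (q : ℕ → ℕ) (hq : ∀ l ∈ P, 0 < q l)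
    (hc : ∀ l ∈ P, ∀ l' ∈ P, l ≠ l' → Nat.Coprime (q l) (q l')) (F : ℕ → Fin k → ℤ → ℂ)
    (hF : ∀ l ∈ P, ∀ i m, F l i (m + q l) = F l i m) :
    (∀ i m, (∏ l ∈ P, F l i (m + (∏ l ∈ P, q l : ℕ))) = ∏ l ∈ P, F l i m) ∧
    FM S (∏ l ∈ P, q l) β (fun i m => ∏ l ∈ P, F l i m) = ∏ l ∈ P, FM S (q l) β (F l) := by
  classical
  induction P using Finset.induction_on with
  | empty =>
    refine ⟨fun i m => by simp, ?_⟩
    have e : ∀ t ∈ bx d 1, ‖∑ n ∈ range 1, ∏ i : Fin k, (fun _ _ => (1 : ℂ)) i (S.val β n (iv t) i)‖ = 1 := by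
      intro t _
      simp
    have hc1 : (bx d 1).card = 1 := by
      unfold Pool.Agent.Lib.H59P.bx
      rw [Fintype.card_piFinset]
      simp
    have h2 : FM S 1 β (fun _ _ => (1 : ℂ)) = 1 := by
      unfold FM
      rw [Finset.sum_congr rfl e, Finset.sum_const, hc1]
      simp
    rw [Finset.prod_empty, Finset.prod_empty]
    simpa using h2
  | insert l P hl ih =>
    obtain ⟨i1, i2⟩ := ih (fun m hm => hq m (mem_insert_of_mem hm))
      (fun m hm m' hm' => hc m (mem_insert_of_mem hm) m' (mem_insert_of_mem hm'))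
      (fun m hm => hF m (mem_insert_of_mem hm))
    have hl1 : ∀ i m, F l i (m + q l) = F l i m := hF l (mem_insert_self _ _)
    refine ⟨fun i m => ?_, ?_⟩
    · rw [Finset.prod_insert hl, Finset.prod_insert hl, Finset.prod_insert hl]
      have h1 : F l i (m + ((q l * ∏ l ∈ P, q l : ℕ) : ℤ)) = F l i m := by
        refine l5a_per (F l i) (q l) (hl1 i) _ _ ⟨((∏ l ∈ P, q l : ℕ) : ℤ), ?_⟩
        push_cast
        ring
      have h2 : (∏ x ∈ P, F x i (m + ((q l * ∏ l ∈ P, q l : ℕ) : ℤ))) = ∏ x ∈ P, F x i m := by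
        refine l5a_per (fun m => ∏ x ∈ P, F x i m) (∏ l ∈ P, q l) (i1 i) _ _ ⟨(q l : ℤ), ?_⟩
        push_cast
        ring
      rw [h1, h2]
    · have e1 : (fun i m => ∏ x ∈ insert l P, F x i m) = fun i m => F l i m * ∏ x ∈ P, F x i m := by
        funext i m
        rw [Finset.prod_insert hl]
      rw [e1, Finset.prod_insert hl, Finset.prod_insert hl, ← i2]
      refine L5A_two S (q l) (∏ m ∈ P, q m) (hq l (mem_insert_self _ _))
        (Finset.prod_pos fun m hm => hq m (mem_insert_of_mem hm)) ?_ β (F l) _ hl1 i1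
      refine Nat.Coprime.prod_right fun m hm => ?_
      refine hc l (mem_insert_self _ _) m (mem_insert_of_mem hm) ?_
      intro h
      rw [h] at hl
      exact hl hm

end Pool.Agent.H9U
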