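import Pool.Agent.Lib.H9U.L3
import Pool.Agent.Lib.H9U.L4
import Pool.Agent.Lib.H9U.L5A
import Pool.Agent.Lib.H59T.F1
import Pool.Agent.Lib.H59T.L3

/-!
# H9U, chunk L5 (M): the first moment of the components over a complete period
-/

open Finset

namespace Pool.Agent.H9U

open Pool.Agent.Lib.H59P (Ch bx)
open Pool.Agent.Lib.H18Q (gk KS)
open Pool.Agent.Lib.H59T (UU Rm Pm Kp dof tau lf)

/-- Proof. As `F1_glob` (`H59T/F1.lean`), with `κ' = κ`: `N = ∏_{l ∣ N} q l`, `q l = l^(N.factorization l)`, `L3_gk` (`H59T/L3.lean`), `L4_per` (`H59T/L4.lean`),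
`L5A_prod`; `L3_pow` at the primes dividing `Rm p`, `L4_out` at those dividing `dof`; `A` = the sum of the two constants; `F1_tau`. -/
theorem L5_glob {k d : ℕ} (S : Sys k d) (hS : S.Half) : ∃ A : ℕ, ∀ (b : Fin k → ℤ) (p : Fin k → Ch), Pm p →
    ∀ κ : Fin k → ℕ, Kp p κ →
    (∀ i m, gk (p i) (κ i) (m + (Rm p * dof (Rm p) κ κ : ℕ)) = gk (p i) (κ i) m) ∧
    FM S (Rm p * dof (Rm p) κ κ) b (fun i => gk (p i) (κ i)) ≤
      ((Rm p * dof (Rm p) κ κ : ℕ) : ℝ) ^ (d + 1) * (tau (Rm p) ^ A * (Rm p : ℝ) ^ (-(1 / 72) : ℝ) *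
        (tau (dof (Rm p) κ κ) ^ A / (dof (Rm p) κ κ : ℝ) ^ 2)) := by
  classical
  obtain ⟨A1, hA1⟩ := L3_pow S hS
  obtain ⟨A2, hA2⟩ := L4_out S hS
  refine ⟨A1 + A2, fun b p hp κ hκ => ?_⟩
  obtain ⟨A, hA⟩ : ∃ A, A = A1 + A2 := ⟨_, rfl⟩
  rw [← hA]
  obtain ⟨R, hR⟩ : ∃ R, R = Rm p := ⟨_, rfl⟩
  obtain ⟨e, hd⟩ : ∃ e, e = dof (Rm p) κ κ := ⟨_, rfl⟩
  rw [← hd, ← hR]
  obtain ⟨hd0, hdsq, hdR, hddv⟩ := Pool.Agent.Lib.H59T.F1_dof (Rm p) κ κ
  rw [← hd] at hd0 hdsq hdR hddv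
  rw [← hR] at hdR hddv
  have hR0 : R ≠ 0 := by
    rw [hR]
    unfold Rm
    intro h
    rw [Finset.lcm_eq_zero_iff] at h
    obtain ⟨i, _, hi⟩ := h
    exact absurd hi (hp i).1.ne'
  have hpR : ∀ i, (p i).1 ∣ R := fun i => by
    rw [hR]
    exact Finset.dvd_lcm (mem_univ i)
  have hN0 : R * e ≠ 0 := mul_ne_zero hR0 hd0.ne'
  obtain ⟨P, hP⟩ : ∃ P, P = (R * e).primeFactors := ⟨_, rfl⟩
  have hPp : ∀ l ∈ P, l.Prime := fun l hl => by
    rw [hP] at hl
    exact Nat.prime_of_mem_primeFactors hl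
  have hPU : P = R.primeFactors ∪ e.primeFactors := by
    rw [hP, Nat.primeFactors_mul hR0 hd0.ne']
  have hdisj : Disjoint R.primeFactors e.primeFactors := hdR.symm.disjoint_primeFactors
  have hsub : ∀ (κ₀ : ℕ) (h : ∀ l : ℕ, l.Prime → l ∣ κ₀ → κ₀ ≠ 0 → ¬ l ∣ R → l ∣ e), κ₀.primeFactors ⊆ P := by
    intro κ₀ h l hl
    rw [Nat.mem_primeFactors] at hl
    rw [hP, Nat.mem_primeFactors]
    refine ⟨hl.1, ?_, hN0⟩
    by_cases h1 : l ∣ R
    · exact h1.mul_right e
    · exact (h l hl.1 hl.2.1 hl.2.2 h1).mul_left R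
  have h1 : ∀ i, (p i).1.primeFactors ⊆ P := fun i => hsub _ fun l _ h2 _ h3 =>
    absurd (h2.trans (hpR i)) h3
  have h2 : ∀ i, (κ i).primeFactors ⊆ P := fun i => hsub _ fun l h3 h4 h5 h6 =>
    (hddv l h3).2 ⟨h6, i, Or.inl ⟨h4, h5⟩⟩
  obtain ⟨G, hG⟩ : ∃ G : ℕ → Fin k → ℤ → ℂ, G = fun l i => lf (p i) (κ i) l := ⟨_, rfl⟩
  have hgk : ∀ i m, gk (p i) (κ i) m = ∏ l ∈ P, G l i m := by
    intro i m
    rw [hG]
    exact Pool.Agent.Lib.H59T.L3_gk (p i) (hp i).1 (hp i).2 (κ i) (hκ i).1 (hκ i).2 P hPp (h1 i) (h2 i) m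
  obtain ⟨q, hq⟩ : ∃ q : ℕ → ℕ, q = fun l => l ^ (R * e).factorization l := ⟨_, rfl⟩
  have hfac : ∀ l, (R * e).factorization l = R.factorization l + e.factorization l := by
    intro l
    rw [Nat.factorization_mul hR0 hd0.ne']
    rfl
  have hqR : ∀ l ∈ R.primeFactors, q l = l ^ R.factorization l := by
    intro l hl
    have h4 : e.factorization l = 0 := by
      apply Nat.factorization_eq_zero_of_not_dvd
      intro h5
      exact Finset.disjoint_left.1 hdisj hl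
        (Nat.mem_primeFactors.2 ⟨Nat.prime_of_mem_primeFactors hl, h5, hd0.ne'⟩)
    rw [hq]
    show l ^ (R * e).factorization l = _
    rw [hfac, h4, add_zero]
  have hqd : ∀ l ∈ e.primeFactors, q l = l := by
    intro l hl
    have h4 : R.factorization l = 0 := by
      apply Nat.factorization_eq_zero_of_not_dvd
      intro h5
      exact Finset.disjoint_right.1 hdisj hl
        (Nat.mem_primeFactors.2 ⟨Nat.prime_of_mem_primeFactors hl, h5, hR0⟩)
    have h5 : e.factorization l = 1 := by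
      have h6 := (Nat.squarefree_iff_factorization_le_one hd0.ne').1 hdsq l
      have h7 : e.factorization l ≠ 0 := by
        rw [← Finsupp.mem_support_iff, Nat.support_factorization]
        exact hl
      omega
    rw [hq]
    show l ^ (R * e).factorization l = _
    rw [hfac, h4, h5, zero_add, pow_one]
  have hprodq : ∏ l ∈ P, q l = R * e := by
    rw [hq, hP]
    exact (Nat.prod_primeFactors_pow_factorization hN0).symm
  have hq0 : ∀ l ∈ P, 0 < q l := fun l hl => by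
    rw [hq]
    exact pow_pos (hPp l hl).pos _
  have hqc : ∀ l ∈ P, ∀ l' ∈ P, l ≠ l' → Nat.Coprime (q l) (q l') := by
    intro l hl l' hl' hne
    rw [hq]
    exact Nat.Coprime.pow _ _ ((Nat.coprime_primes (hPp l hl) (hPp l' hl')).2 hne)
  have hfacle : ∀ i l, (p i).1.factorization l ≤ R.factorization l := fun i l =>
    (Nat.factorization_le_iff_dvd (hp i).1.ne' hR0).2 (hpR i) l
  have hper : ∀ l ∈ P, ∀ i m, G l i (m + q l) = G l i m := by
    intro l hl i m
    rw [hG]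
    show lf (p i) (κ i) l (m + q l) = lf (p i) (κ i) l m
    rw [hPU, mem_union] at hl
    rcases hl with hl | hl
    · rw [hqR l hl]
      have h3 := Pool.Agent.Lib.H59T.L4_per (p i) (hp i).1 (hp i).2 (κ i) l (R.factorization l)
        (Nat.prime_of_mem_primeFactors hl) (by
          rw [Nat.one_le_iff_ne_zero, ← Finsupp.mem_support_iff, Nat.support_factorization]
          exact hl) (hfacle i l) m 1
      rw [mul_one] at h3
      rw [← h3]
      push_cast
      rfl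
    · rw [hqd l hl]
      have h3 := Pool.Agent.Lib.H59T.L4_per (p i) (hp i).1 (hp i).2 (κ i) l 1
        (Nat.prime_of_mem_primeFactors hl) le_rfl (by
          have h6 : R.factorization l = 0 := by
            apply Nat.factorization_eq_zero_of_not_dvd
            intro h5
            exact Finset.disjoint_right.1 hdisj hl
              (Nat.mem_primeFactors.2 ⟨Nat.prime_of_mem_primeFactors hl, h5, hR0⟩)
          have := hfacle i l
          omega) m 1
      rw [mul_one, pow_one] at h3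
      exact h3
  obtain ⟨hc1, hc2⟩ := L5A_prod S b P q hq0 hqc G hper
  rw [hprodq] at hc1 hc2
  have hfun : (fun i => gk (p i) (κ i)) = fun i m => ∏ l ∈ P, G l i m := by
    funext i m
    exact hgk i m
  refine ⟨fun i m => ?_, ?_⟩
  · rw [hgk, hgk]
    exact hc1 i m
  rw [hfun, hc2, hPU, prod_union hdisj]
  have hFM0 : ∀ l, 0 ≤ FM S (q l) b (G l) := fun l =>
    Finset.sum_nonneg fun _ _ => norm_nonneg _
  have h2A1 : (2 : ℝ) ^ A1 ≤ 2 ^ A := pow_le_pow_right₀ (by norm_num) (by omega)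
  have h2A2 : (2 : ℝ) ^ A2 ≤ 2 ^ A := pow_le_pow_right₀ (by norm_num) (by omega)
  have hbR : ∏ l ∈ R.primeFactors, FM S (q l) b (G l) ≤
      (R : ℝ) ^ (d + 1) * (tau R ^ A * (R : ℝ) ^ (-(1 / 72) : ℝ)) := by
    have h4 : ∏ l ∈ R.primeFactors, FM S (q l) b (G l) ≤ ∏ l ∈ R.primeFactors,
        (((q l : ℕ) : ℝ) ^ (d + 1) * (2 ^ A * ((q l : ℕ) : ℝ) ^ (-(1 / 72) : ℝ))) := by
      refine Finset.prod_le_prod (fun l _ => hFM0 l) fun l hl => ?_
      have h5 := hA1 b p hp κ hκ l (Nat.prime_of_mem_primeFactors hl)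
        (by rw [← hR]; exact Nat.dvd_of_mem_primeFactors hl)
      rw [← hR, ← hqR l hl] at h5
      rw [hG]
      refine h5.trans ?_
      refine mul_le_mul_of_nonneg_left ?_ (by positivity)
      exact mul_le_mul_of_nonneg_right h2A1 (by positivity)
    have h6 : ∏ l ∈ R.primeFactors, ((q l : ℕ) : ℝ) = R := by
      rw [← Nat.cast_prod, Finset.prod_congr rfl hqR]
      rw [← Nat.prod_primeFactors_pow_factorization hR0]
    have h7 : ∏ l ∈ R.primeFactors, ((q l : ℕ) : ℝ) ^ (-(1 / 72) : ℝ) = (R : ℝ) ^ (-(1 / 72) : ℝ) := by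
      rw [Real.finsetProd_rpow _ _ (fun l _ => Nat.cast_nonneg _), h6]
    rw [Finset.prod_mul_distrib, Finset.prod_mul_distrib, Finset.prod_pow, h6, h7,
      Finset.prod_const, ← pow_mul] at h4
    refine h4.trans ?_
    have h8 := Pool.Agent.Lib.H59T.F1_tau R A (Nat.pos_of_ne_zero hR0)
    have h9 : (0 : ℝ) ≤ (R : ℝ) ^ (-(1 / 72) : ℝ) := by positivity
    exact mul_le_mul_of_nonneg_left (mul_le_mul_of_nonneg_right h8 h9) (by positivity)
  have hbd : ∏ l ∈ e.primeFactors, FM S (q l) b (G l) ≤ (e : ℝ) ^ (d + 1) * (tau e ^ A / (e : ℝ) ^ 2) := by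
    have h4 : ∏ l ∈ e.primeFactors, FM S (q l) b (G l) ≤ ∏ l ∈ e.primeFactors,
        ((l : ℝ) ^ (d + 1) * (2 ^ A / (l : ℝ) ^ 2)) := by
      refine Finset.prod_le_prod (fun l _ => hFM0 l) fun l hl => ?_
      have hlp := Nat.prime_of_mem_primeFactors hl
      have hld := (hddv l hlp).1 (Nat.dvd_of_mem_primeFactors hl)
      have h5 := hA2 b p hp κ hκ l hlp (by rw [← hR]; exact hld.1) (by
          obtain ⟨i, hi | hi⟩ := hld.2
          · exact ⟨i, hi.1⟩
          · exact ⟨i, hi.1⟩)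
      rw [hqd l hl, hG]
      refine h5.trans ?_
      refine mul_le_mul_of_nonneg_left ?_ (by positivity)
      exact div_le_div_of_nonneg_right h2A2 (by positivity)
    have h6 : ∏ l ∈ e.primeFactors, (l : ℝ) = e := by
      rw [← Nat.cast_prod, Nat.prod_primeFactors_of_squarefree hdsq]
    rw [Finset.prod_mul_distrib, Finset.prod_div_distrib, Finset.prod_pow (f := fun l : ℕ => (l : ℝ)) (n := d + 1),
      Finset.prod_pow (f := fun l : ℕ => (l : ℝ)) (n := 2), h6,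
      Finset.prod_const, ← pow_mul] at h4
    refine h4.trans ?_
    have h8 := Pool.Agent.Lib.H59T.F1_tau e A hd0
    have h9 : (0 : ℝ) ≤ (e : ℝ) ^ 2 := by positivity
    exact mul_le_mul_of_nonneg_left (div_le_div_of_nonneg_right h8 h9) (by positivity)
  calc (∏ l ∈ R.primeFactors, FM S (q l) b (G l)) * ∏ l ∈ e.primeFactors, FM S (q l) b (G l)
      ≤ ((R : ℝ) ^ (d + 1) * (tau R ^ A * (R : ℝ) ^ (-(1 / 72) : ℝ))) *
        ((e : ℝ) ^ (d + 1) * (tau e ^ A / (e : ℝ) ^ 2)) := by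
        refine mul_le_mul hbR hbd (Finset.prod_nonneg fun l _ => hFM0 l) ?_
        unfold tau
        positivity
    _ = _ := by
        push_cast
        rw [mul_pow]
        ring

end Pool.Agent.H9U
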