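import Pool.Agent.Lib.H9U.LDefs
import Pool.Agent.Lib.H59P.M3C

/-!
# H9U, chunk L6A (S/M): the first moment over a box
-/

open Finset

namespace Pool.Agent.H9U

open Pool.Agent.Lib.H59P (Ch bx)

/-- Proof. `r = L/N + 1 ≤ 2 L/N`: `bx d L ⊆ bx d (r N)`, and `t ↦ (t / N, t % N)` (coordinatewise) is a bijection from `bx d (r N)` to `bx d r × bx d N`, and `f` depends
only on the residues. -/
theorem L6A_box (d N L : ℕ) (hN : 0 < N) (hL : N ≤ L) (f : (Fin d → ℤ) → ℝ) (h0 : ∀ t, 0 ≤ f t)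
    (hf : ∀ t t' : Fin d → ℤ, (∀ j, (N : ℤ) ∣ t j - t' j) → f t = f t') :
    ∑ t ∈ bx d L, f (iv t) ≤ (2 * (L : ℝ) / N) ^ d * ∑ t ∈ bx d N, f (iv t) := by
  classical
  obtain ⟨r, hr⟩ : ∃ r, r = L / N + 1 := ⟨_, rfl⟩
  have hN0 : (0 : ℝ) < N := by exact_mod_cast hN
  have e1 : ∀ t ∈ bx d L, f (iv t) = f (iv (fun j => t j % N)) := by
    intro t _
    refine hf _ _ fun j => ?_
    unfold iv
    refine ⟨((t j / N : ℕ) : ℤ), ?_⟩
    have h1 := Nat.div_add_mod (t j) N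
    have h2 : ((t j : ℕ) : ℤ) = ((N * (t j / N) + t j % N : ℕ) : ℤ) := by rw [h1]
    push_cast at h2 ⊢
    linarith
  rw [Finset.sum_congr rfl e1]
  have hinj : Set.InjOn (fun t : Fin d → ℕ => ((fun j => t j / N, fun j => t j % N) : (Fin d → ℕ) × (Fin d → ℕ)))
      (bx d L : Set (Fin d → ℕ)) := by
    intro t _ t' _ h
    simp only [Prod.mk.injEq] at h
    funext j
    have h1 := congrFun h.1 j
    have h2 := congrFun h.2 j
    have h3 := Nat.div_add_mod (t j) N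
    have h4 := Nat.div_add_mod (t' j) N
    rw [← h3, ← h4, h1, h2]
  have e2 : ∑ t ∈ bx d L, f (iv (fun j => t j % N)) =
      ∑ x ∈ (bx d L).image (fun t : Fin d → ℕ => ((fun j => t j / N, fun j => t j % N) : (Fin d → ℕ) × (Fin d → ℕ))),
        f (iv x.2) := by
    rw [Finset.sum_image hinj]
  have hsub : (bx d L).image (fun t : Fin d → ℕ => ((fun j => t j / N, fun j => t j % N) : (Fin d → ℕ) × (Fin d → ℕ))) ⊆
      bx d r ×ˢ bx d N := by
    intro x hx
    rw [mem_image] at hx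
    obtain ⟨t, ht, rfl⟩ := hx
    unfold bx at ht ⊢
    rw [Fintype.mem_piFinset] at ht
    rw [mem_product, Fintype.mem_piFinset, Fintype.mem_piFinset]
    refine ⟨fun j => ?_, fun j => ?_⟩
    · have h1 := mem_range.1 (ht j)
      rw [mem_range, hr]
      exact Nat.lt_succ_of_le (Nat.div_le_div_right h1.le)
    · exact mem_range.2 (Nat.mod_lt _ hN)
  rw [e2]
  refine (Finset.sum_le_sum_of_subset_of_nonneg hsub fun x _ _ => h0 _).trans ?_
  rw [Finset.sum_product]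
  show ∑ _x ∈ bx d r, ∑ y ∈ bx d N, f (iv y) ≤ _
  rw [Finset.sum_const, nsmul_eq_mul]
  refine mul_le_mul_of_nonneg_right ?_ (Finset.sum_nonneg fun t _ => h0 _)
  have h3 : (bx d r).card = r ^ d := by
    unfold bx
    rw [Fintype.card_piFinset_const, card_range]
  rw [h3]
  push_cast
  refine pow_le_pow_left₀ (by positivity) ?_ d
  rw [hr]
  push_cast
  have h4 : ((L / N : ℕ) : ℝ) ≤ (L : ℝ) / N := Nat.cast_div_le
  have h5 : (1 : ℝ) ≤ (L : ℝ) / N := by
    rw [le_div_iff₀ hN0, one_mul]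
    exact_mod_cast hL
  have h6 : 2 * (L : ℝ) / N = (L : ℝ) / N + (L : ℝ) / N := by ring
  rw [h6]
  linarith

/-- the value of the forms at points congruent modulo `N` -/
theorem l6a_val {k d : ℕ} (S : Sys k d) (b : Fin k → ℤ) (N : ℤ) (n : ℤ) (t t' : Fin d → ℤ)
    (h : ∀ j, N ∣ t j - t' j) (i : Fin k) : ∃ m : ℤ, S.val b n t i = S.val b n t' i + m * N := by
  choose c hc using h
  refine ⟨∑ j, S.c i j * c j, ?_⟩
  unfold Sys.val Sys.lin
  have h1 : ∑ j, S.c i j * t j = ∑ j, S.c i j * t' j + (∑ j, S.c i j * c j) * N := by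
    rw [Finset.sum_mul, ← Finset.sum_add_distrib]
    refine Finset.sum_congr rfl fun j _ => ?_
    have := hc j
    have h2 : t j = t' j + N * c j := by linarith
    rw [h2]
    ring
  rw [h1]
  ring

/-- periodic functions at integer multiples of the period -/
theorem l6a_per (F : ℤ → ℂ) (N : ℕ) (hF : ∀ m, F (m + N) = F m) (j m : ℤ) : F (m + j * N) = F m := by
  have h1 : ∀ (j : ℕ) (m : ℤ), F (m + (j : ℤ) * N) = F m := by
    intro j
    induction j with
    | zero => intro m; simp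
    | succ j ih =>
      intro m
      have : m + ((j + 1 : ℕ) : ℤ) * N = (m + (j : ℤ) * N) + N := by push_cast; ring
      rw [this, hF, ih]
  obtain ⟨n, rfl | rfl⟩ := j.eq_nat_or_neg
  · exact h1 n m
  · have := h1 n (m + (-(n : ℤ)) * N)
    rw [← this]
    congr 1
    ring

/-- the norm of a sum over an interval, for a periodic function -/
theorem l6a_int (f : ℤ → ℂ) (N : ℕ) (hN : 0 < N) (hf : ∀ m, f (m + N) = f m) (B : ℝ) (hB : ∀ m, ‖f m‖ ≤ B) (H : ℕ) :
    ‖∑ n ∈ range H, f n‖ ≤ ((H : ℝ) / N) * ‖∑ n ∈ range N, f n‖ + 2 * N * B := by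
  have h1 := Pool.Agent.Lib.H59P.M3c f N hN hf B hB 0 H
  rw [zero_add, ← Finset.range_eq_Ico] at h1
  have h2 : ∑ n ∈ range H, f n = (∑ n ∈ range H, f n - H * ((∑ n ∈ range N, f n) / N)) +
      H * ((∑ n ∈ range N, f n) / N) := by ring
  rw [h2]
  refine (norm_add_le _ _).trans ?_
  have h3 : ‖(H : ℂ) * ((∑ n ∈ range N, f n) / N)‖ = ((H : ℝ) / N) * ‖∑ n ∈ range N, f n‖ := by
    rw [norm_mul, norm_div, Complex.norm_natCast, Complex.norm_natCast]
    ring
  rw [h3, add_comm]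
  exact add_le_add le_rfl h1

/-- Proof. For each `t`: `M3c` (`H59P/M3C.lean`) with `a = 0`, so `‖∑_{n<H}‖ ≤ (H/N) ‖∑_{n<N}‖ + 2 N B`; sum over `t ∈ bx d L` (`L^d` elements), `L6A_box` with
`f t = ‖∑_{n<N} ∏_i F i (val b n t i)‖` (periodic: `val` changes by multiples of `N`). -/
theorem L6A_mom {k d : ℕ} (S : Sys k d) (N L H : ℕ) (hN : 0 < N) (hL : N ≤ L) (b : Fin k → ℤ) (F : Fin k → ℤ → ℂ)
    (hF : ∀ i m, F i (m + N) = F i m) (B : ℝ) (hB : ∀ m : Fin k → ℤ, ‖∏ i, F i (m i)‖ ≤ B) :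
    ∑ t ∈ bx d L, ‖∑ n ∈ range H, ∏ i, F i (S.val b n (iv t) i)‖ ≤
      (2 * (L : ℝ) / N) ^ d * ((H : ℝ) / N) * FM S N b F + (L : ℝ) ^ d * (2 * N * B) := by
  classical
  have hN0 : (0 : ℝ) < N := by exact_mod_cast hN
  have h1 : ∀ t ∈ bx d L, ‖∑ n ∈ range H, ∏ i, F i (S.val b n (iv t) i)‖ ≤
      ((H : ℝ) / N) * ‖∑ n ∈ range N, ∏ i, F i (S.val b n (iv t) i)‖ + 2 * N * B := by
    intro t _
    have hper : ∀ m : ℤ, (fun n : ℤ => ∏ i, F i (S.val b n (iv t) i)) (m + N) =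
        (fun n : ℤ => ∏ i, F i (S.val b n (iv t) i)) m := by
      intro m
      refine Finset.prod_congr rfl fun i _ => ?_
      have h2 : S.val b (m + N) (iv t) i = S.val b m (iv t) i + S.a i * N := by
        unfold Sys.val Sys.lin
        ring
      rw [h2]
      exact l6a_per (F i) N (hF i) _ _
    have h3 := l6a_int (fun n : ℤ => ∏ i, F i (S.val b n (iv t) i)) N hN hper B (fun m => hB _) H
    exact h3
  refine (Finset.sum_le_sum h1).trans ?_
  rw [Finset.sum_add_distrib, ← Finset.mul_sum, Finset.sum_const, nsmul_eq_mul]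
  have h3 : (bx d L).card = L ^ d := by
    unfold bx
    rw [Fintype.card_piFinset_const, card_range]
  rw [h3]
  have h4 := L6A_box d N L hN hL (fun t => ‖∑ n ∈ range N, ∏ i, F i (S.val b n t i)‖) (fun t => norm_nonneg _)
    (fun t t' h => by
      show ‖∑ n ∈ range N, ∏ i, F i (S.val b n t i)‖ = ‖∑ n ∈ range N, ∏ i, F i (S.val b n t' i)‖
      congr 1
      refine Finset.sum_congr rfl fun n _ => Finset.prod_congr rfl fun i _ => ?_
      obtain ⟨m, hm⟩ := l6a_val S b N n t t' h i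
      rw [hm]
      exact l6a_per (F i) N (hF i) _ _)
  have h5 : ((H : ℝ) / N) * ∑ t ∈ bx d L, ‖∑ n ∈ range N, ∏ i, F i (S.val b n (iv t) i)‖ ≤
      ((H : ℝ) / N) * ((2 * (L : ℝ) / N) ^ d * FM S N b F) :=
    mul_le_mul_of_nonneg_left h4 (by positivity)
  push_cast
  refine add_le_add (h5.trans (le_of_eq (by ring))) le_rfl

end Pool.Agent.H9U
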