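import Pool.Agent.Lib.H9U.L5
import Pool.Agent.Lib.H9U.L6A
import Pool.Agent.Lib.H59T.F2
import Pool.Agent.Lib.H59T.F3

/-!
# H9U, chunk L6 (M): the components with large moduli are small on average over `t`
-/

open Finset

namespace Pool.Agent.H9U

open Pool.Agent.Lib.H68T (PC)
open Pool.Agent.Lib.H59P (Ch bx)
open Pool.Agent.Lib.H18Q (gk KS)
open Pool.Agent.Lib.H59T (UU Rm Pm Kp dof tau lf)

/-- **The local factors.** Proof. As `F3_gen` (`H59T/F3.lean`). Exchange the sums over `n` and `κ`, triangle inequality. For each `κ ∈ T`: `L6A_mom` with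
`N = Rm p * dof (Rm p) κ κ ≤ Q^(2k)` (`F2_size`), `B = Q^k` (`f3_gk`), `L5_glob`: at most
`2^d L^d H (τ(R)^A R^(-1/72) τ(d)^A/d²) + 2 L^d Q^(2k) Q^k`. Sum over `κ`: `F2_sum` with `c = 1/72` (its left side contains the diagonal `κ' = κ`, all terms
are nonnegative), and at most `Q^k` elements: the rest is `2 L^d Q^(4k) ≤ 2 L^d H Q^(-6k) ≤ 2 L^d H D^(-1/144)` (`D ≤ Q^k` if `T` is not
empty). -/
theorem L6_main {k d : ℕ} (S : Sys k d) (hS : S.Half) : ∃ C : ℝ, 0 < C ∧ ∀ Q D : ℕ, 1 ≤ D →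
    ∀ p : Fin k → Ch, (∀ i, p i ∈ PC Q) → ∀ T : Finset (Fin k → ℕ),
    T ⊆ Fintype.piFinset (fun i => KS Q (p i).1) → (∀ κ ∈ T, D < univ.lcm (fun i => (p i).1 * κ i)) →
    ∀ (b : Fin k → ℤ) (L H : ℕ), Q ^ (10 * k) ≤ L → Q ^ (10 * k) ≤ H →
    ∑ t ∈ bx d L, ‖∑ n ∈ range H, ∑ κ ∈ T, ∏ i, gk (p i) (κ i) (S.val b n (iv t) i)‖ ≤
      C * ((L : ℝ) ^ d * H) * (D : ℝ) ^ (-(1 / 144) : ℝ) := by
  classical
  obtain ⟨A, hA⟩ := L5_glob S hS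
  obtain ⟨C, hC, hsum⟩ := Pool.Agent.Lib.H59T.F2_sum k A (1 / 72) (by norm_num) (by norm_num)
  refine ⟨2 ^ d * C + 2, by positivity, fun Q D hD p hp T hT hTD b L H hL hH => ?_⟩
  have hexp : (-((1 / 72 : ℝ) / 2)) = (-(1 / 144) : ℝ) := by norm_num
  have hDr : (1 : ℝ) ≤ (D : ℝ) := by exact_mod_cast hD
  have hDp : (0 : ℝ) < (D : ℝ) ^ (-(1 / 144) : ℝ) := Real.rpow_pos_of_pos (by linarith) _
  have hV : (0 : ℝ) ≤ (L : ℝ) ^ d * H := by positivity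
  rcases T.eq_empty_or_nonempty with hT0 | ⟨κ₀, hκ₀⟩
  · subst hT0
    have h0 : ∑ t ∈ bx d L, ‖∑ n ∈ range H, ∑ κ ∈ (∅ : Finset (Fin k → ℕ)),
        ∏ i, gk (p i) (κ i) (S.val b n (iv t) i)‖ = 0 := by simp
    rw [h0]
    exact mul_nonneg (mul_nonneg (by positivity) hV) hDp.le
  have hKS : ∀ κ ∈ T, ∀ i, κ i ∈ KS Q (p i).1 := fun κ hκ i => (Fintype.mem_piFinset.1 (hT hκ)) i
  have hPm : Pm p := fun i => ⟨by have := (Pool.Agent.Lib.H68T.mem_PC.1 (hp i)).1; omega,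
    (Pool.Agent.Lib.H68T.mem_PC.1 (hp i)).2.2⟩
  have hKp : ∀ κ ∈ T, Kp p κ := fun κ hκ i => (Pool.Agent.Lib.H18Q.CA_mem_KS.1 (hKS κ hκ i)).2
  have hle1 : ∀ κ ∈ T, ∀ i, (p i).1 * κ i ≤ Q := by
    intro κ hκ i
    have h1 := (Pool.Agent.Lib.H18Q.CA_mem_KS.1 (hKS κ hκ i)).1.2
    calc (p i).1 * κ i ≤ (p i).1 * (Q / (p i).1) := Nat.mul_le_mul_left _ h1
      _ ≤ Q := Nat.mul_div_le Q _
  have hpos : ∀ κ ∈ T, ∀ i, 0 < (p i).1 * κ i := by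
    intro κ hκ i
    exact Nat.mul_pos (hPm i).1 (Pool.Agent.Lib.H18Q.CA_mem_KS.1 (hKS κ hκ i)).1.1
  have hDQ : D ≤ Q ^ k := by
    have h1 : (univ.lcm fun i => (p i).1 * κ₀ i) ≤ ∏ i, (p i).1 * κ₀ i := by
      refine Nat.le_of_dvd (Finset.prod_pos fun i _ => hpos κ₀ hκ₀ i) ?_
      exact Finset.lcm_dvd fun i hi => Finset.dvd_prod_of_mem (fun i => (p i).1 * κ₀ i) hi
    have h2 : ∏ i, (p i).1 * κ₀ i ≤ ∏ _i : Fin k, Q := Finset.prod_le_prod' fun i _ => hle1 κ₀ hκ₀ i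
    rw [Finset.prod_const, Finset.card_univ, Fintype.card_fin] at h2
    exact (hTD κ₀ hκ₀).le.trans (h1.trans h2)
  have hQk : 1 ≤ Q ^ k := hD.trans hDQ
  have hQkr : (1 : ℝ) ≤ (Q : ℝ) ^ k := by exact_mod_cast hQk
  have hcard : T.card ≤ Q ^ k := by
    calc T.card ≤ (Fintype.piFinset (fun i => KS Q (p i).1)).card := Finset.card_le_card hT
      _ = ∏ i, (KS Q (p i).1).card := Fintype.card_piFinset _
      _ ≤ ∏ _i : Fin k, Q := by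
          refine Finset.prod_le_prod' fun i _ => ?_
          unfold KS
          refine (Finset.card_filter_le _ _).trans ?_
          rw [Nat.card_Icc, Nat.add_sub_cancel]
          exact Nat.div_le_self _ _
      _ = Q ^ k := by rw [Finset.prod_const, Finset.card_univ, Fintype.card_fin]
  have hone : ∀ κ ∈ T, ∑ t ∈ bx d L, ‖∑ n ∈ range H, ∏ i, gk (p i) (κ i) (S.val b n (iv t) i)‖ ≤
      (2 ^ d * ((L : ℝ) ^ d * H)) * (tau (Rm p) ^ A * (Rm p : ℝ) ^ (-(1 / 72) : ℝ) *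
        (tau (dof (Rm p) κ κ) ^ A / (dof (Rm p) κ κ : ℝ) ^ 2)) + (L : ℝ) ^ d * (2 * ((Q : ℝ) ^ k) ^ 3) := by
    intro κ hκ
    obtain ⟨hper, hb4⟩ := hA b p hPm κ (hKp κ hκ)
    obtain ⟨hN, hNQ⟩ := Pool.Agent.Lib.H59T.F2_size Q p hp κ κ (hKS κ hκ) (hKS κ hκ)
    set N := Rm p * dof (Rm p) κ κ with hNdef
    have hNL : N ≤ L := by
      refine hNQ.trans (le_trans ?_ hL)
      calc Q ^ (2 * k) = (Q ^ k) ^ 2 := by rw [← pow_mul, mul_comm]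
        _ ≤ (Q ^ k) ^ 10 := Nat.pow_le_pow_right hQk (by norm_num)
        _ = Q ^ (10 * k) := by rw [← pow_mul, mul_comm]
    have hB : ∀ m : Fin k → ℤ, ‖∏ i, gk (p i) (κ i) (m i)‖ ≤ (Q : ℝ) ^ k := by
      intro m
      rw [norm_prod]
      calc ∏ i : Fin k, ‖gk (p i) (κ i) (m i)‖ ≤ ∏ _i : Fin k, (Q : ℝ) :=
            Finset.prod_le_prod (fun i _ => norm_nonneg _)
              (fun i _ => Pool.Agent.Lib.H59T.f3_gk Q (p i) (hp i) _ (hKS κ hκ i) _)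
        _ = (Q : ℝ) ^ k := by rw [Finset.prod_const, Finset.card_univ, Fintype.card_fin]
    have h1 := L6A_mom S N L H hN hNL b (fun i => gk (p i) (κ i)) hper ((Q : ℝ) ^ k) hB
    refine h1.trans (add_le_add ?_ ?_)
    · have hNr : (0 : ℝ) < (N : ℝ) := by exact_mod_cast hN
      have hw0 : (0 : ℝ) ≤ (2 * (L : ℝ) / N) ^ d * ((H : ℝ) / N) := by positivity
      refine (mul_le_mul_of_nonneg_left hb4 hw0).trans (le_of_eq ?_)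
      rw [div_pow, mul_pow, pow_succ]
      field_simp
    · refine mul_le_mul_of_nonneg_left ?_ (by positivity)
      have h2 : (N : ℝ) ≤ ((Q : ℝ) ^ k) ^ 2 := by
        have h3 : (N : ℝ) ≤ ((Q ^ (2 * k) : ℕ) : ℝ) := by exact_mod_cast hNQ
        rw [Nat.cast_pow, mul_comm, pow_mul] at h3
        exact h3
      have h3 : (N : ℝ) * (Q : ℝ) ^ k ≤ ((Q : ℝ) ^ k) ^ 2 * (Q : ℝ) ^ k :=
        mul_le_mul_of_nonneg_right h2 (by positivity)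
      calc 2 * (N : ℝ) * (Q : ℝ) ^ k = 2 * ((N : ℝ) * (Q : ℝ) ^ k) := by ring
        _ ≤ 2 * (((Q : ℝ) ^ k) ^ 2 * (Q : ℝ) ^ k) := by linarith
        _ = 2 * ((Q : ℝ) ^ k) ^ 3 := by ring
  have hreal : ∑ t ∈ bx d L, ‖∑ n ∈ range H, ∑ κ ∈ T, ∏ i, gk (p i) (κ i) (S.val b n (iv t) i)‖ ≤
      ∑ κ ∈ T, ∑ t ∈ bx d L, ‖∑ n ∈ range H, ∏ i, gk (p i) (κ i) (S.val b n (iv t) i)‖ := by
    rw [Finset.sum_comm]
    refine Finset.sum_le_sum fun t _ => ?_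
    rw [Finset.sum_comm]
    exact norm_sum_le _ _
  refine hreal.trans ((Finset.sum_le_sum fun κ hκ => hone κ hκ).trans ?_)
  rw [Finset.sum_add_distrib, ← Finset.mul_sum, Finset.sum_const, nsmul_eq_mul]
  have hterm0 : ∀ κ κ' : Fin k → ℕ, 0 ≤ tau (Rm p) ^ A * (Rm p : ℝ) ^ (-(1 / 72) : ℝ) *
      (tau (dof (Rm p) κ κ') ^ A / (dof (Rm p) κ κ' : ℝ) ^ 2) := by
    intro κ κ'
    unfold tau
    positivity
  have hdiag : ∑ κ ∈ T, tau (Rm p) ^ A * (Rm p : ℝ) ^ (-(1 / 72) : ℝ) *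
      (tau (dof (Rm p) κ κ) ^ A / (dof (Rm p) κ κ : ℝ) ^ 2) ≤ C * (D : ℝ) ^ (-(1 / 144) : ℝ) := by
    have h1 := hsum Q D hD p hp T hT hTD
    rw [hexp] at h1
    refine le_trans (Finset.sum_le_sum fun κ hκ => ?_) h1
    exact Finset.single_le_sum (f := fun κ' => tau (Rm p) ^ A * (Rm p : ℝ) ^ (-(1 / 72) : ℝ) *
      (tau (dof (Rm p) κ κ') ^ A / (dof (Rm p) κ κ' : ℝ) ^ 2)) (fun κ' _ => hterm0 κ κ') hκ
  have herr : (T.card : ℝ) * ((L : ℝ) ^ d * (2 * ((Q : ℝ) ^ k) ^ 3)) ≤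
      2 * ((L : ℝ) ^ d * H) * (D : ℝ) ^ (-(1 / 144) : ℝ) := by
    have h1 : (T.card : ℝ) ≤ (Q : ℝ) ^ k := by exact_mod_cast hcard
    have h2 : (0 : ℝ) < (Q : ℝ) ^ k := by linarith
    have h4 : ((Q : ℝ) ^ k)⁻¹ ≤ (D : ℝ) ^ (-(1 / 144) : ℝ) := by
      have h5 : (D : ℝ) ≤ (Q : ℝ) ^ k := by exact_mod_cast hDQ
      rw [Real.rpow_neg (by linarith)]
      refine inv_anti₀ (Real.rpow_pos_of_pos (by linarith) _) ?_
      calc (D : ℝ) ^ ((1 / 144 : ℝ)) ≤ (D : ℝ) ^ (1 : ℝ) := Real.rpow_le_rpow_of_exponent_le hDr (by norm_num)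
        _ = (D : ℝ) := Real.rpow_one _
        _ ≤ (Q : ℝ) ^ k := h5
    have h5 : ((Q : ℝ) ^ k) ^ 10 ≤ (H : ℝ) := by
      have h6 : ((Q ^ (10 * k) : ℕ) : ℝ) ≤ (H : ℝ) := by exact_mod_cast hH
      rw [Nat.cast_pow, mul_comm, pow_mul] at h6
      exact h6
    have h6 : ((Q : ℝ) ^ k) ^ 4 ≤ (H : ℝ) * ((Q : ℝ) ^ k)⁻¹ := by
      rw [le_mul_inv_iff₀ h2]
      calc ((Q : ℝ) ^ k) ^ 4 * (Q : ℝ) ^ k = ((Q : ℝ) ^ k) ^ 5 := by ring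
        _ ≤ ((Q : ℝ) ^ k) ^ 10 := pow_le_pow_right₀ hQkr (by norm_num)
        _ ≤ (H : ℝ) := h5
    have h7 : (H : ℝ) * ((Q : ℝ) ^ k)⁻¹ ≤ (H : ℝ) * (D : ℝ) ^ (-(1 / 144) : ℝ) :=
      mul_le_mul_of_nonneg_left h4 (Nat.cast_nonneg _)
    calc (T.card : ℝ) * ((L : ℝ) ^ d * (2 * ((Q : ℝ) ^ k) ^ 3))
        ≤ (Q : ℝ) ^ k * ((L : ℝ) ^ d * (2 * ((Q : ℝ) ^ k) ^ 3)) :=
          mul_le_mul_of_nonneg_right h1 (by positivity)
      _ = 2 * (L : ℝ) ^ d * ((Q : ℝ) ^ k) ^ 4 := by ring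
      _ ≤ 2 * (L : ℝ) ^ d * ((H : ℝ) * (D : ℝ) ^ (-(1 / 144) : ℝ)) :=
          mul_le_mul_of_nonneg_left (h6.trans h7) (by positivity)
      _ = 2 * ((L : ℝ) ^ d * H) * (D : ℝ) ^ (-(1 / 144) : ℝ) := by ring
  calc _ ≤ (2 ^ d * ((L : ℝ) ^ d * H)) * (C * (D : ℝ) ^ (-(1 / 144) : ℝ)) +
        2 * ((L : ℝ) ^ d * H) * (D : ℝ) ^ (-(1 / 144) : ℝ) :=
        add_le_add (mul_le_mul_of_nonneg_left hdiag (by positivity)) herr
    _ = (2 ^ d * C + 2) * ((L : ℝ) ^ d * H) * (D : ℝ) ^ (-(1 / 144) : ℝ) := by ring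

/-- Arbitrary base points. Proof. `val b (v + n) (u + t) i = val b' n t i` with `b' i = val b v u i`; `L6_main`. -/
theorem L6_base {k d : ℕ} (S : Sys k d) (hS : S.Half) : ∃ C : ℝ, 0 < C ∧ ∀ Q D : ℕ, 1 ≤ D →
    ∀ p : Fin k → Ch, (∀ i, p i ∈ PC Q) → ∀ T : Finset (Fin k → ℕ),
    T ⊆ Fintype.piFinset (fun i => KS Q (p i).1) → (∀ κ ∈ T, D < univ.lcm (fun i => (p i).1 * κ i)) →
    ∀ (b : Fin k → ℤ) (v : ℤ) (u : Fin d → ℤ) (L H : ℕ), Q ^ (10 * k) ≤ L → Q ^ (10 * k) ≤ H →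
    ∑ t ∈ bx d L, ‖∑ n ∈ range H, ∑ κ ∈ T, ∏ i, gk (p i) (κ i) (S.val b (v + n) (fun j => u j + t j) i)‖ ≤
      C * ((L : ℝ) ^ d * H) * (D : ℝ) ^ (-(1 / 144) : ℝ) := by
  obtain ⟨C, hC, h⟩ := L6_main S hS
  refine ⟨C, hC, fun Q D hD p hp T hT hTD b v u L H hL hH => ?_⟩
  have h1 := h Q D hD p hp T hT hTD (fun i => S.val b v u i) L H hL hH
  have h2 : ∀ (t : Fin d → ℕ) (n : ℕ) (i : Fin k), S.val b (v + n) (fun j => u j + t j) i =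
      S.val (fun i => S.val b v u i) n (iv t) i := by
    intro t n i
    unfold Sys.val Sys.lin iv
    simp only [mul_add, Finset.sum_add_distrib]
    ring
  simp only [h2]
  exact h1

end Pool.Agent.H9U
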