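import Pool.Agent.Lib.H9U.Defs
import Pool.Agent.Lib.H59P.SDefs
import Pool.Agent.Lib.H59T.LKDefs

/-!
# Project H9U, module L (local factors): definitions
-/

open Finset

namespace Pool.Agent.H9U

open Pool.Agent.Lib.H59P (Ch bx)

noncomputable section

/-- The `i`-th affine form at `(n, t)` over `ZMod q`. -/
def Sys.vz {k d : ℕ} (S : Sys k d) (q : ℕ) (b : Fin k → ℤ) (n : ZMod q) (t : Fin d → ZMod q) (i : Fin k) : ZMod q :=
  (S.a i : ZMod q) * n + ∑ j, (S.c i j : ZMod q) * t j + (b i : ZMod q)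

/-- The first moment over `t` of the sums over `n`, for functions on `ZMod q`. -/
def FZ {k d : ℕ} (S : Sys k d) (q : ℕ) [NeZero q] (b : Fin k → ℤ) (G : Fin k → ZMod q → ℂ) : ℝ :=
  ∑ t : Fin d → ZMod q, ‖∑ n : ZMod q, ∏ i, G i (S.vz q b n t i)‖

/-- The first moment over a complete period, for functions on the integers. -/
def FM {k d : ℕ} (S : Sys k d) (q : ℕ) (b : Fin k → ℤ) (F : Fin k → ℤ → ℂ) : ℝ :=
  ∑ t ∈ bx d q, ‖∑ n ∈ range q, ∏ i, F i (S.val b n (iv t) i)‖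

/-- The product over the four points `s, s + A, s + B, s + A + B`. -/
def P4z {q : ℕ} (F : ZMod q → ℂ) (A B s : ZMod q) : ℂ :=
  F s * star (F (s + A)) * star (F (s + B)) * F (s + A + B)

/-- The box sum with base point `c` and steps `e0, e1, e2`. -/
def Bq {q : ℕ} [NeZero q] (F : ZMod q → ℂ) (e0 e1 e2 c : ZMod q) : ℝ :=
  ∑ n : ZMod q, ∑ n' : ZMod q, ∑ x : ZMod q, ∑ x' : ZMod q,
    ‖∑ y : ZMod q, F (e0 * n + e1 * x + e2 * y + c) * star (F (e0 * n' + e1 * x + e2 * y + c)) *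
      star (F (e0 * n + e1 * x' + e2 * y + c)) * F (e0 * n' + e1 * x' + e2 * y + c)‖ ^ 2

/-- The sum over all base points and all differences `e0 h, e1 h', e2 h''` (real part). -/
def Vq {q : ℕ} [NeZero q] (F : ZMod q → ℂ) (e0 e1 e2 : ZMod q) : ℝ :=
  (∑ h : ZMod q, ∑ h' : ZMod q, ∑ h'' : ZMod q, ∑ s : ZMod q,
    P4z F (e0 * h) (e1 * h') s * star (P4z F (e0 * h) (e1 * h') (s + e2 * h''))).re

end

end Pool.Agent.H9U
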