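import Pool.Agent.Lib.H9U.Defs
import Pool.Agent.Lib.H59P.M2
import Pool.Agent.Lib.H59P.Z1A

/-!
# H9U, chunk M2 (S): the pointwise identities of H59P at arbitrary values
-/

open Finset

namespace Pool.Agent.H9U

open Pool.Agent.Lib.H68T (PC p0)
open Pool.Agent.Lib.H18Q (gk KS SG)
open Pool.Agent.Lib.H59P (Ch cj uu gl pr SF)

/-- Proof. `M2` (`H59P/M2.lean`) with `n := 0` and `h i := (m i).toNat`; `Ph` and `Wd` at `n = 0` are `PhV` and `WdV`. -/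
theorem M2S {k : ℕ} (Q D R : ℕ) (hDQ : D ≤ Q) (hR : 0 < R) (p : Fin k → Ch) (hp : ∀ i, p i ∈ PC Q)
    (hd : ∀ i, (p i).1 ∣ R) (m : Fin k → ℤ) (hm : ∀ i, 0 ≤ m i) :
    ∑ κ ∈ (Fintype.piFinset fun i => KS Q (p i).1).filter (fun κ => R.lcm (univ.lcm κ) ≤ D),
      ∏ i, gk (p i) (κ i) (m i) =
    PhV p R.primeFactors m * ∑ e ∈ SF (D / R) R, ((WdV e m : ℝ) : ℂ) := by
  have e : ∀ i, (0 : ℤ) + (((m i).toNat : ℕ) : ℤ) = m i := fun i => by rw [zero_add, Int.toNat_of_nonneg (hm i)]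
  have h := Pool.Agent.Lib.H59P.M2 Q D R hDQ hR p hp hd (fun i => (m i).toNat) 0
  unfold Pool.Agent.Lib.H59P.Ph Pool.Agent.Lib.H59P.Wd Pool.Agent.Lib.H59P.Wl at h
  simp only [e] at h
  exact h

/-- Proof. `Z1a` (`H59P/Z1A.lean`) with `n := 0` and `h i := (m i).toNat`. -/
theorem Z1S {k : ℕ} (Q : ℕ) (c : Fin k → Ch → ℂ) (m : Fin k → ℤ) (hm : ∀ i, 0 ≤ m i) :
    ∏ i, SG Q (c i) (m i) =
      ∑ p ∈ Fintype.piFinset fun _ : Fin k => PC Q, (∏ i, c i (p i)) *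
        ∑ κ ∈ Fintype.piFinset fun i => KS Q (p i).1, ∏ i, gk (p i) (κ i) (m i) := by
  have e : ∀ i, (0 : ℤ) + (((m i).toNat : ℕ) : ℤ) = m i := fun i => by rw [zero_add, Int.toNat_of_nonneg (hm i)]
  have h := Pool.Agent.Lib.H59P.Z1a Q c (fun i => (m i).toNat) 0
  simp only [e] at h
  exact h

end Pool.Agent.H9U
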