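import Pool.Agent.Lib.H9U.Defs
import Pool.Agent.Lib.H59P.M3F

/-!
# H9U, chunk M3 (M): the mean of the main term modulo `R e`
-/

open Finset

namespace Pool.Agent.H9U

open Pool.Agent.Lib.H68T (PC p0)
open Pool.Agent.Lib.H59P (Ch cj uu gl pr SF)

variable {k d : ℕ} (S : Sys k d) (b : Fin k → ℤ) (t : Fin d → ℤ)

theorem m3_val (n N : ℤ) (i : Fin k) : S.val b (n + N) t i = S.val b n t i + S.a i * N := by
  unfold Sys.val Sys.lin
  ring

/-- Proof. `val (n + N) i = val n i + a_i N`; `gl_per` (`H59P/M3A.lean`), `l ∣ P`. -/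
theorem M3S_W (l P : ℕ) (hlP : l ∣ P) (n : ℤ) :
    WlV l (fun i => S.val b (n + P) t i) = WlV l (fun i => S.val b n t i) := by
  obtain ⟨c, rfl⟩ := hlP
  unfold WlV
  congr 1
  apply Finset.prod_congr rfl
  intro i _
  have h1 : S.val b (n + ((l * c : ℕ) : ℤ)) t i = S.val b n t i + (S.a i * c) * l := by
    rw [m3_val]; push_cast; ring
  beta_reduce
  rw [h1, Pool.Agent.Lib.H59P.gl_per]

theorem m3_uu (R : ℕ) (m j : ℤ) : uu R.primeFactors (m + j * R) = uu R.primeFactors m := by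
  unfold uu
  apply Finset.prod_congr rfl
  intro l hl
  obtain ⟨c, hc⟩ := Nat.dvd_of_mem_primeFactors hl
  have h1 : m + j * (R : ℤ) = m + (j * c) * l := by
    rw [show (R : ℤ) = ((l * c : ℕ) : ℤ) from by rw [← hc]]
    push_cast; ring
  rw [h1, Pool.Agent.Lib.H59P.gl_per]

theorem m3_cj (p : Ch) (R : ℕ) (hd : p.1 ∣ R) (m j : ℤ) : cj p (m + j * R) = cj p m := by
  unfold cj
  have h1 : (((m + j * (R : ℤ) : ℤ)) : ZMod p.1) = (m : ZMod p.1) := by
    push_cast
    rw [(ZMod.natCast_eq_zero_iff R p.1).2 hd, mul_zero, add_zero]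
  rw [h1]

/-- Proof. As `M3f_per` (`H59P/M3F.lean`): `cj (p i)` has period `(p i).1 ∣ R`, `uu R.primeFactors` has period `R`. -/
theorem M3S_P (p : Fin k → Ch) (R : ℕ) (hd : ∀ i, (p i).1 ∣ R) (n : ℤ) :
    PhV p R.primeFactors (fun i => S.val b (n + R) t i) = PhV p R.primeFactors (fun i => S.val b n t i) := by
  unfold PhV
  apply Finset.prod_congr rfl
  intro i _
  beta_reduce
  rw [m3_val, m3_uu, m3_cj (p i) R (hd i)]

theorem m3_per_prod (T : Finset ℕ) (P : ℕ) (hP : ∀ l ∈ T, l ∣ P) (n : ℤ) :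
    ∏ l ∈ T, WlV l (fun i => S.val b (n + P) t i) = ∏ l ∈ T, WlV l (fun i => S.val b n t i) :=
  Finset.prod_congr rfl fun l hl => M3S_W S b t l P (hP l hl) n

theorem m3_prime (l : ℕ) (hl : l.Prime) :
    ∑ n ∈ range l, WlV l (fun i => S.val b n t i) = l * tpS S b t l := by
  have hl0 : (l : ℝ) ≠ 0 := by exact_mod_cast hl.pos.ne'
  unfold tpS WlV
  rw [Finset.sum_sub_distrib, Finset.sum_const, Finset.card_range, nsmul_eq_mul, mul_one]
  field_simp

theorem m3_set (T : Finset ℕ) : (∀ l ∈ T, l.Prime) →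
    ∑ n ∈ range (∏ l ∈ T, l), ∏ l ∈ T, WlV l (fun i => S.val b n t i) = ((∏ l ∈ T, l : ℕ) : ℝ) * ∏ l ∈ T, tpS S b t l := by
  induction T using Finset.induction_on with
  | empty => intro _; simp
  | insert a s ha ih =>
    intro hS
    have hap : a.Prime := hS a (Finset.mem_insert_self _ _)
    have hs : ∀ l ∈ s, l.Prime := fun l hl => hS l (Finset.mem_insert_of_mem hl)
    have hcop : Nat.Coprime a (∏ l ∈ s, l) := by
      apply Nat.Coprime.prod_right
      intro l hl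
      rw [Nat.coprime_primes hap (hs l hl)]
      rintro rfl
      exact ha hl
    have hpos : 0 < ∏ l ∈ s, l := Finset.prod_pos fun l hl => (hs l hl).pos
    have key := Pool.Agent.Lib.H59P.M3d (fun n => ((WlV a (fun i => S.val b n t i) : ℝ) : ℂ))
      (fun n => ((∏ l ∈ s, WlV l (fun i => S.val b n t i) : ℝ) : ℂ)) a
      (∏ l ∈ s, l) hap.pos hpos hcop
      (fun m => by
        show ((WlV a (fun i => S.val b (m + a) t i) : ℝ) : ℂ) = ((WlV a (fun i => S.val b m t i) : ℝ) : ℂ)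
        rw [M3S_W S b t a a dvd_rfl m])
      (fun m => by
        show ((∏ l ∈ s, WlV l (fun i => S.val b (m + ((∏ l ∈ s, l : ℕ) : ℤ)) t i) : ℝ) : ℂ) = ((∏ l ∈ s, WlV l (fun i => S.val b m t i) : ℝ) : ℂ)
        rw [m3_per_prod S b t s _ (fun l hl => Finset.dvd_prod_of_mem _ hl) m])
    have key' : ∑ n ∈ range (a * ∏ l ∈ s, l), WlV a (fun i => S.val b n t i) * ∏ l ∈ s, WlV l (fun i => S.val b n t i) =
        (∑ n ∈ range a, WlV a (fun i => S.val b n t i)) * ∑ n ∈ range (∏ l ∈ s, l), ∏ l ∈ s, WlV l (fun i => S.val b n t i) := by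
      have : ((∑ n ∈ range (a * ∏ l ∈ s, l), WlV a (fun i => S.val b n t i) * ∏ l ∈ s, WlV l (fun i => S.val b n t i) : ℝ) : ℂ) =
          (((∑ n ∈ range a, WlV a (fun i => S.val b n t i)) * ∑ n ∈ range (∏ l ∈ s, l), ∏ l ∈ s, WlV l (fun i => S.val b n t i) : ℝ) : ℂ) := by
        rw [Complex.ofReal_sum, Complex.ofReal_mul, Complex.ofReal_sum, Complex.ofReal_sum]
        rw [← key]
        apply Finset.sum_congr rfl
        intro n _
        rw [Complex.ofReal_mul]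
      exact_mod_cast this
    rw [Finset.prod_insert ha, Finset.prod_insert ha]
    have e1 : ∑ n ∈ range (a * ∏ l ∈ s, l), ∏ l ∈ insert a s, WlV l (fun i => S.val b n t i) =
        ∑ n ∈ range (a * ∏ l ∈ s, l), WlV a (fun i => S.val b n t i) * ∏ l ∈ s, WlV l (fun i => S.val b n t i) := by
      apply Finset.sum_congr rfl
      intro n _
      rw [Finset.prod_insert ha]
    rw [e1, key', ih hs, m3_prime S b t a hap, Nat.cast_mul]
    ring

/-- Proof. As `M3e` (`H59P/M3E.lean`): induction over the prime factors with `M3d`. -/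
theorem M3S_e (e : ℕ) (he : Squarefree e) :
    ∑ n ∈ range e, WdV e (fun i => S.val b n t i) = e * tdS S b t e := by
  have h1 := m3_set S b t e.primeFactors (fun l hl => Nat.prime_of_mem_primeFactors hl)
  rw [Nat.prod_primeFactors_of_squarefree he] at h1
  exact h1

theorem m3_Ph (p : Fin k → Ch) (R : ℕ) (hR : 0 < R) (m : Fin k → ℤ) :
    ‖PhV p R.primeFactors m‖ ≤ ((R : ℝ) / (Nat.totient R : ℝ)) ^ k := by
  have h2 : ‖PhV p R.primeFactors m‖ ≤ ∏ _i : Fin k, ((R : ℝ) / (Nat.totient R : ℝ)) := by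
    unfold PhV
    rw [norm_prod]
    apply Finset.prod_le_prod (fun i _ => norm_nonneg _)
    intro i _
    have h0 := Pool.Agent.Lib.H59P.M3a_uu R hR (m i)
    rw [norm_mul, Complex.norm_real, Real.norm_of_nonneg h0.1]
    have h1 : ‖cj (p i) (m i)‖ ≤ 1 := by
      unfold cj
      rw [RCLike.norm_conj]
      exact DirichletCharacter.norm_le_one _ _
    calc ‖cj (p i) (m i)‖ * uu R.primeFactors (m i) ≤ 1 * uu R.primeFactors (m i) :=
          mul_le_mul_of_nonneg_right h1 h0.1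
      _ = uu R.primeFactors (m i) := one_mul _
      _ ≤ _ := h0.2
  rwa [Finset.prod_const, Finset.card_univ, Fintype.card_fin] at h2

theorem m3_W (l : ℕ) (hl : l.Prime) (m : Fin k → ℤ) :
    |WlV l m| ≤ ((l : ℝ) / ((l : ℝ) - 1)) ^ k := by
  have hc : (1 : ℝ) ≤ ((l : ℝ) / ((l : ℝ) - 1)) ^ k := one_le_pow₀ (Pool.Agent.Lib.H59P.M3a_ratio l hl)
  have h1 : 0 ≤ ∏ i, (1 + gl l (m i)) := Finset.prod_nonneg fun i _ => (Pool.Agent.Lib.H59P.M3a_gl l hl _).1
  have h2 : ∏ i, (1 + gl l (m i)) ≤ ((l : ℝ) / ((l : ℝ) - 1)) ^ k := by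
    calc ∏ i, (1 + gl l (m i)) ≤ ∏ _i : Fin k, ((l : ℝ) / ((l : ℝ) - 1)) :=
          Finset.prod_le_prod (fun i _ => (Pool.Agent.Lib.H59P.M3a_gl l hl _).1) (fun i _ => (Pool.Agent.Lib.H59P.M3a_gl l hl _).2)
      _ = ((l : ℝ) / ((l : ℝ) - 1)) ^ k := by
          rw [Finset.prod_const, Finset.card_univ, Fintype.card_fin]
  unfold WlV
  rw [abs_le]
  constructor <;> linarith

theorem m3_tp (l : ℕ) (hl : l.Prime) : |tpS S b t l| ≤ ((l : ℝ) / ((l : ℝ) - 1)) ^ k := by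
  have hl0 : (0 : ℝ) < l := by exact_mod_cast hl.pos
  have h1 := m3_prime S b t l hl
  have h2 : |(l:ℝ) * tpS S b t l| ≤ l * ((l : ℝ) / ((l : ℝ) - 1)) ^ k := by
    rw [← h1]
    refine le_trans (Finset.abs_sum_le_sum_abs _ _) ?_
    refine le_trans (Finset.sum_le_sum fun n _ => m3_W l hl _) ?_
    rw [Finset.sum_const, Finset.card_range, nsmul_eq_mul]
  rw [abs_mul, abs_of_pos hl0] at h2
  exact le_of_mul_le_mul_left h2 hl0

/-- Proof. Bounds as `M3a_Ph`, `M3a_uu`, `M3a_td` (`H59P/M3A.lean`): `‖PhV p R.primeFactors m‖ ≤ (R/φ(R))^k`, `|WdV e m| ≤ (e/φ(e))^k`,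
`|tdS e| ≤ (e/φ(e))^k` for squarefree `e`, `‖MRS‖ ≤ (R/φ(R))^k`. -/
theorem M3S_bd (p : Fin k → Ch) (R e : ℕ) (hR : 0 < R) (he : Squarefree e) (m : Fin k → ℤ) :
    ‖PhV p R.primeFactors m‖ ≤ ((R : ℝ) / (Nat.totient R : ℝ)) ^ k ∧
    |WdV e m| ≤ ((e : ℝ) / (Nat.totient e : ℝ)) ^ k ∧ |tdS S b t e| ≤ ((e : ℝ) / (Nat.totient e : ℝ)) ^ k ∧
    ‖MRS S b t p R‖ ≤ ((R : ℝ) / (Nat.totient R : ℝ)) ^ k := by
  have he0 : 0 < e := Nat.pos_of_ne_zero he.ne_zero
  refine ⟨m3_Ph p R hR m, ?_, ?_, ?_⟩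
  · rw [← Pool.Agent.Lib.H59P.M3a_prod e he0, ← Finset.prod_pow]
    unfold WdV
    rw [Finset.abs_prod]
    exact Finset.prod_le_prod (fun l _ => abs_nonneg _)
      (fun l hl => m3_W l (Nat.prime_of_mem_primeFactors hl) m)
  · rw [← Pool.Agent.Lib.H59P.M3a_prod e he0, ← Finset.prod_pow]
    unfold tdS
    rw [Finset.abs_prod]
    exact Finset.prod_le_prod (fun l _ => abs_nonneg _)
      (fun l hl => m3_tp S b t l (Nat.prime_of_mem_primeFactors hl))
  · unfold MRS mn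
    rw [norm_div, Complex.norm_natCast, div_le_iff₀ (by exact_mod_cast hR)]
    refine le_trans (norm_sum_le _ _) ?_
    refine le_trans (Finset.sum_le_sum fun n _ => m3_Ph p R hR _) ?_
    rw [Finset.sum_const, Finset.card_range, nsmul_eq_mul, mul_comm]

/-- Proof. As `M3f` (`H59P/M3F.lean`): the summand has period `R e`, is bounded by the product of the bounds `M3S_bd` and has mean
`MRS * tdS e` (`M3d`, coprime moduli, `M3S_e`); `M3c`. -/
theorem M3S (p : Fin k → Ch) (R e : ℕ) (hR : 0 < R) (hd : ∀ i, (p i).1 ∣ R) (hsq : Squarefree e)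
    (hc : Nat.Coprime e R) (a H : ℕ) :
    ‖∑ n ∈ Ico a (a + H), PhV p R.primeFactors (fun i => S.val b n t i) * ((WdV e (fun i => S.val b n t i) : ℝ) : ℂ) -
      H * (MRS S b t p R * ((tdS S b t e : ℝ) : ℂ))‖ ≤
      2 * (R * e) * (((R : ℝ) / (Nat.totient R : ℝ)) * ((e : ℝ) / (Nat.totient e : ℝ))) ^ k := by
  have he0 : 0 < e := Nat.pos_of_ne_zero hsq.ne_zero
  set f : ℤ → ℂ := fun n => PhV p R.primeFactors (fun i => S.val b n t i) with hf
  set g : ℤ → ℂ := fun n => ((WdV e (fun i => S.val b n t i) : ℝ) : ℂ) with hg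
  have hfper : ∀ m, f (m + R) = f m := fun m => M3S_P S b t p R hd m
  have hgper : ∀ m, g (m + e) = g m := by
    intro m
    show ((WdV e (fun i => S.val b (m + e) t i) : ℝ) : ℂ) = ((WdV e (fun i => S.val b m t i) : ℝ) : ℂ)
    have : WdV e (fun i => S.val b (m + e) t i) = WdV e (fun i => S.val b m t i) :=
      m3_per_prod S b t e.primeFactors e (fun l hl => Nat.dvd_of_mem_primeFactors hl) m
    rw [this]
  have hfgper : ∀ m : ℤ, f (m + ((R * e : ℕ) : ℤ)) * g (m + ((R * e : ℕ) : ℤ)) = f m * g m := by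
    intro m
    have e1 : f (m + ((R * e : ℕ) : ℤ)) = f m := by
      have := Pool.Agent.Lib.H59P.m3c_per f R hfper e m
      rw [← this]
      congr 1
      push_cast
      ring
    have e2 : g (m + ((R * e : ℕ) : ℤ)) = g m := by
      have := Pool.Agent.Lib.H59P.m3c_per g e hgper R m
      rw [← this]
      congr 1
    rw [e1, e2]
  have hbd : ∀ m : ℤ, ‖f m * g m‖ ≤
      (((R : ℝ) / (Nat.totient R : ℝ)) * ((e : ℝ) / (Nat.totient e : ℝ))) ^ k := by
    intro m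
    have hb := M3S_bd S b t p R e hR hsq (fun i => S.val b m t i)
    rw [norm_mul, mul_pow]
    apply mul_le_mul
    · exact hb.1
    · show ‖((WdV e (fun i => S.val b m t i) : ℝ) : ℂ)‖ ≤ _
      rw [Complex.norm_real, Real.norm_eq_abs]
      exact hb.2.1
    · exact norm_nonneg _
    · positivity
  have key := Pool.Agent.Lib.H59P.M3c (fun m => f m * g m) (R * e) (Nat.mul_pos hR he0) hfgper _ hbd a H
  have hprod : ∑ n ∈ range (R * e), f n * g n = (∑ n ∈ range R, f n) * ∑ n ∈ range e, g n :=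
    Pool.Agent.Lib.H59P.M3d f g R e hR he0 hc.symm hfper hgper
  have hgsum : ∑ n ∈ range e, g n = e * ((tdS S b t e : ℝ) : ℂ) := by
    have := M3S_e S b t e hsq
    have h2 : ((∑ n ∈ range e, WdV e (fun i => S.val b n t i) : ℝ) : ℂ) = ((e * tdS S b t e : ℝ) : ℂ) := by rw [this]
    rw [Complex.ofReal_sum] at h2
    rw [show ∑ n ∈ range e, g n = ∑ n ∈ range e, ((WdV e (fun i => S.val b (n : ℤ) t i) : ℝ) : ℂ) from rfl, h2]
    push_cast
    rfl
  have hRc : (R : ℂ) ≠ 0 := by exact_mod_cast hR.ne'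
  have hec : (e : ℂ) ≠ 0 := by exact_mod_cast he0.ne'
  have hmean : (∑ n ∈ range (R * e), f n * g n) / ((R * e : ℕ) : ℂ) =
      MRS S b t p R * ((tdS S b t e : ℝ) : ℂ) := by
    rw [hprod, hgsum]
    unfold MRS mn
    push_cast
    field_simp
    rw [mul_comm]
  have key2 : ‖∑ n ∈ Ico a (a + H), f n * g n - H * (MRS S b t p R * ((tdS S b t e : ℝ) : ℂ))‖ ≤
      2 * ((R * e : ℕ) : ℝ) * (((R : ℝ) / (Nat.totient R : ℝ)) * ((e : ℝ) / (Nat.totient e : ℝ))) ^ k := by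
    rw [← hmean]
    exact key
  rw [Nat.cast_mul] at key2
  exact key2

end Pool.Agent.H9U
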