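import Pool.Agent.Lib.H9U.M2
import Pool.Agent.Lib.H9U.M3
import Pool.Agent.Lib.H59P.M4

/-!
# H9U, chunk M4 (M): the sum over a cell of the components of small modulus
-/

open Finset

namespace Pool.Agent.H9U

open Pool.Agent.Lib.H68T (PC p0)
open Pool.Agent.Lib.H18Q (gk KS)
open Pool.Agent.Lib.H59P (Ch cj uu gl pr SF)

/-- Proof. As `M4` (`H59P/M4.lean`): `M2S` for each `n`, then `M3S` for each `e ∈ SF (D/R) R`, `M3b`. -/
theorem M4S {k d : ℕ} (S : Sys k d) (b : Fin k → ℤ) (t : Fin d → ℤ) (Q D R : ℕ) (hDQ : D ≤ Q) (hR : 0 < R)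
    (p : Fin k → Ch) (hp : ∀ i, p i ∈ PC Q) (hd : ∀ i, (p i).1 ∣ R) (a H : ℕ)
    (hv : ∀ n ∈ Ico a (a + H), ∀ i, 0 ≤ S.val b n t i) :
    ‖∑ n ∈ Ico a (a + H),
      ∑ κ ∈ (Fintype.piFinset fun i => KS Q (p i).1).filter (fun κ => R.lcm (univ.lcm κ) ≤ D),
        ∏ i, gk (p i) (κ i) (S.val b n t i) -
      H * (MRS S b t p R * ((∑ e ∈ SF (D / R) R, tdS S b t e : ℝ) : ℂ))‖ ≤
      2 * (D : ℝ) ^ 2 * (2 * (1 + Real.log Q)) ^ (2 * k) := by
  have e1 : ∑ n ∈ Ico a (a + H),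
      ∑ κ ∈ (Fintype.piFinset fun i => KS Q (p i).1).filter (fun κ => R.lcm (univ.lcm κ) ≤ D),
        ∏ i, gk (p i) (κ i) (S.val b n t i) =
      ∑ e ∈ SF (D / R) R, ∑ n ∈ Ico a (a + H), PhV p R.primeFactors (fun i => S.val b n t i) *
        ((WdV e (fun i => S.val b n t i) : ℝ) : ℂ) := by
    symm
    rw [sum_comm]
    refine sum_congr rfl fun n hn => ?_
    rw [M2S Q D R hDQ hR p hp hd (fun i => S.val b n t i) (fun i => hv n hn i), mul_sum]
  have e2 : (H : ℂ) * (MRS S b t p R * ((∑ e ∈ SF (D / R) R, tdS S b t e : ℝ) : ℂ)) =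
      ∑ e ∈ SF (D / R) R, (H : ℂ) * (MRS S b t p R * ((tdS S b t e : ℝ) : ℂ)) := by
    push_cast
    rw [mul_sum, mul_sum]
  rw [e1, e2, ← sum_sub_distrib]
  have key : ∀ e ∈ SF (D / R) R, ‖∑ n ∈ Ico a (a + H), PhV p R.primeFactors (fun i => S.val b n t i) *
      ((WdV e (fun i => S.val b n t i) : ℝ) : ℂ) -
      (H : ℂ) * (MRS S b t p R * ((tdS S b t e : ℝ) : ℂ))‖ ≤
      2 * (D : ℝ) * (2 * (1 + Real.log Q)) ^ (2 * k) := by
    intro e hdm
    have hdm' : (1 ≤ e ∧ e ≤ D / R) ∧ Squarefree e ∧ Nat.Coprime e R := by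
      simpa [SF] using hdm
    obtain ⟨⟨h1, h2⟩, h3, h4⟩ := hdm'
    have h5 := M3S S b t p R e hR hd h3 h4 a H
    have h6 : R * e ≤ D := by
      have := (Nat.le_div_iff_mul_le hR).1 h2
      rwa [mul_comm] at this
    have hRD : R ≤ D := le_trans (Nat.le_mul_of_pos_right R h1) h6
    have hdD : e ≤ D := le_trans (Nat.le_mul_of_pos_left e hR) h6
    have hlog : ∀ m : ℕ, 1 ≤ m → m ≤ D → (m : ℝ) / (Nat.totient m : ℝ) ≤ 2 * (1 + Real.log Q) := by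
      intro m hm hmD
      refine (Pool.Agent.Lib.H59P.M3b m hm).trans ?_
      have hm0 : (0 : ℝ) < m := by exact_mod_cast hm
      have : Real.log m ≤ Real.log Q :=
        Real.log_le_log hm0 (by exact_mod_cast hmD.trans hDQ)
      linarith
    have b1 := hlog R hR hRD
    have b2 := hlog e h1 hdD
    have b0 : (0 : ℝ) ≤ (R : ℝ) / (Nat.totient R : ℝ) := by positivity
    have b0' : (0 : ℝ) ≤ (e : ℝ) / (Nat.totient e : ℝ) := by positivity
    refine h5.trans ?_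
    have b3 : (((R : ℝ) / (Nat.totient R : ℝ)) * ((e : ℝ) / (Nat.totient e : ℝ))) ^ k ≤
        (2 * (1 + Real.log Q)) ^ (2 * k) := by
      rw [pow_mul]
      apply pow_le_pow_left₀ (mul_nonneg b0 b0')
      rw [sq]
      exact mul_le_mul b1 b2 b0' (b0.trans b1)
    have b4 : (R : ℝ) * e ≤ D := by exact_mod_cast h6
    have b5 : (0 : ℝ) ≤ (((R : ℝ) / (Nat.totient R : ℝ)) * ((e : ℝ) / (Nat.totient e : ℝ))) ^ k := by
      positivity
    calc 2 * ((R : ℝ) * e) * (((R : ℝ) / (Nat.totient R : ℝ)) * ((e : ℝ) / (Nat.totient e : ℝ))) ^ k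
        ≤ 2 * (D : ℝ) * (((R : ℝ) / (Nat.totient R : ℝ)) * ((e : ℝ) / (Nat.totient e : ℝ))) ^ k := by
          gcongr
      _ ≤ 2 * (D : ℝ) * (2 * (1 + Real.log Q)) ^ (2 * k) := by gcongr
  have hcard : ((SF (D / R) R).card : ℝ) ≤ D := by
    have h1 : (SF (D / R) R).card ≤ (Icc 1 (D / R)).card := by
      unfold SF
      exact card_filter_le _ _
    rw [Nat.card_Icc] at h1
    have h2 : D / R ≤ D := Nat.div_le_self _ _
    exact_mod_cast (by omega : (SF (D / R) R).card ≤ D)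
  calc ‖∑ e ∈ SF (D / R) R, (∑ n ∈ Ico a (a + H), PhV p R.primeFactors (fun i => S.val b n t i) *
        ((WdV e (fun i => S.val b n t i) : ℝ) : ℂ) -
      (H : ℂ) * (MRS S b t p R * ((tdS S b t e : ℝ) : ℂ)))‖
      ≤ ∑ e ∈ SF (D / R) R, ‖∑ n ∈ Ico a (a + H), PhV p R.primeFactors (fun i => S.val b n t i) *
        ((WdV e (fun i => S.val b n t i) : ℝ) : ℂ) -
      (H : ℂ) * (MRS S b t p R * ((tdS S b t e : ℝ) : ℂ))‖ := norm_sum_le _ _
    _ ≤ ∑ e ∈ SF (D / R) R, 2 * (D : ℝ) * (2 * (1 + Real.log Q)) ^ (2 * k) := sum_le_sum key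
    _ = ((SF (D / R) R).card : ℝ) * (2 * (D : ℝ) * (2 * (1 + Real.log Q)) ^ (2 * k)) := by
        rw [sum_const, nsmul_eq_mul]
    _ ≤ (D : ℝ) * (2 * (D : ℝ) * (2 * (1 + Real.log Q)) ^ (2 * k)) := by
        apply mul_le_mul_of_nonneg_right hcard
        have : (0 : ℝ) ≤ (2 * (1 + Real.log Q)) ^ (2 * k) := by
          rw [pow_mul]; positivity
        positivity
    _ = 2 * (D : ℝ) ^ 2 * (2 * (1 + Real.log Q)) ^ (2 * k) := by ring

end Pool.Agent.H9U
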