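import Pool.Agent.Lib.H9U.T1
import Pool.Agent.Lib.H59P.T2
import Pool.Agent.Lib.H59P.T3

/-!
# H9U, chunk T2 (M): the local factors of the singular series, upper bounds; the tail (Rankin)
-/

open Finset

namespace Pool.Agent.H9U

open Pool.Agent.Lib.H59P (Ch cj uu gl pr SF)

variable {k d : ℕ} (S : Sys k d) (b : Fin k → ℤ) (t : Fin d → ℤ)

/-- The minor `a_i φ_j - a_j φ_i`, a function of `t` only. -/
def Sys.minr (i j : Fin k) : ℤ := S.a i * S.val b 0 t j - S.a j * S.val b 0 t i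

theorem t2_val (n : ℤ) (i : Fin k) : S.val b n t i = S.a i * n + S.val b 0 t i := by
  unfold Sys.val Sys.lin
  ring

theorem t2_root (l : ℕ) (hl : l.Prime) (a c : ℤ) (ha : ¬ (l : ℤ) ∣ a) : ∃ r : ℕ, r < l ∧ (l : ℤ) ∣ a * r + c := by
  have hco : IsCoprime a (l : ℤ) := by
    rw [isCoprime_comm]
    exact (Nat.prime_iff_prime_int.1 hl).coprime_iff_not_dvd.2 ha
  obtain ⟨u, v, huv⟩ := hco
  have hl0 : (0 : ℤ) < l := by exact_mod_cast hl.pos
  refine ⟨((-(c * u)) % l).toNat, ?_, ?_⟩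
  · have h1 := Int.emod_lt_of_pos (-(c * u)) hl0
    have h2 := Int.emod_nonneg (-(c * u)) hl0.ne'
    omega
  · rw [Int.toNat_of_nonneg (Int.emod_nonneg _ hl0.ne')]
    have h1 := Int.emod_add_mul_ediv (-(c * u)) l
    have h2 : (-(c * u)) % (l : ℤ) = -(c * u) - l * (-(c * u) / l) := by linarith
    rw [h2]
    refine ⟨c * v - a * (-(c * u) / l), ?_⟩
    linear_combination (-c) * huv

theorem t2_uniq (l : ℕ) (hl : l.Prime) (a c : ℤ) (ha : ¬ (l : ℤ) ∣ a) {r s : ℕ} (hr : r < l) (hs : s < l)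
    (h1 : (l : ℤ) ∣ a * r + c) (h2 : (l : ℤ) ∣ a * s + c) : r = s := by
  have h3 : (l : ℤ) ∣ a * ((r : ℤ) - s) := by
    have := dvd_sub h1 h2
    rwa [show a * (r : ℤ) + c - (a * s + c) = a * ((r : ℤ) - s) by ring] at this
  have h4 := ((Nat.prime_iff_prime_int.1 hl).dvd_or_dvd h3).resolve_left ha
  have h5 : (r : ℤ) - s = 0 := Int.eq_zero_of_abs_lt_dvd h4 (by rw [abs_lt]; constructor <;> omega)
  omega

theorem t2_nu (l : ℕ) (hl : l.Prime) (ha : ∀ i, ¬ (l : ℤ) ∣ S.a i) :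
    nuS S b t l ≤ k ∧ ((∀ i j, i ≠ j → ¬ (l : ℤ) ∣ S.minr b t i j) → nuS S b t l = k) := by
  classical
  choose r hr1 hr2 using fun i => t2_root l hl (S.a i) (S.val b 0 t i) (ha i)
  have hcard : nuS S b t l = (univ.image r).card := by
    unfold nuS
    congr 1
    ext n
    rw [mem_filter, mem_image, mem_range]
    constructor
    · rintro ⟨hn, i, hi⟩
      rw [t2_val] at hi
      exact ⟨i, mem_univ _, t2_uniq l hl _ _ (ha i) (hr1 i) hn (hr2 i) hi⟩
    · rintro ⟨i, -, rfl⟩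
      refine ⟨hr1 i, i, ?_⟩
      rw [t2_val]
      exact hr2 i
  refine ⟨?_, fun hm => ?_⟩
  · rw [hcard]
    exact card_image_le.trans (by rw [card_univ, Fintype.card_fin])
  · rw [hcard, card_image_of_injective _ ?_, card_univ, Fintype.card_fin]
    intro i j hij
    by_contra hne
    apply hm i j hne
    have h1 := hr2 i
    have h2 := hr2 j
    rw [← hij] at h2
    have h3 := dvd_sub (Dvd.dvd.mul_left h2 (S.a i)) (Dvd.dvd.mul_left h1 (S.a j))
    unfold Sys.minr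
    rwa [show S.a i * (S.a j * (r i : ℤ) + S.val b 0 t j) - S.a j * (S.a i * (r i : ℤ) + S.val b 0 t i) =
      S.a i * S.val b 0 t j - S.a j * S.val b 0 t i by ring] at h3

theorem t2_nule (l : ℕ) : nuS S b t l ≤ l := by
  unfold nuS
  exact (card_filter_le _ _).trans (by rw [card_range])

/-- Proof. `T0S_tp`; `l > 2k` prime to all `a_i`: every form has exactly one root modulo `l`, so `1 ≤ ν ≤ k` (or `k = 0`), and `ν = k` if no minor is
divisible by `l` (the roots of `i` and `j` agree iff `l ∣ minr i j`). `(1 - ν/l)(1 + 1/(l-1))^k`: `|…- 1| ≤ C/l` in general and `≤ C/l²` if `ν = k`,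
with `C = 2^(k+3) (k+1)^2` or any explicit bound (`(1+1/(l-1))^k ≤ 1 + k/(l-1) + 2^k/(l-1)²`-type estimates; compare `T2_large`). For the other
`l` (`l ≤ 2k` or `l` divides some `a_i`) `|tpS| ≤ 2^k`. -/
theorem T2S_bd (l : ℕ) (hl : l.Prime) :
    |tpS S b t l| ≤ 2 ^ k ∧
    (2 * k < l → (∀ i, ¬ (l : ℤ) ∣ S.a i) → |tpS S b t l| ≤ 4 ^ (k + 3) / l ∧
      ((∀ i j, i ≠ j → ¬ (l : ℤ) ∣ S.minr b t i j) → |tpS S b t l| ≤ 4 ^ (k + 3) / (l : ℝ) ^ 2)) := by
  have hl1 : (1 : ℝ) < l := by exact_mod_cast hl.one_lt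
  have hl2' : (2 : ℝ) ≤ l := by exact_mod_cast hl.two_le
  have hl0 : (0 : ℝ) < l := by linarith
  have hl2 : (0 : ℝ) < (l : ℝ) - 1 := by linarith
  have hT := T0S_tp S b t l hl
  have hnl : (nuS S b t l : ℝ) ≤ l := by exact_mod_cast t2_nule S b t l
  have hn0 : (0 : ℝ) ≤ nuS S b t l := Nat.cast_nonneg _
  obtain ⟨hB1, hB2⟩ := Pool.Agent.Lib.H59P.t2_B (k := k) hl
  set B := ((l : ℝ) / ((l : ℝ) - 1)) ^ k with hB
  have hB0 : 0 ≤ B := by linarith
  have hq0 : 0 ≤ 1 - (nuS S b t l : ℝ) / l := by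
    rw [sub_nonneg, div_le_one hl0]; exact hnl
  have hq1 : 1 - (nuS S b t l : ℝ) / l ≤ 1 := by
    have : 0 ≤ (nuS S b t l : ℝ) / l := by positivity
    linarith
  refine ⟨?_, fun hk ha => ?_⟩
  · have hB4 : B ≤ 2 ^ k := by
      refine pow_le_pow_left₀ (by positivity) ?_ k
      rw [div_le_iff₀ hl2]
      linarith
    have h1 : 0 ≤ 1 + tpS S b t l := by rw [hT]; exact mul_nonneg hq0 hB0
    have h2 : 1 + tpS S b t l ≤ B := by
      rw [hT]
      exact mul_le_of_le_one_left hB0 hq1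
    rw [abs_le]
    constructor <;> linarith
  · obtain ⟨hnk, hnk'⟩ := t2_nu S b t l hl ha
    have hB3 : B ≤ 3 := by
      have h3 : (l : ℝ) / ((l : ℝ) - 1) = 1 / ((l : ℝ) - 1) + 1 := by
        field_simp
        ring
      have h4 : (l : ℝ) / ((l : ℝ) - 1) ≤ Real.exp (1 / ((l : ℝ) - 1)) := by
        rw [h3]
        exact Real.add_one_le_exp _
      have h5 : B ≤ Real.exp (1 / ((l : ℝ) - 1)) ^ k :=
        pow_le_pow_left₀ (by positivity) h4 k
      refine h5.trans ?_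
      rw [← Real.exp_nat_mul]
      have h6 : (k : ℝ) * (1 / ((l : ℝ) - 1)) ≤ 1 := by
        rw [mul_one_div, div_le_one hl2]
        have h7 : k + 1 ≤ l := by omega
        have h8 : ((k + 1 : ℕ) : ℝ) ≤ l := by exact_mod_cast h7
        push_cast at h8
        linarith
      refine (Real.exp_le_exp.2 h6).trans ?_
      linarith [Real.exp_one_lt_d9]
    have h1 : (nuS S b t l : ℝ) ≤ k := by exact_mod_cast hnk
    have hkl : (k : ℝ) / l ≤ 1 := by
      rw [div_le_one hl0]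
      have h9 : k ≤ l := by omega
      exact_mod_cast h9
    have hb1 : (1 - (k : ℝ) / l) * B ≤ 1 := by
      have h3 : 1 - (k : ℝ) / l ≤ (1 + -(1 / (l : ℝ))) ^ k := by
        refine le_trans (le_of_eq ?_) (one_add_mul_le_pow (a := -(1 / (l : ℝ))) ?_ k)
        · ring
        · have h4 : 1 / (l : ℝ) ≤ 1 := (div_le_one hl0).2 hl1.le
          linarith
      have h5 : (1 + -(1 / (l : ℝ))) ^ k * B = 1 := by
        rw [hB, ← mul_pow]
        have h6 : (1 + -(1 / (l : ℝ))) * ((l : ℝ) / ((l : ℝ) - 1)) = 1 := by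
          field_simp
          ring
        rw [h6, one_pow]
      calc (1 - (k : ℝ) / l) * B ≤ (1 + -(1 / (l : ℝ))) ^ k * B :=
            mul_le_mul_of_nonneg_right h3 hB0
        _ = 1 := h5
    have hb2 : 1 - (k : ℝ) ^ 2 / (l : ℝ) ^ 2 ≤ (1 - (k : ℝ) / l) * B := by
      have h3 : (1 - (k : ℝ) / l) * (1 + (k : ℝ) / l) ≤ (1 - (k : ℝ) / l) * B :=
        mul_le_mul_of_nonneg_left hB2 (by linarith)
      refine le_trans (le_of_eq ?_) h3
      ring
    have htp : tpS S b t l = ((1 - (k : ℝ) / l) * B - 1) + ((k : ℝ) - nuS S b t l) / l * B := by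
      have h4 : tpS S b t l = (1 - (nuS S b t l : ℝ) / l) * B - 1 := by linarith
      rw [h4]
      ring
    have hg0 : 0 ≤ ((k : ℝ) - nuS S b t l) / l * B := mul_nonneg (div_nonneg (by linarith) hl0.le) hB0
    have hk4 : (k : ℝ) ≤ 4 ^ k := by
      have : k < 4 ^ k := Nat.lt_pow_self (by norm_num)
      exact_mod_cast this.le
    have hk0 : (0 : ℝ) ≤ k := Nat.cast_nonneg k
    have hk22 : (k : ℝ) ^ 2 ≤ 4 ^ (k + 3) := by
      have h2k : (k : ℝ) ≤ 2 ^ k := by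
        have : k < 2 ^ k := Nat.lt_two_pow_self
        exact_mod_cast this.le
      have h4k : (k : ℝ) ^ 2 ≤ 4 ^ k := by
        have h5 : (k : ℝ) ^ 2 ≤ (2 ^ k) ^ 2 := pow_le_pow_left₀ hk0 h2k 2
        have h6 : ((2 : ℝ) ^ k) ^ 2 = 4 ^ k := by
          rw [← pow_mul, mul_comm, pow_mul]
          norm_num
        rwa [h6] at h5
      have h7 : (4 : ℝ) ^ k ≤ 4 ^ (k + 3) := pow_le_pow_right₀ (by norm_num) (by omega)
      linarith
    have hk2l : 0 ≤ (k : ℝ) ^ 2 / (l : ℝ) ^ 2 := by positivity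
    refine ⟨?_, fun hm => ?_⟩
    · have e1 : (k : ℝ) ^ 2 / (l : ℝ) ^ 2 ≤ (k : ℝ) / l := by
        have : (k : ℝ) ^ 2 / (l : ℝ) ^ 2 = (k : ℝ) / l * ((k : ℝ) / l) := by ring
        rw [this]
        exact mul_le_of_le_one_right (by positivity) hkl
      have e2 : ((k : ℝ) - nuS S b t l) / l * B ≤ (k : ℝ) / l * 3 :=
        mul_le_mul (div_le_div_of_nonneg_right (by linarith) hl0.le) hB3 hB0 (by positivity)
      have e3 : 4 * ((k : ℝ) / l) ≤ 4 ^ (k + 3) / l := by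
        rw [mul_div_assoc']
        refine div_le_div_of_nonneg_right ?_ hl0.le
        have : (4 : ℝ) ^ (k + 3) = 64 * 4 ^ k := by rw [pow_add]; norm_num; ring
        rw [this]
        linarith
      have e4 : 0 ≤ (k : ℝ) / l := by positivity
      rw [htp, abs_le]
      constructor <;> linarith
    · have hν : (nuS S b t l : ℝ) = k := by exact_mod_cast hnk' hm
      have e5 : (k : ℝ) ^ 2 / (l : ℝ) ^ 2 ≤ 4 ^ (k + 3) / (l : ℝ) ^ 2 :=
        div_le_div_of_nonneg_right hk22 (by positivity)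
      rw [htp, hν, sub_self, zero_div, zero_mul, add_zero, abs_le]
      constructor <;> linarith

/-- `∏_{l ≤ X} (1 + l^η |tpS l|)` -/
noncomputable def RPS (η : ℝ) (X : ℕ) : ℝ := ∏ l ∈ pr X, (1 + (l : ℝ) ^ η * |tpS S b t l|)

theorem t2_SS (P : Finset ℕ) :
    SSS S b t P = ∑ V ∈ P.powerset, ∏ l ∈ V, tpS S b t l := by
  rw [SSS, Finset.prod_one_add]

theorem t2_tail (η E0 : ℝ) (hη : 0 ≤ η) (hE0 : 0 < E0) (X : ℕ) (T : Finset ℕ)
    (hT : ∀ e ∈ T, Squarefree e ∧ (∀ l ∈ e.primeFactors, l ≤ X) ∧ E0 ≤ (e : ℝ)) :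
    ∑ e ∈ T, |tdS S b t e| ≤ E0 ^ (-η) * RPS S b t η X := by
  classical
  have h1 : ∀ e ∈ T, |tdS S b t e| ≤ E0 ^ (-η) * ∏ l ∈ e.primeFactors, ((l : ℝ) ^ η * |tpS S b t l|) := by
    intro e hd
    obtain ⟨hsq, -, hle⟩ := hT e hd
    have h2 : ∏ l ∈ e.primeFactors, ((l : ℝ) ^ η * |tpS S b t l|) = (e : ℝ) ^ η * |tdS S b t e| := by
      rw [Finset.prod_mul_distrib, tdS, Finset.abs_prod]
      congr 1
      rw [Real.finsetProd_rpow _ _ fun l _ => Nat.cast_nonneg l]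
      congr 1
      have h3 := Nat.prod_primeFactors_of_squarefree hsq
      rw [← Nat.cast_prod, h3]
    rw [h2, ← mul_assoc]
    have h4 : 1 ≤ E0 ^ (-η) * (e : ℝ) ^ η := by
      rw [Real.rpow_neg hE0.le, inv_mul_eq_div, le_div_iff₀ (Real.rpow_pos_of_pos hE0 _), one_mul]
      exact Real.rpow_le_rpow hE0.le hle hη
    exact le_mul_of_one_le_left (abs_nonneg _) h4
  refine (Finset.sum_le_sum h1).trans ?_
  rw [← Finset.mul_sum]
  refine mul_le_mul_of_nonneg_left ?_ (Real.rpow_nonneg hE0.le _)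
  have hinj : Set.InjOn Nat.primeFactors (T : Set ℕ) := by
    intro e hd e' hd' hdd
    have h2 := Nat.prod_primeFactors_of_squarefree (hT e hd).1
    have h3 := Nat.prod_primeFactors_of_squarefree (hT e' hd').1
    rw [← h2, ← h3, hdd]
  rw [RPS, Finset.prod_one_add,
    ← Finset.sum_image (f := fun V : Finset ℕ => ∏ l ∈ V, ((l : ℝ) ^ η * |tpS S b t l|)) hinj]
  refine Finset.sum_le_sum_of_subset_of_nonneg ?_ ?_
  · intro V hS
    obtain ⟨e, hd, rfl⟩ := mem_image.1 hS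
    rw [mem_powerset]
    intro l hl
    exact Pool.Agent.Lib.H59P.mem_pr.2 ⟨(hT e hd).2.1 l hl, Nat.prime_of_mem_primeFactors hl⟩
  · intro V _ _
    exact Finset.prod_nonneg fun l _ => mul_nonneg (Real.rpow_nonneg (Nat.cast_nonneg l) _)
      (abs_nonneg _)

theorem t2_diff (η E0 : ℝ) (hη : 0 ≤ η) (hE0 : 0 < E0) (X z R E : ℕ) (hz : z ≤ X) (hE : E ≤ X)
    (h1 : E0 ≤ (z : ℝ)) (h2 : E0 ≤ (E : ℝ)) :
    |∑ e ∈ SF E R, tdS S b t e - SSS S b t ((pr z).filter (fun l : ℕ => ¬ l ∣ R))| ≤ E0 ^ (-η) * RPS S b t η X := by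
  classical
  set P : Finset ℕ := (pr z).filter (fun l : ℕ => ¬ l ∣ R) with hP
  have hPm : ∀ l, l ∈ P ↔ (l ≤ z ∧ l.Prime) ∧ ¬ l ∣ R := by
    intro l
    rw [hP, mem_filter, Pool.Agent.Lib.H59P.mem_pr]
  set A : Finset ℕ := P.powerset.image fun V => ∏ l ∈ V, l with hA
  have hpf : ∀ V ∈ P.powerset, (∏ l ∈ V, l).primeFactors = V := by
    intro V hS
    exact Nat.primeFactors_prod fun l hl => ((hPm l).1 (mem_powerset.1 hS hl)).1.2
  have hSA : SSS S b t P = ∑ e ∈ A, tdS S b t e := by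
    rw [t2_SS, hA, Finset.sum_image]
    · refine Finset.sum_congr rfl fun V hS => ?_
      rw [tdS, hpf V hS]
    · intro V hS V' hS' hSS
      have h3 := congrArg Nat.primeFactors hSS
      rwa [hpf V hS, hpf V' hS'] at h3
  have hAm : ∀ e, e ∈ A ↔ Squarefree e ∧ e.primeFactors ⊆ P := by
    intro e
    rw [hA, mem_image]
    constructor
    · rintro ⟨V, hS, rfl⟩
      refine ⟨?_, ?_⟩
      · refine Finset.squarefree_prod_of_pairwise_isCoprime ?_ ?_
        · intro a ha c hb hab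
          have ha' := ((hPm a).1 (mem_powerset.1 hS ha)).1.2
          have hb' := ((hPm c).1 (mem_powerset.1 hS hb)).1.2
          exact Nat.coprime_iff_isRelPrime.1 ((Nat.coprime_primes ha' hb').2 hab)
        · intro a ha
          exact ((hPm a).1 (mem_powerset.1 hS ha)).1.2.prime.squarefree
      · rw [hpf V hS]
        exact mem_powerset.1 hS
    · rintro ⟨hsq, hsub⟩
      exact ⟨e.primeFactors, mem_powerset.2 hsub, Nat.prod_primeFactors_of_squarefree hsq⟩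
  rw [hSA, ← Finset.sum_sdiff_sub_sum_sdiff]
  have hT : ∀ e ∈ (SF E R \ A) ∪ (A \ SF E R),
      Squarefree e ∧ (∀ l ∈ e.primeFactors, l ≤ X) ∧ E0 ≤ (e : ℝ) := by
    intro e hd
    rcases mem_union.1 hd with hd | hd
    · obtain ⟨hd1, hd2⟩ := mem_sdiff.1 hd
      obtain ⟨h3, h4, h5, h6⟩ := Pool.Agent.Lib.H59P.t3_mem.1 hd1
      have hd0 : e ≠ 0 := by omega
      refine ⟨h5, fun l hl => (Nat.le_of_dvd (by omega) (Nat.dvd_of_mem_primeFactors hl)).trans
        (h4.trans hE), ?_⟩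
      by_contra hlt
      push Not at hlt
      apply hd2
      rw [hAm]
      refine ⟨h5, fun l hl => (hPm l).2 ⟨⟨?_, Nat.prime_of_mem_primeFactors hl⟩,
        (Pool.Agent.Lib.H59P.t3_coprime hd0).1 h6 l hl⟩⟩
      have h7 : l ≤ e := Nat.le_of_dvd (by omega) (Nat.dvd_of_mem_primeFactors hl)
      have h8 : (e : ℝ) ≤ z := by linarith
      exact h7.trans (by exact_mod_cast h8)
    · obtain ⟨hd1, hd2⟩ := mem_sdiff.1 hd
      obtain ⟨h3, h4⟩ := (hAm e).1 hd1
      refine ⟨h3, fun l hl => (((hPm l).1 (h4 hl)).1.1).trans hz, ?_⟩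
      by_contra hlt
      push Not at hlt
      apply hd2
      have hd0 : e ≠ 0 := h3.ne_zero
      have h8 : (e : ℝ) ≤ E := by linarith
      exact Pool.Agent.Lib.H59P.t3_mem.2 ⟨by omega, by exact_mod_cast h8, h3,
        (Pool.Agent.Lib.H59P.t3_coprime hd0).2 fun l hl => ((hPm l).1 (h4 hl)).2⟩
  refine le_trans ?_ (t2_tail S b t η E0 hη hE0 X _ hT)
  have hdisj : Disjoint (SF E R \ A) (A \ SF E R) := by
    rw [Finset.disjoint_left]
    intro e hd hd'
    exact (mem_sdiff.1 hd).2 (mem_sdiff.1 hd').1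
  rw [Finset.sum_union hdisj]
  refine (abs_sub _ _).trans ?_
  exact add_le_add (Finset.abs_sum_le_sum_abs _ _) (Finset.abs_sum_le_sum_abs _ _)

/-- Proof. As `T3_diff` (`H59P/T3.lean`): the difference is a sum of `tdS e` over squarefree `e > E` (with prime factors at most `Q`) and the rest. -/
theorem T3S_diff (η : ℝ) (hη : 0 ≤ η) (Q R E : ℕ) (hE : 1 ≤ E) (hEQ : E ≤ Q) :
    |∑ e ∈ SF E R, tdS S b t e - SSS S b t ((pr Q).filter (fun l : ℕ => ¬ l ∣ R))| ≤
      (E : ℝ) ^ (-η) * RPS S b t η Q := by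
  have hE0 : (0 : ℝ) < E := by exact_mod_cast hE
  exact t2_diff S b t η E hη hE0 Q Q R E le_rfl hEQ (by exact_mod_cast hEQ) le_rfl

end Pool.Agent.H9U
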