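import Pool.Agent.Lib.H9U.Defs

/-!
# H9U, chunk U0A (S/M): the projection of small level as a sum over characters, and its size
-/

open Finset

namespace Pool.Agent.H9U

open Pool.Agent.H44W (ee)
open Pool.Agent.H9S (Bd lc Lc BF Sx Sy)
open Pool.Agent.Lib.H68T (lp Lk PC p0 dQ)
open Pool.Agent.Lib.H18Q (gk KS Bc RegP SG)
open Pool.Agent.Lib.H59P (Ch)

/-- Proof. This is `hB` in the proof of `UL_expand` (`H59T/UL.lean`): `DA_expand Q' X (X / Q ^ 2) m` (regime as there), coefficients `Bc Q X p m`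
(definition of `Bc`, window `X / Q ^ 2`). `SG Q' b m` is `∑ p ∈ PC Q', Gam Q' p.1 m * conj (χ m) * b p`. -/
theorem Lk_two : ∃ K : ℝ, 1 ≤ K ∧ ∀ Q Q' X : ℕ, RegP K Q X → 1 ≤ Q' → Q' ≤ Q → ∀ m : ℤ,
    (X : ℤ) ≤ m → m ≤ 4 * X → ((Lk Q' (X / Q ^ 2) m : ℝ) : ℂ) = SG Q' (fun p => Bc Q X p m) m := by
  obtain ⟨K1, hK1, h1⟩ := Pool.Agent.Lib.H18Q.BPS_regimeP
  obtain ⟨K2, hK2, h2⟩ := Pool.Agent.Lib.H18Q.regp_pow_le 2 1 1 one_pos
  refine ⟨max K1 K2, hK1.trans (le_max_left _ _), fun Q Q' X hreg hQ'1 hQ'Q m hm hm4 => ?_⟩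
  have hK0 : 0 ≤ max K1 K2 := by linarith [le_max_left K1 K2]
  obtain ⟨hQ, hX, hY, hYX, hXY, -⟩ := h1 Q X (hreg.mono hK0 (le_max_left _ _))
  have hlog := h2 Q X (hreg.mono hK0 (le_max_right _ _))
  rw [Real.rpow_one, Real.rpow_one] at hlog
  have h3 : 2 * Q ≤ X := by exact_mod_cast hlog
  unfold SG Bc
  exact Pool.Agent.Lib.H68T.DA_expand Q' X (X / Q ^ 2) m hm hm4 (by omega) (by omega)

/-- Proof. As `BDL_bd` (`H9S/BDL.lean`): `Lk_two`, `S1b Q'` (`H59P/S1B.lean`) with the coefficients `Bc Q X p m`, `p ∈ PC Q' ⊆ PC Q`, bounded by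
`mb p` (`UM_mass`, total at most `C`; the sum over the subset `PC Q'` is at most the sum over `PC Q`), `dQ Q' m ≤` number of divisors
(`BDL_dQ`), divisor bound, `m ≤ 4 X`, `Q' ≤ Q ≤ X` (`RegP`). -/
theorem U0_size : ∃ K : ℝ, 1 ≤ K ∧ ∀ ε : ℝ, 0 < ε → ∃ X0 : ℕ, ∀ Q Q' X : ℕ, X0 ≤ X → RegP K Q X → 1 ≤ Q' →
    Q' ≤ Q → ∀ m : ℤ, (X : ℤ) ≤ m → m ≤ 4 * X → |Lk Q' (X / Q ^ 2) m| ≤ (X : ℝ) ^ ε := by
  obtain ⟨K1, C1, hK1, hC1, hmass⟩ := Pool.Agent.Lib.H59T.UM_mass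
  obtain ⟨K2, hK2, hSG⟩ := Lk_two
  obtain ⟨K3, hK3, hpow⟩ := Pool.Agent.Lib.H18Q.regp_pow_le 1 1 1 one_pos
  refine ⟨max (max K1 K2) K3, hK1.trans ((le_max_left _ _).trans (le_max_left _ _)), fun ε hε => ?_⟩
  obtain ⟨C, hC, hdiv⟩ := Pool.Agent.Lib.H21AP.divisor_bound (ε := ε / 2) (by positivity)
  obtain ⟨c3, hc3⟩ : ∃ c3 : ℝ, c3 = 100 * (1 + 12 / ε) ^ 3 * (C * 4 ^ (ε / 2)) * C1 := ⟨_, rfl⟩
  have ht1 : ∀ᶠ n : ℕ in Filter.atTop, c3 ≤ (n:ℝ) ^ (ε / 4) :=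
    ((tendsto_rpow_atTop (by positivity : 0 < ε / 4)).comp tendsto_natCast_atTop_atTop).eventually_ge_atTop _
  obtain ⟨n1, hn1⟩ := Filter.eventually_atTop.1 ht1
  refine ⟨max n1 1, fun Q Q' X hX hreg hQ' hQQ m hm1 hm2 => ?_⟩
  have hn1' := hn1 X (by omega)
  have hX1 : 1 ≤ X := by omega
  have hnp : (0:ℝ) < X := by exact_mod_cast hX1
  have hn1r : (1:ℝ) ≤ X := by exact_mod_cast hX1
  have hK0 : 0 ≤ max (max K1 K2) K3 := zero_le_one.trans (hK1.trans ((le_max_left _ _).trans (le_max_left _ _)))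
  have hQX : Q ≤ X := by
    have h := hpow Q X (hreg.mono hK0 (le_max_right _ _))
    rw [Real.rpow_one, Real.rpow_one, one_mul] at h
    exact_mod_cast h
  obtain ⟨mb, hmb0, hmbs, hmb⟩ := hmass Q X (hreg.mono hK0 ((le_max_left _ _).trans (le_max_left _ _)))
  have h1 := hSG Q Q' X (hreg.mono hK0 ((le_max_right _ _).trans (le_max_left _ _))) hQ' hQQ m hm1 hm2
  have hsub : PC Q' ⊆ PC Q := by
    intro p hp
    obtain ⟨a, b, c⟩ := Pool.Agent.Lib.H68T.mem_PC.1 hp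
    exact Pool.Agent.Lib.H68T.mem_PC.2 ⟨a, b.trans hQQ, c⟩
  have h2 := Pool.Agent.Lib.H59P.S1b Q' hQ' (fun p => Bc Q X p m) mb (fun p hp => hmb m hm1 hm2 p (hsub hp)) m
  have hmbs' : ∑ p ∈ PC Q', mb p ≤ C1 :=
    (Finset.sum_le_sum_of_subset_of_nonneg hsub fun p hp _ => hmb0 p hp).trans hmbs
  have hm1' : (1:ℤ) ≤ m := by omega
  have h3 : |Lk Q' (X / Q ^ 2) m| ≤ 100 * (1 + Real.log Q') ^ 3 * dQ Q' m * C1 := by
    rw [← Real.norm_eq_abs, ← Complex.norm_real, h1]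
    refine h2.trans ?_
    refine mul_le_mul_of_nonneg_left hmbs' ?_
    have : 0 ≤ dQ Q' m := by unfold dQ; positivity
    have : 0 ≤ Real.log Q' := Real.log_natCast_nonneg Q'
    positivity
  refine h3.trans ?_
  have hlogQ0 : 0 ≤ Real.log Q' := Real.log_natCast_nonneg Q'
  have hdq0 : 0 ≤ dQ Q' m := by unfold dQ; positivity
  have h4 : dQ Q' m ≤ (C * 4 ^ (ε / 2)) * (X:ℝ) ^ (ε / 2) := by
    refine (Pool.Agent.H9S.BDL_dQ Q' m hm1').trans ?_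
    refine (hdiv m.toNat (by omega)).trans ?_
    rw [mul_assoc, ← Real.mul_rpow (by norm_num) hnp.le]
    refine mul_le_mul_of_nonneg_left ?_ hC.le
    refine Real.rpow_le_rpow (Nat.cast_nonneg _) ?_ (by positivity)
    have h5 : m.toNat ≤ 4 * X := by omega
    exact_mod_cast h5
  have h5 : (1 + Real.log Q') ^ 3 ≤ (1 + 12 / ε) ^ 3 * (X:ℝ) ^ (ε / 4) := by
    have h6 : Real.log Q' ≤ Real.log X :=
      Real.log_le_log (by exact_mod_cast hQ') (by exact_mod_cast hQQ.trans hQX)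
    have h7 : Real.log X ≤ (X:ℝ) ^ (ε / 12) / (ε / 12) := Real.log_le_rpow_div hnp.le (by positivity)
    have h8 : (X:ℝ) ^ (ε / 12) / (ε / 12) = 12 / ε * (X:ℝ) ^ (ε / 12) := by
      field_simp
    have h9 : (1:ℝ) ≤ (X:ℝ) ^ (ε / 12) := Real.one_le_rpow hn1r (by positivity)
    have h10 : 1 + Real.log Q' ≤ (1 + 12 / ε) * (X:ℝ) ^ (ε / 12) := by
      rw [h8] at h7
      have : 0 < 12 / ε := by positivity
      nlinarith
    have h11 : ((X:ℝ) ^ (ε / 12)) ^ 3 = (X:ℝ) ^ (ε / 4) := by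
      rw [← Real.rpow_natCast, ← Real.rpow_mul hnp.le]
      congr 1
      push_cast
      ring
    calc (1 + Real.log Q') ^ 3 ≤ ((1 + 12 / ε) * (X:ℝ) ^ (ε / 12)) ^ 3 := pow_le_pow_left₀ (by linarith) h10 3
      _ = (1 + 12 / ε) ^ 3 * (X:ℝ) ^ (ε / 4) := by rw [mul_pow, h11]
  have hC1' : 0 ≤ C1 := by linarith
  have hP0 : 0 ≤ (X:ℝ) ^ (ε / 2) := Real.rpow_nonneg hnp.le _
  have hP1 : 0 ≤ (X:ℝ) ^ (ε / 4) := Real.rpow_nonneg hnp.le _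
  calc 100 * (1 + Real.log Q') ^ 3 * dQ Q' m * C1
      ≤ 100 * ((1 + 12 / ε) ^ 3 * (X:ℝ) ^ (ε / 4)) * ((C * 4 ^ (ε / 2)) * (X:ℝ) ^ (ε / 2)) * C1 := by
        refine mul_le_mul_of_nonneg_right ?_ hC1'
        refine mul_le_mul (mul_le_mul_of_nonneg_left h5 (by norm_num)) h4 hdq0 (by positivity)
    _ = c3 * ((X:ℝ) ^ (ε / 4) * (X:ℝ) ^ (ε / 2)) := by rw [hc3]; ring
    _ ≤ (X:ℝ) ^ (ε / 4) * ((X:ℝ) ^ (ε / 4) * (X:ℝ) ^ (ε / 2)) :=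
        mul_le_mul_of_nonneg_right hn1' (mul_nonneg hP1 hP0)
    _ = (X:ℝ) ^ ε := by
        rw [← Real.rpow_add hnp, ← Real.rpow_add hnp]
        congr 1
        ring

/-- Proof. `lp m` is `0` or `log m`, `m ≤ 4X`. -/
theorem U0_lp (ε : ℝ) (hε : 0 < ε) : ∃ X0 : ℕ, ∀ X : ℕ, X0 ≤ X → ∀ m : ℤ, m ≤ 4 * X → |lp m| ≤ (X : ℝ) ^ ε := by
  have ht1 : ∀ᶠ n : ℕ in Filter.atTop, 4 ^ (ε / 2) / (ε / 2) ≤ (n:ℝ) ^ (ε / 2) :=
    ((tendsto_rpow_atTop (by positivity : 0 < ε / 2)).comp tendsto_natCast_atTop_atTop).eventually_ge_atTop _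
  obtain ⟨n1, hn1⟩ := Filter.eventually_atTop.1 ht1
  refine ⟨max n1 1, fun X hX m hm => ?_⟩
  have h1 := hn1 X (by omega)
  have hX1 : 1 ≤ X := by omega
  have hnp : (0:ℝ) < X := by exact_mod_cast hX1
  have hXe : 0 ≤ (X:ℝ) ^ ε := Real.rpow_nonneg hnp.le _
  unfold Pool.Agent.Lib.H68T.lp
  by_cases hp : m.toNat.Prime
  · rw [if_pos hp]
    have hm1 : 1 ≤ m.toNat := hp.one_le
    have hm2 : (1:ℤ) ≤ m := by omega
    have hmr : (1:ℝ) ≤ (m:ℝ) := by exact_mod_cast hm2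
    have hm4 : (m:ℝ) ≤ 4 * X := by exact_mod_cast hm
    rw [abs_of_nonneg (Real.log_nonneg hmr)]
    calc Real.log m ≤ Real.log (4 * X) := Real.log_le_log (by linarith) hm4
      _ ≤ (4 * (X:ℝ)) ^ (ε / 2) / (ε / 2) := Real.log_le_rpow_div (by positivity) (by positivity)
      _ = 4 ^ (ε / 2) / (ε / 2) * (X:ℝ) ^ (ε / 2) := by
          rw [Real.mul_rpow (by norm_num) hnp.le]
          ring
      _ ≤ (X:ℝ) ^ (ε / 2) * (X:ℝ) ^ (ε / 2) := mul_le_mul_of_nonneg_right h1 (Real.rpow_nonneg hnp.le _)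
      _ = (X:ℝ) ^ ε := by
          rw [← Real.rpow_add hnp]
          congr 1
          ring
  · rw [if_neg hp, abs_zero]
    exact hXe

end Pool.Agent.H9U
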