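import Pool.Agent.Lib.H9U.Defs
import Pool.Agent.Lib.H9U.U1A

/-!
# H9U, chunk U1B (S/M): cutoff of the kernel
-/

open Finset

namespace Pool.Agent.H9U

open Pool.Agent.H44W (ee)
open Pool.Agent.H9S (Bd BF Sx Sy)

/-- Proof. `x + y ∈ (X, 4X) ⊆ [0, M)` with `M = 4 X + 1` for `x ∈ Sx X`, `y ∈ Sy X`. Insert `U1A_ind M u v`; `ee(j (x+y)/M) = ee(j x/M) ee(j y/M)`
(`ee_add`) is absorbed in `f` and `g` (still bounded by `1`). Triangle inequality. -/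
theorem U1B_cut (X : ℕ) (F : ℤ → ℂ) (B : ℝ) (hF : ∀ W f g : ℤ → ℂ, Bd W → Bd f → Bd g → ‖BF (Sx X) (Sy X) F W f g‖ ≤ B)
    (u v : ℤ) (W f g : ℤ → ℂ) (hW : Bd W) (hf : Bd f) (hg : Bd g) :
    ‖BF (Sx X) (Sy X) (fun m => if u ≤ m ∧ m < v then F m else 0) W f g‖ ≤
      4 * (1 + Real.log ((4 * X + 1 : ℕ) : ℝ)) * B := by
  obtain ⟨c, hc1, hc2⟩ := U1A_ind (4 * X + 1) (by omega) u v
  have hB0 : 0 ≤ B := le_trans (norm_nonneg _) (hF W f g hW hf hg)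
  have key : BF (Sx X) (Sy X) (fun m => if u ≤ m ∧ m < v then F m else 0) W f g =
      ∑ j ∈ range (4 * X + 1), c j * BF (Sx X) (Sy X) F W (fun x => f x * ee ((j:ℝ) * x / ((4 * X + 1 : ℕ) : ℝ)))
        (fun y => g y * ee ((j:ℝ) * y / ((4 * X + 1 : ℕ) : ℝ))) := by
    simp only [BF, mul_sum]
    symm
    rw [sum_comm]
    refine sum_congr rfl fun x hx => ?_
    rw [sum_comm]
    refine sum_congr rfl fun y hy => ?_
    symm
    rw [Sx, mem_Ico] at hx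
    rw [Sy, mem_Ioo] at hy
    have h1 := hc1 (x + y) (by omega) (by push_cast; omega)
    have h2 : (if u ≤ x + y ∧ x + y < v then F (x + y) else 0) = F (x + y) * (if u ≤ x + y ∧ x + y < v then (1:ℂ) else 0) := by
      split_ifs <;> simp
    rw [h2, h1, mul_sum, mul_sum, sum_mul]
    refine sum_congr rfl fun j _ => ?_
    have h3 : ee ((j : ℝ) * ((x + y : ℤ) : ℝ) / ((4 * X + 1 : ℕ) : ℝ)) =
        ee ((j:ℝ) * x / ((4 * X + 1 : ℕ) : ℝ)) * ee ((j:ℝ) * y / ((4 * X + 1 : ℕ) : ℝ)) := by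
      rw [← Pool.Agent.H44W.ee_add]
      congr 1
      push_cast
      ring
    rw [h3]
    ring
  rw [key]
  refine le_trans (norm_sum_le _ _) ?_
  have h4 : ∀ j ∈ range (4 * X + 1), ‖c j * BF (Sx X) (Sy X) F W (fun x => f x * ee ((j:ℝ) * x / ((4 * X + 1 : ℕ) : ℝ)))
        (fun y => g y * ee ((j:ℝ) * y / ((4 * X + 1 : ℕ) : ℝ)))‖ ≤ ‖c j‖ * B := by
    intro j _
    rw [norm_mul]
    refine mul_le_mul_of_nonneg_left (hF _ _ _ hW ?_ ?_) (norm_nonneg _)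
    · intro x
      change ‖f x * _‖ ≤ 1
      rw [norm_mul, Pool.Agent.H44W.norm_ee, mul_one]
      exact hf x
    · intro y
      change ‖g y * _‖ ≤ 1
      rw [norm_mul, Pool.Agent.H44W.norm_ee, mul_one]
      exact hg y
  refine le_trans (sum_le_sum h4) ?_
  rw [← sum_mul]
  exact mul_le_mul_of_nonneg_right hc2 hB0

end Pool.Agent.H9U
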