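import Pool.Agent.Lib.H9U.U1B

/-!
# H9U, chunk U2 (M): parallelograms. The trick: on the parallelograms with `h - l = s` the form is the bilinear form `BF`.
-/

open Finset

namespace Pool.Agent.H9U

open Pool.Agent.H44W (ee)
open Pool.Agent.H9S (Bd BF Sx Sy)

theorem u2_cut_ne {X : ℕ} {f : ℤ → ℂ} {m : ℤ} (h : cutJ X f m ≠ 0) : m ∈ JJ X := by
  by_contra h1
  exact h (if_neg h1)

theorem u2_cut_pos {X : ℕ} {f : ℤ → ℂ} {m : ℤ} (h : m ∈ JJ X) : cutJ X f m = f m := if_pos h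

theorem u2_JJ {X : ℕ} {m : ℤ} (h : m ∈ JJ X) : 2 * (X : ℤ) ≤ m ∧ m < 2 * X + X / 4 := by
  unfold JJ at h
  rwa [Finset.mem_Ico] at h

theorem u2_Sx {X : ℕ} {m : ℤ} (h : m ∈ JJ X) : m ∈ Sx X := by
  have h1 := u2_JJ h
  unfold Sx
  rw [Finset.mem_Ico]
  omega

theorem u2_bdcut {X : ℕ} {f : ℤ → ℂ} (hf : Bd f) (m : ℤ) : ‖cutJ X f m‖ ≤ 1 := by
  unfold cutJ
  split_ifs
  · exact hf m
  · simp

theorem u2_inner (X : ℕ) (F f1 f2 f3 : ℤ → ℂ) (w : ℂ) (l s : ℤ) :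
    w * ∑ m ∈ JJ X, f1 m * cutJ X f2 (m + (l + s)) * cutJ X f3 (m + l) * cutJ X F (m + (l + s) + l) =
    ∑ x ∈ Sx X, (cutJ X f2 x * cutJ X f3 (x - s)) * w * cutJ X F (x + l) * cutJ X f1 (x - l - s) := by
  rw [Finset.mul_sum]
  refine Finset.sum_bij_ne_zero (fun m _ _ => m + (l + s)) ?_ ?_ ?_ ?_
  · intro m hm h0
    apply u2_Sx
    apply u2_cut_ne (f := f2)
    intro h1
    exact h0 (by rw [h1]; ring)
  · intro a _ _ b _ _ hab
    have h1 : a + (l + s) = b + (l + s) := hab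
    omega
  · intro x hx h0
    have h1 : x - l - s ∈ JJ X := by
      apply u2_cut_ne (f := f1)
      intro h1
      exact h0 (by rw [h1]; ring)
    refine ⟨x - l - s, h1, ?_, by ring⟩
    intro h2
    apply h0
    rw [u2_cut_pos h1, ← h2]
    have e1 : x - l - s + (l + s) = x := by ring
    have e2 : x - l - s + l = x - s := by ring
    rw [e1, e2]
    ring
  · intro m hm h0
    have e1 : m + (l + s) - l - s = m := by ring
    have e2 : m + (l + s) - s = m + l := by ring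
    rw [e1, e2, u2_cut_pos hm]
    ring

theorem u2_shift (X : ℕ) (F f1 f2 f3 : ℤ → ℂ) (W : ℤ → ℤ → ℂ) (l : ℤ) :
    ∑ h ∈ Sy X, W h l *
      ∑ m ∈ JJ X, f1 m * cutJ X f2 (m + h) * cutJ X f3 (m + l) * cutJ X F (m + h + l) =
    ∑ s ∈ Sy X, (if l + s ∈ Sy X then W (l + s) l else 0) *
      ∑ m ∈ JJ X, f1 m * cutJ X f2 (m + (l + s)) * cutJ X f3 (m + l) * cutJ X F (m + (l + s) + l) := by
  refine Finset.sum_bij_ne_zero (fun h _ _ => h - l) ?_ ?_ ?_ ?_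
  · intro h hh h0
    have h1 : ∑ m ∈ JJ X, f1 m * cutJ X f2 (m + h) * cutJ X f3 (m + l) * cutJ X F (m + h + l) ≠ 0 := by
      intro h2
      exact h0 (by rw [h2]; ring)
    obtain ⟨m, hm, hm0⟩ := Finset.exists_ne_zero_of_sum_ne_zero h1
    have h2 : m + h ∈ JJ X := by
      apply u2_cut_ne (f := f2)
      intro h3
      exact hm0 (by rw [h3]; ring)
    have h3 : m + l ∈ JJ X := by
      apply u2_cut_ne (f := f3)
      intro h4
      exact hm0 (by rw [h4]; ring)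
    have h4 := u2_JJ h2
    have h5 := u2_JJ h3
    show h - l ∈ Sy X
    unfold Sy
    rw [Finset.mem_Ioo]
    omega
  · intro a _ _ b _ _ hab
    have h1 : a - l = b - l := hab
    omega
  · intro s hs h0
    have h1 : l + s ∈ Sy X := by
      by_contra h1
      exact h0 (by rw [if_neg h1]; ring)
    refine ⟨l + s, h1, ?_, by ring⟩
    rw [if_pos h1] at h0
    exact h0
  · intro h hh h0
    have e1 : l + (h - l) = h := by ring
    rw [e1, if_pos hh]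

theorem u2_id (X : ℕ) (F : ℤ → ℂ) (W : ℤ → ℤ → ℂ) (f1 f2 f3 : ℤ → ℂ) :
    ∑ h ∈ Sy X, ∑ l ∈ Sy X, W h l *
      ∑ m ∈ JJ X, f1 m * cutJ X f2 (m + h) * cutJ X f3 (m + l) * cutJ X F (m + h + l) =
    ∑ s ∈ Sy X, BF (Sx X) (Sy X) (cutJ X F) (fun z => cutJ X f1 (z - s))
      (fun x => cutJ X f2 x * cutJ X f3 (x - s)) (fun y => if y + s ∈ Sy X then W (y + s) y else 0) := by
  rw [Finset.sum_comm]
  rw [Finset.sum_congr rfl fun l _ => u2_shift X F f1 f2 f3 W l]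
  rw [Finset.sum_comm]
  refine Finset.sum_congr rfl fun s _ => ?_
  unfold BF
  rw [Finset.sum_comm (s := Sx X)]
  refine Finset.sum_congr rfl fun l _ => ?_
  exact u2_inner X F f1 f2 f3 _ l s

theorem u2_num (κ : ℝ) (hκ : 0 < κ) : ∃ X0 : ℕ, ∀ X : ℕ, X0 ≤ X → 1 ≤ X ∧
    8 * (1 + Real.log ((4 * X + 1 : ℕ) : ℝ)) ≤ (X : ℝ) ^ (κ / 2) := by
  have h1 : ∀ᶠ X : ℕ in Filter.atTop, 8 * (1 + 4 / κ * 5 ^ (κ / 4)) ≤ (X : ℝ) ^ (κ / 4) :=
    ((tendsto_rpow_atTop (by positivity : 0 < κ / 4)).comp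
      tendsto_natCast_atTop_atTop).eventually_ge_atTop _
  obtain ⟨X0, hX0⟩ := Filter.eventually_atTop.1 (h1.and (Filter.eventually_ge_atTop 1))
  refine ⟨X0, fun X hX => ?_⟩
  obtain ⟨h2, h3⟩ := hX0 X hX
  refine ⟨h3, ?_⟩
  have hX1 : (1 : ℝ) ≤ X := by exact_mod_cast h3
  have h4 : Real.log ((4 * X + 1 : ℕ) : ℝ) ≤ (5 * (X : ℝ)) ^ (κ / 4) / (κ / 4) := by
    have h5 : Real.log ((4 * X + 1 : ℕ) : ℝ) ≤ Real.log (5 * (X : ℝ)) := by
      apply Real.log_le_log (by positivity)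
      push_cast
      linarith
    exact h5.trans (Real.log_le_rpow_div (by positivity) (by positivity))
  rw [Real.mul_rpow (by norm_num) (by positivity)] at h4
  have h6 : (1 : ℝ) ≤ (X : ℝ) ^ (κ / 4) := Real.one_le_rpow hX1 (by positivity)
  have h7 : (X : ℝ) ^ (κ / 2) = (X : ℝ) ^ (κ / 4) * (X : ℝ) ^ (κ / 4) := by
    rw [← Real.rpow_add (by linarith)]
    congr 1
    ring
  have h8 : (5 : ℝ) ^ (κ / 4) * (X : ℝ) ^ (κ / 4) / (κ / 4) =
      4 / κ * 5 ^ (κ / 4) * (X : ℝ) ^ (κ / 4) := by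
    field_simp
  rw [h8] at h4
  rw [h7]
  have h9 : 8 * (1 + Real.log ((4 * X + 1 : ℕ) : ℝ)) ≤
      8 * (1 + 4 / κ * 5 ^ (κ / 4)) * (X : ℝ) ^ (κ / 4) := by
    nlinarith
  exact h9.trans (mul_le_mul_of_nonneg_right h2 (by linarith))

/-- Proof. Put `s = h - l` (the terms with `s ∉ (-X, X)` vanish: `m + h` and `m + l` are both in `JJ X`, an interval of length `≤ X/4`). For fixed
`s` substitute `x = m + h = m + l + s`, `y = l`: `x + y = m + h + l`, `x - y = m + s`. The terms are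
`[cutJ f2 x * cutJ f3 (x - s)] * [W (y + s) y, if y + s ∈ (-X, X), else 0] * cutJ F (x + y) * [cutJ f1 (x - y - s)]`, summed over
`x ∈ Sx X` (`x ∈ JJ X ⊆ Sx X`, else the term is `0`), `y ∈ Sy X`: a value of `BF (Sx X) (Sy X) (cutJ X F)` at bounded functions.
`U1B_cut` with `u = 2X`, `v = 2X + X/4` (`cutJ X F m = if u ≤ m ∧ m < v then F m else 0`) and `Unif.bf`: each `s` contributes at most
`4 (1 + log (4X+1)) X^(2-κ)`, and there are at most `2X` values of `s`. `X` large in terms of `κ`. -/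
theorem U2_par (κ : ℝ) (hκ : 0 < κ) : ∃ X0 : ℕ, ∀ X : ℕ, X0 ≤ X → ∀ F : ℤ → ℂ, Unif X κ F →
    ∀ (W : ℤ → ℤ → ℂ) (f1 f2 f3 : ℤ → ℂ), (∀ h l, ‖W h l‖ ≤ 1) → Bd f1 → Bd f2 → Bd f3 →
    ‖∑ h ∈ Ioo (-(X : ℤ)) X, ∑ l ∈ Ioo (-(X : ℤ)) X, W h l *
      ∑ m ∈ JJ X, f1 m * cutJ X f2 (m + h) * cutJ X f3 (m + l) * cutJ X F (m + h + l)‖ ≤ (X : ℝ) ^ (3 - κ / 2) := by
  obtain ⟨X0, hX0⟩ := u2_num κ hκ
  refine ⟨X0, fun X hX F hF W f1 f2 f3 hW h1 h2 h3 => ?_⟩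
  obtain ⟨hX1, hnum⟩ := hX0 X hX
  have hXr : (1 : ℝ) ≤ X := by exact_mod_cast hX1
  have hid := u2_id X F W f1 f2 f3
  have hS : Sy X = Ioo (-(X : ℤ)) X := rfl
  rw [hS] at hid
  rw [hid]
  have hcut : cutJ X F = fun m => if 2 * (X : ℤ) ≤ m ∧ m < 2 * X + X / 4 then F m else 0 := by
    funext m
    unfold cutJ JJ
    simp only [Finset.mem_Ico]
  have hone : ∀ s : ℤ, ‖BF (Sx X) (Sy X) (cutJ X F) (fun z => cutJ X f1 (z - s))
      (fun x => cutJ X f2 x * cutJ X f3 (x - s))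
      (fun y => if y + s ∈ Ioo (-(X : ℤ)) X then W (y + s) y else 0)‖ ≤
      4 * (1 + Real.log ((4 * X + 1 : ℕ) : ℝ)) * (X : ℝ) ^ (2 - κ) := by
    intro s
    rw [hcut]
    apply U1B_cut X F _ hF.bf
    · intro z
      exact u2_bdcut h1 _
    · intro x
      rw [norm_mul]
      calc ‖cutJ X f2 x‖ * ‖cutJ X f3 (x - s)‖ ≤ 1 * 1 :=
            mul_le_mul (u2_bdcut h2 _) (u2_bdcut h3 _) (norm_nonneg _) zero_le_one
        _ = 1 := one_mul 1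
    · intro y
      show ‖if y + s ∈ Ioo (-(X : ℤ)) X then W (y + s) y else 0‖ ≤ 1
      split_ifs
      · exact hW _ _
      · simp
  have hcard : ((Ioo (-(X : ℤ)) X).card : ℝ) ≤ 2 * X := by
    rw [Int.card_Ioo]
    have h4 : ((X : ℤ) - -(X : ℤ) - 1).toNat ≤ 2 * X := by omega
    exact_mod_cast h4
  have hlog : 0 ≤ 1 + Real.log ((4 * X + 1 : ℕ) : ℝ) := by
    have h4 : 0 ≤ Real.log ((4 * X + 1 : ℕ) : ℝ) := Real.log_natCast_nonneg _
    linarith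
  have hp : 0 ≤ (X : ℝ) ^ (2 - κ) := by positivity
  calc ‖∑ s ∈ Ioo (-(X : ℤ)) X, BF (Sx X) (Sy X) (cutJ X F) (fun z => cutJ X f1 (z - s))
        (fun x => cutJ X f2 x * cutJ X f3 (x - s))
        (fun y => if y + s ∈ Ioo (-(X : ℤ)) X then W (y + s) y else 0)‖
      ≤ ∑ s ∈ Ioo (-(X : ℤ)) X, 4 * (1 + Real.log ((4 * X + 1 : ℕ) : ℝ)) * (X : ℝ) ^ (2 - κ) :=
        (norm_sum_le _ _).trans (Finset.sum_le_sum fun s _ => hone s)
    _ = ((Ioo (-(X : ℤ)) X).card : ℝ) * (4 * (1 + Real.log ((4 * X + 1 : ℕ) : ℝ)) * (X : ℝ) ^ (2 - κ)) := by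
        rw [Finset.sum_const, nsmul_eq_mul]
    _ ≤ (2 * X) * (4 * (1 + Real.log ((4 * X + 1 : ℕ) : ℝ)) * (X : ℝ) ^ (2 - κ)) := by
        apply mul_le_mul_of_nonneg_right hcard
        positivity
    _ = 8 * (1 + Real.log ((4 * X + 1 : ℕ) : ℝ)) * ((X : ℝ) * (X : ℝ) ^ (2 - κ)) := by ring
    _ ≤ (X : ℝ) ^ (κ / 2) * ((X : ℝ) * (X : ℝ) ^ (2 - κ)) := by
        apply mul_le_mul_of_nonneg_right hnum
        positivity
    _ = (X : ℝ) ^ (3 - κ / 2) := by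
        have h5 : (X : ℝ) * (X : ℝ) ^ (2 - κ) = (X : ℝ) ^ (3 - κ) := by
          nth_rewrite 1 [← Real.rpow_one (X : ℝ)]
          rw [← Real.rpow_add (by linarith)]
          congr 1
          ring
        rw [h5, ← Real.rpow_add (by linarith)]
        congr 1
        ring

end Pool.Agent.H9U
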