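import Pool.Agent.Lib.H44W.E1

/-!
# H9U, chunk U4A (M): a bilinear form with kernel `G(c + e1 x + e2 y)` is bounded by the Fourier coefficients of `G`
-/

open Finset

namespace Pool.Agent.H9U

open Pool.Agent.H44W (ee)

theorem u4a_par (M X1 : ℕ) (e : ℤ) (he : e ≠ 0) (hM0 : 0 < M) (hM : |e| * X1 < M) (a : ℕ → ℂ) (ha : ∀ x, ‖a x‖ ≤ 1) :
    ∑ j ∈ range M, ‖∑ x ∈ range X1, a x * ee ((j : ℝ) * ((e * x : ℤ) : ℝ) / M)‖ ^ 2 ≤ (M : ℝ) * X1 := by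
  have h1 : ((∑ j ∈ range M, ‖∑ x ∈ range X1, a x * ee ((j : ℝ) * ((e * x : ℤ) : ℝ) / M)‖ ^ 2 : ℝ) : ℂ) =
      ((M * ∑ x ∈ range X1, ‖a x‖ ^ 2 : ℝ) : ℂ) := by
    push_cast
    have h2 : ∀ j ∈ range M, ((‖∑ x ∈ range X1, a x * ee ((j : ℝ) * ((e : ℝ) * (x : ℝ)) / M)‖ : ℝ) : ℂ) ^ 2 =
        ∑ x ∈ range X1, ∑ y ∈ range X1, a x * (starRingEnd ℂ) (a y) * ee ((j : ℝ) * ((e * (x - y) : ℤ) : ℝ) / M) := by
      intro j _
      rw [← Complex.mul_conj', map_sum, sum_mul]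
      refine sum_congr rfl fun x _ => ?_
      rw [mul_sum]
      refine sum_congr rfl fun y _ => ?_
      rw [map_mul, ← Pool.Agent.H44W.ee_neg]
      have h3 : ee ((j : ℝ) * ((e * (x - y) : ℤ) : ℝ) / M) = ee ((j : ℝ) * ((e : ℝ) * (x : ℝ)) / M) * ee (-((j : ℝ) * ((e : ℝ) * (y : ℝ)) / M)) := by
        rw [← Pool.Agent.H44W.ee_add]
        congr 1
        push_cast
        ring
      rw [h3]
      ring
    rw [sum_congr rfl h2, sum_comm, mul_sum]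
    refine sum_congr rfl fun x hx => ?_
    rw [sum_comm]
    have h4 : ∀ y ∈ range X1, ∑ j ∈ range M, a x * (starRingEnd ℂ) (a y) * ee ((j : ℝ) * ((e * (x - y) : ℤ) : ℝ) / M) =
        if x = y then (M:ℂ) * (a x * (starRingEnd ℂ) (a y)) else 0 := by
      intro y hy
      rw [← mul_sum, Pool.Agent.H44W.ee_orth M hM0]
      by_cases hxy : x = y
      · subst hxy
        rw [if_pos rfl, if_pos (by rw [sub_self, mul_zero]; exact dvd_zero _)]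
        ring
      · rw [if_neg hxy, if_neg, mul_zero]
        intro hd
        rw [mem_range] at hx hy
        have h5 : e * ((x:ℤ) - y) = 0 := by
          refine Int.eq_zero_of_abs_lt_dvd hd ?_
          rw [abs_mul]
          refine lt_of_le_of_lt ?_ hM
          refine mul_le_mul_of_nonneg_left ?_ (abs_nonneg _)
          rw [abs_le]
          constructor <;> omega
        rcases mul_eq_zero.1 h5 with h6 | h6
        · exact he h6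
        · omega
    rw [sum_congr rfl h4, sum_ite_eq (range X1) x (fun y => (M:ℂ) * (a x * (starRingEnd ℂ) (a y))), if_pos hx, Complex.mul_conj']
  rw [Complex.ofReal_inj] at h1
  rw [h1]
  refine mul_le_mul_of_nonneg_left ?_ (Nat.cast_nonneg _)
  calc ∑ x ∈ range X1, ‖a x‖ ^ 2 ≤ ∑ x ∈ range X1, (1:ℝ) := sum_le_sum fun x _ => pow_le_one₀ (norm_nonneg _) (ha x)
    _ = X1 := by rw [sum_const, card_range, nsmul_eq_mul, mul_one]

theorem u4a_inv (M : ℕ) (hM0 : 0 < M) (G : ℤ → ℂ) (u m : ℤ) (h : u ≤ m ∧ m < u + M) :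
    G m = (1 / (M:ℂ)) * ∑ j ∈ range M, (∑ s ∈ Ico u (u + M), G s * ee (-((j : ℝ) * s / M))) * ee ((j : ℝ) * m / M) := by
  have hMc : (M:ℂ) ≠ 0 := Nat.cast_ne_zero.2 hM0.ne'
  have h1 : ∀ j ∈ range M, (∑ s ∈ Ico u (u + M), G s * ee (-((j : ℝ) * s / M))) * ee ((j : ℝ) * m / M) =
      ∑ s ∈ Ico u (u + M), G s * ee ((j:ℝ) * ((m - s : ℤ) : ℝ) / M) := by
    intro j _
    rw [sum_mul]
    refine sum_congr rfl fun s _ => ?_
    rw [mul_assoc, ← Pool.Agent.H44W.ee_add]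
    congr 2
    push_cast
    ring
  rw [sum_congr rfl h1, sum_comm]
  have h2 : ∀ s ∈ Ico u (u + (M:ℤ)), ∑ j ∈ range M, G s * ee ((j:ℝ) * ((m - s : ℤ) : ℝ) / M) = if m = s then (M:ℂ) * G s else 0 := by
    intro s hs
    rw [← mul_sum, Pool.Agent.H44W.ee_orth M hM0]
    rw [mem_Ico] at hs
    by_cases hms : m = s
    · rw [if_pos hms, if_pos (by rw [hms, sub_self]; exact dvd_zero _), mul_comm]
    · rw [if_neg hms, if_neg, mul_zero]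
      intro hd
      apply hms
      have h3 : m - s = 0 := Int.eq_zero_of_abs_lt_dvd hd (by rw [abs_lt]; constructor <;> omega)
      omega
  rw [sum_congr rfl h2, sum_ite_eq (Ico u (u + (M:ℤ))) m (fun s => (M:ℂ) * G s), if_pos (mem_Ico.2 h), ← mul_assoc, one_div,
    inv_mul_cancel₀ hMc, one_mul]

/-- Proof. For `m ∈ [u, u+M)` (orthogonality, `ee_orth`): `G m = (1/M) ∑_{j<M} Ĝ_j ee(j m/M)`, `Ĝ_j = ∑_{s ∈ Ico u (u+M)} G s ee(-j s/M)`. Insert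
`m = c + e1 x + e2 y`: the form is `(1/M) ∑_j Ĝ_j ee(jc/M) (∑_x a_x ee(j e1 x/M)) (∑_y b_y ee(j e2 y/M))`, at most
`(B/M) ∑_j |A_j| |B_j| ≤ (B/M) (∑_j |A_j|²)^(1/2) (∑_j |B_j|²)^(1/2)`, and `∑_j |A_j|² = M ∑_{x,x' : M ∣ e1 (x - x')} a_x conj a_x' ≤ M X1`
(`|e1 (x - x')| < M`, so only `x = x'`). -/
theorem U4A_bil (M X1 : ℕ) (e1 e2 c u : ℤ) (h1 : e1 ≠ 0) (h2 : e2 ≠ 0) (hM1 : |e1| * X1 < M) (hM2 : |e2| * X1 < M)
    (G : ℤ → ℂ) (B : ℝ) (hB0 : 0 ≤ B)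
    (hB : ∀ j ∈ range M, ‖∑ m ∈ Ico u (u + M), G m * ee (-((j : ℝ) * m / M))‖ ≤ B)
    (hr : ∀ x ∈ range X1, ∀ y ∈ range X1, u ≤ c + e1 * x + e2 * y ∧ c + e1 * x + e2 * y < u + M)
    (a b : ℕ → ℂ) (ha : ∀ x, ‖a x‖ ≤ 1) (hb : ∀ y, ‖b y‖ ≤ 1) :
    ‖∑ x ∈ range X1, ∑ y ∈ range X1, a x * b y * G (c + e1 * x + e2 * y)‖ ≤ X1 * B := by
  have hM0 : 0 < M := by
    have : 0 ≤ |e1| * (X1:ℤ) := by positivity
    omega
  have hMr : (0:ℝ) < M := by exact_mod_cast hM0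
  set A : ℕ → ℂ := fun j => ∑ x ∈ range X1, a x * ee ((j : ℝ) * ((e1 * x : ℤ) : ℝ) / M) with hA
  set D : ℕ → ℂ := fun j => ∑ y ∈ range X1, b y * ee ((j : ℝ) * ((e2 * y : ℤ) : ℝ) / M) with hD
  set H : ℕ → ℂ := fun j => ∑ s ∈ Ico u (u + M), G s * ee (-((j : ℝ) * s / M)) with hH
  have key : ∑ x ∈ range X1, ∑ y ∈ range X1, a x * b y * G (c + e1 * x + e2 * y) =
      (1 / (M:ℂ)) * ∑ j ∈ range M, H j * ee ((j:ℝ) * (c:ℝ) / M) * A j * D j := by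
    have e0 : ∀ x ∈ range X1, ∀ y ∈ range X1, a x * b y * G (c + e1 * x + e2 * y) =
        ∑ j ∈ range M, (1 / (M:ℂ)) * (H j * ee ((j:ℝ) * (c:ℝ) / M) * (a x * ee ((j : ℝ) * ((e1 * x : ℤ) : ℝ) / M)) *
          (b y * ee ((j : ℝ) * ((e2 * y : ℤ) : ℝ) / M))) := by
      intro x hx y hy
      rw [u4a_inv M hM0 G u _ (hr x hx y hy), ← mul_sum, ← mul_assoc, mul_comm (a x * b y) (1 / (M:ℂ)), mul_assoc, mul_sum]
      congr 1
      refine sum_congr rfl fun j _ => ?_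
      have e2 : ee ((j : ℝ) * ((c + e1 * x + e2 * y : ℤ) : ℝ) / M) = ee ((j:ℝ) * (c:ℝ) / M) * ee ((j : ℝ) * ((e1 * x : ℤ) : ℝ) / M) *
          ee ((j : ℝ) * ((e2 * y : ℤ) : ℝ) / M) := by
        rw [← Pool.Agent.H44W.ee_add, ← Pool.Agent.H44W.ee_add]
        congr 1
        push_cast
        ring
      rw [e2, hH]
      ring
    rw [sum_congr rfl fun x hx => sum_congr rfl fun y hy => e0 x hx y hy]
    have e3 : ∀ x ∈ range X1, ∑ y ∈ range X1, ∑ j ∈ range M, (1 / (M:ℂ)) * (H j * ee ((j:ℝ) * (c:ℝ) / M) * (a x * ee ((j : ℝ) * ((e1 * x : ℤ) : ℝ) / M)) *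
          (b y * ee ((j : ℝ) * ((e2 * y : ℤ) : ℝ) / M))) = ∑ j ∈ range M, (1 / (M:ℂ)) * (H j * ee ((j:ℝ) * (c:ℝ) / M) *
          (a x * ee ((j : ℝ) * ((e1 * x : ℤ) : ℝ) / M)) * D j) := by
      intro x _
      rw [sum_comm]
      refine sum_congr rfl fun j _ => ?_
      rw [← mul_sum, ← mul_sum]
    rw [sum_congr rfl e3, sum_comm, mul_sum]
    refine sum_congr rfl fun j _ => ?_
    rw [← mul_sum, ← sum_mul, ← mul_sum]
  rw [key, norm_mul, norm_div, norm_one, Complex.norm_natCast]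
  have hsum : ‖∑ j ∈ range M, H j * ee ((j:ℝ) * (c:ℝ) / M) * A j * D j‖ ≤ M * (X1 * B) := by
    refine le_trans (norm_sum_le _ _) ?_
    have e4 : ∀ j ∈ range M, ‖H j * ee ((j:ℝ) * (c:ℝ) / M) * A j * D j‖ ≤ B / 2 * ‖A j‖ ^ 2 + B / 2 * ‖D j‖ ^ 2 := by
      intro j hj
      rw [norm_mul, norm_mul, norm_mul, Pool.Agent.H44W.norm_ee, mul_one]
      have e5 : ‖H j‖ * ‖A j‖ * ‖D j‖ ≤ B * (‖A j‖ * ‖D j‖) := by
        rw [mul_assoc]
        exact mul_le_mul_of_nonneg_right (hB j hj) (by positivity)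
      refine le_trans e5 ?_
      have e6 : ‖A j‖ * ‖D j‖ ≤ (‖A j‖ ^ 2 + ‖D j‖ ^ 2) / 2 := by nlinarith [sq_nonneg (‖A j‖ - ‖D j‖)]
      calc B * (‖A j‖ * ‖D j‖) ≤ B * ((‖A j‖ ^ 2 + ‖D j‖ ^ 2) / 2) := mul_le_mul_of_nonneg_left e6 hB0
        _ = _ := by ring
    refine le_trans (sum_le_sum e4) ?_
    rw [sum_add_distrib, ← mul_sum, ← mul_sum]
    have f1 := u4a_par M X1 e1 h1 hM0 hM1 a ha
    have f2 := u4a_par M X1 e2 h2 hM0 hM2 b hb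
    have f3 : B / 2 * ∑ j ∈ range M, ‖A j‖ ^ 2 ≤ B / 2 * ((M:ℝ) * X1) := mul_le_mul_of_nonneg_left f1 (by positivity)
    have f4 : B / 2 * ∑ j ∈ range M, ‖D j‖ ^ 2 ≤ B / 2 * ((M:ℝ) * X1) := mul_le_mul_of_nonneg_left f2 (by positivity)
    linarith
  calc 1 / (M:ℝ) * ‖∑ j ∈ range M, H j * ee ((j:ℝ) * (c:ℝ) / M) * A j * D j‖ ≤ 1 / (M:ℝ) * (M * (X1 * B)) :=
        mul_le_mul_of_nonneg_left hsum (by positivity)
    _ = X1 * B := by rw [← mul_assoc, one_div, inv_mul_cancel₀ hMr.ne', one_mul]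

end Pool.Agent.H9U
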