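import Pool.Agent.Lib.H9U.U3
import Pool.Agent.Lib.H9U.U4A

/-!
# H9U, chunk U4 (M/L): the box form with three arbitrary functions
-/

open Finset

namespace Pool.Agent.H9U

open Pool.Agent.H44W (ee)
open Pool.Agent.H9S (Bd BF Sx Sy)

theorem u4_cs (X : ℕ) (W g : ℕ → ℕ → ℂ) (hW : ∀ x y, ‖W x y‖ ≤ 1) :
    ‖∑ x ∈ range X, ∑ y ∈ range X, W x y * g x y‖ ^ 2 ≤
      (X : ℝ) ^ 2 * ∑ x ∈ range X, ∑ y ∈ range X, ‖g x y‖ ^ 2 := by
  have h1 : ‖∑ x ∈ range X, ∑ y ∈ range X, W x y * g x y‖ ≤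
      ∑ p ∈ range X ×ˢ range X, ‖g p.1 p.2‖ := by
    rw [← Finset.sum_product']
    refine (norm_sum_le _ _).trans (Finset.sum_le_sum fun p _ => ?_)
    rw [norm_mul]
    exact mul_le_of_le_one_left (norm_nonneg _) (hW _ _)
  have h2 : (∑ p ∈ range X ×ˢ range X, ‖g p.1 p.2‖) ^ 2 ≤
      ((range X ×ˢ range X).card : ℝ) * ∑ p ∈ range X ×ˢ range X, ‖g p.1 p.2‖ ^ 2 :=
    sq_sum_le_card_mul_sum_sq
  have h3 : ∑ p ∈ range X ×ˢ range X, ‖g p.1 p.2‖ ^ 2 = ∑ x ∈ range X, ∑ y ∈ range X, ‖g x y‖ ^ 2 :=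
    Finset.sum_product' _ _ (fun x y => ‖g x y‖ ^ 2)
  rw [Finset.card_product, Finset.card_range, h3] at h2
  calc _ ≤ (∑ p ∈ range X ×ˢ range X, ‖g p.1 p.2‖) ^ 2 := pow_le_pow_left₀ (norm_nonneg _) h1 2
    _ ≤ _ := h2
    _ = _ := by push_cast; ring

theorem u4_sq (N : Finset ℤ) (f : ℤ → ℂ) :
    ((‖∑ n ∈ N, f n‖ ^ 2 : ℝ) : ℂ) = ∑ n ∈ N, ∑ n' ∈ N, f n * (starRingEnd ℂ) (f n') := by
  rw [← Finset.sum_mul_sum, ← map_sum, Complex.mul_conj']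
  push_cast
  rfl

theorem u4_sw (X : ℕ) (N : Finset ℤ) (t : ℕ → ℕ → ℤ → ℂ) :
    ∑ x ∈ range X, ∑ y ∈ range X, ‖∑ n ∈ N, t x y n‖ ^ 2 ≤
      ∑ n ∈ N, ∑ n' ∈ N, ‖∑ x ∈ range X, ∑ y ∈ range X, t x y n * (starRingEnd ℂ) (t x y n')‖ := by
  have h1 : (((∑ x ∈ range X, ∑ y ∈ range X, ‖∑ n ∈ N, t x y n‖ ^ 2 : ℝ)) : ℂ) =
      ∑ n ∈ N, ∑ n' ∈ N, ∑ x ∈ range X, ∑ y ∈ range X, t x y n * (starRingEnd ℂ) (t x y n') := by
    rw [Complex.ofReal_sum]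
    have e : ∀ x ∈ range X, (((∑ y ∈ range X, ‖∑ n ∈ N, t x y n‖ ^ 2 : ℝ)) : ℂ) =
        ∑ n ∈ N, ∑ n' ∈ N, ∑ y ∈ range X, t x y n * (starRingEnd ℂ) (t x y n') := by
      intro x _
      rw [Complex.ofReal_sum, Finset.sum_congr rfl (fun y _ => u4_sq N (t x y)), Finset.sum_comm]
      refine Finset.sum_congr rfl fun n _ => ?_
      rw [Finset.sum_comm]
    rw [Finset.sum_congr rfl e, Finset.sum_comm]
    refine Finset.sum_congr rfl fun n _ => ?_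
    rw [Finset.sum_comm]
  have h0 : 0 ≤ ∑ x ∈ range X, ∑ y ∈ range X, ‖∑ n ∈ N, t x y n‖ ^ 2 :=
    Finset.sum_nonneg fun x _ => Finset.sum_nonneg fun y _ => by positivity
  rw [← Complex.norm_of_nonneg h0, h1]
  refine (norm_sum_le _ _).trans (Finset.sum_le_sum fun n _ => norm_sum_le _ _)

theorem u4_inj (N : Finset ℤ) (e0 n : ℤ) (he : e0 ≠ 0) (bb : ℤ → ℝ) (h0 : ∀ h, 0 ≤ bb h) (X : ℤ)
    (hz : ∀ h, h ∉ Ioo (-X) X → bb h = 0) :
    ∑ n' ∈ N, bb (e0 * (n' - n)) ≤ ∑ h ∈ Ioo (-X) X, bb h := by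
  classical
  have hinj : Set.InjOn (fun n' : ℤ => e0 * (n' - n)) N := by
    intro x _ y _ hxy
    have := mul_left_cancel₀ he hxy
    linarith
  rw [← Finset.sum_image (f := bb) (g := fun n' : ℤ => e0 * (n' - n)) hinj]
  have h1 : ∑ h ∈ N.image (fun n' : ℤ => e0 * (n' - n)), bb h =
      ∑ h ∈ (N.image (fun n' : ℤ => e0 * (n' - n))) ∩ Ioo (-X) X, bb h := by
    symm
    refine Finset.sum_subset Finset.inter_subset_left ?_
    intro h h1 h2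
    exact hz h fun h3 => h2 (Finset.mem_inter.2 ⟨h1, h3⟩)
  rw [h1]
  exact Finset.sum_le_sum_of_subset_of_nonneg Finset.inter_subset_right fun h _ _ => h0 h

/-- the correlation function -/
noncomputable def u4G (X : ℕ) (F : ℤ → ℂ) (h m : ℤ) : ℂ := cutJ X F m * (starRingEnd ℂ) (cutJ X F (m + h))

theorem u4_G0 (X : ℕ) (F : ℤ → ℂ) (h m : ℤ) (hm : m ∉ JJ X) : u4G X F h m = 0 := by
  unfold u4G cutJ
  rw [if_neg hm, zero_mul]

theorem u4_far (X : ℕ) (F : ℤ → ℂ) (h m : ℤ) (hh : h ∉ Ioo (-(X : ℤ)) X) (hm : m ∈ JJ X) :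
    cutJ X F (m + h) = 0 := by
  unfold cutJ
  rw [if_neg]
  intro h1
  unfold JJ at hm h1
  rw [mem_Ico] at hm h1
  apply hh
  rw [mem_Ioo]
  constructor <;> omega

theorem u4_four (X E : ℕ) (F : ℤ → ℂ) (h : ℤ) (j : ℕ) :
    ∑ m ∈ Ico (2 * (X : ℤ) - 5 * (E + 1) * X) (2 * (X : ℤ) - 5 * (E + 1) * X + ((10 * (E + 1) * X : ℕ) : ℤ)),
      u4G X F h m * ee (-((j : ℝ) * m / ((10 * (E + 1) * X : ℕ) : ℝ))) =
    ∑ m ∈ JJ X, F m * (starRingEnd ℂ) (cutJ X F (m + h)) * ee ((-((j : ℝ) / ((10 * (E + 1) * X : ℕ) : ℝ))) * m) := by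
  have hsub : JJ X ⊆ Ico (2 * (X : ℤ) - 5 * (E + 1) * X)
      (2 * (X : ℤ) - 5 * (E + 1) * X + ((10 * (E + 1) * X : ℕ) : ℤ)) := by
    intro m hm
    unfold JJ at hm
    rw [mem_Ico] at hm ⊢
    push_cast
    have h1 : (0 : ℤ) ≤ (E : ℤ) * X := by positivity
    constructor
    · nlinarith
    · have h2 : (X : ℤ) / 4 ≤ X := by omega
      nlinarith
  rw [← Finset.sum_subset hsub]
  · refine Finset.sum_congr rfl fun m hm => ?_
    unfold u4G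
    have e : cutJ X F m = F m := by
      unfold cutJ
      rw [if_pos hm]
    rw [e]
    congr 2
    ring
  · intro m _ hm
    rw [u4_G0 X F h m hm, zero_mul]

theorem u4_T (X E : ℕ) (hX : 0 < X) (F : ℤ → ℂ) (h c e1 e2 : ℤ) (h1 : e1 ≠ 0) (h2 : e2 ≠ 0)
    (he1 : |e1| ≤ E) (he2 : |e2| ≤ E) (B : ℝ) (hB0 : 0 ≤ B)
    (hB : ∀ j ∈ range (10 * (E + 1) * X), ‖∑ m ∈ JJ X, F m * (starRingEnd ℂ) (cutJ X F (m + h)) *
      ee ((-((j : ℝ) / ((10 * (E + 1) * X : ℕ) : ℝ))) * m)‖ ≤ B)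
    (a b : ℕ → ℂ) (ha : ∀ x, ‖a x‖ ≤ 1) (hb : ∀ y, ‖b y‖ ≤ 1) :
    ‖∑ x ∈ range X, ∑ y ∈ range X, a x * b y * u4G X F h (c + e1 * x + e2 * y)‖ ≤ X * B := by
  by_cases hc : ∀ x ∈ range X, ∀ y ∈ range X, c + e1 * x + e2 * y ∉ JJ X
  · have : ∑ x ∈ range X, ∑ y ∈ range X, a x * b y * u4G X F h (c + e1 * x + e2 * y) = 0 := by
      refine Finset.sum_eq_zero fun x hx => Finset.sum_eq_zero fun y hy => ?_
      rw [u4_G0 X F h _ (hc x hx y hy), mul_zero]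
    rw [this, norm_zero]
    positivity
  · push Not at hc
    obtain ⟨x0, hx0, y0, hy0, h0⟩ := hc
    have hE : ((10 * (E + 1) * X : ℕ) : ℤ) = 10 * ((E : ℤ) + 1) * X := by push_cast; ring
    have hX' : (1 : ℤ) ≤ X := by exact_mod_cast hX
    refine U4A_bil (10 * (E + 1) * X) X e1 e2 c (2 * (X : ℤ) - 5 * (E + 1) * X) h1 h2 ?_ ?_
      (u4G X F h) B hB0 ?_ ?_ a b ha hb
    · rw [hE]
      nlinarith [mul_le_mul_of_nonneg_right he1 (by positivity : (0 : ℤ) ≤ X)]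
    · rw [hE]
      nlinarith [mul_le_mul_of_nonneg_right he2 (by positivity : (0 : ℤ) ≤ X)]
    · intro j hj
      rw [u4_four]
      exact hB j hj
    · intro x hx y hy
      rw [mem_range] at hx hy hx0 hy0
      unfold JJ at h0
      rw [mem_Ico] at h0
      have k1 : |e1 * ((x : ℤ) - x0)| ≤ E * X := by
        rw [abs_mul]
        exact mul_le_mul he1 (abs_le.2 ⟨by omega, by omega⟩) (abs_nonneg _) (by positivity)
      have k2 : |e2 * ((y : ℤ) - y0)| ≤ E * X := by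
        rw [abs_mul]
        exact mul_le_mul he2 (abs_le.2 ⟨by omega, by omega⟩) (abs_nonneg _) (by positivity)
      rw [abs_le] at k1 k2
      have k3 : c + e1 * x + e2 * y = (c + e1 * x0 + e2 * y0) + e1 * ((x : ℤ) - x0) + e2 * ((y : ℤ) - y0) := by
        ring
      rw [k3, hE]
      have k4 : (X : ℤ) / 4 ≤ X := by omega
      have k5 : (0 : ℤ) ≤ (E : ℤ) * X := by positivity
      constructor <;> nlinarith [k1.1, k1.2, k2.1, k2.2, h0.1, h0.2]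

/-- Proof. `N = Ico n1 n2` has at most `E X` elements. Cauchy-Schwarz over `(x, y)` (removes `W`):
`|S|² ≤ X² ∑_{x,y} |∑_n A(n,y) B(n,x) cutJ F(e0 n + e1 x + e2 y + c)|²
     = X² ∑_{n, n' ∈ N} ∑_{x,y} [A(n,y) conj A(n',y)] [B(n,x) conj B(n',x)] G_h(e0 n + c + e1 x + e2 y)`, `h = e0 (n' - n)`,
`G_h(m) = cutJ F(m) conj(cutJ F(m + h))`. For fixed `n, n'` either all arguments avoid `JJ X` (then the term is `0`), or all of them are in
`[u, u + M)`, `u = 2X - 5 (E+1) X`, `M = 10 (E+1) X` (they differ by at most `2 E X` from a point of `JJ X`): `U4A_bil` with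
`B = max_{j<M} ‖∑_{m ∈ Ico u (u+M)} G_h(m) ee(-jm/M)‖ = ‖∑_{m ∈ JJ X} F m conj(cutJ F(m+h)) ee(θ_h m)‖`, `θ_h = -j_h/M`, `j_h` a maximum
(`Finset.exists_max_image`); it vanishes unless `|h| < X`. So
`|S|² ≤ X² · X · ∑_{n} ∑_{n'} ‖…‖ ≤ X³ · E X · ∑_{|h| < X} ‖…‖ ≤ E X⁴ X^(2 - κ/8)` (for fixed `n` the map `n' ↦ h` is injective; `U3_sup`), i.e.
`|S| ≤ √E X^(3 - κ/16) ≤ X^(3 - κ/20)` for `X` large in terms of `E`, `κ`. -/
theorem U4_box (κ : ℝ) (hκ : 0 < κ) (E : ℕ) : ∃ X0 : ℕ, ∀ X : ℕ, X0 ≤ X → ∀ F : ℤ → ℂ, Unif X κ F →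
    ∀ e0 e1 e2 c : ℤ, e0 ≠ 0 → e1 ≠ 0 → e2 ≠ 0 → |e1| ≤ E → |e2| ≤ E →
    ∀ n1 n2 : ℤ, n2 - n1 ≤ E * X → ∀ (W : ℕ → ℕ → ℂ) (A B : ℤ → ℕ → ℂ), (∀ x y, ‖W x y‖ ≤ 1) →
    (∀ n y, ‖A n y‖ ≤ 1) → (∀ n x, ‖B n x‖ ≤ 1) →
    ‖∑ x ∈ range X, ∑ y ∈ range X, ∑ n ∈ Ico n1 n2, W x y * A n y * B n x *
      cutJ X F (e0 * n + e1 * x + e2 * y + c)‖ ≤ (X : ℝ) ^ (3 - κ / 20) := by
  obtain ⟨X1, hX1⟩ := U3_sup κ hκ
  have hk : 0 < κ / 40 := by positivity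
  obtain ⟨X2, hX2⟩ := Filter.eventually_atTop.1
    (((tendsto_rpow_atTop hk).comp tendsto_natCast_atTop_atTop).eventually_ge_atTop (E : ℝ))
  refine ⟨max (max X1 X2) 1, fun X hX F hF e0 e1 e2 c h0 h1 h2 he1 he2 n1 n2 hn W A B hW hA hB => ?_⟩
  have hXa : X1 ≤ X := le_trans (le_trans (le_max_left _ _) (le_max_left _ _)) hX
  have hXb : X2 ≤ X := le_trans (le_trans (le_max_right _ _) (le_max_left _ _)) hX
  have hXc : 0 < X := lt_of_lt_of_le Nat.one_pos (le_trans (le_max_right _ _) hX)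
  have hE : (E : ℝ) ≤ (X : ℝ) ^ (κ / 40) := hX2 X hXb
  have hXr : (0 : ℝ) < X := by exact_mod_cast hXc
  have hM : (range (10 * (E + 1) * X)).Nonempty := by
    rw [Finset.nonempty_range_iff]
    positivity
  choose j hj hmax using fun h : ℤ => Finset.exists_max_image (range (10 * (E + 1) * X))
    (fun j : ℕ => ‖∑ m ∈ JJ X, F m * (starRingEnd ℂ) (cutJ X F (m + h)) *
      ee ((-((j : ℝ) / ((10 * (E + 1) * X : ℕ) : ℝ))) * m)‖) hM
  set θ : ℤ → ℝ := fun h => -((j h : ℝ) / ((10 * (E + 1) * X : ℕ) : ℝ)) with hθ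
  set bb : ℤ → ℝ := fun h => ‖∑ m ∈ JJ X, F m * (starRingEnd ℂ) (cutJ X F (m + h)) * ee (θ h * m)‖
    with hbb
  have bb0 : ∀ h, 0 ≤ bb h := fun h => norm_nonneg _
  have bbz : ∀ h, h ∉ Ioo (-(X : ℤ)) X → bb h = 0 := by
    intro h hh
    have : ∑ m ∈ JJ X, F m * (starRingEnd ℂ) (cutJ X F (m + h)) * ee (θ h * m) = 0 := by
      refine Finset.sum_eq_zero fun m hm => ?_
      rw [u4_far X F h m hh hm, map_zero, mul_zero, zero_mul]
    rw [hbb]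
    simp only
    rw [this, norm_zero]
  have hsup : ∑ h ∈ Ioo (-(X : ℤ)) X, bb h ≤ (X : ℝ) ^ (2 - κ / 8) := hX1 X hXa F hF θ
  set t : ℕ → ℕ → ℤ → ℂ := fun x y n => A n y * B n x * cutJ X F (e0 * n + e1 * x + e2 * y + c) with ht
  have e1' : ∑ x ∈ range X, ∑ y ∈ range X, ∑ n ∈ Ico n1 n2, W x y * A n y * B n x *
      cutJ X F (e0 * n + e1 * x + e2 * y + c) =
      ∑ x ∈ range X, ∑ y ∈ range X, W x y * ∑ n ∈ Ico n1 n2, t x y n := by
    refine Finset.sum_congr rfl fun x _ => Finset.sum_congr rfl fun y _ => ?_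
    rw [Finset.mul_sum]
    refine Finset.sum_congr rfl fun n _ => ?_
    rw [ht]
    ring
  rw [e1']
  have key : ∀ n n' : ℤ, ‖∑ x ∈ range X, ∑ y ∈ range X, t x y n * (starRingEnd ℂ) (t x y n')‖ ≤
      X * bb (e0 * (n' - n)) := by
    intro n n'
    have e2' : ∑ x ∈ range X, ∑ y ∈ range X, t x y n * (starRingEnd ℂ) (t x y n') =
        ∑ x ∈ range X, ∑ y ∈ range X, (B n x * (starRingEnd ℂ) (B n' x)) *
          (A n y * (starRingEnd ℂ) (A n' y)) * u4G X F (e0 * (n' - n)) ((e0 * n + c) + e1 * x + e2 * y) := by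
      refine Finset.sum_congr rfl fun x _ => Finset.sum_congr rfl fun y _ => ?_
      unfold u4G
      have a1 : (e0 * n + c) + e1 * x + e2 * y = e0 * n + e1 * x + e2 * y + c := by ring
      have a2 : e0 * n + e1 * x + e2 * y + c + e0 * (n' - n) = e0 * n' + e1 * x + e2 * y + c := by ring
      rw [a1, a2, ht]
      simp only [map_mul]
      ring
    rw [e2']
    refine u4_T X E hXc F (e0 * (n' - n)) (e0 * n + c) e1 e2 h1 h2 he1 he2 _ (bb0 _) ?_ _ _ ?_ ?_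
    · intro i hi
      exact hmax (e0 * (n' - n)) i hi
    · intro x
      rw [norm_mul, RCLike.norm_conj]
      exact mul_le_one₀ (hB _ _) (norm_nonneg _) (hB _ _)
    · intro y
      rw [norm_mul, RCLike.norm_conj]
      exact mul_le_one₀ (hA _ _) (norm_nonneg _) (hA _ _)
  have hcard : ((Ico n1 n2).card : ℝ) ≤ E * X := by
    rw [Int.card_Ico]
    have h3 : (n2 - n1).toNat ≤ E * X := Int.toNat_le.2 (by push_cast; exact hn)
    exact_mod_cast h3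
  have hpp : (0 : ℝ) ≤ (X : ℝ) ^ (2 - κ / 8) := by positivity
  have hsq : ‖∑ x ∈ range X, ∑ y ∈ range X, W x y * ∑ n ∈ Ico n1 n2, t x y n‖ ^ 2 ≤
      ((X : ℝ) ^ (3 - κ / 20)) ^ 2 := by
    calc _ ≤ (X : ℝ) ^ 2 * ∑ x ∈ range X, ∑ y ∈ range X, ‖∑ n ∈ Ico n1 n2, t x y n‖ ^ 2 :=
          u4_cs X W (fun x y => ∑ n ∈ Ico n1 n2, t x y n) hW
      _ ≤ (X : ℝ) ^ 2 * ∑ n ∈ Ico n1 n2, ∑ n' ∈ Ico n1 n2,
          ‖∑ x ∈ range X, ∑ y ∈ range X, t x y n * (starRingEnd ℂ) (t x y n')‖ :=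
          mul_le_mul_of_nonneg_left (u4_sw X _ t) (by positivity)
      _ ≤ (X : ℝ) ^ 2 * ∑ n ∈ Ico n1 n2, (X * (X : ℝ) ^ (2 - κ / 8)) := by
          refine mul_le_mul_of_nonneg_left (Finset.sum_le_sum fun n _ => ?_) (by positivity)
          calc _ ≤ ∑ n' ∈ Ico n1 n2, X * bb (e0 * (n' - n)) := Finset.sum_le_sum fun n' _ => key n n'
            _ = X * ∑ n' ∈ Ico n1 n2, bb (e0 * (n' - n)) := by rw [Finset.mul_sum]
            _ ≤ X * ∑ h ∈ Ioo (-(X : ℤ)) X, bb h :=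
                mul_le_mul_of_nonneg_left (u4_inj _ e0 n h0 bb bb0 X bbz) hXr.le
            _ ≤ _ := mul_le_mul_of_nonneg_left hsup hXr.le
      _ = (X : ℝ) ^ 2 * ((Ico n1 n2).card * (X * (X : ℝ) ^ (2 - κ / 8))) := by
          rw [Finset.sum_const, nsmul_eq_mul]
      _ ≤ (X : ℝ) ^ 2 * ((E * X) * (X * (X : ℝ) ^ (2 - κ / 8))) := by
          refine mul_le_mul_of_nonneg_left (mul_le_mul_of_nonneg_right hcard ?_) (by positivity)
          positivity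
      _ ≤ (X : ℝ) ^ 2 * (((X : ℝ) ^ (κ / 40) * X) * (X * (X : ℝ) ^ (2 - κ / 8))) := by
          refine mul_le_mul_of_nonneg_left (mul_le_mul_of_nonneg_right
            (mul_le_mul_of_nonneg_right hE hXr.le) ?_) (by positivity)
          positivity
      _ = ((X : ℝ) ^ (3 - κ / 20)) ^ 2 := by
          have r2 : (X : ℝ) ^ 2 = (X : ℝ) ^ (2 : ℝ) := by
            rw [← Real.rpow_natCast]
            norm_num
          have r1 : (X : ℝ) = (X : ℝ) ^ (1 : ℝ) := (Real.rpow_one _).symm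
          have r3 : ((X : ℝ) ^ (3 - κ / 20)) ^ 2 = (X : ℝ) ^ (6 - κ / 10) := by
            rw [← Real.rpow_natCast, ← Real.rpow_mul hXr.le]
            congr 1
            push_cast
            ring
          rw [r3]
          calc (X : ℝ) ^ 2 * (((X : ℝ) ^ (κ / 40) * X) * (X * (X : ℝ) ^ (2 - κ / 8)))
              = (X : ℝ) ^ (2 : ℝ) * (((X : ℝ) ^ (κ / 40) * (X : ℝ) ^ (1 : ℝ)) *
                ((X : ℝ) ^ (1 : ℝ) * (X : ℝ) ^ (2 - κ / 8))) := by rw [r2, ← r1]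
            _ = (X : ℝ) ^ (6 - κ / 10) := by
                rw [← Real.rpow_add hXr, ← Real.rpow_add hXr, ← Real.rpow_add hXr,
                  ← Real.rpow_add hXr]
                congr 1
                ring
  exact le_of_sq_le_sq hsq (by positivity)

end Pool.Agent.H9U
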