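import Pool.Agent.Lib.H9U.U4

/-!
# H9U, chunk U5 (M): the inner sum of the generalised von Neumann inequality (fixed base point `t`), with the cutoff in `n`
-/

open Finset

namespace Pool.Agent.H9U

open Pool.Agent.H44W (ee)
open Pool.Agent.H9S (Bd BF Sx Sy)

/-- auxiliary: a logarithm is smaller than a small power -/
theorem u5_lim (K : ℕ) (r : ℝ) (hr : 0 < r) :
    ∃ X0 : ℕ, ∀ X : ℕ, X0 ≤ X → 4 * (1 + Real.log ((K * X : ℕ) : ℝ)) ≤ (X : ℝ) ^ r := by
  have h1 : ∀ᶠ x : ℝ in Filter.atTop, ‖Real.log x‖ ≤ (1 / 8) * ‖x ^ r‖ :=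
    (isLittleO_log_rpow_atTop hr).bound (by norm_num)
  have h2 : ∀ᶠ x : ℝ in Filter.atTop, 8 * (1 + Real.log K) ≤ x ^ r :=
    (tendsto_rpow_atTop hr).eventually_ge_atTop _
  have h3 : ∀ᶠ x : ℝ in Filter.atTop, (1 : ℝ) ≤ x := Filter.eventually_ge_atTop 1
  have h4 : ∀ᶠ X : ℕ in Filter.atTop, 4 * (1 + Real.log ((K * X : ℕ) : ℝ)) ≤ (X : ℝ) ^ r := by
    filter_upwards [(tendsto_natCast_atTop_atTop (R := ℝ)).eventually h1,
      (tendsto_natCast_atTop_atTop (R := ℝ)).eventually h2, (tendsto_natCast_atTop_atTop (R := ℝ)).eventually h3] with X g1 g2 g3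
    have hX : (0 : ℝ) < X := by linarith
    have hp : 0 ≤ (X : ℝ) ^ r := Real.rpow_nonneg hX.le r
    rw [Real.norm_of_nonneg (Real.log_nonneg g3), Real.norm_of_nonneg hp] at g1
    rcases Nat.eq_zero_or_pos K with hK | hK
    · subst hK
      rw [Nat.zero_mul, Nat.cast_zero, Real.log_zero, add_zero]
      rw [Nat.cast_zero, Real.log_zero, add_zero] at g2
      linarith
    · have hK' : (0 : ℝ) < K := by exact_mod_cast hK
      rw [Nat.cast_mul, Real.log_mul hK'.ne' hX.ne']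
      linarith
  exact Filter.eventually_atTop.1 h4

/-- auxiliary: a product of bounded functions is bounded -/
theorem u5_prod (I : Finset ℕ) (f : ℕ → ℂ) (h : ∀ i ∈ I, ‖f i‖ ≤ 1) : ‖∏ i ∈ I, f i‖ ≤ 1 := by
  rw [norm_prod]
  exact Finset.prod_le_one (fun i _ => norm_nonneg _) h

/-- `g i` are functions of the value of a form: form `i ≠ i0` at the point is `w i n + x * α i + y * β i`, `α i = 0` or `β i = 0`.

Proof. The product over `i ≠ i0` is `A(n,y) B(n,x)`, `A` the product over the `i` with `α i = 0`, `B` over the others (`β i = 0`). The indicator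
`[p ≤ n + s x + s' y < q]` is expanded by `U1A_ind` (`M = (10 E + 10) X`, after the shift by `ν = n1 - 2 E X`: for `n ∈ Ico n1 n2`, `x, y < X` the
number `n + s x + s' y - ν` is in `[0, M)`, `|s|, |s'| ≤ E`): `∑_j c_j ee(j (n + s x + s' y - ν)/M)`, and the exponential is a product of a function
of `(n, x)` (absorbed in `B`) and of `y` (absorbed in `A`). `U4_box` for each `j`; `4 (1 + log M) X^(3 - κ/20) ≤ X^(3 - κ/30)`. -/
theorem U5_inner (κ : ℝ) (hκ : 0 < κ) (E : ℕ) : ∃ X0 : ℕ, ∀ X : ℕ, X0 ≤ X → ∀ F : ℤ → ℂ, Unif X κ F →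
    ∀ e0 e1 e2 c s s' : ℤ, e0 ≠ 0 → e1 ≠ 0 → e2 ≠ 0 → |e1| ≤ E → |e2| ≤ E → |s| ≤ E → |s'| ≤ E →
    ∀ n1 n2 p q : ℤ, n2 - n1 ≤ E * X → ∀ (W : ℕ → ℕ → ℂ), (∀ x y, ‖W x y‖ ≤ 1) → ∀ (I : Finset ℕ) (G : ℕ → ℤ → ℂ)
    (w : ℕ → ℤ → ℤ) (α β : ℕ → ℤ), (∀ i, Bd (G i)) → (∀ i ∈ I, α i = 0 ∨ β i = 0) →
    ‖∑ x ∈ range X, ∑ y ∈ range X, ∑ n ∈ Ico n1 n2, (if p ≤ n + s * x + s' * y ∧ n + s * x + s' * y < q then (1 : ℂ) else 0) *
      W x y * (∏ i ∈ I, G i (w i n + α i * x + β i * y)) *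
      cutJ X F (e0 * n + e1 * x + e2 * y + c)‖ ≤ (X : ℝ) ^ (3 - κ / 30) := by
  obtain ⟨X1, hX1⟩ := U4_box κ hκ E
  obtain ⟨X2, hX2⟩ := u5_lim (10 * E + 10) (κ / 60) (by positivity)
  refine ⟨max (max X1 X2) 1, fun X hX F hF e0 e1 e2 c s s' he0 he1 he2 hE1 hE2 hs hs' n1 n2 p q hn W hW I G w α β hG hab => ?_⟩
  have hXa : X1 ≤ X := le_trans (le_trans (le_max_left _ _) (le_max_left _ _)) hX
  have hXb : X2 ≤ X := le_trans (le_trans (le_max_right _ _) (le_max_left _ _)) hX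
  have hXc : 1 ≤ X := le_trans (le_max_right _ _) hX
  obtain ⟨M, hM⟩ : ∃ M : ℕ, M = (10 * E + 10) * X := ⟨_, rfl⟩
  have hM1 : 1 ≤ M := by
    rw [hM]
    exact Nat.one_le_iff_ne_zero.2 (Nat.mul_ne_zero (by omega) (by omega))
  obtain ⟨ν, hν⟩ : ∃ ν : ℤ, ν = n1 - 2 * E * X := ⟨_, rfl⟩
  obtain ⟨cc, hcc, hcs⟩ := U1A_ind M hM1 (p - ν) (q - ν)
  have hM0 : (M : ℝ) ≠ 0 := by
    have : (0 : ℝ) < M := by exact_mod_cast hM1
    exact this.ne'
  -- the factors
  let A : ℕ → ℤ → ℕ → ℂ := fun j n y =>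
    (∏ i ∈ I.filter (fun i => α i = 0), G i (w i n + β i * y)) * ee ((j : ℝ) * (s' * y) / M)
  let B : ℕ → ℤ → ℕ → ℂ := fun j n x =>
    (∏ i ∈ I.filter (fun i => ¬ α i = 0), G i (w i n + α i * x)) * ee ((j : ℝ) * (n + s * x - ν) / M)
  have hA : ∀ j n y, ‖A j n y‖ ≤ 1 := by
    intro j n y
    show ‖(∏ i ∈ I.filter (fun i => α i = 0), G i (w i n + β i * y)) * ee ((j : ℝ) * (s' * y) / M)‖ ≤ 1
    rw [norm_mul, Pool.Agent.H44W.norm_ee, mul_one]
    exact u5_prod _ _ (fun i _ => hG i _)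
  have hB : ∀ j n x, ‖B j n x‖ ≤ 1 := by
    intro j n x
    show ‖(∏ i ∈ I.filter (fun i => ¬ α i = 0), G i (w i n + α i * x)) * ee ((j : ℝ) * (n + s * x - ν) / M)‖ ≤ 1
    rw [norm_mul, Pool.Agent.H44W.norm_ee, mul_one]
    exact u5_prod _ _ (fun i _ => hG i _)
  have hpr : ∀ (n : ℤ) (x y : ℕ), ∏ i ∈ I, G i (w i n + α i * x + β i * y) =
      (∏ i ∈ I.filter (fun i => α i = 0), G i (w i n + β i * y)) *
        ∏ i ∈ I.filter (fun i => ¬ α i = 0), G i (w i n + α i * x) := by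
    intro n x y
    rw [← Finset.prod_filter_mul_prod_filter_not I (fun i => α i = 0)]
    refine congrArg₂ (· * ·) (Finset.prod_congr rfl fun i hi => ?_) (Finset.prod_congr rfl fun i hi => ?_)
    · rw [(Finset.mem_filter.1 hi).2, zero_mul, add_zero]
    · have h1 := hab i (Finset.mem_filter.1 hi).1
      rcases h1 with h1 | h1
      · exact absurd h1 (Finset.mem_filter.1 hi).2
      · rw [h1, zero_mul, add_zero]
  have key : ∀ x ∈ range X, ∀ y ∈ range X, ∀ n ∈ Ico n1 n2,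
      (if p ≤ n + s * x + s' * y ∧ n + s * x + s' * y < q then (1 : ℂ) else 0) *
        W x y * (∏ i ∈ I, G i (w i n + α i * x + β i * y)) * cutJ X F (e0 * n + e1 * x + e2 * y + c) =
      ∑ j ∈ range M, cc j * (W x y * A j n y * B j n x * cutJ X F (e0 * n + e1 * x + e2 * y + c)) := by
    intro x hx y hy n hn'
    rw [Finset.mem_range] at hx hy
    rw [Finset.mem_Ico] at hn'
    have hx' : (x : ℤ) ≤ X := by exact_mod_cast hx.le
    have hy' : (y : ℤ) ≤ X := by exact_mod_cast hy.le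
    have hx0 : (0 : ℤ) ≤ x := Int.natCast_nonneg x
    have hy0 : (0 : ℤ) ≤ y := Int.natCast_nonneg y
    have hE0 : (0 : ℤ) ≤ E := Int.natCast_nonneg E
    have hX0 : (1 : ℤ) ≤ X := by exact_mod_cast hXc
    have a1 : |s * x| ≤ E * X := by
      rw [abs_mul, abs_of_nonneg hx0]
      exact mul_le_mul hs hx' hx0 hE0
    have a2 : |s' * y| ≤ E * X := by
      rw [abs_mul, abs_of_nonneg hy0]
      exact mul_le_mul hs' hy' hy0 hE0
    have b1 := abs_le.1 a1
    have b2 := abs_le.1 a2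
    have hMz : (M : ℤ) = 10 * (E * X) + 10 * X := by
      rw [hM]
      push_cast
      ring
    have hν' : ν = n1 - 2 * (E * X) := by
      rw [hν]
      ring
    have hEX : (0 : ℤ) ≤ E * X := by positivity
    have c0 : (0 : ℤ) ≤ n + s * x + s' * y - ν := by
      rw [hν']
      linarith [b1.1, b2.1, hn'.1]
    have c1 : n + s * x + s' * y - ν < M := by
      rw [hν', hMz]
      linarith [b1.2, b2.2, hn'.2]
    have hind := hcc (n + s * x + s' * y - ν) c0 c1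
    have hif : (if p ≤ n + s * x + s' * y ∧ n + s * x + s' * y < q then (1 : ℂ) else 0) =
        (if p - ν ≤ n + s * x + s' * y - ν ∧ n + s * x + s' * y - ν < q - ν then (1 : ℂ) else 0) := by
      refine if_congr ?_ rfl rfl
      constructor
      · rintro ⟨d1, d2⟩
        exact ⟨by linarith, by linarith⟩
      · rintro ⟨d1, d2⟩
        exact ⟨by linarith, by linarith⟩
    rw [hif, hind, hpr, Finset.sum_mul, Finset.sum_mul, Finset.sum_mul]
    refine Finset.sum_congr rfl fun j _ => ?_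
    have he : ee ((j : ℝ) * ((n + s * x + s' * y - ν : ℤ) : ℝ) / M) =
        ee ((j : ℝ) * (n + s * x - ν) / M) * ee ((j : ℝ) * (s' * y) / M) := by
      rw [← Pool.Agent.H44W.ee_add]
      refine congrArg ee ?_
      push_cast
      ring
    rw [he]
    show _ = cc j * (W x y * ((∏ i ∈ I.filter (fun i => α i = 0), G i (w i n + β i * y)) * ee ((j : ℝ) * (s' * y) / M)) *
      ((∏ i ∈ I.filter (fun i => ¬ α i = 0), G i (w i n + α i * x)) * ee ((j : ℝ) * (n + s * x - ν) / M)) *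
      cutJ X F (e0 * n + e1 * x + e2 * y + c))
    ring
  have hsum : ∑ x ∈ range X, ∑ y ∈ range X, ∑ n ∈ Ico n1 n2,
      (if p ≤ n + s * x + s' * y ∧ n + s * x + s' * y < q then (1 : ℂ) else 0) *
        W x y * (∏ i ∈ I, G i (w i n + α i * x + β i * y)) * cutJ X F (e0 * n + e1 * x + e2 * y + c) =
      ∑ j ∈ range M, cc j * ∑ x ∈ range X, ∑ y ∈ range X, ∑ n ∈ Ico n1 n2,
        W x y * A j n y * B j n x * cutJ X F (e0 * n + e1 * x + e2 * y + c) := by
    calc _ = ∑ x ∈ range X, ∑ y ∈ range X, ∑ n ∈ Ico n1 n2, ∑ j ∈ range M,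
          cc j * (W x y * A j n y * B j n x * cutJ X F (e0 * n + e1 * x + e2 * y + c)) :=
        Finset.sum_congr rfl fun x hx => Finset.sum_congr rfl fun y hy => Finset.sum_congr rfl fun n hn' => key x hx y hy n hn'
      _ = ∑ x ∈ range X, ∑ y ∈ range X, ∑ j ∈ range M, ∑ n ∈ Ico n1 n2,
          cc j * (W x y * A j n y * B j n x * cutJ X F (e0 * n + e1 * x + e2 * y + c)) :=
        Finset.sum_congr rfl fun x _ => Finset.sum_congr rfl fun y _ => Finset.sum_comm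
      _ = ∑ x ∈ range X, ∑ j ∈ range M, ∑ y ∈ range X, ∑ n ∈ Ico n1 n2,
          cc j * (W x y * A j n y * B j n x * cutJ X F (e0 * n + e1 * x + e2 * y + c)) :=
        Finset.sum_congr rfl fun x _ => Finset.sum_comm
      _ = ∑ j ∈ range M, ∑ x ∈ range X, ∑ y ∈ range X, ∑ n ∈ Ico n1 n2,
          cc j * (W x y * A j n y * B j n x * cutJ X F (e0 * n + e1 * x + e2 * y + c)) := Finset.sum_comm
      _ = _ := by
        refine Finset.sum_congr rfl fun j _ => ?_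
        rw [Finset.mul_sum]
        refine Finset.sum_congr rfl fun x _ => ?_
        rw [Finset.mul_sum]
        refine Finset.sum_congr rfl fun y _ => ?_
        rw [Finset.mul_sum]
  rw [hsum]
  have hXr : (0 : ℝ) < X := by exact_mod_cast hXc
  have hb : ∀ j ∈ range M, ‖cc j * ∑ x ∈ range X, ∑ y ∈ range X, ∑ n ∈ Ico n1 n2,
      W x y * A j n y * B j n x * cutJ X F (e0 * n + e1 * x + e2 * y + c)‖ ≤ ‖cc j‖ * (X : ℝ) ^ (3 - κ / 20) := by
    intro j _
    rw [norm_mul]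
    exact mul_le_mul_of_nonneg_left (hX1 X hXa F hF e0 e1 e2 c he0 he1 he2 hE1 hE2 n1 n2 hn W (A j) (B j) hW (hA j) (hB j))
      (norm_nonneg _)
  have hlog := hX2 X hXb
  rw [← hM] at hlog
  have hpow : (X : ℝ) ^ (κ / 60) * (X : ℝ) ^ (3 - κ / 20) = (X : ℝ) ^ (3 - κ / 30) := by
    rw [← Real.rpow_add hXr]
    refine congrArg (fun t => (X : ℝ) ^ t) ?_
    ring
  calc _ ≤ ∑ j ∈ range M, ‖cc j‖ * (X : ℝ) ^ (3 - κ / 20) := norm_sum_le_of_le _ hb
    _ = (∑ j ∈ range M, ‖cc j‖) * (X : ℝ) ^ (3 - κ / 20) := by rw [Finset.sum_mul]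
    _ ≤ (4 * (1 + Real.log M)) * (X : ℝ) ^ (3 - κ / 20) := mul_le_mul_of_nonneg_right hcs (Real.rpow_nonneg hXr.le _)
    _ ≤ (X : ℝ) ^ (κ / 60) * (X : ℝ) ^ (3 - κ / 20) := mul_le_mul_of_nonneg_right hlog (Real.rpow_nonneg hXr.le _)
    _ = _ := hpow

end Pool.Agent.H9U
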