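import Pool.Agent.Lib.H9U.U5

/-!
# H9U, chunk U6 (M/L): the generalised von Neumann inequality for systems
-/

open Finset

namespace Pool.Agent.H9U

open Pool.Agent.H44W (ee)
open Pool.Agent.H9S (Bd BF Sx Sy)
open Pool.Agent.Lib.H59P (bx)

theorem u6_shift {d : ℕ} (A B : Finset (ℤ × (Fin d → ℤ))) (f : ℤ × (Fin d → ℤ) → ℂ) (v : ℤ × (Fin d → ℤ))
    (hf : ∀ p, p ∉ A → f p = 0) (hAB : ∀ p ∈ A, p - v ∈ B) : ∑ q ∈ B, f (q + v) = ∑ p ∈ A, f p := by
  have h1 : ∑ q ∈ B, f (q + v) = ∑ p ∈ B.map (addRightEmbedding v), f p := by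
    rw [Finset.sum_map]
    rfl
  rw [h1]
  symm
  refine Finset.sum_subset (fun p hp => ?_) (fun p _ hp => hf p hp)
  rw [Finset.mem_map]
  exact ⟨p - v, hAB p hp, sub_add_cancel p v⟩

theorem u6_range {L : ℕ} (g : ℤ → ℂ) : ∑ n ∈ range L, g (n : ℤ) = ∑ n ∈ Ico (0 : ℤ) L, g n := by
  refine Finset.sum_nbij' (fun n => (n : ℤ)) (fun n => n.toNat) ?_ ?_ ?_ ?_ ?_
  · intro n hn
    have := Finset.mem_range.1 hn
    rw [Finset.mem_Ico]
    omega
  · intro n hn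
    rw [Finset.mem_Ico] at hn
    rw [Finset.mem_range]
    omega
  · intro n _
    exact Int.toNat_natCast n
  · intro n hn
    rw [Finset.mem_Ico] at hn
    exact Int.toNat_of_nonneg hn.1
  · intro n _
    rfl

theorem u6_box {d T L : ℕ} (g : ℤ × (Fin d → ℤ) → ℂ) :
    ∑ t ∈ bx d T, ∑ n ∈ range L, g ((n : ℤ), iv t) =
      ∑ p ∈ (Ico (0 : ℤ) L) ×ˢ (Fintype.piFinset fun _ : Fin d => Ico (0 : ℤ) T), g p := by
  rw [Finset.sum_product_right]
  refine Finset.sum_nbij' (fun t => iv t) (fun t j => (t j).toNat) ?_ ?_ ?_ ?_ ?_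
  · intro t ht
    rw [bx, Fintype.mem_piFinset] at ht
    rw [Fintype.mem_piFinset]
    intro j
    have := Finset.mem_range.1 (ht j)
    rw [Finset.mem_Ico, iv]
    omega
  · intro t ht
    rw [Fintype.mem_piFinset] at ht
    rw [bx, Fintype.mem_piFinset]
    intro j
    have := Finset.mem_Ico.1 (ht j)
    rw [Finset.mem_range]
    omega
  · intro t _
    funext j
    exact Int.toNat_natCast (t j)
  · intro t ht
    rw [Fintype.mem_piFinset] at ht
    funext j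
    have := Finset.mem_Ico.1 (ht j)
    exact Int.toNat_of_nonneg this.1
  · intro t _
    exact u6_range (fun n => g (n, iv t))

theorem u6_lin {k d : ℕ} (S : Sys k d) (b : Fin k → ℤ) (n s s' x y : ℤ) (t u u' : Fin d → ℤ) (i : Fin k) :
    S.val b (n + (s * x + s' * y)) (t + fun j => x * u j + y * u' j) i =
      S.val b n t i + S.lin i s u * x + S.lin i s' u' * y := by
  unfold Sys.val Sys.lin
  have h1 : ∑ j, S.c i j * (t + fun j => x * u j + y * u' j) j =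
      ∑ j, S.c i j * t j + (∑ j, S.c i j * u j) * x + (∑ j, S.c i j * u' j) * y := by
    rw [Finset.sum_mul, Finset.sum_mul, ← Finset.sum_add_distrib, ← Finset.sum_add_distrib]
    refine Finset.sum_congr rfl fun j _ => ?_
    rw [Pi.add_apply]
    ring
  rw [h1]
  ring

theorem u6_abs {x X : ℕ} (hx : x < X) (s : ℤ) (c : ℕ) (hc : s.natAbs ≤ c) : |s * (x : ℤ)| ≤ (c : ℤ) * X := by
  rw [abs_mul, Int.abs_eq_natAbs, Int.abs_eq_natAbs, Int.natAbs_natCast]
  have h1 : s.natAbs * x ≤ c * X := Nat.mul_le_mul hc hx.le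
  exact_mod_cast h1

theorem u6_large (κ : ℝ) (hκ : 0 < κ) (A : ℝ) : ∃ X0 : ℕ, ∀ X : ℕ, X0 ≤ X → A ≤ (X : ℝ) ^ (κ / 120) := by
  have h1 : Filter.Tendsto (fun X : ℕ => (X : ℝ) ^ (κ / 120)) Filter.atTop Filter.atTop :=
    (tendsto_rpow_atTop (by positivity)).comp tendsto_natCast_atTop_atTop
  obtain ⟨X0, hX0⟩ := Filter.eventually_atTop.1 (h1.eventually_ge_atTop A)
  exact ⟨X0, hX0⟩

/-- the summand of the theorem as a function on `ℤ × ℤ^d` -/
noncomputable def u6_phi {k d : ℕ} (S : Sys k d) (b : Fin k → ℤ) (i0 : Fin k) (X L T : ℕ) (F : ℤ → ℂ) (G : Fin k → ℤ → ℂ)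
    (W : (Fin d → ℕ) → ℂ) (q : ℤ × (Fin d → ℤ)) : ℂ :=
  if (0 ≤ q.1 ∧ q.1 < (L : ℤ)) ∧ ∀ j, 0 ≤ q.2 j ∧ q.2 j < (T : ℤ) then
    W (fun j => (q.2 j).toNat) * ((∏ i ∈ univ.erase i0, G i (S.val b q.1 q.2 i)) * cutJ X F (S.val b q.1 q.2 i0))
  else 0

/-- Proof. Let `(s, u)`, `(s', u')` be the vectors of `Sys.Half` for `i0`, `e0 = a i0`, `e1 = lin i0 s u`, `e2 = lin i0 s' u'`, and
`Φ(n, t) = [0 ≤ n < L] [t ∈ [0,T)^d] W(t) ∏_{i ≠ i0} G_i(val n t i) cutJ F(val n t i0)` on `ℤ × ℤ^d` (finite support). The sum `S` of the theorem is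
`∑ Φ`. For all `x, y < X` also `S = ∑_{(n,t)} Φ(n + s x + s' y, t + x u + y u')`, where the sum may be restricted to
`t ∈ [-C X, C X]^d`, `n ∈ Ico (-C X) (C X)` (`C` depends on `S`, `C0` only: outside `Φ` vanishes). So
`X² S = ∑_{t} ∑_{x,y<X} ∑_n Φ(…)`, and for each `t` (at most `(2CX+1)^d` of them) the inner sum is of the form of `U5_inner` (`W x y` the cutoff
weight `[t + x u + y u' ∈ box] W(t + x u + y u')`, `G i`, `w i n = lin i n t + b i`, `α i = lin i s u`, `β i = lin i s' u'`, one of them `0` for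
`i ≠ i0`; index the `i ≠ i0` by natural numbers via `Fin.val`). Hence `|S| ≤ X^(-2) (2CX+1)^d X^(3-κ/30) ≤ X^(1 + d - κ/40)`.
Suggestion: write the sum over `t ∈ bx d T` as a sum over integer vectors in `Fintype.piFinset fun _ => Ico (0:ℤ) T`, extended by `0` to
`Fintype.piFinset fun _ => Icc (-(C X)) (C X)`, and use `Finset.sum_bij`/`Finset.sum_nbij'` for the shift. -/
theorem U6_vN {k d : ℕ} (S : Sys k d) (hS : S.Half) (i0 : Fin k) (κ : ℝ) (hκ : 0 < κ) (C0 : ℕ) :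
    ∃ X0 : ℕ, ∀ X : ℕ, X0 ≤ X → ∀ F : ℤ → ℂ, Unif X κ F → ∀ b : Fin k → ℤ, ∀ L T : ℕ, L ≤ C0 * X → T ≤ C0 * X →
    (∀ n ∈ range L, ∀ t ∈ bx d T, S.val b n (iv t) i0 ∈ JJ X) →
    ∀ (G : Fin k → ℤ → ℂ) (W : (Fin d → ℕ) → ℂ), (∀ i, Bd (G i)) → (∀ t, ‖W t‖ ≤ 1) →
    ‖∑ t ∈ bx d T, W t * ∑ n ∈ range L, (∏ i ∈ univ.erase i0, G i (S.val b n (iv t) i)) * F (S.val b n (iv t) i0)‖ ≤
      (X : ℝ) ^ (1 + d - κ / 40) := by
  obtain ⟨ha, hH⟩ := hS
  obtain ⟨s, s', u, u', he1, he2, hj⟩ := hH i0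
  set e1 := S.lin i0 s u with he1d
  set e2 := S.lin i0 s' u' with he2d
  set C : ℕ := C0 + s.natAbs + s'.natAbs + ∑ j, (u j).natAbs + ∑ j, (u' j).natAbs + 1 with hC
  set E : ℕ := 2 * C + e1.natAbs + e2.natAbs + s.natAbs + s'.natAbs with hE
  obtain ⟨X5, hX5⟩ := U5_inner κ hκ E
  obtain ⟨X1, hX1⟩ := u6_large κ hκ ((3 * (C : ℝ)) ^ d)
  refine ⟨X5 + X1 + 1, fun X hX F hF b L T hL hT hJ G W hG hW => ?_⟩
  have hXpos : 0 < X := by omega
  have hXr : (0 : ℝ) < X := by exact_mod_cast hXpos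
  set Φ := u6_phi S b i0 X L T F G W with hΦ
  set A : Finset (ℤ × (Fin d → ℤ)) := (Ico (0 : ℤ) L) ×ˢ (Fintype.piFinset fun _ : Fin d => Ico (0 : ℤ) T) with hA
  set P : Finset (Fin d → ℤ) := Fintype.piFinset fun _ : Fin d => Icc (-((C : ℤ) * X)) ((C : ℤ) * X) with hP
  set N : Finset ℤ := Ico (-((C : ℤ) * X)) ((C : ℤ) * X) with hN
  have h1 : ∑ t ∈ bx d T, W t * ∑ n ∈ range L, (∏ i ∈ univ.erase i0, G i (S.val b n (iv t) i)) * F (S.val b n (iv t) i0) =
      ∑ p ∈ A, Φ p := by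
    rw [hA, ← u6_box]
    refine Finset.sum_congr rfl fun t ht => ?_
    rw [Finset.mul_sum]
    refine Finset.sum_congr rfl fun n hn => ?_
    have hn' := Finset.mem_range.1 hn
    have hc : (0 ≤ (((n : ℤ), iv t) : ℤ × (Fin d → ℤ)).1 ∧ (((n : ℤ), iv t) : ℤ × (Fin d → ℤ)).1 < (L : ℤ)) ∧
        ∀ j, 0 ≤ (((n : ℤ), iv t) : ℤ × (Fin d → ℤ)).2 j ∧ (((n : ℤ), iv t) : ℤ × (Fin d → ℤ)).2 j < (T : ℤ) := by
      refine ⟨⟨Int.natCast_nonneg n, Int.ofNat_lt.2 hn'⟩, fun j => ?_⟩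
      have ht' := ht
      rw [bx, Fintype.mem_piFinset] at ht'
      have := Finset.mem_range.1 (ht' j)
      simp only [iv]
      omega
    rw [hΦ, u6_phi, if_pos hc]
    have e1 : (fun j => ((((n : ℤ), iv t) : ℤ × (Fin d → ℤ)).2 j).toNat) = t := by
      funext j
      exact Int.toNat_natCast (t j)
    rw [e1, cutJ, if_pos (hJ n hn t ht)]
  have h3 : ∀ x ∈ range X, ∀ y ∈ range X,
      ∑ t ∈ P, ∑ n ∈ N, Φ (n + (s * x + s' * y), t + fun j => (x : ℤ) * u j + y * u' j) = ∑ p ∈ A, Φ p := by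
    intro x hx y hy
    have hx' := Finset.mem_range.1 hx
    have hy' := Finset.mem_range.1 hy
    have h4 := u6_shift A (N ×ˢ P) Φ (s * x + s' * y, fun j => (x : ℤ) * u j + y * u' j) (by
      intro p hp
      rw [hΦ, u6_phi, if_neg]
      rintro ⟨⟨h5, h6⟩, h7⟩
      apply hp
      rw [hA, Finset.mem_product, Finset.mem_Ico, Fintype.mem_piFinset]
      exact ⟨⟨h5, h6⟩, fun j => Finset.mem_Ico.2 (h7 j)⟩) (by
      intro p hp
      rw [hA, Finset.mem_product, Finset.mem_Ico, Fintype.mem_piFinset] at hp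
      obtain ⟨⟨h5, h6⟩, h7⟩ := hp
      have hb1 := abs_le.1 (u6_abs hx' s s.natAbs le_rfl)
      have hb2 := abs_le.1 (u6_abs hy' s' s'.natAbs le_rfl)
      have hL' : (L : ℤ) ≤ C0 * X := by exact_mod_cast hL
      have hT' : (T : ℤ) ≤ C0 * X := by exact_mod_cast hT
      have hXz : (0 : ℤ) < X := by exact_mod_cast hXpos
      have hCz : (C : ℤ) = C0 + (s.natAbs : ℤ) + (s'.natAbs : ℤ) + ((∑ j, (u j).natAbs : ℕ) : ℤ) +
          ((∑ j, (u' j).natAbs : ℕ) : ℤ) + 1 := by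
        rw [hC]
        push_cast
        ring
      rw [Finset.mem_product, hN, Finset.mem_Ico, hP, Fintype.mem_piFinset]
      refine ⟨?_, fun j => ?_⟩
      · simp only [Prod.fst_sub]
        rw [hCz]
        have e1 : (0 : ℤ) ≤ ((∑ j, (u j).natAbs : ℕ) : ℤ) * X := by positivity
        have e2 : (0 : ℤ) ≤ ((∑ j, (u' j).natAbs : ℕ) : ℤ) * X := by positivity
        have e3 : (0 : ℤ) ≤ (C0 : ℤ) * X := by positivity
        have e4 : (0 : ℤ) ≤ (s.natAbs : ℤ) * X := by positivity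
        have e5 : (0 : ℤ) ≤ (s'.natAbs : ℤ) * X := by positivity
        constructor
        · linarith
        · linarith
      · have h8 := Finset.mem_Ico.1 (h7 j)
        have hc1 : (u j).natAbs ≤ ∑ j, (u j).natAbs := Finset.single_le_sum (f := fun j => (u j).natAbs) (fun _ _ => Nat.zero_le _) (Finset.mem_univ j)
        have hc2 : (u' j).natAbs ≤ ∑ j, (u' j).natAbs := Finset.single_le_sum (f := fun j => (u' j).natAbs) (fun _ _ => Nat.zero_le _) (Finset.mem_univ j)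
        have hb3 := abs_le.1 (u6_abs hx' (u j) _ hc1)
        have hb4 := abs_le.1 (u6_abs hy' (u' j) _ hc2)
        rw [Finset.mem_Icc]
        simp only [Prod.snd_sub, Pi.sub_apply]
        rw [hCz]
        have e3 : (0 : ℤ) ≤ (C0 : ℤ) * X := by positivity
        have e4 : (0 : ℤ) ≤ (s.natAbs : ℤ) * X := by positivity
        have e5 : (0 : ℤ) ≤ (s'.natAbs : ℤ) * X := by positivity
        rw [mul_comm (x : ℤ) (u j), mul_comm (y : ℤ) (u' j)]
        constructor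
        · linarith
        · linarith)
    rw [Finset.sum_product_right] at h4
    rw [← h4]
    rfl
  have h5 : ((X : ℂ) ^ 2) * ∑ p ∈ A, Φ p =
      ∑ t ∈ P, ∑ x ∈ range X, ∑ y ∈ range X, ∑ n ∈ N, Φ (n + (s * x + s' * y), t + fun j => (x : ℤ) * u j + y * u' j) := by
    have e1 : ∑ x ∈ range X, ∑ y ∈ range X, ∑ t ∈ P, ∑ n ∈ N,
        Φ (n + (s * x + s' * y), t + fun j => (x : ℤ) * u j + y * u' j) = ((X : ℂ) ^ 2) * ∑ p ∈ A, Φ p := by
      rw [Finset.sum_congr rfl fun x hx => Finset.sum_congr rfl fun y hy => h3 x hx y hy]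
      simp only [Finset.sum_const, Finset.card_range, nsmul_eq_mul]
      ring
    rw [← e1]
    have e2 : ∀ x ∈ range X, ∑ y ∈ range X, ∑ t ∈ P, ∑ n ∈ N,
        Φ (n + (s * x + s' * y), t + fun j => (x : ℤ) * u j + y * u' j) = ∑ t ∈ P, ∑ y ∈ range X, ∑ n ∈ N,
        Φ (n + (s * x + s' * y), t + fun j => (x : ℤ) * u j + y * u' j) := fun x _ => Finset.sum_comm
    rw [Finset.sum_congr rfl e2, Finset.sum_comm]
  have hEz1 : |e1| ≤ (E : ℤ) := by
    rw [Int.abs_eq_natAbs]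
    exact_mod_cast (show e1.natAbs ≤ E by omega)
  have hEz2 : |e2| ≤ (E : ℤ) := by
    rw [Int.abs_eq_natAbs]
    exact_mod_cast (show e2.natAbs ≤ E by omega)
  have hEz3 : |s| ≤ (E : ℤ) := by
    rw [Int.abs_eq_natAbs]
    exact_mod_cast (show s.natAbs ≤ E by omega)
  have hEz4 : |s'| ≤ (E : ℤ) := by
    rw [Int.abs_eq_natAbs]
    exact_mod_cast (show s'.natAbs ≤ E by omega)
  have hEn : (C : ℤ) * X - (-((C : ℤ) * X)) ≤ (E : ℤ) * X := by
    have : (2 * C : ℕ) ≤ E := by omega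
    have h6 : ((2 * C : ℕ) : ℤ) ≤ (E : ℤ) := by exact_mod_cast this
    have h7 : ((2 * C : ℕ) : ℤ) * X ≤ (E : ℤ) * X := mul_le_mul_of_nonneg_right h6 (by positivity)
    push_cast at h7
    linarith
  have h6 : ∀ t ∈ P, ‖∑ x ∈ range X, ∑ y ∈ range X, ∑ n ∈ N,
      Φ (n + (s * x + s' * y), t + fun j => (x : ℤ) * u j + y * u' j)‖ ≤ (X : ℝ) ^ (3 - κ / 30) := by
    intro t _
    set G' : ℕ → ℤ → ℂ := fun i m => if h : i < k then G ⟨i, h⟩ m else 0 with hG'
    set W' : ℕ → ℕ → ℂ := fun x y => if ∀ j, 0 ≤ t j + ((x : ℤ) * u j + y * u' j) ∧ t j + ((x : ℤ) * u j + y * u' j) < (T : ℤ) then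
      W (fun j => (t j + ((x : ℤ) * u j + y * u' j)).toNat) else 0 with hW'
    have h7 := hX5 X (by omega) F hF (S.a i0) e1 e2 (∑ j, S.c i0 j * t j + b i0) s s' (ha i0) he1 he2 hEz1 hEz2 hEz3 hEz4
      (-((C : ℤ) * X)) ((C : ℤ) * X) 0 L hEn W' (by
        intro x y
        rw [hW']
        dsimp only
        split_ifs
        · exact hW _
        · rw [norm_zero]
          exact zero_le_one) ((univ.erase i0).map Fin.valEmbedding) G'
      (fun i n => if h : i < k then S.val b n t ⟨i, h⟩ else 0) (fun i => if h : i < k then S.lin ⟨i, h⟩ s u else 0)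
      (fun i => if h : i < k then S.lin ⟨i, h⟩ s' u' else 0) (by
        intro i m
        rw [hG']
        dsimp only
        split_ifs with h
        · exact hG ⟨i, h⟩ m
        · rw [norm_zero]
          exact zero_le_one) (by
        intro i hi
        rw [Finset.mem_map] at hi
        obtain ⟨i', hi', rfl⟩ := hi
        have h8 : (Fin.valEmbedding i' : ℕ) < k := i'.2
        simp only [dif_pos h8]
        exact hj i' (Finset.mem_erase.1 hi').1)
    refine le_trans (le_of_eq (congrArg _ ?_)) h7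
    refine Finset.sum_congr rfl fun x _ => Finset.sum_congr rfl fun y _ => Finset.sum_congr rfl fun n _ => ?_
    rw [Finset.prod_map, hΦ, u6_phi]
    have e3 : ∀ i : Fin k, S.val b (n + (s * x + s' * y)) (t + fun j => (x : ℤ) * u j + y * u' j) i =
        S.val b n t i + S.lin i s u * x + S.lin i s' u' * y := fun i => u6_lin S b n s s' x y t u u' i
    have e4 : ∏ i ∈ univ.erase i0, G' (Fin.valEmbedding i) ((if h : (Fin.valEmbedding i : ℕ) < k then S.val b n t ⟨Fin.valEmbedding i, h⟩ else 0) +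
        (if h : (Fin.valEmbedding i : ℕ) < k then S.lin ⟨Fin.valEmbedding i, h⟩ s u else 0) * (x : ℤ) +
        (if h : (Fin.valEmbedding i : ℕ) < k then S.lin ⟨Fin.valEmbedding i, h⟩ s' u' else 0) * (y : ℤ)) =
        ∏ i ∈ univ.erase i0, G i (S.val b n t i + S.lin i s u * x + S.lin i s' u' * y) := by
      refine Finset.prod_congr rfl fun i _ => ?_
      have h8 : (Fin.valEmbedding i : ℕ) < k := i.2
      rw [dif_pos h8, dif_pos h8, dif_pos h8, hG']
      dsimp only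
      rw [dif_pos h8]
      rfl
    rw [e4]
    have e5 : S.a i0 * n + e1 * x + e2 * y + (∑ j, S.c i0 j * t j + b i0) = S.val b n t i0 + S.lin i0 s u * x + S.lin i0 s' u' * y := by
      rw [he1d, he2d]
      unfold Sys.val
      unfold Sys.lin
      ring
    rw [e5]
    dsimp only
    simp only [e3]
    by_cases hc1 : 0 ≤ n + s * x + s' * y ∧ n + s * x + s' * y < (L : ℤ)
    · by_cases hc2 : ∀ j, 0 ≤ t j + ((x : ℤ) * u j + y * u' j) ∧ t j + ((x : ℤ) * u j + y * u' j) < (T : ℤ)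
      · have hc : (0 ≤ n + (s * x + s' * y) ∧ n + (s * x + s' * y) < (L : ℤ)) ∧
            ∀ j, 0 ≤ (t + fun j => (x : ℤ) * u j + y * u' j) j ∧ (t + fun j => (x : ℤ) * u j + y * u' j) j < (T : ℤ) := by
          refine ⟨⟨by linarith [hc1.1], by linarith [hc1.2]⟩, hc2⟩
        rw [if_pos hc, if_pos hc1, hW']
        dsimp only
        rw [if_pos hc2, one_mul, mul_assoc]
        rfl
      · have hc : ¬ ((0 ≤ n + (s * x + s' * y) ∧ n + (s * x + s' * y) < (L : ℤ)) ∧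
            ∀ j, 0 ≤ (t + fun j => (x : ℤ) * u j + y * u' j) j ∧ (t + fun j => (x : ℤ) * u j + y * u' j) j < (T : ℤ)) :=
          fun h => hc2 h.2
        rw [if_neg hc, hW']
        dsimp only
        rw [if_neg hc2, mul_zero, zero_mul, zero_mul]
    · have hc : ¬ ((0 ≤ n + (s * x + s' * y) ∧ n + (s * x + s' * y) < (L : ℤ)) ∧
          ∀ j, 0 ≤ (t + fun j => (x : ℤ) * u j + y * u' j) j ∧ (t + fun j => (x : ℤ) * u j + y * u' j) j < (T : ℤ)) :=
        fun h => hc1 ⟨by linarith [h.1.1], by linarith [h.1.2]⟩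
      rw [if_neg hc, if_neg hc1, zero_mul, zero_mul, zero_mul]
  rw [h1]
  have hcard : (P.card : ℝ) ≤ (3 * (C : ℝ)) ^ d * (X : ℝ) ^ d := by
    rw [hP, Fintype.card_piFinset]
    simp only [Int.card_Icc, Finset.prod_const, Finset.card_univ, Fintype.card_fin]
    rw [← mul_pow]
    push_cast
    refine pow_le_pow_left₀ (by positivity) ?_ d
    have h9 : ((C : ℤ) * X + 1 - -((C : ℤ) * X)).toNat = 2 * C * X + 1 := by
      have : (C : ℤ) * X + 1 - -((C : ℤ) * X) = ((2 * C * X + 1 : ℕ) : ℤ) := by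
        push_cast
        ring
      rw [this, Int.toNat_natCast]
    rw [h9]
    have h10 : 1 ≤ C * X := Nat.one_le_iff_ne_zero.2 (Nat.mul_ne_zero (by omega) (by omega))
    have h11 : 2 * C * X + 1 ≤ 3 * C * X := by nlinarith
    exact_mod_cast h11
  have h7 : (X : ℝ) ^ 2 * ‖∑ p ∈ A, Φ p‖ ≤ (3 * (C : ℝ)) ^ d * (X : ℝ) ^ d * (X : ℝ) ^ (3 - κ / 30) := by
    have e1 : (X : ℝ) ^ 2 * ‖∑ p ∈ A, Φ p‖ = ‖((X : ℂ) ^ 2) * ∑ p ∈ A, Φ p‖ := by
      rw [norm_mul, norm_pow, Complex.norm_natCast]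
    rw [e1, h5]
    refine le_trans (norm_sum_le _ _) (le_trans (Finset.sum_le_sum h6) ?_)
    rw [Finset.sum_const, nsmul_eq_mul]
    exact mul_le_mul_of_nonneg_right hcard (by positivity)
  have h8 : (3 * (C : ℝ)) ^ d * (X : ℝ) ^ d * (X : ℝ) ^ (3 - κ / 30) ≤ (X : ℝ) ^ 2 * (X : ℝ) ^ (1 + d - κ / 40) := by
    have e1 : (3 * (C : ℝ)) ^ d ≤ (X : ℝ) ^ (κ / 120) := hX1 X (by omega)
    have e2 : (X : ℝ) ^ (κ / 120) * (X : ℝ) ^ d * (X : ℝ) ^ (3 - κ / 30) = (X : ℝ) ^ 2 * (X : ℝ) ^ (1 + d - κ / 40) := by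
      rw [← Real.rpow_natCast (X : ℝ) d, ← Real.rpow_natCast (X : ℝ) 2, ← Real.rpow_add hXr, ← Real.rpow_add hXr, ← Real.rpow_add hXr]
      congr 1
      push_cast
      ring
    rw [← e2]
    exact mul_le_mul_of_nonneg_right (mul_le_mul_of_nonneg_right e1 (by positivity)) (by positivity)
  exact le_of_mul_le_mul_left (h7.trans h8) (by positivity)

end Pool.Agent.H9U
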