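import Pool.Agent.Lib.H9U.U6
import Pool.Agent.Lib.H9U.U0B
import Pool.Agent.Lib.H59P.S3

/-!
# H9U, chunk U7 (M): replacing the primes by their projections, for almost all `t`
-/

open Finset

namespace Pool.Agent.H9U

open Pool.Agent.H9S (Bd)
open Pool.Agent.Lib.H68T (lp Lk)
open Pool.Agent.Lib.H59P (bx)

theorem u7_abs {ι : Type*} (s : Finset ι) (R : ι → ℝ) : ∃ W : ι → ℂ, (∀ t, ‖W t‖ ≤ 1) ∧
    ∑ t ∈ s, |R t| = ‖∑ t ∈ s, W t * ((R t : ℝ) : ℂ)‖ := by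
  refine ⟨fun t => if 0 ≤ R t then 1 else -1, fun t => ?_, ?_⟩
  · dsimp only
    split_ifs <;> simp
  have h : ∑ t ∈ s, (if 0 ≤ R t then (1:ℂ) else -1) * ((R t : ℝ) : ℂ) =
      ((∑ t ∈ s, |R t| : ℝ) : ℂ) := by
    rw [Complex.ofReal_sum]
    refine Finset.sum_congr rfl fun t _ => ?_
    split_ifs with h
    · rw [abs_of_nonneg h, one_mul]
    · rw [abs_of_neg (not_le.1 h)]; push_cast; ring
  rw [h, Complex.norm_real, Real.norm_of_nonneg (Finset.sum_nonneg fun _ _ => abs_nonneg _)]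

theorem u7_one {k d : ℕ} (S : Sys k d) (j : Fin k) (Xs : Fin k → ℕ)
    (b : Fin k → ℤ) (L T : ℕ) (v : Fin k → ℤ → ℝ) (M : ℝ) (hM : 0 < M)
    (hv : ∀ i, ∀ m : ℤ, (Xs i : ℤ) ≤ m → m ≤ 4 * Xs i → |v i m| ≤ M)
    (F : ℤ → ℂ) (f : ℤ → ℝ) (hF : ∀ m, F m = ((f m : ℝ) : ℂ))
    (hval : ∀ i, ∀ n ∈ range L, ∀ t ∈ bx d T, S.val b n (iv t) i ∈ JJ (Xs i))
    (B : ℝ) (hvN : ∀ (G : Fin k → ℤ → ℂ) (W : (Fin d → ℕ) → ℂ), (∀ i, Bd (G i)) → (∀ t, ‖W t‖ ≤ 1) →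
      ‖∑ t ∈ bx d T, W t * ∑ n ∈ range L, (∏ i ∈ univ.erase j, G i (S.val b n (iv t) i)) *
        F (S.val b n (iv t) j)‖ ≤ B) :
    ∑ t ∈ bx d T, |∑ n ∈ range L, (∏ i ∈ univ.erase j, v i (S.val b n (iv t) i)) * f (S.val b n (iv t) j)| ≤
      M ^ (k - 1) * B := by
  obtain ⟨W, hW, hWe⟩ := u7_abs (bx d T)
    (fun t => ∑ n ∈ range L, (∏ i ∈ univ.erase j, v i (S.val b n (iv t) i)) * f (S.val b n (iv t) j))
  rw [hWe]
  have hG := hvN (fun i m => if (Xs i : ℤ) ≤ m ∧ m ≤ 4 * Xs i then ((v i m / M : ℝ) : ℂ) else 0) W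
    (fun i m => by
      dsimp only
      split_ifs with h
      · rw [Complex.norm_real, Real.norm_eq_abs, abs_div, abs_of_pos hM, div_le_one hM]
        exact hv i m h.1 h.2
      · simp) hW
  have hMk : (0:ℝ) < M ^ (k - 1) := pow_pos hM _
  have hkey : ∑ t ∈ bx d T, W t * ((∑ n ∈ range L, (∏ i ∈ univ.erase j, v i (S.val b n (iv t) i)) *
      f (S.val b n (iv t) j) : ℝ) : ℂ) = ((M ^ (k - 1) : ℝ) : ℂ) * ∑ t ∈ bx d T, W t * ∑ n ∈ range L,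
        (∏ i ∈ univ.erase j, (fun i (m : ℤ) => if (Xs i : ℤ) ≤ m ∧ m ≤ 4 * Xs i then
          ((v i m / M : ℝ) : ℂ) else 0) i (S.val b n (iv t) i)) * F (S.val b n (iv t) j) := by
    rw [Finset.mul_sum]
    refine Finset.sum_congr rfl fun t ht => ?_
    rw [mul_left_comm, Finset.mul_sum, Complex.ofReal_sum]
    refine congrArg (fun z => W t * z) (Finset.sum_congr rfl fun n hn => ?_)
    have h1 : ∏ i ∈ univ.erase j, (fun i (m : ℤ) => if (Xs i : ℤ) ≤ m ∧ m ≤ 4 * Xs i then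
          ((v i m / M : ℝ) : ℂ) else 0) i (S.val b n (iv t) i) =
        ((∏ i ∈ univ.erase j, (v i (S.val b n (iv t) i) / M) : ℝ) : ℂ) := by
      rw [Complex.ofReal_prod]
      refine Finset.prod_congr rfl fun i _ => ?_
      have hm := Finset.mem_Ico.1 (hval i n hn t ht)
      have h2 : (Xs i : ℤ) ≤ S.val b n (iv t) i ∧ S.val b n (iv t) i ≤ 4 * Xs i := by
        constructor <;> omega
      dsimp only
      rw [if_pos h2]
    rw [h1, Finset.prod_div_distrib, Finset.prod_const, Finset.card_erase_of_mem (Finset.mem_univ j),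
      Finset.card_univ, Fintype.card_fin, hF]
    have hne : ((M ^ (k - 1) : ℝ) : ℂ) ≠ 0 := by
      exact_mod_cast hMk.ne'
    rw [Complex.ofReal_mul, Complex.ofReal_div]
    field_simp
  rw [hkey, norm_mul, Complex.norm_real, Real.norm_of_nonneg hMk.le]
  exact mul_le_mul_of_nonneg_left hG hMk.le

theorem u7_large (A c : ℝ) (hc : 0 < c) : ∃ X0 : ℕ, ∀ X : ℕ, X0 ≤ X → A ≤ (X : ℝ) ^ c := by
  have h := ((tendsto_rpow_atTop hc).comp tendsto_natCast_atTop_atTop).eventually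
    (Filter.eventually_ge_atTop A)
  obtain ⟨X0, h0⟩ := Filter.eventually_atTop.1 h
  exact ⟨X0, fun X hX => h0 X hX⟩

/-- Proof. `K` the maximum of the constants of `U0_unif`, `U0_size` (`RegP.mono`; `Rgm` with a larger `K` is stronger). Let `κ0` be the exponent of
`U0_unif Cr θ`, `ε = κ0/(1000 (k+1))`. Telescoping (`S3` in `H59P/S3.lean`) with `a i = lp (val i)`, `b i = Lk Q' (X_i/Q²) (val i)`: a sum of `k` terms,
in the `j`-th the factor at `j` is `Er Q Q' (X_j) (val j)` (a real number) and the others are `lp` or `Lk Q'`, bounded by `(4 C0 X)^ε ≤ X^(2ε)` on the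
relevant values (`U0_size`, `U0_lp`; `JJ X_i ⊆ [X_i, 4 X_i]`). The absolute value of the sum over `n` is the sum times a sign `W(t) = ±1`. `U6_vN` with
`X := X_j` (`L ≤ C0 X ≤ C0 X_j`), `F = Er Q Q' X_j`, `G i = (lp or Lk Q' (X_i/Q²), restricted to [X_i, 4X_i])/X^(2ε)`: at most
`X^(2kε) (C0 X)^(1 + d - κ0/40)`. Sum over `j`: `κ = κ0/50`, `X` large. -/
theorem U7_tel (hI : Pool.Agent.H9S.INV) {k d : ℕ} (S : Sys k d) (hS : S.Half) : ∃ K : ℝ, 1 ≤ K ∧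
    ∀ Cr θ : ℝ, 1 ≤ Cr → 0 < θ → ∀ C0 : ℕ, ∃ κ : ℝ, 0 < κ ∧ ∃ X0 : ℕ, ∀ Q Q' X : ℕ, X0 ≤ X → ∀ Xs : Fin k → ℕ,
    (∀ i, X ≤ Xs i ∧ Xs i ≤ C0 * X) → (∀ i, Rgm K Cr θ Q Q' (Xs i)) → ∀ (b : Fin k → ℤ) (L T : ℕ), L ≤ C0 * X → T ≤ C0 * X →
    (∀ i, ∀ n ∈ range L, ∀ t ∈ bx d T, S.val b n (iv t) i ∈ JJ (Xs i)) →
    ∑ t ∈ bx d T, |∑ n ∈ range L, (∏ i, lp (S.val b n (iv t) i) - ∏ i, Lk Q' (Xs i / Q ^ 2) (S.val b n (iv t) i))| ≤
      (X : ℝ) ^ (1 + d - κ) := by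
  obtain ⟨K1, hK1, hU⟩ := U0_unif hI
  obtain ⟨K2, hK2, hS2⟩ := U0_size
  refine ⟨max K1 K2, le_trans hK1 (le_max_left _ _), ?_⟩
  intro Cr θ hCr hθ C0
  obtain ⟨κ0, hκ0, hκ01, X1, hX1⟩ := hU Cr θ hCr hθ
  have hk0 : (0:ℝ) < (k:ℝ) + 1 := by positivity
  obtain ⟨ε, hεd⟩ : ∃ ε : ℝ, ε = κ0 / (1000 * ((k:ℝ) + 1)) := ⟨_, rfl⟩
  have hε : 0 < ε := by rw [hεd]; positivity
  obtain ⟨X2, hX2⟩ := hS2 ε hε
  obtain ⟨X3, hX3⟩ := U0_lp ε hε
  choose X4 hX4 using fun j : Fin k => U6_vN S hS j κ0 hκ0 C0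
  obtain ⟨X5, hX5⟩ := u7_large ((k:ℝ) * (C0:ℝ) ^ ((2:ℝ) + d)) (κ0 / 250) (by positivity)
  refine ⟨κ0 / 50, by positivity, max (max (max X1 X2) (max X3 X5)) (max 1 (∑ j, X4 j)), ?_⟩
  intro Q Q' X hX Xs hXs hR b L T hL hT hval
  have hXX1 : X1 ≤ X := le_trans (le_trans (le_trans (le_max_left _ _) (le_max_left _ _)) (le_max_left _ _)) hX
  have hXX2 : X2 ≤ X := le_trans (le_trans (le_trans (le_max_right _ _) (le_max_left _ _)) (le_max_left _ _)) hX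
  have hXX3 : X3 ≤ X := le_trans (le_trans (le_trans (le_max_left _ _) (le_max_right _ _)) (le_max_left _ _)) hX
  have hXX5 : X5 ≤ X := le_trans (le_trans (le_trans (le_max_right _ _) (le_max_right _ _)) (le_max_left _ _)) hX
  have hXone : 1 ≤ X := le_trans (le_trans (le_max_left _ _) (le_max_right _ _)) hX
  have hXX4 : ∀ j, X4 j ≤ X := fun j =>
    le_trans (Finset.single_le_sum (f := X4) (fun _ _ => Nat.zero_le _) (Finset.mem_univ j))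
      (le_trans (le_trans (le_max_right _ _) (le_max_right _ _)) hX)
  have hX1r : (1:ℝ) ≤ (X:ℝ) := by exact_mod_cast hXone
  have hX0r : (0:ℝ) < (X:ℝ) := by linarith
  -- reduction to the terms
  have hred : ∑ t ∈ bx d T, |∑ n ∈ range L, (∏ i, lp (S.val b n (iv t) i) -
      ∏ i, Lk Q' (Xs i / Q ^ 2) (S.val b n (iv t) i))| ≤
      ∑ j : Fin k, ∑ t ∈ bx d T, |∑ n ∈ range L, (∏ i ∈ univ.erase j,
        (fun i (m : ℤ) => if i < j then Lk Q' (Xs i / Q ^ 2) m else lp m) i (S.val b n (iv t) i)) *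
        (fun m : ℤ => lp m - Lk Q' (Xs j / Q ^ 2) m) (S.val b n (iv t) j)| := by
    rw [Finset.sum_comm]
    refine Finset.sum_le_sum fun t _ => ?_
    refine le_trans (le_of_eq (congrArg abs ?_)) (Finset.abs_sum_le_sum_abs _ _)
    rw [Finset.sum_comm]
    refine Finset.sum_congr rfl fun n _ => ?_
    rw [Pool.Agent.Lib.H59P.S3]
    refine Finset.sum_congr rfl fun j _ => ?_
    rw [← Finset.prod_erase_mul univ _ (Finset.mem_univ j)]
    dsimp only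
    rw [if_neg (lt_irrefl j), if_pos rfl]
    refine congrArg (fun z => z * _) (Finset.prod_congr rfl fun i hi => ?_)
    rw [if_neg (Finset.ne_of_mem_erase hi)]
  refine le_trans hred ?_
  have hterm : ∀ j : Fin k, ∑ t ∈ bx d T, |∑ n ∈ range L, (∏ i ∈ univ.erase j,
        (fun i (m : ℤ) => if i < j then Lk Q' (Xs i / Q ^ 2) m else lp m) i (S.val b n (iv t) i)) *
        (fun m : ℤ => lp m - Lk Q' (Xs j / Q ^ 2) m) (S.val b n (iv t) j)| ≤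
        (C0:ℝ) ^ ((2:ℝ) + d) * (X:ℝ) ^ (1 + d - κ0 * (6/250)) := by
    intro j
    have hC0 : 1 ≤ C0 := by
      rcases Nat.eq_zero_or_pos C0 with h | h
      · have := hXs j
        rw [h] at this
        omega
      · exact h
    have hC0r : (1:ℝ) ≤ (C0:ℝ) := by exact_mod_cast hC0
    have hCX : (1:ℝ) ≤ (C0:ℝ) * X := by nlinarith
    have hXi : ∀ i, (1:ℝ) ≤ (Xs i : ℝ) ∧ (Xs i : ℝ) ≤ (C0:ℝ) * X := fun i =>
      ⟨by exact_mod_cast le_trans hXone (hXs i).1, by exact_mod_cast (hXs i).2⟩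
    have hQ' : 1 ≤ Q' := by
      have h1 := (hR j).low
      have h2 : (1:ℝ) ≤ (Xs j : ℝ) ^ θ := Real.one_le_rpow (hXi j).1 hθ.le
      exact_mod_cast le_trans h2 h1
    have hM : (0:ℝ) < ((C0:ℝ) * X) ^ ε := Real.rpow_pos_of_pos (by linarith) _
    have hRj : ∀ i, Pool.Agent.Lib.H18Q.RegP K2 Q (Xs i) := fun i =>
      (hR i).reg.mono (by linarith [le_max_left K1 K2]) (le_max_right _ _)
    have hRg : Rgm K1 Cr θ Q Q' (Xs j) :=
      ⟨(hR j).reg.mono (by linarith [le_max_left K1 K2]) (le_max_left _ _), (hR j).log, (hR j).low, (hR j).le⟩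
    have h := u7_one S j Xs b L T (fun i (m : ℤ) => if i < j then Lk Q' (Xs i / Q ^ 2) m else lp m)
      (((C0:ℝ) * X) ^ ε) hM (fun i m hm1 hm2 => by
        have hle : (Xs i : ℝ) ^ ε ≤ ((C0:ℝ) * X) ^ ε :=
          Real.rpow_le_rpow (by linarith [(hXi i).1]) (hXi i).2 hε.le
        split_ifs
        · exact le_trans (hX2 Q Q' (Xs i) (le_trans hXX2 (hXs i).1) (hRj i) hQ' (hR i).le m hm1 hm2) hle
        · exact le_trans (hX3 (Xs i) (le_trans hXX3 (hXs i).1) m hm2) hle)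
      (Er Q Q' (Xs j)) (fun m : ℤ => lp m - Lk Q' (Xs j / Q ^ 2) m)
      (fun m => by simp [Er, Pool.Agent.H9S.lc, Pool.Agent.H9S.Lc]) hval
      ((Xs j : ℝ) ^ (1 + d - κ0 / 40))
      (fun G W hG hW => hX4 j (Xs j) (le_trans (hXX4 j) (hXs j).1) (Er Q Q' (Xs j))
        (hX1 Q Q' (Xs j) (le_trans hXX1 (hXs j).1) hRg) b L T
        (le_trans hL (Nat.mul_le_mul_left _ (hXs j).1)) (le_trans hT (Nat.mul_le_mul_left _ (hXs j).1))
        (fun n hn t ht => hval j n hn t ht) G W hG hW)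
    refine le_trans h ?_
    have hd0 : (0:ℝ) ≤ (d:ℝ) := Nat.cast_nonneg d
    have he1 : (0:ℝ) ≤ 1 + d - κ0 / 40 := by linarith
    have h2 : (Xs j : ℝ) ^ (1 + d - κ0 / 40) ≤ ((C0:ℝ) * X) ^ (1 + d - κ0 / 40) :=
      Real.rpow_le_rpow (by linarith [(hXi j).1]) (hXi j).2 he1
    have h3 : (((C0:ℝ) * X) ^ ε) ^ (k - 1) ≤ ((C0:ℝ) * X) ^ (κ0 / 1000) := by
      rw [← Real.rpow_natCast, ← Real.rpow_mul (by linarith)]
      refine Real.rpow_le_rpow_of_exponent_le hCX ?_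
      have h4 : ((k - 1 : ℕ) : ℝ) ≤ (k:ℝ) + 1 := by
        have : ((k - 1 : ℕ) : ℝ) ≤ (k:ℝ) := by exact_mod_cast Nat.sub_le k 1
        linarith
      calc ε * ((k - 1 : ℕ) : ℝ) ≤ ε * ((k:ℝ) + 1) := mul_le_mul_of_nonneg_left h4 hε.le
        _ = κ0 / 1000 := by rw [hεd]; field_simp
    calc (((C0:ℝ) * X) ^ ε) ^ (k - 1) * (Xs j : ℝ) ^ (1 + d - κ0 / 40)
        ≤ ((C0:ℝ) * X) ^ (κ0 / 1000) * ((C0:ℝ) * X) ^ (1 + d - κ0 / 40) :=
          mul_le_mul h3 h2 (by positivity) (by positivity)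
      _ = ((C0:ℝ) * X) ^ (1 + d - κ0 * (6/250)) := by
          rw [← Real.rpow_add (by linarith)]
          ring_nf
      _ = (C0:ℝ) ^ (1 + d - κ0 * (6/250)) * (X:ℝ) ^ (1 + d - κ0 * (6/250)) :=
          Real.mul_rpow (by linarith) (by linarith)
      _ ≤ (C0:ℝ) ^ ((2:ℝ) + d) * (X:ℝ) ^ (1 + d - κ0 * (6/250)) := by
          refine mul_le_mul_of_nonneg_right ?_ (by positivity)
          exact Real.rpow_le_rpow_of_exponent_le hC0r (by linarith)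
  refine le_trans (Finset.sum_le_sum fun j _ => hterm j) ?_
  rw [Finset.sum_const, Finset.card_univ, Fintype.card_fin, nsmul_eq_mul]
  have h5 := hX5 X hXX5
  calc (k:ℝ) * ((C0:ℝ) ^ ((2:ℝ) + d) * (X:ℝ) ^ (1 + d - κ0 * (6/250)))
      = (k:ℝ) * (C0:ℝ) ^ ((2:ℝ) + d) * (X:ℝ) ^ (1 + d - κ0 * (6/250)) := by ring
    _ ≤ (X:ℝ) ^ (κ0 / 250) * (X:ℝ) ^ (1 + d - κ0 * (6/250)) :=
        mul_le_mul_of_nonneg_right h5 (by positivity)
    _ = (X:ℝ) ^ (1 + d - κ0 / 50) := by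
        rw [← Real.rpow_add hX0r]
        ring_nf

end Pool.Agent.H9U
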