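import Pool.Agent.Lib.H9U.M4
import Pool.Agent.Lib.H9U.ZDefs
import Pool.Agent.Lib.H59P.Z1B

/-!
# H9U, chunk Z1 (M): a tuple of characters, small and large modulus
-/

open Finset

namespace Pool.Agent.H9U

open Pool.Agent.Lib.H68T (PC p0)
open Pool.Agent.Lib.H18Q (gk KS)
open Pool.Agent.Lib.H59P (Ch SF bx TS Rp)

theorem z1_lcm_pos {k : ℕ} (d : Fin k → ℕ) (h : ∀ i, 0 < d i) : 0 < univ.lcm d :=
  Nat.pos_of_dvd_of_pos (Finset.lcm_dvd (fun i _ => Finset.dvd_prod_of_mem d (mem_univ i)))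
    (Finset.prod_pos (fun i _ => h i))

/-- Proof. `c, C` from `LBig`; take `min c 1` and `max C (2k) + 8^k + 2`, say. (1) As `Z1d` (`H59P/Z1D.lean`), with `ℓ¹` in place of `ℓ²`: split the tuples `κ`
into those with `lcm(R, κ) ≤ D` (`M4S` for each `t`: error `2 D² (2(1+log Q))^(2k)`, `D² ≤ Q²`, `H ≥ Q^10`, so at most `H (…) D2^(-1)`) and the others, for
which `D2 < lcm(r_i κ_i)` (`Z1b`: `D < px.1 · lcm(r_i κ_i)` and `px.1 D2 ≤ D1 ≤ D`), `LBig` with `D2`. (2) As `Z1e`: `Rp px p > D1` (or `p ∉ TS` for the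
other reason, excluded by `hp`), `Z1b`, `LBig` with everything. -/
theorem Z1S_both {k d : ℕ} (S : Sys k d) (hL : LBig S) : ∃ c C : ℝ, 0 < c ∧ 1 ≤ C ∧
    ∀ (Q D D1 D2 : ℕ) (px : Ch), 1 ≤ D2 → px.1 * D2 ≤ D1 → D1 ≤ D → D ≤ Q → px ∈ PC Q →
    ∀ (b : Fin k → ℤ) (a H T : ℕ), Q ^ (10 * (k + 1)) ≤ H → Q ^ (10 * (k + 1)) ≤ T →
    (∀ t ∈ bx d T, ∀ n ∈ Ico a (a + H), ∀ i, 0 ≤ S.val b n (iv t) i) →
    ∀ p : Fin k → Ch, (∀ i, p i ∈ PC Q) →
    (p ∈ TS k Q D1 px → ∑ t ∈ bx d T, ‖∑ n ∈ Ico a (a + H),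
        ∑ κ ∈ Fintype.piFinset fun i => KS Q (p i).1, ∏ i, gk (p i) (κ i) (S.val b n (iv t) i) -
      H * (MRS S b (iv t) p (Rp px p) *
        ((∑ e ∈ SF (D / Rp px p) (Rp px p), tdS S b (iv t) e : ℝ) : ℂ))‖ ≤
      C * (1 + Real.log Q) ^ C * ((T : ℝ) ^ d * H) * (D2 : ℝ) ^ (-c)) ∧
    (p ∉ TS k Q D1 px → ∑ t ∈ bx d T, ‖∑ n ∈ Ico a (a + H),
        ∑ κ ∈ Fintype.piFinset fun i => KS Q (p i).1, ∏ i, gk (p i) (κ i) (S.val b n (iv t) i)‖ ≤
      C * (1 + Real.log Q) ^ C * ((T : ℝ) ^ d * H) * (D2 : ℝ) ^ (-c)) := by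
  classical
  obtain ⟨c0, C0, hc0, hC0, hL'⟩ := hL
  refine ⟨min c0 1, C0 + 2 * k + 2 * 4 ^ k, lt_min hc0 one_pos, ?_, ?_⟩
  · have h1 : (0 : ℝ) ≤ 2 * k := by positivity
    have h2 : (0 : ℝ) ≤ 2 * 4 ^ k := by positivity
    linarith
  intro Q D D1 D2 px hD2 hpD hD1D hDQ hpx b a H T hH hT hv p hp
  have hpx1 : 1 ≤ px.1 := (Pool.Agent.Lib.H68T.mem_PC.mp hpx).1
  have hD2D1 : D2 ≤ D1 := le_trans (Nat.le_mul_of_pos_left D2 hpx1) hpD
  have hD2Q : D2 ≤ Q := hD2D1.trans (hD1D.trans hDQ)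
  have hQ1 : 1 ≤ Q := hD2.trans hD2Q
  have hQ1r : (1 : ℝ) ≤ Q := by exact_mod_cast hQ1
  have hlQ : 0 ≤ Real.log Q := Real.log_nonneg hQ1r
  have hD2r : (1 : ℝ) ≤ D2 := by exact_mod_cast hD2
  have hD20 : (0 : ℝ) < D2 := by linarith
  obtain ⟨y, hy⟩ : ∃ y : ℝ, y = 1 + Real.log Q := ⟨_, rfl⟩
  have hy1 : 1 ≤ y := by rw [hy]; linarith
  obtain ⟨q, hq⟩ : ∃ q : ℝ, q = (D2 : ℝ) ^ (-(min c0 1)) := ⟨_, rfl⟩
  have hq0 : 0 < q := by rw [hq]; exact Real.rpow_pos_of_pos hD20 _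
  have hTd : (0 : ℝ) ≤ (T : ℝ) ^ d * H := by positivity
  have h4k : (0 : ℝ) ≤ 2 * 4 ^ k := by positivity
  have h2k : (0 : ℝ) ≤ 2 * k := by positivity
  -- the exponent of the logarithm
  have hyC : y ^ C0 ≤ y ^ (C0 + 2 * k + 2 * 4 ^ k) := Real.rpow_le_rpow_of_exponent_le hy1 (by linarith)
  have hyk : y ^ (2 * k) ≤ y ^ (C0 + 2 * k + 2 * 4 ^ k) := by
    have h1 : y ^ (2 * k) = y ^ ((2 * k : ℕ) : ℝ) := (Real.rpow_natCast _ _).symm
    rw [h1]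
    refine Real.rpow_le_rpow_of_exponent_le hy1 ?_
    push_cast
    linarith
  have hq1 : (D2 : ℝ) ^ (-c0) ≤ q := by
    rw [hq]
    refine Real.rpow_le_rpow_of_exponent_le hD2r ?_
    have := min_le_left c0 1
    linarith
  -- the bound for the tuples of large modulus
  have hbig : ∀ TT : Finset (Fin k → ℕ), TT ⊆ Fintype.piFinset (fun i => KS Q (p i).1) →
      (∀ κ ∈ TT, D2 < univ.lcm (fun i => (p i).1 * κ i)) →
      ∑ t ∈ bx d T, ‖∑ n ∈ Ico a (a + H), ∑ κ ∈ TT, ∏ i, gk (p i) (κ i) (S.val b n (iv t) i)‖ ≤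
        C0 * y ^ (C0 + 2 * k + 2 * 4 ^ k) * ((T : ℝ) ^ d * H) * q := by
    intro TT hTT hlt
    have h1 := hL' Q D2 hD2 hD2Q p hp TT hTT hlt b a H T hH hT
    refine h1.trans ?_
    rw [← hy]
    have h2 : C0 * y ^ C0 ≤ C0 * y ^ (C0 + 2 * k + 2 * 4 ^ k) := mul_le_mul_of_nonneg_left hyC (by linarith)
    have h3 : C0 * y ^ C0 * ((T : ℝ) ^ d * H) ≤ C0 * y ^ (C0 + 2 * k + 2 * 4 ^ k) * ((T : ℝ) ^ d * H) :=
      mul_le_mul_of_nonneg_right h2 hTd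
    have h4 : 0 ≤ C0 * y ^ (C0 + 2 * k + 2 * 4 ^ k) * ((T : ℝ) ^ d * H) := by
      have : 0 ≤ y ^ (C0 + 2 * k + 2 * 4 ^ k) := Real.rpow_nonneg (by linarith) _
      have : 0 ≤ C0 := by linarith
      positivity
    exact mul_le_mul h3 hq1 (Real.rpow_nonneg hD20.le _) h4
  have hyp : 0 ≤ y ^ (C0 + 2 * k + 2 * 4 ^ k) := Real.rpow_nonneg (by linarith) _
  rw [← hy, ← hq]
  constructor
  · intro hpTS
    have hTS : (∀ i, p i ∈ PC Q) ∧ Rp px p ≤ D1 := by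
      unfold TS at hpTS
      rw [mem_filter, Fintype.mem_piFinset] at hpTS
      exact hpTS
    obtain ⟨_, hpR⟩ := hTS
    have hp1 : ∀ i, 1 ≤ (p i).1 := fun i => (Pool.Agent.Lib.H68T.mem_PC.mp (hp i)).1
    have hlcmpos : 0 < univ.lcm (fun i => (p i).1) := z1_lcm_pos _ hp1
    have hRpos : 0 < Rp px p := Nat.lcm_pos hpx1 hlcmpos
    have hdvd : ∀ i, (p i).1 ∣ Rp px p := fun i => by
      unfold Rp
      exact (Finset.dvd_lcm (f := fun i => (p i).1) (mem_univ i)).trans (Nat.dvd_lcm_right _ _)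
    obtain ⟨TT, hTT⟩ : ∃ TT : Finset (Fin k → ℕ), TT = (Fintype.piFinset fun i => KS Q (p i).1).filter
      (fun κ => ¬ (Rp px p).lcm (univ.lcm κ) ≤ D) := ⟨_, rfl⟩
    have hTsub : TT ⊆ Fintype.piFinset (fun i => KS Q (p i).1) := by
      rw [hTT]
      exact Finset.filter_subset _ _
    have hTlt : ∀ κ ∈ TT, D2 < univ.lcm (fun i => (p i).1 * κ i) := by
      intro κ hκ
      rw [hTT, mem_filter, Fintype.mem_piFinset] at hκ
      have h1 := (Pool.Agent.Lib.H59P.Z1b Q D px hpx p hp κ hκ.1).1 (not_le.mp hκ.2)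
      have h2 : px.1 * D2 < px.1 * univ.lcm (fun i => (p i).1 * κ i) :=
        lt_of_le_of_lt (hpD.trans hD1D) h1
      exact lt_of_mul_lt_mul_left h2 (Nat.zero_le _)
    have hB := hbig TT hTsub hTlt
    obtain ⟨W, hW⟩ : ∃ W : ℝ, W = 2 * (D : ℝ) ^ 2 * (2 * (1 + Real.log Q)) ^ (2 * k) := ⟨_, rfl⟩
    have hA : ∀ t ∈ bx d T, ‖∑ n ∈ Ico a (a + H),
        ∑ κ ∈ (Fintype.piFinset fun i => KS Q (p i).1).filter
          (fun κ => (Rp px p).lcm (univ.lcm κ) ≤ D),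
          ∏ i, gk (p i) (κ i) (S.val b n (iv t) i) -
        H * (MRS S b (iv t) p (Rp px p) *
          ((∑ e ∈ SF (D / Rp px p) (Rp px p), tdS S b (iv t) e : ℝ) : ℂ))‖ ≤ W := by
      intro t ht
      rw [hW]
      exact M4S S b (iv t) Q D (Rp px p) hDQ hRpos p hp hdvd a H (hv t ht)
    have hsplit : ∀ t : Fin d → ℕ, ∑ n ∈ Ico a (a + H),
          ∑ κ ∈ Fintype.piFinset fun i => KS Q (p i).1, ∏ i, gk (p i) (κ i) (S.val b n (iv t) i) -
        H * (MRS S b (iv t) p (Rp px p) *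
          ((∑ e ∈ SF (D / Rp px p) (Rp px p), tdS S b (iv t) e : ℝ) : ℂ)) =
        (∑ n ∈ Ico a (a + H),
        ∑ κ ∈ (Fintype.piFinset fun i => KS Q (p i).1).filter
          (fun κ => (Rp px p).lcm (univ.lcm κ) ≤ D),
          ∏ i, gk (p i) (κ i) (S.val b n (iv t) i) -
        H * (MRS S b (iv t) p (Rp px p) *
          ((∑ e ∈ SF (D / Rp px p) (Rp px p), tdS S b (iv t) e : ℝ) : ℂ))) +
        ∑ n ∈ Ico a (a + H), ∑ κ ∈ TT, ∏ i, gk (p i) (κ i) (S.val b n (iv t) i) := by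
      intro t
      have h1 : ∑ n ∈ Ico a (a + H),
          ∑ κ ∈ Fintype.piFinset fun i => KS Q (p i).1, ∏ i, gk (p i) (κ i) (S.val b n (iv t) i) =
          ∑ n ∈ Ico a (a + H),
          ∑ κ ∈ (Fintype.piFinset fun i => KS Q (p i).1).filter
            (fun κ => (Rp px p).lcm (univ.lcm κ) ≤ D),
            ∏ i, gk (p i) (κ i) (S.val b n (iv t) i) +
          ∑ n ∈ Ico a (a + H), ∑ κ ∈ TT, ∏ i, gk (p i) (κ i) (S.val b n (iv t) i) := by
        rw [← Finset.sum_add_distrib]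
        refine Finset.sum_congr rfl (fun n _ => ?_)
        rw [hTT]
        exact (Finset.sum_filter_add_sum_filter_not _ _ _).symm
      rw [h1]
      ring
    have hcard : ((bx d T).card : ℝ) = (T : ℝ) ^ d := by
      unfold bx
      rw [Fintype.card_piFinset]
      simp
    -- the bound of `W`
    have hWle : W ≤ 2 * 4 ^ k * y ^ (C0 + 2 * k + 2 * 4 ^ k) * (H * q) := by
      have hDr : (D : ℝ) ≤ Q := by exact_mod_cast hDQ
      have e1 : (D : ℝ) ^ 2 ≤ (Q : ℝ) ^ 2 := pow_le_pow_left₀ (by positivity) hDr 2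
      have e2 : (Q : ℝ) ^ 2 ≤ H * q := by
        have f1 : (Q : ℝ) ^ 3 ≤ H := by
          have f2 : Q ^ 3 ≤ H := le_trans (Nat.pow_le_pow_right hQ1 (by omega)) hH
          exact_mod_cast f2
        have f3 : (Q : ℝ)⁻¹ ≤ q := by
          have f4 : (D2 : ℝ) ^ (-1 : ℝ) ≤ q := by
            rw [hq]
            refine Real.rpow_le_rpow_of_exponent_le hD2r ?_
            have := min_le_right c0 1
            linarith
          rw [Real.rpow_neg_one] at f4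
          refine le_trans ?_ f4
          have f5 : (D2 : ℝ) ≤ Q := by exact_mod_cast hD2Q
          exact inv_anti₀ hD20 f5
        calc (Q : ℝ) ^ 2 = (Q : ℝ) ^ 3 * (Q : ℝ)⁻¹ := by
              field_simp
          _ ≤ H * q := mul_le_mul f1 f3 (by positivity) (by positivity)
      have e3 : (2 * (1 + Real.log Q)) ^ (2 * k) = 4 ^ k * y ^ (2 * k) := by
        rw [← hy, mul_pow, pow_mul]
        norm_num
      rw [hW, e3]
      have e4 : y ^ (2 * k) * (H * q) ≤ y ^ (C0 + 2 * k + 2 * 4 ^ k) * (H * q) :=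
        mul_le_mul_of_nonneg_right hyk (by positivity)
      have e5 : (D : ℝ) ^ 2 * y ^ (2 * k) ≤ (H * q) * y ^ (2 * k) :=
        mul_le_mul_of_nonneg_right (e1.trans e2) (by positivity)
      have e6 : (0 : ℝ) ≤ 2 * 4 ^ k := by positivity
      calc 2 * (D : ℝ) ^ 2 * (4 ^ k * y ^ (2 * k)) = 2 * 4 ^ k * ((D : ℝ) ^ 2 * y ^ (2 * k)) := by ring
        _ ≤ 2 * 4 ^ k * (y ^ (C0 + 2 * k + 2 * 4 ^ k) * (H * q)) := by
            refine mul_le_mul_of_nonneg_left ?_ e6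
            linarith
        _ = _ := by ring
    calc ∑ t ∈ bx d T, ‖∑ n ∈ Ico a (a + H),
          ∑ κ ∈ Fintype.piFinset fun i => KS Q (p i).1, ∏ i, gk (p i) (κ i) (S.val b n (iv t) i) -
        H * (MRS S b (iv t) p (Rp px p) *
          ((∑ e ∈ SF (D / Rp px p) (Rp px p), tdS S b (iv t) e : ℝ) : ℂ))‖
        ≤ ∑ t ∈ bx d T, (W + ‖∑ n ∈ Ico a (a + H), ∑ κ ∈ TT, ∏ i, gk (p i) (κ i) (S.val b n (iv t) i)‖) := by
          refine Finset.sum_le_sum (fun t ht => ?_)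
          rw [hsplit t]
          refine (norm_add_le _ _).trans ?_
          have h1 := hA t ht
          linarith
      _ = (T : ℝ) ^ d * W + ∑ t ∈ bx d T, ‖∑ n ∈ Ico a (a + H), ∑ κ ∈ TT,
            ∏ i, gk (p i) (κ i) (S.val b n (iv t) i)‖ := by
          rw [Finset.sum_add_distrib, Finset.sum_const, nsmul_eq_mul, hcard]
      _ ≤ (T : ℝ) ^ d * (2 * 4 ^ k * y ^ (C0 + 2 * k + 2 * 4 ^ k) * (H * q)) +
            C0 * y ^ (C0 + 2 * k + 2 * 4 ^ k) * ((T : ℝ) ^ d * H) * q := by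
          have h1 : (T : ℝ) ^ d * W ≤ (T : ℝ) ^ d * (2 * 4 ^ k * y ^ (C0 + 2 * k + 2 * 4 ^ k) * (H * q)) :=
            mul_le_mul_of_nonneg_left hWle (by positivity)
          linarith
      _ = (C0 + 2 * 4 ^ k) * (y ^ (C0 + 2 * k + 2 * 4 ^ k) * ((T : ℝ) ^ d * H) * q) := by ring
      _ ≤ (C0 + 2 * k + 2 * 4 ^ k) * (y ^ (C0 + 2 * k + 2 * 4 ^ k) * ((T : ℝ) ^ d * H) * q) := by
          refine mul_le_mul_of_nonneg_right (by linarith) ?_
          exact mul_nonneg (mul_nonneg hyp hTd) hq0.le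
      _ = _ := by ring
  · intro hpTS
    have hRp : D1 < Rp px p := by
      by_contra hcon
      refine hpTS ?_
      unfold TS
      rw [mem_filter]
      exact ⟨Fintype.mem_piFinset.mpr hp, not_lt.mp hcon⟩
    have h1 := hbig (Fintype.piFinset fun i => KS Q (p i).1) subset_rfl (by
      intro κ hκ
      have h5 := (Pool.Agent.Lib.H59P.Z1b Q 0 px hpx p hp κ (fun i => Fintype.mem_piFinset.mp hκ i)).2
      by_contra hcon
      have h6 : px.1 * univ.lcm (fun i => (p i).1 * κ i) ≤ px.1 * D2 := Nat.mul_le_mul_left _ (not_lt.mp hcon)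
      omega)
    refine h1.trans ?_
    have h2 : C0 * y ^ (C0 + 2 * k + 2 * 4 ^ k) ≤ (C0 + 2 * k + 2 * 4 ^ k) * y ^ (C0 + 2 * k + 2 * 4 ^ k) :=
      mul_le_mul_of_nonneg_right (by linarith) hyp
    exact mul_le_mul_of_nonneg_right (mul_le_mul_of_nonneg_right h2 hTd) hq0.le

end Pool.Agent.H9U
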